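import Pool.Agent.Lib_helper19.NAS.Defs3

/-!
# Functoriality (MP_ef4bac_al, project NAS, block Tool)
-/

set_option autoImplicit false

namespace Pool.Agent.NAS

open Module Filter Topology

universe u

variable {K A : Type u} [Field K] [Ring A] [Algebra K A] {𝒜 : ℕ → Submodule K A}
  [GradedAlgebra 𝒜]

theorem Emap_id (M : GM 𝒜) (h : (LinearMap.id : M.X →ₗ[A] M.X) ∈ Hm M M 0) (i : ℕ) (a : ℤ) :
    Emap LinearMap.id h i a = LinearMap.id := by
  refine LinearMap.ext fun x => ?_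
  obtain ⟨x, rfl⟩ := Submodule.Quotient.mk_surjective _ x
  rfl

theorem Emap_comp {L M N : GM 𝒜} (f : L.X →ₗ[A] M.X) (hf : f ∈ Hm L M 0) (g : M.X →ₗ[A] N.X)
    (hg : g ∈ Hm M N 0) (i : ℕ) (a : ℤ) :
    Emap (g ∘ₗ f) (Hm_comp0 hf hg) i a = (Emap f hf i a) ∘ₗ (Emap g hg i a) := by
  refine LinearMap.ext fun x => ?_
  obtain ⟨x, rfl⟩ := Submodule.Quotient.mk_surjective _ x
  rfl

omit [GradedAlgebra 𝒜] in
theorem Tool_symm {M N : GM 𝒜} (e : M.X ≃ₗ[A] N.X) (he : (e : M.X →ₗ[A] N.X) ∈ Hm M N 0) :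
    (e.symm : N.X →ₗ[A] M.X) ∈ Hm N M 0 := by
  intro n x
  have h1 := he n (e.symm x)
  rw [add_zero] at h1 ⊢
  apply e.injective
  have h2 : e (e.symm (N.pr n x)) = N.pr n x := e.apply_symm_apply _
  have h3 : e (M.pr n (e.symm x)) = N.pr n (e (e.symm x)) := h1
  show e (e.symm (N.pr n x)) = e (M.pr n (e.symm x))
  rw [h2, h3, e.apply_symm_apply]

theorem E_congr {M N : GM 𝒜} (e : M.X ≃ₗ[A] N.X) (he : (e : M.X →ₗ[A] N.X) ∈ Hm M N 0) (i : ℕ)
    (a : ℤ) : Nonempty (E i M a ≃ₗ[K] E i N a) := by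
  have hs := Tool_symm e he
  refine ⟨LinearEquiv.ofLinearMap (Emap (e.symm : N.X →ₗ[A] M.X) hs i a)
    (Emap (e : M.X →ₗ[A] N.X) he i a) ?_ ?_⟩
  · rw [← Emap_comp]
    refine LinearMap.ext fun x => ?_
    obtain ⟨x, rfl⟩ := Submodule.Quotient.mk_surjective _ x
    refine congrArg (Submodule.Quotient.mk (p := Bd i N a)) (Subtype.ext (LinearMap.ext fun y => ?_))
    show x.1 (e (e.symm y)) = x.1 y
    rw [e.apply_symm_apply]
  · rw [← Emap_comp]
    refine LinearMap.ext fun x => ?_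
    obtain ⟨x, rfl⟩ := Submodule.Quotient.mk_surjective _ x
    refine congrArg (Submodule.Quotient.mk (p := Bd i M a)) (Subtype.ext (LinearMap.ext fun y => ?_))
    show x.1 (e.symm (e y)) = x.1 y
    rw [e.symm_apply_apply]

omit [GradedAlgebra 𝒜] in
theorem dg_congr {M N : GM 𝒜} (e : M.X ≃ₗ[A] N.X) (he : (e : M.X →ₗ[A] N.X) ∈ Hm M N 0)
    (a : ℤ) : Nonempty (M.dg a ≃ₗ[K] N.dg a) := by
  have hs := Tool_symm e he
  have h1 : ∀ x ∈ M.dg a, e x ∈ N.dg a := fun x hx => by
    have := Hm_dg he hx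
    rwa [add_zero] at this
  have h2 : ∀ x ∈ N.dg a, e.symm x ∈ M.dg a := fun x hx => by
    have := Hm_dg hs hx
    rwa [add_zero] at this
  exact ⟨LinearEquiv.ofLinear
    (((e : M.X →ₗ[A] N.X).restrictScalars K).restrict h1)
    (((e.symm : N.X →ₗ[A] M.X).restrictScalars K).restrict h2)
    (LinearMap.ext fun x => Subtype.ext (e.apply_symm_apply _))
    (LinearMap.ext fun x => Subtype.ext (e.symm_apply_apply _))⟩

omit [GradedAlgebra 𝒜] in
theorem Hom_sup {M : GM 𝒜} {N N' : Submodule A M.X} (h : M.Hom N) (h' : M.Hom N') :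
    M.Hom (N ⊔ N') := by
  intro n x hx
  obtain ⟨y, hy, z, hz, rfl⟩ := Submodule.mem_sup.1 hx
  rw [map_add]
  exact Submodule.add_mem_sup (h n y hy) (h' n z hz)

omit [GradedAlgebra 𝒜] in
theorem Hom_inf {M : GM 𝒜} {N N' : Submodule A M.X} (h : M.Hom N) (h' : M.Hom N') :
    M.Hom (N ⊓ N') := fun n x hx => ⟨h n x hx.1, h' n x hx.2⟩

theorem Tool_pr_smul {M : GM 𝒜} (a : A) {n : ℤ} {x : M.X} (hx : x ∈ M.dg n) (m : ℤ) :
    M.pr m (a • x) = prA 𝒜 (m - n) a • x := by
  refine GM.induct (M := AsA 𝒜) (P := fun a => M.pr m (a • x) = prA 𝒜 (m - n) a • x) a ?_ ?_ ?_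
  · show M.pr m ((0 : A) • x) = prA 𝒜 (m - n) (0 : A) • x
    rw [zero_smul, map_zero, map_zero, zero_smul]
  · intro a b ha hb
    show M.pr m (((a : A) + b) • x) = prA 𝒜 (m - n) (a + b) • x
    rw [add_smul, map_add, ha, hb, map_add, add_smul]
  · intro k a ha
    have ha' : a ∈ hA 𝒜 k := prA_dg.1 ha
    have h1 : a • x ∈ M.dg (k + n) := GM.smul_mem_dg ha' hx
    by_cases hk : m = k + n
    · subst hk
      rw [GM.pr_dg h1, add_sub_cancel_right, prA_of_mem ha']
    · rw [GM.pr_dg_ne h1 hk]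
      have h2 : prA 𝒜 (m - n) a = 0 :=
        GM.pr_dg_ne (M := AsA 𝒜) (prA_dg.2 ha') (fun hh => hk (by omega))
      rw [h2, zero_smul]

theorem Hom_span {M : GM 𝒜} (s : Set M.X) (hs : ∀ x ∈ s, ∃ n, x ∈ M.dg n) :
    M.Hom (Submodule.span A s) := by
  intro m x hx
  induction hx using Submodule.span_induction with
  | mem x hx =>
    obtain ⟨n, hn⟩ := hs x hx
    by_cases h : m = n
    · subst h
      rw [GM.pr_dg hn]
      exact Submodule.subset_span hx
    · rw [GM.pr_dg_ne hn h]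
      exact zero_mem _
  | zero => rw [map_zero]; exact zero_mem _
  | add x y _ _ hx hy => rw [map_add]; exact add_mem hx hy
  | smul a x hx ih =>
    -- `x` is a combination of homogeneous elements
    clear ih
    induction hx using Submodule.span_induction generalizing a with
    | mem x hx =>
      obtain ⟨n, hn⟩ := hs x hx
      rw [Tool_pr_smul a hn]
      exact Submodule.smul_mem _ _ (Submodule.subset_span hx)
    | zero => rw [smul_zero, map_zero]; exact zero_mem _
    | add x y _ _ hx hy => rw [smul_add, map_add]; exact add_mem (hx a) (hy a)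
    | smul b x _ ih => rw [← mul_smul]; exact ih (a * b)

omit [GradedAlgebra 𝒜] in
theorem gens (M : GM 𝒜) (hM : Module.Finite A M.X) : ∃ (r : ℕ) (w : Fin r → ℤ)
    (g : Fin r → M.X), (∀ i, g i ∈ M.dg (w i)) ∧ Submodule.span A (Set.range g) = ⊤ := by
  classical
  obtain ⟨S, hS⟩ := hM.fg_top
  choose t ht using M.pr_sum
  let S' : Finset (ℤ × M.X) := S.biUnion fun x => (t x).image fun n => (n, M.pr n x)
  refine ⟨S'.card, fun i => (S'.equivFin.symm i : ℤ × M.X).1,
    fun i => M.pr (S'.equivFin.symm i : ℤ × M.X).1 (S'.equivFin.symm i : ℤ × M.X).2,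
    fun i => M.pr_mem _ _, ?_⟩
  rw [eq_top_iff, ← hS, Submodule.span_le]
  intro x hx
  rw [SetLike.mem_coe, ← ht x]
  refine Submodule.sum_mem _ fun n hn => Submodule.subset_span ?_
  have h1 : (n, M.pr n x) ∈ S' :=
    Finset.mem_biUnion.2 ⟨x, hx, Finset.mem_image.2 ⟨n, hn, rfl⟩⟩
  refine ⟨S'.equivFin ⟨_, h1⟩, ?_⟩
  simp only [Equiv.symm_apply_apply]
  exact M.pr_self n x

omit [GradedAlgebra 𝒜] in
/-- The short exact sequence of a homogeneous submodule. -/
theorem SES_quo (M : GM 𝒜) (N : Submodule A M.X) (h : M.Hom N) :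
    Nonempty (SES (M.sub N h) M (M.quo N h)) :=
  ⟨{ f := N.subtype
     g := N.mkQ
     hf := fun n x => by rw [add_zero]; rfl
     hg := fun n x => by rw [add_zero]; rfl
     inj := N.injective_subtype
     surj := N.mkQ_surjective
     ex := by rw [Submodule.range_subtype, Submodule.ker_mkQ] }⟩

omit [GradedAlgebra 𝒜] in
/-- The short exact sequence of a surjective map. -/
theorem SES_ker {M N : GM 𝒜} (g : M.X →ₗ[A] N.X) (hg : g ∈ Hm M N 0)
    (hs : Function.Surjective g) :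
    Nonempty (SES (M.sub (LinearMap.ker g) (ker_hom hg)) M N) :=
  ⟨{ f := (LinearMap.ker g).subtype
     g := g
     hf := fun n x => by rw [add_zero]; rfl
     hg := hg
     inj := (LinearMap.ker g).injective_subtype
     surj := hs
     ex := by rw [Submodule.range_subtype] }⟩

/-- The map of a direct sum given by homogeneous elements. -/
theorem Tool_comb {M : GM 𝒜} {r : ℕ} (w : Fin r → ℤ) (g : Fin r → M.X)
    (hg : ∀ i, g i ∈ M.dg (w i)) :
    (Fintype.linearCombination A g : (Fre 𝒜 w).X →ₗ[A] M.X) ∈ Hm (Fre 𝒜 w) M 0 := by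
  intro n x
  rw [add_zero, Fintype.linearCombination_apply, Fintype.linearCombination_apply, map_sum]
  refine Finset.sum_congr rfl fun i _ => ?_
  exact (Tool_pr_smul (x i) (hg i) n).symm

/-- A finitely generated graded module is a quotient of a graded free module of finite rank. -/
theorem cover (M : GM 𝒜) (hM : Module.Finite A M.X) : ∃ (r : ℕ) (w : Fin r → ℤ)
    (f : (Fre 𝒜 w).X →ₗ[A] M.X), f ∈ Hm (Fre 𝒜 w) M 0 ∧ Function.Surjective f := by
  obtain ⟨r, w, g, hg, hs⟩ := gens M hM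
  refine ⟨r, w, Fintype.linearCombination A g, Tool_comb w g hg, ?_⟩
  rw [← LinearMap.range_eq_top, ← hs]
  exact Fintype.range_linearCombination A g

/-- The same for modules killed by `Q`. -/
theorem coverQ (Q : Ideal A) (h : HI 𝒜 Q) (M : GM 𝒜) (hM : Module.Finite A M.X)
    (hk : Kil Q M) : ∃ (r : ℕ) (w : Fin r → ℤ)
    (f : (GM.pi w (CQ Q h)).X →ₗ[A] M.X), f ∈ Hm (GM.pi w (CQ Q h)) M 0 ∧
      Function.Surjective f := by
  obtain ⟨r, w, g, hg, hs⟩ := gens M hM
  let φ : Fin r → ((A ⧸ Q) →ₗ[A] M.X) := fun i =>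
    Q.liftQ (LinearMap.toSpanSingleton A M.X (g i)) (fun q hq => hk q hq (g i))
  let f : (Fin r → A ⧸ Q) →ₗ[A] M.X := ∑ i, φ i ∘ₗ LinearMap.proj i
  have hf : ∀ x : Fin r → A, f (fun i => Submodule.Quotient.mk (x i)) = ∑ i, x i • g i := by
    intro x
    simp only [f, LinearMap.sum_apply, LinearMap.comp_apply, LinearMap.proj_apply]
    rfl
  refine ⟨r, w, f, ?_, ?_⟩
  · intro n x
    choose y hy using fun i => Submodule.Quotient.mk_surjective Q (x i)
    have hx : x = fun i => Submodule.Quotient.mk (y i) := funext fun i => (hy i).symm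
    subst hx
    have h1 : (GM.pi w (CQ Q h)).pr n (fun i => Submodule.Quotient.mk (y i))
        = fun i => Submodule.Quotient.mk (prA 𝒜 (n - w i) (y i)) := rfl
    rw [h1, add_zero]
    refine (hf _).trans ?_
    rw [hf y, map_sum]
    exact Finset.sum_congr rfl fun i _ => (Tool_pr_smul (y i) (hg i) n).symm
  · intro m
    have h1 : m ∈ Submodule.span A (Set.range g) := by rw [hs]; exact Submodule.mem_top
    rw [← Fintype.range_linearCombination A g] at h1
    obtain ⟨x, rfl⟩ := h1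
    exact ⟨_, (hf x).trans (Fintype.linearCombination_apply A g x).symm⟩

end Pool.Agent.NAS
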