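import Pool.Agent.Lib_helper19.NAS.Defs3
import Pool.Agent.Lib_helper19.NAS.B.Tool

/-!
# Existence of resolutions (MP_ef4bac_al, project NAS, block R)
-/

set_option autoImplicit false

namespace Pool.Agent.NAS

open Module Filter Topology

universe u

variable {K A : Type u} [Field K] [Ring A] [Algebra K A] {𝒜 : ℕ → Submodule K A}
  [GradedAlgebra 𝒜]

section cons

/-- The ranks of a complex extended by one module. -/
def R_n (r : ℕ) (n : ℕ → ℕ) : ℕ → ℕ
  | 0 => r
  | i + 1 => n i

/-- The weights of a complex extended by one module. -/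
def R_w {r : ℕ} (w : Fin r → ℤ) {n : ℕ → ℕ} (w' : ∀ i, Fin (n i) → ℤ) :
    ∀ i, Fin (R_n r n i) → ℤ
  | 0 => w
  | i + 1 => w' i

/-- The first column of matrices of a complex extended by one module. -/
def R_c {r : ℕ} {n : ℕ → ℕ} (c : Fin (n 0) → Fin r → A) : ∀ i, Fin (n i) → Fin r → A
  | 0 => c
  | _ + 1 => fun _ _ => 0

/-- The matrices of a complex extended by one module. -/
def R_D {r : ℕ} {n : ℕ → ℕ} (c : Fin (n 0) → Fin r → A)
    (D : ∀ i j, Fin (n i) → Fin (n j) → A) :
    ∀ i j, Fin (R_n r n i) → Fin (R_n r n j) → A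
  | 0, _ => fun _ _ => 0
  | i + 1, 0 => R_c c i
  | i + 1, j + 1 => D i j

/-- The extension of a complex by one module. -/
def R_cons {r : ℕ} (w : Fin r → ℤ) (P : MC 𝒜) (c : Fin (P.n 0) → Fin r → A)
    (hc : ∀ s t, c s t ∈ hA 𝒜 (P.w 0 s - w t))
    (hcc : ∀ s t, ∑ j, P.D 1 0 s j * c j t = 0) : MC 𝒜 where
  n := R_n r P.n
  w := R_w w P.w
  D := R_D c P.D
  deg i j s t := by
    match i, j, s, t with
    | 0, _, _, _ => exact zero_mem _
    | 1, 0, s, t => exact hc s t
    | _ + 2, 0, _, _ => exact zero_mem _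
    | i + 1, j + 1, s, t => exact P.deg i j s t
  Dne i j hij s t := by
    match i, j, s, t, hij with
    | 0, _, _, _, _ => rfl
    | 1, 0, s, t, h => exact absurd rfl h
    | _ + 2, 0, _, _, _ => rfl
    | i + 1, j + 1, s, t, h => exact P.Dne i j (fun hh => h (by rw [hh])) s t
  DD i s t := by
    match i, s, t with
    | 0, s, t => exact hcc s t
    | i + 1, s, t => exact P.DD i s t

/-- A complex with one module. -/
def R_one (𝒜 : ℕ → Submodule K A) {r : ℕ} (w : Fin r → ℤ) : MC 𝒜 where
  n := R_n r (fun _ => 0)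
  w := R_w w (fun _ _ => 0)
  D _ _ _ _ := 0
  deg _ _ _ _ := zero_mem _
  Dne _ _ _ _ _ := rfl
  DD _ _ _ := Finset.sum_eq_zero fun _ _ => by rw [zero_mul]

omit [GradedAlgebra 𝒜] in
theorem R_one_bd {r : ℕ} (w : Fin r → ℤ) : LinearMap.range ((R_one 𝒜 w).bd 0) = ⊥ := by
  refine le_antisymm ?_ bot_le
  rintro _ ⟨x, rfl⟩
  have h4 : (R_one 𝒜 w).bd 0 x = 0 := by
    funext t
    show ∑ s, x s * (0 : A) = 0
    exact Finset.sum_eq_zero fun s _ => mul_zero _
  rw [h4]
  exact zero_mem _

end cons

/-- A homogeneous direct summand of a graded free module inside `A₊ F` is zero. -/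
theorem R_ker_bot {r : ℕ} {w : Fin r → ℤ} {N : Submodule A (Fre 𝒜 w).X}
    (hmin : ∀ x ∈ N, ∀ i, prA 𝒜 0 (x i) = 0)
    (q : (Fre 𝒜 w).X →ₗ[A] (Fre 𝒜 w).X) (hq : ∀ x, q x ∈ N) (hqN : ∀ x ∈ N, q x = x) :
    N = ⊥ := by
  classical
  obtain ⟨b, hb⟩ : ∃ b : ℤ, ∀ i, b ≤ w i := by
    obtain ⟨b, hb⟩ := (Finset.univ.image w).bddBelow
    exact ⟨b, fun i => hb (Finset.mem_coe.2 (Finset.mem_image.2 ⟨i, Finset.mem_univ i, rfl⟩))⟩
  -- all components vanish
  have key : ∀ k : ℕ, ∀ n : ℤ, n < b + k → ∀ x ∈ N, (Fre 𝒜 w).pr n x = 0 := by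
    intro k
    induction k with
    | zero =>
      intro n hn x _
      funext i
      rw [GM.pi_pr]
      have h1 := hb i
      exact prA_neg 𝒜 (by push_cast at hn; omega) (x i)
    | succ k ih =>
      intro n hn x hx
      let y : Fin r → (Fre 𝒜 w).X := fun j => q (Pi.single j 1)
      have hy : ∀ j, y j ∈ N := fun j => hq _
      have h1 : x = ∑ j, x j • y j := by
        conv_lhs => rw [← hqN x hx]
        have h2 : x = ∑ j, x j • (Pi.single j 1 : Fin r → A) := by
          funext i
          rw [Finset.sum_apply, Finset.sum_eq_single i]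
          · simp
          · intro j _ hj
            simp [Ne.symm hj]
          · simp
        conv_lhs => rw [h2]
        rw [map_sum]
        exact Finset.sum_congr rfl fun j _ => map_smul _ _ _
      rw [h1, map_sum]
      refine Finset.sum_eq_zero fun j _ => ?_
      have h3 : prA 𝒜 0 (x j) = 0 := hmin x hx j
      obtain ⟨s, hs⟩ := (AsA 𝒜).pr_sum (x j)
      have h4 : x j = ∑ m ∈ s, prA 𝒜 m (x j) := hs.symm
      rw [h4, Finset.sum_smul, map_sum]
      refine Finset.sum_eq_zero fun m _ => ?_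
      have h5 : n = m + (n - m) := by ring
      rw [h5, (Fre 𝒜 w).pr_smul m _ (prA_mem m (x j))]
      rcases lt_trichotomy m 0 with h | h | h
      · rw [prA_neg 𝒜 h, zero_smul]
      · rw [h, h3, zero_smul]
      · rw [ih (n - m) (by push_cast at hn; omega) _ (hy j), smul_zero]
  rw [eq_bot_iff]
  intro x hx
  rw [Submodule.mem_bot]
  obtain ⟨s, hs⟩ := (Fre 𝒜 w).pr_sum x
  rw [← hs]
  refine Finset.sum_eq_zero fun n _ => ?_
  refine key (n + 1 - b).toNat n ?_ x hx
  omega

/-- Homogeneous generating families with `r` members. -/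
structure R_Gen (M : GM 𝒜) (r : ℕ) where
  w : Fin r → ℤ
  g : Fin r → M.X
  hg : ∀ i, g i ∈ M.dg (w i)
  sp : Submodule.span A (Set.range g) = ⊤

theorem R_ker_min (conn : ∀ a ∈ 𝒜 0, ∃ c : K, a = algebraMap K A c) {M : GM 𝒜} {r : ℕ}
    (G : R_Gen M r) (hmin : ∀ k, k < r → IsEmpty (R_Gen M k)) (x : (Fre 𝒜 G.w).X)
    (hx : Fintype.linearCombination A G.g x = 0) (i : Fin r) : prA 𝒜 0 (x i) = 0 := by
  classical
  by_contra hne
  -- the homogeneous component of degree `w i`
  set y : (Fre 𝒜 G.w).X := (Fre 𝒜 G.w).pr (G.w i) x with hy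
  have hy0 : Fintype.linearCombination A G.g y = 0 := by
    have h1 := Tool_comb (𝒜 := 𝒜) G.w G.g G.hg (G.w i) x
    rw [hx, map_zero] at h1
    exact h1
  have hyi : y i = prA 𝒜 0 (x i) := by
    rw [hy, GM.pi_pr, sub_self]
  have hm : y i ∈ 𝒜 0 := by
    rw [hyi]
    have := prA_mem (𝒜 := 𝒜) 0 (x i)
    have h : hA 𝒜 (0 : ℤ) = 𝒜 0 := hA_nat 0
    rwa [h] at this
  obtain ⟨c, hc⟩ := conn _ hm
  have hc0 : c ≠ 0 := by
    rintro rfl
    rw [map_zero] at hc
    rw [hyi] at hc
    exact hne hc
  obtain ⟨k, rfl⟩ : ∃ k, r = k + 1 := ⟨r - 1, by have := i.2; omega⟩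
  -- `g i` is a combination of the others
  have h1 : G.g i ∈ Submodule.span A (Set.range fun j : Fin k => G.g (i.succAbove j)) := by
    have h2 : y i • G.g i + ∑ j : Fin k, y (i.succAbove j) • G.g (i.succAbove j) = 0 := by
      rw [← Fin.sum_univ_succAbove (fun j => y j • G.g j) i]
      rw [← hy0, Fintype.linearCombination_apply]
    have h3 : algebraMap K A c • G.g i ∈
        Submodule.span A (Set.range fun j : Fin k => G.g (i.succAbove j)) := by
      rw [← hc, eq_neg_of_add_eq_zero_left h2]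
      refine neg_mem (Submodule.sum_mem _ fun j _ => Submodule.smul_mem _ _ ?_)
      exact Submodule.subset_span ⟨j, rfl⟩
    have h4 := Submodule.smul_mem _ (algebraMap K A c⁻¹) h3
    rwa [← mul_smul, ← map_mul, inv_mul_cancel₀ hc0, map_one, one_smul] at h4
  refine (hmin k (Nat.lt_succ_self k)).false ⟨fun j => G.w (i.succAbove j),
    fun j => G.g (i.succAbove j), fun j => G.hg _, ?_⟩
  rw [eq_top_iff, ← G.sp, Submodule.span_le]
  rintro _ ⟨j, rfl⟩
  by_cases h : j = i
  · rw [h]
    exact h1
  · obtain ⟨j', rfl⟩ := Fin.exists_succAbove_eq h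
    exact Submodule.subset_span ⟨j', rfl⟩

open CategoryTheory in
theorem R_res (fin : ∀ n, Module.Finite K (𝒜 n)) (conn : ∀ a ∈ 𝒜 0, ∃ c : K, a = algebraMap K A c)
    (nl : IsNoetherianRing A) (d : ℕ) (M : GM 𝒜) (hM : Module.Finite A M.X)
    (hp : HasProjectiveDimensionLT (ModuleCat.of A M.X) (d + 1)) :
    ∃ P : MC 𝒜, Nonempty (Res P M d) := by
  classical
  induction d generalizing M with
  | zero =>
    have hex : ∃ r, Nonempty (R_Gen M r) := by
      obtain ⟨r, w, g, hg, hs⟩ := gens M hM
      exact ⟨r, ⟨⟨w, g, hg, hs⟩⟩⟩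
    obtain ⟨G⟩ : Nonempty (R_Gen M (Nat.find hex)) := Nat.find_spec hex
    have hmin : ∀ k, k < Nat.find hex → IsEmpty (R_Gen M k) := fun k hk =>
      not_nonempty_iff.1 (Nat.find_min hex hk)
    let ε : (Fre 𝒜 G.w).X →ₗ[A] M.X := Fintype.linearCombination A G.g
    have hε : ε ∈ Hm (Fre 𝒜 G.w) M 0 := Tool_comb G.w G.g G.hg
    have hsurj : Function.Surjective ε := by
      rw [← LinearMap.range_eq_top, ← G.sp]
      exact Fintype.range_linearCombination A G.g
    have hp' : HasProjectiveDimensionLT (ModuleCat.of A M.X) 1 := hp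
    have hproj : Projective (ModuleCat.of A M.X) := inferInstance
    have hproj2 : Module.Projective A M.X := (IsProjective.iff_projective (R := A) M.X).2 hproj
    obtain ⟨σ, hσ⟩ := Module.projective_lifting_property ε (LinearMap.id : M.X →ₗ[A] M.X) hsurj
    have hσ' : ∀ x, ε (σ x) = x := fun x => by
      have := LinearMap.congr_fun hσ x
      simpa using this
    have hker : LinearMap.ker ε = ⊥ := by
      refine R_ker_bot (fun x hx i => R_ker_min conn G hmin x hx i)
        (LinearMap.id - σ.comp ε) ?_ ?_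
      · intro x
        rw [LinearMap.mem_ker, LinearMap.sub_apply, map_sub, LinearMap.comp_apply, hσ',
          LinearMap.id_apply, sub_self]
      · intro x hx
        rw [LinearMap.mem_ker] at hx
        rw [LinearMap.sub_apply, LinearMap.comp_apply, hx, map_zero, sub_zero,
          LinearMap.id_apply]
    refine ⟨R_one 𝒜 G.w, ⟨{
      zero := ?_
      ε := ε
      hε := hε
      surj := hsurj
      ex0 := ?_
      ex := ?_ }⟩⟩
    · intro i hi
      obtain ⟨j, rfl⟩ : ∃ j, i = j + 1 := ⟨i - 1, by omega⟩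
      rfl
    · exact (R_one_bd G.w).trans hker.symm
    · intro i
      have h1 : ∀ x : Fin ((R_one 𝒜 G.w).n (i + 1)) → A, x = 0 := fun x =>
        funext fun t => Fin.elim0 t
      refine le_antisymm ?_ ?_
      · rintro x _
        rw [h1 x]
        exact zero_mem _
      · rintro x _
        rw [h1 x]
        exact zero_mem _
  | succ d ih =>
    obtain ⟨r, w, ε, hε, hsurj⟩ := cover M hM
    let N : GM 𝒜 := (Fre 𝒜 w).sub (LinearMap.ker ε) (ker_hom hε)
    have hN : Module.Finite A N.X := by
      have h1 : IsNoetherian A (Fin r → A) := inferInstance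
      exact Module.Finite.of_fg (h1.noetherian (LinearMap.ker ε))
    let S : ShortComplex (ModuleCat.{u} A) := ε.shortComplexKer
    have hS : S.ShortExact := LinearMap.shortExact_shortComplexKer hsurj
    have h2 : HasProjectiveDimensionLT S.X₂ (d + 1) := by
      have : Projective S.X₂ := by
        have h5 : Module.Projective A (Fin r → A) := inferInstance
        exact (IsProjective.iff_projective (R := A) (Fin r → A)).1 h5
      have h6 : HasProjectiveDimensionLT S.X₂ 1 := inferInstance
      exact hasProjectiveDimensionLT_of_ge _ 1 (d + 1) (by omega)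
    have h3 : HasProjectiveDimensionLT S.X₁ (d + 1) :=
      hS.hasProjectiveDimensionLT_X₁ (d + 1) h2 hp
    obtain ⟨P, ⟨R⟩⟩ := ih N hN h3
    let e : Fin (P.n 0) → Fin r → A := fun s => Subtype.val (p := fun y => y ∈ LinearMap.ker ε)
      (R.ε (Pi.single s 1))
    have hval : ∀ (x : Fin (P.n 0) → A) (t : Fin r), Subtype.val (p := fun y => y ∈ LinearMap.ker ε)
        (R.ε x) t = ∑ s, x s * e s t := by
      intro x t
      have h4 : x = ∑ j, x j • (Pi.single j 1 : Fin (P.n 0) → A) := by
        funext i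
        rw [Finset.sum_apply, Finset.sum_eq_single i]
        · simp
        · intro j _ hj
          simp [Ne.symm hj]
        · simp
      have h5 : R.ε x = ∑ j, x j • R.ε (Pi.single j 1) := by
        conv_lhs => rw [h4]
        rw [map_sum]
        exact Finset.sum_congr rfl fun j _ => map_smul _ _ _
      have h6 : (LinearMap.ker ε).subtype (R.ε x) = ∑ j, x j • e j := by
        rw [h5, map_sum]
        exact Finset.sum_congr rfl fun j _ => map_smul _ _ _
      have h7 := congrFun h6 t
      rw [Finset.sum_apply] at h7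
      exact h7
    have hdg : ∀ s, (Pi.single s 1 : Fin (P.n 0) → A) ∈ (Fre 𝒜 (P.w 0)).dg (P.w 0 s) := by
      intro s
      refine GM.mem_dg.2 (funext fun t => ?_)
      rw [GM.pi_pr]
      by_cases h : t = s
      · subst h
        rw [sub_self, Pi.single_eq_same]
        exact prA_of_mem one_mem_hA
      · rw [Pi.single_eq_of_ne h, map_zero]
    have hc : ∀ s t, e s t ∈ hA 𝒜 (P.w 0 s - w t) := by
      intro s t
      have h4 := Hm_dg R.hε (hdg s)
      rw [add_zero] at h4
      have h5 : N.pr (P.w 0 s) (R.ε (Pi.single s 1)) = R.ε (Pi.single s 1) := GM.pr_dg h4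
      have h6 : (Fre 𝒜 w).pr (P.w 0 s) (e s) = e s :=
        congrArg (Subtype.val (p := fun y => y ∈ LinearMap.ker ε)) h5
      have h7 := congrFun h6 t
      rw [GM.pi_pr] at h7
      rw [← h7]
      exact prA_mem _ _
    have hcc : ∀ s t, ∑ j, P.D 1 0 s j * e j t = 0 := by
      intro s t
      have h4 : P.bd 0 (Pi.single s 1) ∈ LinearMap.ker R.ε := by
        rw [← R.ex0]
        exact ⟨_, rfl⟩
      have h5 : P.bd 0 (Pi.single s 1) = fun t => P.D 1 0 s t := by
        funext t
        show ∑ j, (Pi.single s 1 : Fin (P.n 1) → A) j * P.D 1 0 j t = P.D 1 0 s t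
        rw [Finset.sum_eq_single s]
        · rw [Pi.single_eq_same, one_mul]
        · intro j _ hj
          rw [Pi.single_eq_of_ne hj, zero_mul]
        · simp
      rw [LinearMap.mem_ker, h5] at h4
      rw [← hval (fun j => P.D 1 0 s j) t, h4]
      rfl
    have hb0 : ∀ x : Fin (P.n 0) → A, (R_cons w P e hc hcc).bd 0 x
        = Subtype.val (p := fun y => y ∈ LinearMap.ker ε) (R.ε x) := by
      intro x
      funext t
      exact (hval x t).symm
    refine ⟨R_cons w P e hc hcc, ⟨{
      zero := ?_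
      ε := ε
      hε := hε
      surj := hsurj
      ex0 := ?_
      ex := ?_ }⟩⟩
    · intro i hi
      obtain ⟨j, rfl⟩ : ∃ j, i = j + 1 := ⟨i - 1, by omega⟩
      exact R.zero j (by omega)
    · refine le_antisymm ?_ ?_
      · rintro _ ⟨x, rfl⟩
        have h4 := hb0 x
        have h5 : (R_cons w P e hc hcc).bd 0 x ∈ LinearMap.ker ε := by
          rw [h4]
          exact (R.ε x).2
        exact h5
      · intro y hy
        obtain ⟨x, hx⟩ := R.surj (⟨y, hy⟩ : N.X)
        refine ⟨x, (hb0 x).trans ?_⟩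
        rw [hx]
    · intro i
      match i with
      | i + 1 => exact R.ex i
      | 0 =>
        refine Eq.trans R.ex0 ?_
        refine le_antisymm ?_ ?_
        · intro x hx
          have h4 : R.ε x = 0 := hx
          have h5 : (R_cons w P e hc hcc).bd 0 x = 0 := by
            refine (hb0 x).trans ?_
            rw [h4]
            rfl
          exact h5
        · intro x hx
          have h4 : (R_cons w P e hc hcc).bd 0 x = 0 := hx
          have h5 : R.ε x = 0 := Subtype.ext ((hb0 x).symm.trans h4)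
          exact h5

end Pool.Agent.NAS
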