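import Pool.Agent.Lib_helper19.NAS.Defs3
import Pool.Agent.Lib_helper19.NAS.B.R

/-!
# From Ext of modules to the graded Gorenstein condition (MP_ef4bac_al, project NAS, block Br)
-/

set_option autoImplicit false

namespace Pool.Agent.NAS

open Module Filter Topology

universe u

variable {K A : Type u} [Field K] [Ring A] [Algebra K A] {𝒜 : ℕ → Submodule K A}
  [GradedAlgebra 𝒜]

open CategoryTheory Abelian

theorem Br_iso {S : ShortComplex (ModuleCat.{u} A)} (hS : S.ShortExact) [Projective S.X₂]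
    (Y : ModuleCat.{u} A) (n : ℕ) :
    Nonempty (Ext.{u} S.X₁ Y (n + 1) ≃ₗ[K] Ext.{u} S.X₃ Y (n + 2)) := by
  have hn : 1 + (n + 1) = n + 2 := by omega
  refine ⟨LinearEquiv.ofBijective (hS.extClass.precompOfLinear K Y hn) ⟨?_, ?_⟩⟩
  · rw [injective_iff_map_eq_zero]
    intro x hx
    obtain ⟨y, hy⟩ := Ext.contravariant_sequence_exact₁ hS Y x hn hx
    rw [← hy, Ext.eq_zero_of_projective y, Ext.comp_zero]
  · intro x
    exact Ext.contravariant_sequence_exact₃ hS Y x (Ext.eq_zero_of_projective _) hn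

theorem Br_one {S : ShortComplex (ModuleCat.{u} A)} (hS : S.ShortExact) [Projective S.X₂]
    (Y : ModuleCat.{u} A) :
    ∃ φ : (S.X₁ ⟶ Y) →ₗ[K] Ext.{u} S.X₃ Y 1, Function.Surjective φ ∧
      ∀ f, φ f = 0 ↔ ∃ h : S.X₂ ⟶ Y, S.f ≫ h = f := by
  have hn : 1 + 0 = 1 := rfl
  refine ⟨(hS.extClass.precompOfLinear K Y hn) ∘ₗ
    (Ext.linearEquiv₀ (R := K) (X := S.X₁) (Y := Y)).symm.toLinearMap, ?_, ?_⟩
  · intro x
    obtain ⟨y, hy⟩ := Ext.contravariant_sequence_exact₃ hS Y x (Ext.eq_zero_of_projective _) hn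
    obtain ⟨f, rfl⟩ := (Ext.linearEquiv₀ (R := K) (X := S.X₁) (Y := Y)).symm.surjective y
    exact ⟨f, hy⟩
  · intro f
    constructor
    · intro h
      obtain ⟨y, hy⟩ := Ext.contravariant_sequence_exact₁ hS Y
        ((Ext.linearEquiv₀ (R := K) (X := S.X₁) (Y := Y)).symm f) hn h
      obtain ⟨g, rfl⟩ := (Ext.linearEquiv₀ (R := K) (X := S.X₂) (Y := Y)).symm.surjective y
      refine ⟨g, ?_⟩
      rw [Ext.linearEquiv₀_symm_apply, Ext.linearEquiv₀_symm_apply, Ext.mk₀_comp_mk₀] at hy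
      exact (Ext.mk₀_bijective _ _).1 hy
    · rintro ⟨h, rfl⟩
      show hS.extClass.comp ((Ext.linearEquiv₀ (R := K)).symm (S.f ≫ h)) hn = 0
      rw [Ext.linearEquiv₀_symm_apply, ← Ext.mk₀_comp_mk₀]
      exact hS.extClass_comp_assoc _

theorem Br_se {L M N : Type u} [AddCommGroup L] [AddCommGroup M] [AddCommGroup N] [Module A L]
    [Module A M] [Module A N] (f : L →ₗ[A] M) (g : M →ₗ[A] N) (hi : Function.Injective f)
    (hs : Function.Surjective g) (he : LinearMap.range f = LinearMap.ker g) :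
    ∃ w : ModuleCat.ofHom f ≫ ModuleCat.ofHom g = 0,
      (ShortComplex.mk (ModuleCat.ofHom f) (ModuleCat.ofHom g) w).ShortExact := by
  have h1 : Function.Exact f g := by
    rw [LinearMap.exact_iff]
    exact he.symm
  have h2 := ModuleCat.shortComplex_shortExact
    (ModuleCat.shortComplexOfCompEqZero f g h1.linearMap_comp_eq_zero) h1 hi hs
  exact ⟨(ModuleCat.shortComplexOfCompEqZero f g h1.linearMap_comp_eq_zero).zero, h2⟩

/-- The module `A`. -/
def Br_Y (A : Type u) [Ring A] : ModuleCat.{u} A := ModuleCat.of A A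

/-- The free module. -/
def Br_F (A : Type u) [Ring A] (n : ℕ) : ModuleCat.{u} A := ModuleCat.of A (Fin n → A)

theorem Br_smul {M N : ModuleCat.{u} A} (c : K) (f : M ⟶ N) (x : M) :
    (c • f).hom x = (algebraMap K A c) • f.hom x := by
  have h1 : (c • f).hom x = (letI := ModuleCat.moduleOfAlgebraModule (k := K) N; c • f.hom x) := rfl
  rw [h1]
  let := ModuleCat.moduleOfAlgebraModule (k := K) N
  have := ModuleCat.isScalarTower_of_algebra_moduleCat (k := K) N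
  exact (algebraMap_smul A c _).symm

/-- The underlying linear map. -/
def Br_l {n : ℕ} (f : Br_F A n ⟶ Br_Y A) : (Fin n → A) →ₗ[A] A := f.hom

theorem Br_l_smul {n : ℕ} (c : K) (f : Br_F A n ⟶ Br_Y A) (x : Fin n → A) :
    Br_l (c • f) x = (algebraMap K A c) * Br_l f x := Br_smul c f x

/-- The values of a homomorphism at the unit vectors. -/
noncomputable def Br_ev (K : Type u) [Field K] [Algebra K A] (n : ℕ) :
    (Br_F A n ⟶ Br_Y A) →ₗ[K] (Fin n → A) where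
  toFun f t := Br_l f (Pi.single t (1 : A))
  map_add' f g := rfl
  map_smul' c f := by
    funext t
    rw [Br_l_smul, RingHom.id_apply, Pi.smul_apply, Algebra.smul_def]

theorem Br_ev_apply (n : ℕ) (f : Br_F A n ⟶ Br_Y A) (t : Fin n) :
    Br_ev K n f t = Br_l f (Pi.single t (1 : A)) := rfl

theorem Br_sum (n : ℕ) (f : Br_F A n ⟶ Br_Y A) (x : Fin n → A) :
    Br_l f x = ∑ t, x t * Br_ev K n f t := by
  have h1 : x = ∑ t, x t • (Pi.single t (1 : A) : Fin n → A) := by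
    funext s
    rw [Finset.sum_apply, Finset.sum_eq_single s]
    · simp
    · intro b _ hb
      simp [Ne.symm hb]
    · intro h
      exact absurd (Finset.mem_univ _) h
  conv_lhs => rw [h1]
  rw [map_sum]
  refine Finset.sum_congr rfl fun t _ => ?_
  rw [map_smul, Br_ev_apply, smul_eq_mul]

theorem Br_ev_inj (n : ℕ) : Function.Injective (Br_ev (A := A) K n) := by
  intro f g h
  apply ModuleCat.hom_ext
  refine LinearMap.ext fun x => ?_
  exact (Br_sum (K := K) n f x).trans ((congrArg (fun y : Fin n → A =>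
    ∑ t, (x : Fin n → A) t * y t) h).trans (Br_sum (K := K) n g x).symm)

theorem Br_ev_surj (n : ℕ) : Function.Surjective (Br_ev (A := A) K n) := by
  intro y
  refine ⟨ModuleCat.ofHom (Fintype.linearCombination A y), ?_⟩
  funext t
  show Fintype.linearCombination A y (Pi.single t (1 : A)) = y t
  rw [Fintype.linearCombination_apply_single, one_smul]

/-- The syzygies. -/
noncomputable def Br_R {P : MC 𝒜} {M : GM 𝒜} {d : ℕ} (r : Res P M d) : ℕ → ModuleCat.{u} A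
  | 0 => ModuleCat.of A M.X
  | 1 => ModuleCat.of A (LinearMap.ker r.ε)
  | j + 2 => ModuleCat.of A (LinearMap.ker (P.bd j))

/-- Differentials. -/
noncomputable def Br_D (P : MC 𝒜) (j : ℕ) : Br_F A (P.n (j + 1)) ⟶ Br_F A (P.n j) :=
  ModuleCat.ofHom (P.bd j)

theorem Br_ex {P : MC 𝒜} {M : GM 𝒜} {d : ℕ} (r : Res P M d) :
    ∃ (f : ∀ j, Br_R r (j + 1) ⟶ Br_F A (P.n j)) (g : ∀ j, Br_F A (P.n j) ⟶ Br_R r j)
      (w : ∀ j, f j ≫ g j = 0), (∀ j, (ShortComplex.mk (f j) (g j) (w j)).ShortExact) ∧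
      ∀ j, g (j + 1) ≫ f j = Br_D P j := by
  have h0 : ∀ x, P.bd 0 x ∈ LinearMap.ker r.ε := fun x => by
    rw [← r.ex0]
    exact ⟨x, rfl⟩
  have h1 : ∀ j x, P.bd (j + 1) x ∈ LinearMap.ker (P.bd j) := fun j x => by
    rw [← r.ex]
    exact ⟨x, rfl⟩
  obtain ⟨w0, s0⟩ := Br_se (A := A) (LinearMap.ker r.ε).subtype r.ε
    (Submodule.injective_subtype _) r.surj (Submodule.range_subtype _)
  obtain ⟨w1, s1⟩ := Br_se (A := A) (LinearMap.ker (P.bd 0)).subtype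
    ((P.bd 0).codRestrict (LinearMap.ker r.ε) h0) (Submodule.injective_subtype _)
    (by
      rintro ⟨x, hx⟩
      rw [← r.ex0] at hx
      obtain ⟨y, rfl⟩ := hx
      exact ⟨y, rfl⟩) (by rw [Submodule.range_subtype, LinearMap.ker_codRestrict])
  have h2 : ∀ j, ∃ w : ModuleCat.ofHom (LinearMap.ker (P.bd (j + 1))).subtype ≫
      ModuleCat.ofHom ((P.bd (j + 1)).codRestrict (LinearMap.ker (P.bd j)) (h1 j)) = 0,
      (ShortComplex.mk _ _ w).ShortExact := fun j => Br_se (A := A)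
    (LinearMap.ker (P.bd (j + 1))).subtype
    ((P.bd (j + 1)).codRestrict (LinearMap.ker (P.bd j)) (h1 j)) (Submodule.injective_subtype _)
    (by
      rintro ⟨x, hx⟩
      rw [← r.ex] at hx
      obtain ⟨y, rfl⟩ := hx
      exact ⟨y, rfl⟩) (by rw [Submodule.range_subtype, LinearMap.ker_codRestrict])
  choose w2 s2 using h2
  refine ⟨fun j => match j with
      | 0 => ModuleCat.ofHom (LinearMap.ker r.ε).subtype
      | j + 1 => ModuleCat.ofHom (LinearMap.ker (P.bd j)).subtype,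
    fun j => match j with
      | 0 => ModuleCat.ofHom r.ε
      | 1 => ModuleCat.ofHom ((P.bd 0).codRestrict (LinearMap.ker r.ε) h0)
      | j + 2 => ModuleCat.ofHom ((P.bd (j + 1)).codRestrict (LinearMap.ker (P.bd j)) (h1 j)),
    fun j => match j with
      | 0 => w0
      | 1 => w1
      | j + 2 => w2 j, fun j => ?_, fun j => ?_⟩
  · match j with
    | 0 => exact s0
    | 1 => exact s1
    | j + 2 => exact s2 j
  · match j with
    | 0 => rfl
    | j + 1 => rfl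

omit [GradedAlgebra 𝒜] in
theorem Br_bd (P : MC 𝒜) (j : ℕ) (s : Fin (P.n (j + 1))) (t : Fin (P.n j)) :
    P.bd j (Pi.single s (1 : A)) t = P.D (j + 1) j s t := by
  show ∑ s', (Pi.single s (1 : A) : Fin (P.n (j + 1)) → A) s' * P.D (j + 1) j s' t = _
  rw [Finset.sum_eq_single s]
  · simp
  · intro b _ hb
    simp [hb]
  · intro h
    exact absurd (Finset.mem_univ _) h

theorem Br_cod (P : MC 𝒜) (j : ℕ) (h : Br_F A (P.n j) ⟶ Br_Y A) :
    Br_ev K (P.n (j + 1)) (Br_D P j ≫ h) = P.cod (AsA 𝒜) j (Br_ev K (P.n j) h) := by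
  funext s
  have h1 : Br_ev K (P.n (j + 1)) (Br_D P j ≫ h) s = Br_l h (P.bd j (Pi.single s (1 : A))) := rfl
  rw [h1, Br_sum (K := K)]
  show _ = ∑ t, P.D (j + 1) j s t • (Br_ev K (P.n j) h) t
  refine Finset.sum_congr rfl fun t _ => ?_
  rw [Br_bd]
  rfl

/-- All coboundaries. -/
noncomputable def Br_B (P : MC 𝒜) : (i : ℕ) → Submodule K (Fin (P.n i) → A)
  | 0 => ⊥
  | i + 1 => LinearMap.range (P.cod (AsA 𝒜) i)

instance Br_proj (n : ℕ) : CategoryTheory.Projective (Br_F A n) :=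
  inferInstanceAs (CategoryTheory.Projective (ModuleCat.of A (Fin n → A)))

theorem Br_it (Y : ModuleCat.{u} A) (R C : ℕ → ModuleCat.{u} A) (hp : ∀ j, CategoryTheory.Projective (C j))
    (f : ∀ j, R (j + 1) ⟶ C j) (g : ∀ j, C j ⟶ R j) (w : ∀ j, f j ≫ g j = 0)
    (se : ∀ j, (ShortComplex.mk (f j) (g j) (w j)).ShortExact) :
    ∀ i n m, m = n + i + 1 → Nonempty (Ext.{u} (R i) Y (n + 1) ≃ₗ[K] Ext.{u} (R 0) Y m) := by
  intro i
  induction i with
  | zero =>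
    intro n m h
    subst h
    exact ⟨LinearEquiv.refl K _⟩
  | succ i ih =>
    intro n m h
    have hpi : CategoryTheory.Projective (ShortComplex.mk (f i) (g i) (w i)).X₂ := hp i
    obtain ⟨e1⟩ := Br_iso (K := K) (se i) Y n
    obtain ⟨e2⟩ := ih (n + 1) m (by omega)
    exact ⟨e1.trans e2⟩

theorem Br_key {P : MC 𝒜} {M : GM 𝒜} {d : ℕ} (r : Res P M d) (i : ℕ) :
    ∃ (V : Type u) (_ : AddCommGroup V) (_ : Module K V) (Λ : V →ₗ[K] (Fin (P.n i) → A))
      (φ : V →ₗ[K] Ext.{u} (Br_R r 0) (Br_Y A) i), Function.Surjective φ ∧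
      Function.Injective Λ ∧ LinearMap.range Λ = LinearMap.ker (P.cod (AsA 𝒜) i) ∧
      (LinearMap.ker φ).map Λ = Br_B P i := by
  obtain ⟨f, g, w, se, D⟩ := Br_ex r
  have hi : ∀ j, Function.Injective ((Br_ev K (P.n j)) ∘ₗ
      (Linear.leftComp K (Br_Y A) (g j) : (Br_R r j ⟶ Br_Y A) →ₗ[K] (Br_F A (P.n j) ⟶ Br_Y A))) := by
    intro j
    have hj := (se j).epi_g
    intro x y hxy
    have h1 : g j ≫ x = g j ≫ y := Br_ev_inj (K := K) _ hxy
    exact (cancel_epi (g j)).1 h1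
  have hr : ∀ j, LinearMap.range ((Br_ev K (P.n j)) ∘ₗ
      (Linear.leftComp K (Br_Y A) (g j) : (Br_R r j ⟶ Br_Y A) →ₗ[K] (Br_F A (P.n j) ⟶ Br_Y A)))
        = LinearMap.ker (P.cod (AsA 𝒜) j) := by
    intro j
    apply le_antisymm
    · rintro _ ⟨x, rfl⟩
      rw [LinearMap.mem_ker]
      have h1 := Br_cod (K := K) P j (g j ≫ x)
      rw [← D j, Category.assoc, ← Category.assoc (f j), w j, Limits.zero_comp, Limits.comp_zero,
        map_zero] at h1
      exact h1.symm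
    · intro m hm
      rw [LinearMap.mem_ker] at hm
      obtain ⟨h, rfl⟩ := Br_ev_surj (K := K) _ m
      rw [← Br_cod] at hm
      have h1 : Br_D P j ≫ h = 0 := Br_ev_inj (K := K) _ (by rw [hm, map_zero])
      have hj := (se j).epi_g
      have hj1 : Epi (g (j + 1)) := (se (j + 1)).epi_g
      rw [← D j, Category.assoc, ← Limits.comp_zero (f := g (j + 1)), cancel_epi] at h1
      refine ⟨(se j).exact.desc h h1, ?_⟩
      exact congrArg (Br_ev K (P.n j)) ((se j).exact.g_desc h h1)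
  cases i with
  | zero =>
    refine ⟨(Br_R r 0 ⟶ Br_Y A), inferInstance, inferInstance, _,
      (Ext.linearEquiv₀ (R := K) (X := Br_R r 0) (Y := Br_Y A)).symm.toLinearMap,
      (Ext.linearEquiv₀ (R := K) (X := Br_R r 0) (Y := Br_Y A)).symm.surjective, hi 0, hr 0, ?_⟩
    rw [LinearEquiv.ker, Submodule.map_bot]
    rfl
  | succ i =>
    obtain ⟨e⟩ := Br_it (K := K) (Br_Y A) (Br_R r) (fun j => Br_F A (P.n j)) (fun j => Br_proj _)
      f g w se i 0 (i + 1) (by omega)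
    have hpi : CategoryTheory.Projective (ShortComplex.mk (f i) (g i) (w i)).X₂ := Br_proj _
    obtain ⟨φ, hφ, hk⟩ := Br_one (K := K) (se i) (Br_Y A)
    refine ⟨(Br_R r (i + 1) ⟶ Br_Y A), inferInstance, inferInstance, _,
      e.toLinearMap ∘ₗ φ, e.surjective.comp hφ, hi (i + 1), hr (i + 1), ?_⟩
    apply le_antisymm
    · rintro _ ⟨x, hx, rfl⟩
      have hx' : φ x = 0 := by
        have h2 : e (φ x) = 0 := hx
        exact e.injective (by rw [h2, map_zero])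
      obtain ⟨h, rfl⟩ := (hk x).1 hx'
      refine ⟨Br_ev K (P.n i) h, ?_⟩
      rw [← Br_cod, ← D i, Category.assoc]
      rfl
    · rintro _ ⟨m, rfl⟩
      obtain ⟨h, rfl⟩ := Br_ev_surj (K := K) _ m
      refine ⟨f i ≫ h, ?_, ?_⟩
      · show e (φ (f i ≫ h)) = 0
        rw [(hk _).2 ⟨h, rfl⟩, map_zero]
      · rw [← Br_cod, ← D i, Category.assoc]
        rfl

/-- The component of degree `a` of a cochain. -/
noncomputable def Br_c (P : MC 𝒜) (i : ℕ) (a : ℤ) : (Fin (P.n i) → A) →ₗ[K] (Fin (P.n i) → A) :=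
  LinearMap.pi fun t => (prA 𝒜 (P.w i t + a)).comp (LinearMap.proj t)

theorem Br_c_apply (P : MC 𝒜) (i : ℕ) (a : ℤ) (m : Fin (P.n i) → A) (t : Fin (P.n i)) :
    Br_c P i a m t = prA 𝒜 (P.w i t + a) (m t) := rfl

theorem Br_c_mem (P : MC 𝒜) (i : ℕ) (a : ℤ) (m : Fin (P.n i) → A) :
    Br_c P i a m ∈ P.Cc (AsA 𝒜) i a := by
  intro t _
  exact (AsA 𝒜).pr_mem _ _

theorem Br_c_self (P : MC 𝒜) (i : ℕ) (a : ℤ) (m : Fin (P.n i) → A)
    (hm : m ∈ P.Cc (AsA 𝒜) i a) : Br_c P i a m = m := by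
  funext t
  exact GM.pr_dg (M := AsA 𝒜) (hm t trivial)

theorem Br_c_ne (P : MC 𝒜) (i : ℕ) (a b : ℤ) (hab : a ≠ b) (m : Fin (P.n i) → A)
    (hm : m ∈ P.Cc (AsA 𝒜) i b) : Br_c P i a m = 0 := by
  funext t
  exact GM.pr_dg_ne (M := AsA 𝒜) (hm t trivial) (by omega)

theorem Br_c_cod (P : MC 𝒜) (i : ℕ) (a : ℤ) (m : Fin (P.n i) → A) :
    P.cod (AsA 𝒜) i (Br_c P i a m) = Br_c P (i + 1) a (P.cod (AsA 𝒜) i m) := by
  funext s
  rw [Br_c_apply, MC.cod_apply, MC.cod_apply, map_sum]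
  refine Finset.sum_congr rfl fun t _ => ?_
  have h1 := (AsA 𝒜).pr_smul _ _ (P.deg (i + 1) i s t) (P.w i t + a) (m t)
  have h2 : P.w (i + 1) s - P.w i t + (P.w i t + a) = P.w (i + 1) s + a := by ring
  rw [h2] at h1
  exact h1.symm

theorem Br_c_sum (P : MC 𝒜) (i : ℕ) (m : Fin (P.n i) → A) :
    ∃ s : Finset ℤ, ∑ a ∈ s, Br_c P i a m = m := by
  classical
  obtain ⟨s, hs⟩ := (GM.pi (fun t => - P.w i t) (AsA 𝒜)).pr_sum m
  refine ⟨s, ?_⟩
  refine Eq.trans (Finset.sum_congr rfl fun a _ => ?_) hs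
  funext t
  rw [Br_c_apply, GM.pi_pr]
  congr 2
  ring

theorem Br_c_B (P : MC 𝒜) (i : ℕ) (a : ℤ) (m : Fin (P.n i) → A) (hm : m ∈ Br_B P i) :
    Br_c P i a m ∈ P.Bc (AsA 𝒜) i a := by
  cases i with
  | zero =>
    have h1 : m = 0 := (Submodule.mem_bot K).1 hm
    rw [h1, map_zero]
    exact zero_mem _
  | succ i =>
    obtain ⟨x, rfl⟩ := hm
    exact ⟨Br_c P i a x, Br_c_mem P i a x, Br_c_cod P i a x⟩

theorem Br_B_le (P : MC 𝒜) (i : ℕ) (a : ℤ) : P.Bc (AsA 𝒜) i a ≤ Br_B P i := by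
  cases i with
  | zero => exact bot_le
  | succ i =>
    rintro _ ⟨x, _, rfl⟩
    exact ⟨x, rfl⟩

theorem Br_sub {P : MC 𝒜} {i : ℕ} {a : ℤ} (h : ∀ z ∈ P.Zc (AsA 𝒜) i a, z ∈ P.Bc (AsA 𝒜) i a) :
    Subsingleton (P.SH (AsA 𝒜) i a) := by
  have key : ∀ x : P.SH (AsA 𝒜) i a, x = 0 := by
    intro x
    obtain ⟨⟨z, hz⟩, rfl⟩ := Submodule.Quotient.mk_surjective _ x
    rw [Submodule.Quotient.mk_eq_zero]
    exact h z hz
  exact ⟨fun x y => (key x).trans (key y).symm⟩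

theorem Br_fin {P : MC 𝒜} {M : GM 𝒜} {d : ℕ} (r : Res P M d) (i : ℕ)
    (h : Subsingleton (Ext.{u} (Br_R r 0) (Br_Y A) i)) (a : ℤ) :
    Subsingleton (P.SH (AsA 𝒜) i a) := by
  obtain ⟨V, _, _, Λ, φ, hφ, hi, hr, hk⟩ := Br_key r i
  refine Br_sub fun z hz => ?_
  have h1 : z ∈ LinearMap.range Λ := by
    rw [hr]
    exact hz.2
  obtain ⟨v, rfl⟩ := h1
  have h2 : Λ v ∈ Br_B P i := by
    rw [← hk]
    exact ⟨v, Subsingleton.elim _ _, rfl⟩
  have h3 := Br_c_B P i a _ h2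
  rwa [Br_c_self P i a _ hz.1] at h3

theorem Br_fone {P : MC 𝒜} {M : GM 𝒜} {d : ℕ} (r : Res P M d) (i : ℕ)
    (h : finrank K (Ext.{u} (Br_R r 0) (Br_Y A) i) = 1) :
    ∃ a0, ∀ a, P.sh (AsA 𝒜) i a = if a = a0 then 1 else 0 := by
  obtain ⟨V, _, _, Λ, φ, hφ, hi, hr, hk⟩ := Br_key r i
  have hB : ∀ v, Λ v ∈ Br_B P i ↔ φ v = 0 := by
    intro v
    rw [← hk]
    constructor
    · rintro ⟨v', hv', h1⟩
      rw [← hi h1]
      exact hv'
    · intro h1
      exact ⟨v, h1, rfl⟩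
  obtain ⟨e, he, _⟩ := finrank_eq_one_iff'.1 h
  obtain ⟨v0, rfl⟩ := hφ e
  obtain ⟨s, hs⟩ := Br_c_sum P i (Λ v0)
  obtain ⟨a0, ha0⟩ : ∃ a0, Br_c P i a0 (Λ v0) ∉ Br_B P i := by
    by_contra hc
    push Not at hc
    apply he
    rw [← hB, ← hs]
    exact Submodule.sum_mem _ fun a _ => hc a
  have hz0 : P.cod (AsA 𝒜) i (Λ v0) = 0 := by
    have h1 : Λ v0 ∈ LinearMap.range Λ := ⟨v0, rfl⟩
    rw [hr] at h1
    exact h1
  have hz1 : Br_c P i a0 (Λ v0) ∈ P.Zc (AsA 𝒜) i a0 := by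
    refine ⟨Br_c_mem P i a0 _, ?_⟩
    show P.cod (AsA 𝒜) i (Br_c P i a0 (Λ v0)) = 0
    rw [Br_c_cod, hz0, map_zero]
  obtain ⟨v1, hv1⟩ : Br_c P i a0 (Λ v0) ∈ LinearMap.range Λ := by
    rw [hr]
    exact hz1.2
  rw [← hv1] at ha0 hz1
  have h1 : φ v1 ≠ 0 := fun h => ha0 ((hB v1).2 h)
  have h2 := (finrank_eq_one_iff_of_nonzero' (φ v1) h1).1 h
  have key : ∀ a, ∀ z ∈ P.Zc (AsA 𝒜) i a, ∃ c : K, z - c • Br_c P i a (Λ v1) ∈
      P.Bc (AsA 𝒜) i a := by
    intro a z hz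
    obtain ⟨v, rfl⟩ : z ∈ LinearMap.range Λ := by
      rw [hr]
      exact hz.2
    obtain ⟨c, hc⟩ := h2 (φ v)
    refine ⟨c, ?_⟩
    have h3 : Λ (v - c • v1) ∈ Br_B P i := by
      rw [hB, map_sub, map_smul, hc, sub_self]
    have h4 := Br_c_B P i a _ h3
    rw [map_sub, map_smul, map_sub, map_smul, Br_c_self P i a _ hz.1] at h4
    exact h4
  refine ⟨a0, fun a => ?_⟩
  split_ifs with haa
  · subst haa
    have h5 : (Submodule.Quotient.mk ⟨Λ v1, hz1⟩ : P.SH (AsA 𝒜) i a) ≠ 0 := by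
      rw [Ne, Submodule.Quotient.mk_eq_zero]
      intro h6
      exact ha0 (Br_B_le P i a h6)
    refine (finrank_eq_one_iff_of_nonzero' _ h5).2 ?_
    intro x
    obtain ⟨⟨z, hz⟩, rfl⟩ := Submodule.Quotient.mk_surjective _ x
    obtain ⟨c, hc⟩ := key a z hz
    refine ⟨c, ?_⟩
    rw [Br_c_self P i a _ hz1.1] at hc
    rw [← Submodule.Quotient.mk_smul, eq_comm, Submodule.Quotient.eq]
    exact hc
  · have h6 : Subsingleton (P.SH (AsA 𝒜) i a) := by
      refine Br_sub fun z hz => ?_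
      obtain ⟨c, hc⟩ := key a z hz
      rwa [Br_c_ne P i a a0 haa _ hz1.1, smul_zero, sub_zero] at hc
    exact finrank_zero_of_subsingleton

open CategoryTheory Abelian in
theorem BR (fin : ∀ n, Module.Finite K (𝒜 n)) (conn : ∀ a ∈ 𝒜 0, ∃ c : K, a = algebraMap K A c)
    (nl : IsNoetherianRing A) (d : ℕ)
    (gd : ∀ M : ModuleCat.{u} A, HasProjectiveDimensionLT M (d + 1))
    (g0 : ∀ i, i ≠ d → Subsingleton (Ext.{u}
      (ModuleCat.of A (A ⧸ (HomogeneousIdeal.irrelevant 𝒜).toIdeal)) (ModuleCat.of A A) i))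
    (g1 : finrank K (Ext.{u}
      (ModuleCat.of A (A ⧸ (HomogeneousIdeal.irrelevant 𝒜).toIdeal)) (ModuleCat.of A A) d) = 1) :
    ∃ P : MC 𝒜, Nonempty (Res P (TrivM 𝒜) d) ∧
      (∀ i, i ≠ d → ∀ a, Subsingleton (P.SH (AsA 𝒜) i a)) ∧
      ∃ a0, ∀ a, P.sh (AsA 𝒜) d a = if a = a0 then 1 else 0 := by
  have hf : Module.Finite A (TrivM 𝒜).X :=
    inferInstanceAs (Module.Finite A (A ⧸ (HomogeneousIdeal.irrelevant 𝒜).toIdeal))
  obtain ⟨P, ⟨r⟩⟩ := R_res fin conn nl d (TrivM 𝒜) hf (gd _)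
  exact ⟨P, ⟨r⟩, fun i hi a => Br_fin r i (g0 i hi) a, Br_fone r d g1⟩

end Pool.Agent.NAS
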