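import Pool.Agent.Lib_helper19.NAS.Defs3

/-!
# The long exact sequence of Ext(-, A) (MP_ef4bac_al, project NAS, block Les)
-/

set_option autoImplicit false

namespace Pool.Agent.NAS

open Module Filter Topology

universe u

variable {K A : Type u} [Field K] [Ring A] [Algebra K A] {𝒜 : ℕ → Submodule K A}
  [GradedAlgebra 𝒜]

omit [GradedAlgebra 𝒜] in
/-- Averaging a linear map to a graded one. -/
theorem Les_avg (M N : GM 𝒜) (ψ' : M.X →ₗ[K] N.X) (a : ℤ) :
    ∃ ψ : M.X →ₗ[K] N.X, (∀ n x, ψ (M.pr n x) = N.pr (n + a) (ψ x)) ∧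
      ∀ n, ∀ x ∈ M.dg n, ψ x = N.pr (n + a) (ψ' x) := by
  classical
  have hfin : ∀ x : M.X, (Function.support fun n : ℤ => N.pr (n + a) (ψ' (M.pr n x))).Finite := by
    intro x
    obtain ⟨s, hs⟩ := M.pr_sum x
    refine s.finite_toSet.subset fun n hn => ?_
    by_contra hns
    apply hn
    have h0 : M.pr n x = 0 := GM.pr_notin hs (by simpa using hns)
    simp only [h0, map_zero]
  let ψ : M.X →ₗ[K] N.X :=
    { toFun := fun x => ∑ᶠ n : ℤ, N.pr (n + a) (ψ' (M.pr n x))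
      map_add' := fun x y => by
        rw [← finsum_add_distrib (hfin x) (hfin y)]
        refine finsum_congr fun n => ?_
        rw [map_add, map_add, map_add]
      map_smul' := fun c x => by
        rw [RingHom.id_apply, smul_finsum]
        refine finsum_congr fun n => ?_
        rw [map_smul, map_smul, map_smul] }
  have hψ : ∀ n, ∀ x ∈ M.dg n, ψ x = N.pr (n + a) (ψ' x) := by
    intro n x hx
    show (∑ᶠ m : ℤ, N.pr (m + a) (ψ' (M.pr m x))) = N.pr (n + a) (ψ' x)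
    rw [finsum_eq_single _ n]
    · rw [GM.pr_dg hx]
    · intro m hm
      rw [GM.pr_dg_ne hx hm, map_zero, map_zero]
  refine ⟨ψ, fun n x => ?_, hψ⟩
  induction x using GM.induct with
  | h0 => simp
  | hadd x y hx hy => rw [map_add, map_add, hx, hy, map_add, map_add]
  | hh m x hx =>
    by_cases hnm : n = m
    · subst hnm
      rw [GM.pr_dg hx, hψ n x hx, N.pr_self]
    · rw [GM.pr_dg_ne hx hnm, map_zero, hψ m x hx, N.pr_ne _ _ _ (fun hh => hnm (by omega))]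

/-- Coinduced modules are graded injective. -/
theorem coind_inj {L M : GM 𝒜} (N : GM 𝒜) (f : L.X →ₗ[A] M.X) (hf : f ∈ Hm L M 0)
    (hi : Function.Injective f) (a : ℤ) (g : L.X →ₗ[A] (coind N).X) (hg : g ∈ Hm L (coind N) a) :
    ∃ h ∈ Hm M (coind N) a, h ∘ₗ f = g := by
  -- evaluation at one
  let ψ0 : L.X →ₗ[K] N.X :=
    { toFun := fun y => CoX.fn (N := N) (g y) 1
      map_add' := fun y z => by
        rw [map_add]
        rfl
      map_smul' := fun c y => by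
        rw [LinearMap.map_smul_of_tower]
        rfl }
  have h0 : ∀ y, ψ0 y = CoX.fn (N := N) (g y) 1 := fun y => rfl
  have hψ0 : ∀ n y, ψ0 (L.pr n y) = N.pr (n + a) (ψ0 y) := by
    intro n y
    rw [h0, h0, hg n y]
    have h1 : CoX.fn (N := N) ((coind N).pr (n + a) (g y)) 1
        = cpr N (n + a) (CoX.fn (N := N) (g y)) 1 := rfl
    rw [h1, cpr_apply N (n + a) 0 _ one_mem_hA, add_zero]
  obtain ⟨r, hr⟩ := LinearMap.exists_leftInverse_of_injective (f.restrictScalars K)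
    (LinearMap.ker_eq_bot.2 hi)
  obtain ⟨ψ, hψ1, hψ2⟩ := Les_avg M N (ψ0 ∘ₗ r) a
  have hrf : ∀ y, r (f y) = y := fun y => LinearMap.congr_fun hr y
  have hext : ∀ y, ψ (f y) = ψ0 y := by
    intro y
    induction y using GM.induct with
    | h0 => simp
    | hadd x y hx hy => rw [map_add, map_add, hx, hy, map_add]
    | hh n x hx =>
      have h1 : f x ∈ M.dg n := by
        have := Hm_dg hf hx
        rwa [add_zero] at this
      rw [hψ2 n _ h1, LinearMap.comp_apply, hrf, ← hψ0, GM.pr_dg hx]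
  refine ⟨mkCo M N a ψ hψ1, mkCo_mem M N a ψ hψ1, ?_⟩
  refine LinearMap.ext fun y => CoX.ext (LinearMap.ext fun x => ?_)
  rw [LinearMap.comp_apply, mkCo_fn, ← map_smul, hext, h0, map_smul]
  have h1 := CoX.smul_fn (N := N) x (g y) 1
  rw [one_mul] at h1
  exact h1

omit [GradedAlgebra 𝒜] in
/-- Factorisation through the cokernel. -/
theorem Les_fac {L M N : GM 𝒜} (S : SES L M N) (P : GM 𝒜) (a : ℤ) (h : M.X →ₗ[A] P.X)
    (hh : h ∈ Hm M P a) (h0 : h ∘ₗ S.f = 0) : ∃ k ∈ Hm N P a, k ∘ₗ S.g = h := by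
  have hker : LinearMap.ker S.g ≤ LinearMap.ker h := by
    rw [← S.ex]
    rintro _ ⟨x, rfl⟩
    exact LinearMap.congr_fun h0 x
  let k : N.X →ₗ[A] P.X := (LinearMap.ker S.g).liftQ h hker ∘ₗ
    (S.g.quotKerEquivOfSurjective S.surj).symm.toLinearMap
  have hk : ∀ x, k (S.g x) = h x := by
    intro x
    have h1 : (S.g.quotKerEquivOfSurjective S.surj).symm (S.g x)
        = Submodule.Quotient.mk x := by
      rw [LinearEquiv.symm_apply_eq]
      rfl
    show (LinearMap.ker S.g).liftQ h hker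
      ((S.g.quotKerEquivOfSurjective S.surj).symm (S.g x)) = h x
    rw [h1]
    rfl
  refine ⟨k, ?_, LinearMap.ext hk⟩
  intro n y
  obtain ⟨x, rfl⟩ := S.surj y
  have h1 := S.hg n x
  rw [add_zero] at h1
  rw [← h1, hk, hk, hh]

/-- Post-composition with a map of degree `0`. -/
def Les_post {P Q : GM 𝒜} (p : P.X →ₗ[A] Q.X) (hp : p ∈ Hm P Q 0) (M : GM 𝒜) (a : ℤ) :
    Hm M P a →ₗ[K] Hm M Q a where
  toFun h := ⟨p ∘ₗ h.1, Hm_0comp h.2 hp⟩
  map_add' x y := Subtype.ext (LinearMap.comp_add _ _ _)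
  map_smul' c x := Subtype.ext (by
    refine LinearMap.ext fun z => ?_
    show p ((c • x.1) z) = c • p (x.1 z)
    rw [LinearMap.smul_apply, LinearMap.map_smul_of_tower])

omit [GradedAlgebra 𝒜] in
theorem Les_post_pre {P Q : GM 𝒜} (p : P.X →ₗ[A] Q.X) (hp : p ∈ Hm P Q 0) {L M : GM 𝒜}
    (f : L.X →ₗ[A] M.X) (hf : f ∈ Hm L M 0) (a : ℤ) (x : Hm M P a) :
    Les_post p hp L a (preH f hf P a x) = preH f hf Q a (Les_post p hp M a x) := rfl

theorem Les_Bd (M : GM 𝒜) (i : ℕ) (a : ℤ) :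
    Bd (i + 1) M a = LinearMap.range (Les_post (pI (𝒜 := 𝒜) i) (pI_mem i) M a) := rfl

theorem Les_pre_surj {L M N : GM 𝒜} (S : SES L M N) (P : GM 𝒜) (a : ℤ) :
    Function.Surjective (preH S.f S.hf (coind P) a) := by
  intro g
  obtain ⟨h, h1, h2⟩ := coind_inj P S.f S.hf S.inj a g.1 g.2
  exact ⟨⟨h, h1⟩, Subtype.ext h2⟩

omit [GradedAlgebra 𝒜] in
theorem Les_pre_inj {L M N : GM 𝒜} (S : SES L M N) (P : GM 𝒜) (a : ℤ) :
    Function.Injective (preH S.g S.hg P a) := by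
  intro x y h
  refine Subtype.ext (LinearMap.ext fun z => ?_)
  obtain ⟨w, rfl⟩ := S.surj z
  have h1 : (preH S.g S.hg P a x).1 w = (preH S.g S.hg P a y).1 w := by rw [h]
  exact h1

omit [GradedAlgebra 𝒜] in
theorem Les_pre_fg {L M N : GM 𝒜} (S : SES L M N) (P : GM 𝒜) (a : ℤ) (x : Hm N P a) :
    preH S.f S.hf P a (preH S.g S.hg P a x) = 0 := by
  refine Subtype.ext (LinearMap.ext fun z => ?_)
  show x.1 (S.g (S.f z)) = 0
  have h1 : S.f z ∈ LinearMap.ker S.g := by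
    rw [← S.ex]
    exact ⟨z, rfl⟩
  rw [LinearMap.mem_ker.1 h1, map_zero]

omit [GradedAlgebra 𝒜] in
theorem Les_pre_ex {L M N : GM 𝒜} (S : SES L M N) (P : GM 𝒜) (a : ℤ) (x : Hm M P a)
    (h : preH S.f S.hf P a x = 0) : ∃ y, preH S.g S.hg P a y = x := by
  obtain ⟨k, h1, h2⟩ := Les_fac S P a x.1 x.2 (congrArg Subtype.val h)
  exact ⟨⟨k, h1⟩, Subtype.ext h2⟩

theorem Les_post_inj (M : GM 𝒜) (i : ℕ) (a : ℤ) :
    Function.Injective (Les_post (emb (IX 𝒜 i)) (emb_mem _) M a) := by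
  intro x y h
  refine Subtype.ext (LinearMap.ext fun z => ?_)
  have h1 : (Les_post (emb (IX 𝒜 i)) (emb_mem _) M a x).1 z
      = (Les_post (emb (IX 𝒜 i)) (emb_mem _) M a y).1 z := by rw [h]
  exact emb_inj (IX 𝒜 i) h1

theorem Les_post_zero (M : GM 𝒜) (i : ℕ) (a : ℤ) (x : Hm M (IX 𝒜 i) a) :
    Les_post (pI i) (pI_mem i) M a (Les_post (emb (IX 𝒜 i)) (emb_mem _) M a x) = 0 := by
  refine Subtype.ext (LinearMap.ext fun z => ?_)
  show pI i (emb (IX 𝒜 i) (x.1 z)) = 0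
  have h1 : emb (IX 𝒜 i) (x.1 z) ∈ LinearMap.ker (pI (𝒜 := 𝒜) i) := by
    rw [pI_ker]
    exact ⟨_, rfl⟩
  exact h1

theorem Les_post_ex (M : GM 𝒜) (i : ℕ) (a : ℤ) (y : Hm M (coind (IX 𝒜 i)) a)
    (h : Les_post (pI i) (pI_mem i) M a y = 0) :
    ∃ x, Les_post (emb (IX 𝒜 i)) (emb_mem _) M a x = y := by
  have hr : ∀ z, y.1 z ∈ LinearMap.range (emb (IX 𝒜 i)) := by
    intro z
    rw [← pI_ker, LinearMap.mem_ker]
    have h1 : (Les_post (pI i) (pI_mem i) M a y).1 z = 0 := by rw [h]; rfl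
    exact h1
  let x : M.X →ₗ[A] (IX 𝒜 i).X := (LinearEquiv.ofInjective (emb (IX 𝒜 i))
    (emb_inj _)).symm.toLinearMap ∘ₗ y.1.codRestrict _ hr
  have hx : ∀ z, emb (IX 𝒜 i) (x z) = y.1 z := by
    intro z
    have h1 := (LinearEquiv.ofInjective (emb (IX 𝒜 i)) (emb_inj _)).apply_symm_apply
      (y.1.codRestrict _ hr z)
    exact congrArg Subtype.val h1
  refine ⟨⟨x, ?_⟩, Subtype.ext (LinearMap.ext hx)⟩
  intro n z
  apply emb_inj (IX 𝒜 i)
  rw [hx, y.2, ← hx]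
  have h2 := emb_mem (IX 𝒜 i) (n + a) (x z)
  rw [add_zero] at h2
  exact h2.symm

theorem Emap_mk {M N : GM 𝒜} (f : M.X →ₗ[A] N.X) (hf : f ∈ Hm M N 0) (i : ℕ) (a : ℤ)
    (x : Hm N (IX 𝒜 i) a) : Emap f hf i a (Submodule.Quotient.mk x)
      = Submodule.Quotient.mk (preH f hf (IX 𝒜 i) a x) := rfl

theorem LES_0 {L M N : GM 𝒜} (S : SES L M N) (a : ℤ) :
    Function.Injective (Emap S.g S.hg 0 a) := by
  rw [injective_iff_map_eq_zero]
  intro x hx
  obtain ⟨x, rfl⟩ := Submodule.Quotient.mk_surjective _ x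
  rw [Emap_mk, Submodule.Quotient.mk_eq_zero] at hx
  have h1 : preH S.g S.hg (IX 𝒜 0) a x = 0 := (Submodule.mem_bot K).1 hx
  have h2 : x = 0 := Les_pre_inj S _ a (h1.trans (map_zero _).symm)
  rw [h2]
  exact Submodule.Quotient.mk_zero _

theorem LES_m {L M N : GM 𝒜} (S : SES L M N) (i : ℕ) (a : ℤ) :
    LinearMap.range (Emap S.g S.hg i a) = LinearMap.ker (Emap S.f S.hf i a) := by
  apply le_antisymm
  · rintro _ ⟨x, rfl⟩
    obtain ⟨x, rfl⟩ := Submodule.Quotient.mk_surjective _ x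
    rw [LinearMap.mem_ker, Emap_mk, Emap_mk, Les_pre_fg]
    exact Submodule.Quotient.mk_zero _
  · intro x hx
    obtain ⟨x, rfl⟩ := Submodule.Quotient.mk_surjective _ x
    rw [LinearMap.mem_ker, Emap_mk, Submodule.Quotient.mk_eq_zero] at hx
    cases i with
    | zero =>
      have h1 : preH S.f S.hf (IX 𝒜 0) a x = 0 := (Submodule.mem_bot K).1 hx
      obtain ⟨y, rfl⟩ := Les_pre_ex S _ a x h1
      exact ⟨Submodule.Quotient.mk y, rfl⟩
    | succ i =>
      rw [Les_Bd] at hx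
      obtain ⟨k, hk⟩ := hx
      obtain ⟨k', rfl⟩ := Les_pre_surj S (IX 𝒜 i) a k
      rw [Les_post_pre] at hk
      have h1 : preH S.f S.hf (IX 𝒜 (i + 1)) a
          (x - Les_post (pI i) (pI_mem i) M a k') = 0 := by
        rw [map_sub, hk, sub_self]
      obtain ⟨y, hy⟩ := Les_pre_ex S _ a _ h1
      refine ⟨Submodule.Quotient.mk y, ?_⟩
      rw [Emap_mk, hy, Submodule.Quotient.eq, Les_Bd]
      exact ⟨-k', by rw [map_neg]; abel⟩

theorem LES_d {L M N : GM 𝒜} (S : SES L M N) (i : ℕ) (a : ℤ) :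
    ∃ δ : E i L a →ₗ[K] E (i + 1) N a,
      LinearMap.range (Emap S.f S.hf i a) = LinearMap.ker δ ∧
      LinearMap.range δ = LinearMap.ker (Emap S.g S.hg (i + 1) a) := by
  obtain ⟨σ, hσ⟩ := LinearMap.exists_rightInverse_of_surjective
    (preH S.f S.hf (coind (IX 𝒜 i)) a) (LinearMap.range_eq_top.2 (Les_pre_surj S _ a))
  obtain ⟨ρ, hρ⟩ := LinearMap.exists_leftInverse_of_injective
    (preH S.g S.hg (IX 𝒜 (i + 1)) a) (LinearMap.ker_eq_bot.2 (Les_pre_inj S _ a))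
  have hσ' : ∀ x, preH S.f S.hf (coind (IX 𝒜 i)) a (σ x) = x := fun x => LinearMap.congr_fun hσ x
  have hρ' : ∀ x, ρ (preH S.g S.hg (IX 𝒜 (i + 1)) a x) = x := fun x => LinearMap.congr_fun hρ x
  let D0 : Hm L (IX 𝒜 i) a →ₗ[K] Hm N (IX 𝒜 (i + 1)) a :=
    ρ ∘ₗ Les_post (pI i) (pI_mem i) M a ∘ₗ σ ∘ₗ Les_post (emb (IX 𝒜 i)) (emb_mem _) L a
  have hD0 : ∀ x, preH S.g S.hg (IX 𝒜 (i + 1)) a (D0 x) = Les_post (pI i) (pI_mem i) M a
      (σ (Les_post (emb (IX 𝒜 i)) (emb_mem _) L a x)) := by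
    intro x
    have h1 : preH S.f S.hf (IX 𝒜 (i + 1)) a (Les_post (pI i) (pI_mem i) M a
        (σ (Les_post (emb (IX 𝒜 i)) (emb_mem _) L a x))) = 0 := by
      rw [← Les_post_pre, hσ', Les_post_zero]
    obtain ⟨z, hz⟩ := Les_pre_ex S _ a _ h1
    have h2 : D0 x = z := by
      show ρ (Les_post (pI i) (pI_mem i) M a
        (σ (Les_post (emb (IX 𝒜 i)) (emb_mem _) L a x))) = z
      rw [← hz, hρ']
    rw [h2, hz]
  let δ' : Hm L (IX 𝒜 i) a →ₗ[K] E (i + 1) N a := (Bd (i + 1) N a).mkQ ∘ₗ D0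
  have hδ' : ∀ x, δ' x = Submodule.Quotient.mk (D0 x) := fun x => rfl
  -- characterisation
  have char : ∀ (x : Hm L (IX 𝒜 i) a) (y : Hm M (coind (IX 𝒜 i)) a)
      (z : Hm N (IX 𝒜 (i + 1)) a), preH S.f S.hf _ a y = Les_post (emb (IX 𝒜 i)) (emb_mem _) L a x →
      preH S.g S.hg _ a z = Les_post (pI i) (pI_mem i) M a y → δ' x = Submodule.Quotient.mk z := by
    intro x y z h1 h2
    rw [hδ', Submodule.Quotient.eq, Les_Bd]
    have h3 : preH S.f S.hf _ a (σ (Les_post (emb (IX 𝒜 i)) (emb_mem _) L a x) - y) = 0 := by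
      rw [map_sub, hσ', h1, sub_self]
    obtain ⟨u, hu⟩ := Les_pre_ex S _ a _ h3
    refine ⟨u, ?_⟩
    apply Les_pre_inj S _ a
    rw [← Les_post_pre, hu, map_sub, map_sub, hD0, h2]
  have hker : ∀ x, δ' x = 0 ↔ ∃ x', preH S.f S.hf (IX 𝒜 i) a x' = x := by
    intro x
    constructor
    · intro h
      rw [hδ', Submodule.Quotient.mk_eq_zero, Les_Bd] at h
      obtain ⟨u, hu⟩ := h
      have h1 : Les_post (pI i) (pI_mem i) M a
          (σ (Les_post (emb (IX 𝒜 i)) (emb_mem _) L a x) - preH S.g S.hg _ a u) = 0 := by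
        rw [map_sub, ← hD0, ← hu, Les_post_pre, sub_self]
      obtain ⟨x', hx'⟩ := Les_post_ex M i a _ h1
      refine ⟨x', ?_⟩
      apply Les_post_inj L i a
      rw [Les_post_pre, hx', map_sub, hσ', Les_pre_fg, sub_zero]
    · rintro ⟨x', rfl⟩
      have h1 := char (preH S.f S.hf (IX 𝒜 i) a x') (Les_post (emb (IX 𝒜 i)) (emb_mem _) M a x') 0
        rfl (by rw [Les_post_zero, map_zero])
      rw [h1]
      exact Submodule.Quotient.mk_zero _
  have hBd : Bd i L a ≤ LinearMap.ker δ' := by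
    intro x hx
    rw [LinearMap.mem_ker, hker]
    cases i with
    | zero =>
      have h1 : x = 0 := (Submodule.mem_bot K).1 hx
      exact ⟨0, by rw [h1, map_zero]⟩
    | succ i =>
      rw [Les_Bd] at hx
      obtain ⟨k, rfl⟩ := hx
      obtain ⟨k', rfl⟩ := Les_pre_surj S (IX 𝒜 i) a k
      exact ⟨Les_post (pI i) (pI_mem i) M a k', rfl⟩
  refine ⟨(Bd i L a).liftQ δ' hBd, ?_, ?_⟩
  · ext x
    obtain ⟨x, rfl⟩ := Submodule.Quotient.mk_surjective _ x
    rw [LinearMap.mem_ker]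
    have h1 : (Bd i L a).liftQ δ' hBd (Submodule.Quotient.mk x) = δ' x := rfl
    rw [h1, hker]
    constructor
    · rintro ⟨y, hy⟩
      obtain ⟨y, rfl⟩ := Submodule.Quotient.mk_surjective _ y
      rw [Emap_mk, Submodule.Quotient.eq] at hy
      have h2 := hBd hy
      rw [LinearMap.mem_ker, hker] at h2
      obtain ⟨x', hx'⟩ := h2
      refine ⟨y - x', ?_⟩
      rw [map_sub, hx']
      abel
    · rintro ⟨x', rfl⟩
      exact ⟨Submodule.Quotient.mk x', rfl⟩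
  · ext z
    obtain ⟨z, rfl⟩ := Submodule.Quotient.mk_surjective _ z
    rw [LinearMap.mem_ker, Emap_mk, Submodule.Quotient.mk_eq_zero]
    constructor
    · rintro ⟨x, hx⟩
      rw [Les_Bd]
      obtain ⟨x, rfl⟩ := Submodule.Quotient.mk_surjective _ x
      have h1 : (Bd i L a).liftQ δ' hBd (Submodule.Quotient.mk x) = δ' x := rfl
      rw [h1, hδ', Submodule.Quotient.eq, Les_Bd] at hx
      obtain ⟨u, hu⟩ := hx
      refine ⟨σ (Les_post (emb (IX 𝒜 i)) (emb_mem _) L a x) - preH S.g S.hg _ a u, ?_⟩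
      rw [map_sub, ← hD0, Les_post_pre, hu, map_sub]
      abel
    · intro hz
      rw [Les_Bd] at hz
      obtain ⟨y, hy⟩ := hz
      have h1 : Les_post (pI i) (pI_mem i) L a (preH S.f S.hf _ a y) = 0 := by
        rw [Les_post_pre, hy, Les_pre_fg]
      obtain ⟨x, hx⟩ := Les_post_ex L i a _ h1
      exact ⟨Submodule.Quotient.mk x, char x y z hx.symm hy.symm⟩

end Pool.Agent.NAS
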