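import Pool.Agent.Lib_helper19.NAS.Defs3
import Pool.Agent.Lib_helper19.NAS.B.Tool
import Pool.Agent.Lib_helper19.NAS.B.Les

/-!
# Ext of free modules and of direct sums (MP_ef4bac_al, project NAS, block Frx)
-/

set_option autoImplicit false

namespace Pool.Agent.NAS

open Module Filter Topology

universe u

variable {K A : Type u} [Field K] [Ring A] [Algebra K A] {𝒜 : ℕ → Submodule K A}
  [GradedAlgebra 𝒜]

theorem E_zero (M : GM 𝒜) (a : ℤ) : Nonempty (E 0 M a ≃ₗ[K] Hm M (AsA 𝒜) a) :=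
  ⟨Submodule.quotEquivOfEqBot (Bd 0 M a) rfl⟩

omit [GradedAlgebra 𝒜] in
/-- Homogeneous preimages. -/
theorem Frx_lift {M N : GM 𝒜} (p : M.X →ₗ[A] N.X) (hp : p ∈ Hm M N 0)
    (hs : Function.Surjective p) {n : ℤ} {y : N.X} (hy : y ∈ N.dg n) : ∃ x ∈ M.dg n, p x = y := by
  obtain ⟨x, rfl⟩ := hs y
  refine ⟨M.pr n x, M.pr_mem n x, ?_⟩
  rw [hp, add_zero, GM.pr_dg hy]

/-- The map from a free module given by homogeneous elements. -/
theorem Frx_comb {M : GM 𝒜} {r : ℕ} (w : Fin r → ℤ) (a : ℤ) (g : Fin r → M.X)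
    (hg : ∀ i, g i ∈ M.dg (w i + a)) :
    (Fintype.linearCombination A g : (Fre 𝒜 w).X →ₗ[A] M.X) ∈ Hm (Fre 𝒜 w) M a := by
  intro n x
  rw [Fintype.linearCombination_apply, Fintype.linearCombination_apply, map_sum]
  refine Finset.sum_congr rfl fun i _ => ?_
  rw [Tool_pr_smul (x i) (hg i) (n + a)]
  have h1 : n + a - (w i + a) = n - w i := by ring
  rw [h1]
  rfl

theorem E_free {r : ℕ} (w : Fin r → ℤ) (i : ℕ) (a : ℤ) :
    Subsingleton (E (i + 1) (Fre 𝒜 w) a) := by
  classical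
  rw [Submodule.Quotient.subsingleton_iff, eq_top_iff]
  intro h _
  rw [Les_Bd]
  have he : ∀ s, h.1 (Pi.single s (1 : A)) ∈ (IX 𝒜 (i + 1)).dg (w s + a) := by
    intro s
    refine Hm_dg h.2 ?_
    rw [GM.mem_dg]
    funext t
    show prA 𝒜 (w s - w t) ((Pi.single s (1 : A) : Fin r → A) t) = (Pi.single s (1 : A) : Fin r → A) t
    by_cases hst : t = s
    · subst hst
      rw [Pi.single_eq_same, sub_self]
      exact prA_of_mem one_mem_hA
    · rw [Pi.single_eq_of_ne hst, map_zero]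
  choose y hy1 hy2 using fun s => Frx_lift (pI (𝒜 := 𝒜) i) (pI_mem i) (pI_surj i) (he s)
  refine ⟨⟨Fintype.linearCombination A y, Frx_comb w a y hy1⟩, Subtype.ext ?_⟩
  refine LinearMap.pi_ext' fun s => LinearMap.ext_ring ?_
  show pI i (Fintype.linearCombination A y (Pi.single s (1 : A))) = h.1 (Pi.single s (1 : A))
  rw [Fintype.linearCombination_apply_single, one_smul, hy2]

section pi

variable {r : ℕ} (w : Fin r → ℤ) (M P : GM 𝒜) (a : ℤ)

omit [GradedAlgebra 𝒜] in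
theorem Frx_single_mem (s : Fin r) :
    (LinearMap.single A (fun _ : Fin r => M.X) s : M.X →ₗ[A] (GM.pi w M).X)
      ∈ Hm M (GM.pi w M) (w s) := by
  intro n x
  funext t
  rw [GM.pi_pr]
  by_cases hst : t = s
  · subst hst
    rw [LinearMap.single_apply, LinearMap.single_apply, Pi.single_eq_same, Pi.single_eq_same,
      add_sub_cancel_right]
  · rw [LinearMap.single_apply, LinearMap.single_apply, Pi.single_eq_of_ne hst,
      Pi.single_eq_of_ne hst, map_zero]

omit [GradedAlgebra 𝒜] in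
theorem Frx_proj_mem (s : Fin r) :
    (LinearMap.proj s : (GM.pi w M).X →ₗ[A] M.X) ∈ Hm (GM.pi w M) M (-w s) := by
  intro n x
  rfl

/-- Maps from a direct sum. -/
def Frx_eqv : Hm (GM.pi w M) P a ≃ₗ[K] (∀ s, Hm M P (w s + a)) where
  toFun f s := ⟨f.1 ∘ₗ (LinearMap.single A (fun _ : Fin r => M.X) s),
    Hm_comp (Frx_single_mem w M s) f.2⟩
  map_add' f g := rfl
  map_smul' c f := rfl
  invFun f := ⟨∑ s, (f s).1 ∘ₗ (LinearMap.proj s : (GM.pi w M).X →ₗ[A] M.X), by
    refine Submodule.sum_mem _ fun s _ => ?_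
    have h1 := Hm_comp (Frx_proj_mem w M s) (f s).2
    have h2 : -w s + (w s + a) = a := by ring
    rwa [h2] at h1⟩
  left_inv f := Subtype.ext (by
    refine LinearMap.pi_ext' fun s => LinearMap.ext fun x => ?_
    show (∑ t, f.1 ∘ₗ (LinearMap.single A (fun _ : Fin r => M.X) t) ∘ₗ
      (LinearMap.proj t : (GM.pi w M).X →ₗ[A] M.X)) (Pi.single s x) = f.1 (Pi.single s x)
    rw [LinearMap.sum_apply, Finset.sum_eq_single s]
    · show f.1 (Pi.single s ((Pi.single s x : Fin r → M.X) s)) = _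
      rw [Pi.single_eq_same]
    · intro t _ hts
      show f.1 (Pi.single t ((Pi.single s x : Fin r → M.X) t)) = 0
      rw [Pi.single_eq_of_ne hts, Pi.single_zero]
      exact map_zero f.1
    · intro h
      exact absurd (Finset.mem_univ s) h)
  right_inv f := by
    funext s
    refine Subtype.ext (LinearMap.ext fun x => ?_)
    show (∑ t, (f t).1 ∘ₗ (LinearMap.proj t : (GM.pi w M).X →ₗ[A] M.X)) (Pi.single s x)
      = (f s).1 x
    rw [LinearMap.sum_apply, Finset.sum_eq_single s]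
    · show (f s).1 ((Pi.single s x : Fin r → M.X) s) = _
      rw [Pi.single_eq_same]
    · intro t _ hts
      show (f t).1 ((Pi.single s x : Fin r → M.X) t) = 0
      rw [Pi.single_eq_of_ne hts]
      exact map_zero (f t).1
    · intro h
      exact absurd (Finset.mem_univ s) h

omit [GradedAlgebra 𝒜] in
theorem Frx_eqv_apply (f : Hm (GM.pi w M) P a) (s : Fin r) (x : M.X) :
    (Frx_eqv w M P a f s).1 x = f.1 (Pi.single s x) := rfl

theorem Frx_eqv_Bd (i : ℕ) (f : Hm (GM.pi w M) (IX 𝒜 i) a) :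
    f ∈ Bd i (GM.pi w M) a ↔ ∀ s, Frx_eqv w M (IX 𝒜 i) a f s ∈ Bd i M (w s + a) := by
  cases i with
  | zero =>
    constructor
    · intro h s
      have h1 : f = 0 := (Submodule.mem_bot K).1 h
      rw [h1]
      exact zero_mem _
    · intro h
      have h1 : Frx_eqv w M (IX 𝒜 0) a f = 0 := funext fun s => (Submodule.mem_bot K).1 (h s)
      have h2 : f = 0 := (Frx_eqv w M (IX 𝒜 0) a).map_eq_zero_iff.1 h1
      rw [h2]
      exact zero_mem _
  | succ i =>
    constructor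
    · intro h s
      rw [Les_Bd] at h ⊢
      obtain ⟨k, rfl⟩ := h
      exact ⟨Frx_eqv w M (coind (IX 𝒜 i)) a k s, rfl⟩
    · intro h
      have h' : ∀ s, ∃ k, Les_post (pI (𝒜 := 𝒜) i) (pI_mem i) M (w s + a) k
          = Frx_eqv w M (IX 𝒜 (i + 1)) a f s := by
        intro s
        have := h s
        rw [Les_Bd] at this
        exact this
      choose k hk using h'
      rw [Les_Bd]
      refine ⟨(Frx_eqv w M (coind (IX 𝒜 i)) a).symm k, ?_⟩
      apply (Frx_eqv w M (IX 𝒜 (i + 1)) a).injective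
      funext s
      rw [← hk s]
      have h1 : Frx_eqv w M (IX 𝒜 (i + 1)) a (Les_post (pI (𝒜 := 𝒜) i) (pI_mem i) (GM.pi w M) a
          ((Frx_eqv w M (coind (IX 𝒜 i)) a).symm k)) s = Les_post (pI (𝒜 := 𝒜) i) (pI_mem i) M (w s + a)
            (Frx_eqv w M (coind (IX 𝒜 i)) a ((Frx_eqv w M (coind (IX 𝒜 i)) a).symm k) s) := rfl
      rw [h1, LinearEquiv.apply_symm_apply]

end pi

theorem E_pi {r : ℕ} (w : Fin r → ℤ) (M : GM 𝒜) (i : ℕ) (a : ℤ) :
    Nonempty (E i (GM.pi w M) a ≃ₗ[K] ∀ s, E i M (w s + a)) := by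
  classical
  refine ⟨(Submodule.Quotient.equiv (Bd i (GM.pi w M) a)
    (Submodule.pi Set.univ fun s => Bd i M (w s + a)) (Frx_eqv w M (IX 𝒜 i) a) ?_) ≪≫ₗ
    (Submodule.quotientPi fun s => Bd i M (w s + a))⟩
  ext g
  constructor
  · rintro ⟨f, hf, rfl⟩ s _
    exact (Frx_eqv_Bd w M a i f).1 hf s
  · intro hg
    refine ⟨(Frx_eqv w M (IX 𝒜 i) a).symm g, ?_, LinearEquiv.apply_symm_apply _ _⟩
    refine (Frx_eqv_Bd w M a i _).2 fun s => ?_
    rw [LinearEquiv.apply_symm_apply]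
    exact hg s (Set.mem_univ s)

end Pool.Agent.NAS
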