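import Pool.Agent.Lib_helper19.NAS.Defs3

/-!
# Numerical lemmas (MP_ef4bac_al, project NAS, block Num)
-/

set_option autoImplicit false

namespace Pool.Agent.NAS

open Module Filter Topology

universe u

theorem N_adm_of_le {f g : ℤ → ℕ} (hg : Adm g) (h : ∀ a, f a ≤ g a) : Adm f := by
  obtain ⟨N, C, r, h1, h2⟩ := hg
  refine ⟨N, C, r, fun a ha => ?_, fun a => le_trans ?_ (h2 a)⟩
  · have := h a
    rw [h1 a ha] at this
    exact Nat.le_zero.1 this
  · exact_mod_cast h a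

theorem Num_one_le (a : ℤ) : (1 : ℝ) ≤ |(a : ℝ)| + 1 := by
  have := abs_nonneg (a : ℝ)
  linarith

theorem N_adm_add {f g : ℤ → ℕ} (hf : Adm f) (hg : Adm g) : Adm (fun a => f a + g a) := by
  obtain ⟨N, C, r, h1, h2⟩ := hf
  obtain ⟨N', C', r', h1', h2'⟩ := hg
  refine ⟨max N N', C + C', max r r', fun a ha => ?_, fun a => ?_⟩
  · show f a + g a = 0
    rw [h1 a (by push_cast at ha; omega), h1' a (by push_cast at ha; omega)]
  · have e1 : (|(a : ℝ)| + 1) ^ r ≤ (|(a : ℝ)| + 1) ^ (max r r') :=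
      pow_le_pow_right₀ (Num_one_le a) (le_max_left _ _)
    have e2 : (|(a : ℝ)| + 1) ^ r' ≤ (|(a : ℝ)| + 1) ^ (max r r') :=
      pow_le_pow_right₀ (Num_one_le a) (le_max_right _ _)
    have e3 := h2 a
    have e4 := h2' a
    push_cast
    have e5 : (C : ℝ) * (|(a : ℝ)| + 1) ^ r ≤ C * (|(a : ℝ)| + 1) ^ (max r r') :=
      mul_le_mul_of_nonneg_left e1 (Nat.cast_nonneg _)
    have e6 : (C' : ℝ) * (|(a : ℝ)| + 1) ^ r' ≤ C' * (|(a : ℝ)| + 1) ^ (max r r') :=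
      mul_le_mul_of_nonneg_left e2 (Nat.cast_nonneg _)
    linarith

theorem Num_adm_zero : Adm (fun _ => 0) :=
  ⟨0, 0, 0, fun _ _ => rfl, fun a => by simp⟩

theorem N_adm_sum {ι : Type*} (s : Finset ι) {f : ι → ℤ → ℕ} (h : ∀ i ∈ s, Adm (f i)) :
    Adm (fun a => ∑ i ∈ s, f i a) := by
  classical
  induction s using Finset.induction_on with
  | empty => simpa using Num_adm_zero
  | insert i s hi ih =>
    simp only [Finset.sum_insert hi]
    exact N_adm_add (h i (Finset.mem_insert_self _ _))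
      (ih fun j hj => h j (Finset.mem_insert_of_mem hj))

theorem N_adm_shift {f : ℤ → ℕ} (hf : Adm f) (c : ℤ) : Adm (fun a => f (a + c)) := by
  obtain ⟨N, C, r, h1, h2⟩ := hf
  refine ⟨N + c.natAbs, C * (c.natAbs + 1) ^ r, r, fun a ha => ?_, fun a => ?_⟩
  · refine h1 _ ?_
    push_cast at ha
    have := le_abs_self c
    omega
  · refine (h2 (a + c)).trans ?_
    push_cast
    rw [mul_assoc, ← mul_pow]
    refine mul_le_mul_of_nonneg_left ?_ (Nat.cast_nonneg _)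
    refine pow_le_pow_left₀ (by positivity) ?_ r
    have e1 : ((c.natAbs : ℕ) : ℝ) = |(c : ℝ)| := by
      rw [Nat.cast_natAbs, Int.cast_abs]
    rw [e1]
    have e2 := abs_add_le (a : ℝ) (c : ℝ)
    have e3 := abs_nonneg (a : ℝ)
    have e4 := abs_nonneg (c : ℝ)
    nlinarith

theorem N_adm_fs {f : ℤ → ℕ} (hf : FS f) : Adm f := by
  classical
  have hf' : (Function.support f).Finite := hf
  refine ⟨hf'.toFinset.sup fun a => a.natAbs, hf'.toFinset.sup f, 0, fun a ha => ?_,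
    fun a => ?_⟩
  · by_contra h
    have h1 : a ∈ hf'.toFinset := by
      rw [Set.Finite.mem_toFinset]
      exact h
    have h2 : a.natAbs ≤ hf'.toFinset.sup fun a => a.natAbs :=
      Finset.le_sup (f := fun a : ℤ => a.natAbs) h1
    omega
  · rw [pow_zero, mul_one]
    by_cases h : f a = 0
    · rw [h, Nat.cast_zero]
      exact Nat.cast_nonneg _
    · have h1 : a ∈ hf'.toFinset := by
        rw [Set.Finite.mem_toFinset]
        exact h
      exact_mod_cast Finset.le_sup (f := f) h1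

theorem N_summable {f : ℤ → ℕ} (hf : Adm f) {t : ℝ} (h0 : 0 < t) (h1 : t < 1) :
    Summable (fun a : ℤ => (f a : ℝ) * t ^ a) := by
  obtain ⟨N, C, r, e1, e2⟩ := hf
  have hi : Function.Injective (fun n : ℕ => (n : ℤ) - N) := by
    intro a b hab
    simpa using hab
  rw [← hi.summable_iff]
  · have s1 : Summable (fun n : ℕ => ((n : ℝ)) ^ r * t ^ n) :=
      summable_pow_mul_geometric_of_norm_lt_one r (by
        rw [Real.norm_eq_abs, abs_of_pos h0]; exact h1)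
    have s2 : Summable (fun n : ℕ => (((n + 1 : ℕ) : ℝ)) ^ r * t ^ (n + 1)) :=
      (summable_nat_add_iff (f := fun n : ℕ => ((n : ℝ)) ^ r * t ^ n) 1).2 s1
    have s3 := s2.mul_left (C * (N + 1 : ℝ) ^ r * (t ^ (-(N : ℤ)) * t⁻¹))
    refine Summable.of_nonneg_of_le (fun n => ?_) (fun n => ?_) s3
    · show 0 ≤ (f ((n : ℤ) - N) : ℝ) * t ^ ((n : ℤ) - N)
      positivity
    · show (f ((n : ℤ) - N) : ℝ) * t ^ ((n : ℤ) - N) ≤ _
      have e3 := e2 ((n : ℤ) - N)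
      have e4 : t ^ ((n : ℤ) - N) = t ^ (-(N : ℤ)) * t⁻¹ * t ^ (n + 1) := by
        rw [sub_eq_add_neg, zpow_add₀ h0.ne', zpow_natCast, pow_succ]
        field_simp
      rw [e4]
      have e5 : (|(((n : ℤ) - N : ℤ) : ℝ)| + 1) ^ r ≤ ((N + 1 : ℝ) * ((n + 1 : ℕ) : ℝ)) ^ r := by
        refine pow_le_pow_left₀ (by positivity) ?_ r
        push_cast
        have e6 : |(n : ℝ) - N| ≤ n + N := by
          rw [abs_le]
          constructor <;> [skip; skip] <;>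
            linarith [(Nat.cast_nonneg n : (0 : ℝ) ≤ n), (Nat.cast_nonneg N : (0 : ℝ) ≤ N)]
        nlinarith [(Nat.cast_nonneg n : (0 : ℝ) ≤ n), (Nat.cast_nonneg N : (0 : ℝ) ≤ N)]
      rw [mul_pow] at e5
      have e7 : (0 : ℝ) ≤ t ^ (-(N : ℤ)) * t⁻¹ * t ^ (n + 1) := by positivity
      calc (f ((n : ℤ) - N) : ℝ) * (t ^ (-(N : ℤ)) * t⁻¹ * t ^ (n + 1))
          ≤ (C * ((N + 1 : ℝ) ^ r * ((n + 1 : ℕ) : ℝ) ^ r))
            * (t ^ (-(N : ℤ)) * t⁻¹ * t ^ (n + 1)) := by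
            refine mul_le_mul_of_nonneg_right (e3.trans ?_) e7
            exact mul_le_mul_of_nonneg_left e5 (Nat.cast_nonneg _)
        _ = _ := by ring
  · intro x hx
    have : f x = 0 := by
      refine e1 x ?_
      by_contra hh
      push Not at hh
      refine hx ⟨(x + N).toNat, ?_⟩
      show (((x + N).toNat : ℕ) : ℤ) - N = x
      rw [Int.toNat_of_nonneg (by omega)]
      ring
    simp [this]

theorem N_nonneg (f : ℤ → ℕ) {t : ℝ} (h0 : 0 < t) : 0 ≤ HH f t :=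
  tsum_nonneg fun a => by positivity

theorem N_add {f g : ℤ → ℕ} (hf : Adm f) (hg : Adm g) {t : ℝ} (h0 : 0 < t) (h1 : t < 1) :
    HH (fun a => f a + g a) t = HH f t + HH g t := by
  unfold HH
  rw [← (N_summable hf h0 h1).tsum_add (N_summable hg h0 h1)]
  refine tsum_congr fun a => ?_
  push_cast
  ring

theorem Num_zero (t : ℝ) : HH (fun _ => 0) t = 0 := by
  unfold HH
  simp

theorem N_sum {ι : Type*} (s : Finset ι) {f : ι → ℤ → ℕ} (h : ∀ i ∈ s, Adm (f i)) {t : ℝ}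
    (h0 : 0 < t) (h1 : t < 1) : HH (fun a => ∑ i ∈ s, f i a) t = ∑ i ∈ s, HH (f i) t := by
  classical
  induction s using Finset.induction_on with
  | empty => simpa using Num_zero t
  | insert i s hi ih =>
    simp only [Finset.sum_insert hi]
    rw [N_add (h i (Finset.mem_insert_self _ _))
      (N_adm_sum s fun j hj => h j (Finset.mem_insert_of_mem hj)) h0 h1,
      ih fun j hj => h j (Finset.mem_insert_of_mem hj)]

theorem N_mono {f g : ℤ → ℕ} (hg : Adm g) (h : ∀ a, f a ≤ g a) {t : ℝ} (h0 : 0 < t)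
    (h1 : t < 1) : HH f t ≤ HH g t := by
  refine (N_summable (N_adm_of_le hg h) h0 h1).tsum_le_tsum (fun a => ?_) (N_summable hg h0 h1)
  refine mul_le_mul_of_nonneg_right ?_ (by positivity)
  exact_mod_cast h a

theorem N_shift (f : ℤ → ℕ) (c : ℤ) {t : ℝ} (h0 : 0 < t) :
    HH (fun a => f (a + c)) t = t ^ (-c) * HH f t := by
  unfold HH
  rw [← (Equiv.addRight c).tsum_eq (fun a : ℤ => (f a : ℝ) * t ^ a), ← tsum_mul_left]
  refine tsum_congr fun a => ?_
  show (f (a + c) : ℝ) * t ^ a = t ^ (-c) * ((f (a + c) : ℝ) * t ^ (a + c))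
  have h1 : t ^ a = t ^ (-c) * t ^ (a + c) := by
    rw [← zpow_add₀ h0.ne']
    congr 1
    ring
  rw [h1]
  ring

theorem N_pos {f : ℤ → ℕ} (hf : Adm f) {a : ℤ} (ha : f a ≠ 0) {t : ℝ} (h0 : 0 < t) (h1 : t < 1) :
    0 < HH f t := by
  refine (N_summable hf h0 h1).tsum_pos (fun b => by positivity) a ?_
  have : (0 : ℝ) < f a := by exact_mod_cast Nat.pos_of_ne_zero ha
  positivity

theorem Num_ev : ∀ᶠ t in 𝓝[<] (1 : ℝ), 0 < t ∧ t < 1 := by
  have h1 : ∀ᶠ t in 𝓝[<] (1 : ℝ), t ∈ Set.Ioo (0 : ℝ) 1 := Ioo_mem_nhdsLT (by norm_num)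
  exact h1

theorem Num_zpow (e : ℤ) : Tendsto (fun t : ℝ => t ^ e) (𝓝[<] (1 : ℝ)) (𝓝 1) := by
  have h1 : ContinuousAt (fun t : ℝ => t ^ e) 1 := continuousAt_zpow₀ 1 e (Or.inl one_ne_zero)
  have h2 : Tendsto (fun t : ℝ => t ^ e) (𝓝 1) (𝓝 1) := by
    simpa using h1.tendsto
  exact h2.mono_left nhdsWithin_le_nhds

theorem N_sml_zero (φ : ℝ → ℝ) : Sml φ (fun _ => 0) := by
  unfold Sml
  simp only [Num_zero, zero_div]
  exact tendsto_const_nhds

theorem N_sml_of_le {φ : ℝ → ℝ} (hφ : ∀ᶠ t in 𝓝[<] (1 : ℝ), 0 < φ t) {f g : ℤ → ℕ} (hg : Adm g)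
    (h : ∀ a, f a ≤ g a) (hs : Sml φ g) : Sml φ f := by
  refine squeeze_zero' ?_ ?_ hs
  · filter_upwards [hφ, Num_ev] with t ht h2
    exact div_nonneg (N_nonneg f h2.1) ht.le
  · filter_upwards [hφ, Num_ev] with t ht h2
    exact div_le_div_of_nonneg_right (N_mono hg h h2.1 h2.2) ht.le

theorem N_sml_add {φ : ℝ → ℝ} {f g : ℤ → ℕ} (hf : Adm f) (hg : Adm g) (h1 : Sml φ f)
    (h2 : Sml φ g) : Sml φ (fun a => f a + g a) := by
  have h3 := Tendsto.add h1 h2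
  rw [add_zero] at h3
  refine h3.congr' ?_
  filter_upwards [Num_ev] with t ht
  rw [N_add hf hg ht.1 ht.2, add_div]

theorem N_sml_sum {φ : ℝ → ℝ} {ι : Type*} (s : Finset ι) {f : ι → ℤ → ℕ}
    (h : ∀ i ∈ s, Adm (f i)) (hs : ∀ i ∈ s, Sml φ (f i)) : Sml φ (fun a => ∑ i ∈ s, f i a) := by
  classical
  induction s using Finset.induction_on with
  | empty => simpa using N_sml_zero φ
  | insert i s hi ih =>
    simp only [Finset.sum_insert hi]
    exact N_sml_add (h i (Finset.mem_insert_self _ _))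
      (N_adm_sum s fun j hj => h j (Finset.mem_insert_of_mem hj))
      (hs i (Finset.mem_insert_self _ _))
      (ih (fun j hj => h j (Finset.mem_insert_of_mem hj))
        (fun j hj => hs j (Finset.mem_insert_of_mem hj)))

theorem N_sml_shift {φ : ℝ → ℝ} {f : ℤ → ℕ} (c : ℤ) (hs : Sml φ f) :
    Sml φ (fun a => f (a + c)) := by
  have h1 := (Num_zpow (-c)).mul hs
  rw [mul_zero] at h1
  refine h1.congr' ?_
  filter_upwards [Num_ev] with t ht
  rw [N_shift f c ht.1, mul_div_assoc]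

theorem N_bdd_of_le {φ : ℝ → ℝ} {f g : ℤ → ℕ} (hg : Adm g)
    (h : ∀ a, f a ≤ g a) (hs : Bdd φ g) : Bdd φ f := by
  obtain ⟨B, hB⟩ := hs
  refine ⟨B, ?_⟩
  filter_upwards [hB, Num_ev] with t ht h2
  exact (N_mono hg h h2.1 h2.2).trans ht

theorem N_bdd_add {φ : ℝ → ℝ} {f g : ℤ → ℕ} (hf : Adm f) (hg : Adm g) (h1 : Bdd φ f)
    (h2 : Bdd φ g) : Bdd φ (fun a => f a + g a) := by
  obtain ⟨B, hB⟩ := h1
  obtain ⟨B', hB'⟩ := h2
  refine ⟨B + B', ?_⟩
  filter_upwards [hB, hB', Num_ev] with t ht ht' h2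
  rw [N_add hf hg h2.1 h2.2]
  linarith

theorem N_bdd_sum {φ : ℝ → ℝ} {ι : Type*} (s : Finset ι) {f : ι → ℤ → ℕ}
    (h : ∀ i ∈ s, Adm (f i)) (hs : ∀ i ∈ s, Bdd φ (f i)) : Bdd φ (fun a => ∑ i ∈ s, f i a) := by
  classical
  induction s using Finset.induction_on with
  | empty =>
    refine ⟨0, Eventually.of_forall fun t => ?_⟩
    simp only [Finset.sum_empty, zero_mul]
    exact (Num_zero t).le
  | insert i s hi ih =>
    simp only [Finset.sum_insert hi]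
    exact N_bdd_add (h i (Finset.mem_insert_self _ _))
      (N_adm_sum s fun j hj => h j (Finset.mem_insert_of_mem hj))
      (hs i (Finset.mem_insert_self _ _))
      (ih (fun j hj => h j (Finset.mem_insert_of_mem hj))
        (fun j hj => hs j (Finset.mem_insert_of_mem hj)))

theorem N_bdd_shift {φ : ℝ → ℝ} {f : ℤ → ℕ} (c : ℤ) (hs : Bdd φ f) :
    Bdd φ (fun a => f (a + c)) := by
  obtain ⟨B, hB⟩ := hs
  refine ⟨2 * B, ?_⟩
  have h1 : ∀ᶠ t in 𝓝[<] (1 : ℝ), t ^ (-c) < 2 :=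
    (Num_zpow (-c)).eventually (gt_mem_nhds (by norm_num))
  filter_upwards [hB, Num_ev, h1] with t ht h2 h3
  rw [N_shift f c h2.1]
  have h4 := N_nonneg f h2.1
  have h5 : (0 : ℝ) < t ^ (-c) := zpow_pos h2.1 _
  nlinarith

theorem N_sml_bdd {φ : ℝ → ℝ} (hφ : ∀ᶠ t in 𝓝[<] (1 : ℝ), 0 < φ t) {f : ℤ → ℕ}
    (hs : Sml φ f) : Bdd φ f := by
  refine ⟨1, ?_⟩
  have h1 : ∀ᶠ t in 𝓝[<] (1 : ℝ), HH f t / φ t < 1 := hs.eventually (gt_mem_nhds (by norm_num))
  filter_upwards [hφ, h1] with t ht h2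
  rw [div_lt_one ht] at h2
  linarith

theorem Num_bdd_mul {φ : ℝ → ℝ} (hφ : ∀ᶠ t in 𝓝[<] (1 : ℝ), 0 < φ t) {f : ℤ → ℕ}
    (hb : Bdd φ f) (e : ℤ) :
    Tendsto (fun t : ℝ => (1 - t ^ e) * (HH f t / φ t)) (𝓝[<] (1 : ℝ)) (𝓝 0) := by
  obtain ⟨B, hB⟩ := hb
  have h1 : Tendsto (fun t : ℝ => (1 - t ^ e)) (𝓝[<] (1 : ℝ)) (𝓝 0) := by
    have := (tendsto_const_nhds (x := (1 : ℝ))).sub (Num_zpow e)
    rwa [sub_self] at this
  refine h1.zero_mul_isBoundedUnder_le ?_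
  refine ⟨B, ?_⟩
  rw [eventually_map]
  filter_upwards [hφ, hB, Num_ev] with t ht h2 h3
  show ‖HH f t / φ t‖ ≤ B
  rw [Real.norm_eq_abs, abs_of_nonneg (div_nonneg (N_nonneg f h3.1) ht.le), div_le_iff₀ ht]
  exact h2

/-- The dimensions `f` of a module, `k` of the kernel and `c` of the cokernel of a map of
degree `e`: if `k` is small and `f` is bounded then `c` is small. -/
theorem N_kc {φ : ℝ → ℝ} (hφ : ∀ᶠ t in 𝓝[<] (1 : ℝ), 0 < φ t) {f c k : ℤ → ℕ} (hf : Adm f)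
    (hc : Adm c) (hk : Adm k) (hb : Bdd φ f) (hs : Sml φ k) (e : ℤ)
    (h : ∀ a, c (a + e) + f a = f (a + e) + k a) : Sml φ c := by
  have h1 := (Num_bdd_mul hφ hb e).add ((Num_zpow e).mul hs)
  rw [mul_zero, add_zero] at h1
  refine h1.congr' ?_
  filter_upwards [Num_ev] with t ht
  have h2 : HH (fun a => c (a + e) + f a) t = HH (fun a => f (a + e) + k a) t := by
    congr 1
    funext a
    exact h a
  rw [N_add (N_adm_shift hc e) hf ht.1 ht.2, N_add (N_adm_shift hf e) hk ht.1 ht.2,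
    N_shift c e ht.1, N_shift f e ht.1] at h2
  have h3 : (0 : ℝ) < t ^ e := zpow_pos ht.1 _
  have h4 : t ^ (-e) = (t ^ e)⁻¹ := zpow_neg _ _
  rw [h4] at h2
  have h5 : HH c t = (1 - t ^ e) * HH f t + t ^ e * HH k t := by
    field_simp at h2
    linarith
  rw [h5]
  ring

/-- The same for the quotient by the submodule generated by a regular element. -/
theorem N_quot {φ : ℝ → ℝ} (hφ : ∀ᶠ t in 𝓝[<] (1 : ℝ), 0 < φ t) {f c : ℤ → ℕ} (hf : Adm f)
    (hc : Adm c) (hb : Bdd φ f) (e : ℤ) (h : ∀ a, c a + f (a - e) = f a) : Sml φ c := by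
  refine (Num_bdd_mul hφ hb e).congr' ?_
  filter_upwards [Num_ev] with t ht
  have h2 : HH (fun a => c a + f (a + -e)) t = HH f t := by
    congr 1
    funext a
    exact h a
  rw [N_add hc (N_adm_shift hf (-e)) ht.1 ht.2, N_shift f (-e) ht.1, neg_neg] at h2
  have h5 : HH c t = (1 - t ^ e) * HH f t := by linarith
  rw [h5]
  ring

end Pool.Agent.NAS
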