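import Pool.Agent.Lib_helper19.NAS.Defs3
import Pool.Agent.Lib_helper19.NAS.B.Num
import Pool.Agent.Lib_helper19.NAS.B.Tool

/-!
# Hilbert functions (MP_ef4bac_al, project NAS, block Hil)
-/

set_option autoImplicit false

namespace Pool.Agent.NAS

open Module Filter Topology

universe u

variable {K A : Type u} [Field K] [Ring A] [Algebra K A] {𝒜 : ℕ → Submodule K A}
  [GradedAlgebra 𝒜]

/-- The pieces of a direct sum. -/
def Hil_e {r : ℕ} (w : Fin r → ℤ) (M : GM 𝒜) (n : ℤ) :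
    (GM.pi w M).dg n ≃ₗ[K] ((s : Fin r) → M.dg (n - w s)) where
  toFun x s := ⟨x.1 s, GM.mem_dg.2 (congrFun (GM.pr_dg x.2) s)⟩
  map_add' _ _ := rfl
  map_smul' _ _ := rfl
  invFun y := ⟨fun s => (y s).1, GM.mem_dg.2 (funext fun s => GM.pr_dg (y s).2)⟩
  left_inv _ := rfl
  right_inv _ := rfl

set_option linter.unusedSectionVars false in
theorem H_pi_fin {r : ℕ} (w : Fin r → ℤ) (M : GM 𝒜) (hM : ∀ n, Module.Finite K (M.dg n))
    (n : ℤ) : Module.Finite K ((GM.pi w M).dg n) := by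
  have : ∀ s, Module.Finite K (M.dg (n - w s)) := fun s => hM _
  exact Module.Finite.equiv (Hil_e w M n).symm

set_option linter.unusedSectionVars false in
theorem H_pi {r : ℕ} (w : Fin r → ℤ) (M : GM 𝒜) (hM : ∀ n, Module.Finite K (M.dg n)) (n : ℤ) :
    (GM.pi w M).hil n = ∑ s, M.hil (n - w s) := by
  have : ∀ s, Module.Finite K (M.dg (n - w s)) := fun s => hM _
  unfold GM.hil
  rw [(Hil_e w M n).finrank_eq, Module.finrank_pi_fintype]

theorem Hil_dgA (n : ℤ) : (AsA 𝒜).dg n = hA 𝒜 n := by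
  ext x
  exact prA_dg

theorem Hil_finA (fin : ∀ n, Module.Finite K (𝒜 n)) (n : ℤ) : Module.Finite K ((AsA 𝒜).dg n) := by
  rw [Hil_dgA]
  rcases le_or_gt 0 n with h | h
  · lift n to ℕ using h
    rw [hA_nat]
    exact fin n
  · rw [hA_neg h]
    infer_instance

/-- The map on the pieces. -/
def Hil_map {M N : GM 𝒜} (f : M.X →ₗ[A] N.X) (hf : f ∈ Hm M N 0) (n : ℤ) : M.dg n →ₗ[K] N.dg n where
  toFun x := ⟨f x.1, by have := Hm_dg hf x.2; rwa [add_zero] at this⟩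
  map_add' x y := Subtype.ext (map_add f x.1 y.1)
  map_smul' c x := Subtype.ext ((f.restrictScalars K).map_smul c x.1)

set_option linter.unusedSectionVars false in
theorem Hil_map_surj {M N : GM 𝒜} (f : M.X →ₗ[A] N.X) (hf : f ∈ Hm M N 0)
    (hs : Function.Surjective f) (n : ℤ) : Function.Surjective (Hil_map f hf n) := by
  rintro ⟨y, hy⟩
  obtain ⟨x, rfl⟩ := hs y
  refine ⟨⟨M.pr n x, M.pr_mem n x⟩, Subtype.ext ?_⟩
  show f (M.pr n x) = f x
  rw [hf, add_zero, GM.pr_dg hy]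

theorem H_fin (fin : ∀ n, Module.Finite K (𝒜 n)) (M : GM 𝒜) (hM : Module.Finite A M.X) (n : ℤ) :
    Module.Finite K (M.dg n) := by
  obtain ⟨r, w, f, hf, hs⟩ := cover M hM
  have := H_pi_fin w (AsA 𝒜) (Hil_finA fin) n
  exact Module.Finite.of_surjective (Hil_map f hf n) (Hil_map_surj f hf hs n)

theorem H_low (M : GM 𝒜) (hM : Module.Finite A M.X) : ∃ n0 : ℤ, ∀ n < n0, M.dg n = ⊥ := by
  obtain ⟨r, w, f, hf, hs⟩ := cover M hM
  refine ⟨-∑ s, |w s|, fun n hn => ?_⟩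
  rw [Submodule.eq_bot_iff]
  intro y hy
  obtain ⟨⟨x, hx⟩, hxy⟩ := Hil_map_surj f hf hs n ⟨y, hy⟩
  have h1 : f x = y := congrArg Subtype.val hxy
  have h2 : x = 0 := by
    funext s
    have h3 : prA 𝒜 (n - w s) (x s) = x s := congrFun (GM.pr_dg hx) s
    have h4 : n - w s < 0 := by
      have h5 : |w s| ≤ ∑ s, |w s| :=
        Finset.single_le_sum (f := fun s => |w s|) (fun i _ => abs_nonneg _) (Finset.mem_univ s)
      have h6 := neg_abs_le (w s)
      linarith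
    rw [← h3, prA_neg 𝒜 h4]
    rfl
  rw [← h1, h2, map_zero]

theorem Hil_admA (grow : ∃ C m : ℕ, ∀ s, finrank K (𝒜 s) ≤ C * (s + 1) ^ m) :
    Adm (AsA 𝒜).hil := by
  obtain ⟨C, m, h⟩ := grow
  refine ⟨0, C, m, fun a ha => ?_, fun a => ?_⟩
  · unfold GM.hil
    rw [Hil_dgA, hA_neg (by simpa using ha), finrank_bot]
  · unfold GM.hil
    rw [Hil_dgA]
    rcases le_or_gt 0 a with h0 | h0
    · lift a to ℕ using h0
      rw [hA_nat]
      have h1 : |((a : ℤ) : ℝ)| = (a : ℝ) := by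
        rw [Int.cast_natCast]
        exact abs_of_nonneg (Nat.cast_nonneg _)
      rw [h1]
      exact_mod_cast h a
    · rw [hA_neg h0, finrank_bot, Nat.cast_zero]
      positivity

theorem Hil_adm_pi (grow : ∃ C m : ℕ, ∀ s, finrank K (𝒜 s) ≤ C * (s + 1) ^ m)
    {r : ℕ} (w : Fin r → ℤ) : Adm (fun n => ∑ s, (AsA 𝒜).hil (n - w s)) :=
  N_adm_sum _ fun s _ => N_adm_shift (Hil_admA grow) (-w s)

theorem H_adm (fin : ∀ n, Module.Finite K (𝒜 n))
    (grow : ∃ C m : ℕ, ∀ s, finrank K (𝒜 s) ≤ C * (s + 1) ^ m) (M : GM 𝒜)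
    (hM : Module.Finite A M.X) : Adm M.hil := by
  obtain ⟨r, w, f, hf, hs⟩ := cover M hM
  refine N_adm_of_le (Hil_adm_pi grow w) fun n => ?_
  rw [← H_pi w (AsA 𝒜) (Hil_finA fin) n]
  have := H_pi_fin w (AsA 𝒜) (Hil_finA fin) n
  exact LinearMap.finrank_le_finrank_of_surjective (Hil_map_surj f hf hs n)

theorem H_ses {L M N : GM 𝒜} (S : SES L M N) (n : ℤ) (hM : Module.Finite K (M.dg n)) :
    M.hil n = L.hil n + N.hil n := by
  have h1 := LinearMap.finrank_range_add_finrank_ker (Hil_map S.g S.hg n)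
  have h2 : finrank K (LinearMap.range (Hil_map S.g S.hg n)) = finrank K (N.dg n) := by
    rw [LinearMap.range_eq_top.2 (Hil_map_surj S.g S.hg S.surj n), finrank_top]
  have h3 : LinearMap.ker (Hil_map S.g S.hg n) = LinearMap.range (Hil_map S.f S.hf n) := by
    ext ⟨x, hx⟩
    constructor
    · intro h
      have h4 : S.g x = 0 := congrArg Subtype.val h
      have h5 : x ∈ LinearMap.range S.f := by
        rw [S.ex]
        exact h4
      obtain ⟨y, hy⟩ := h5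
      refine ⟨⟨L.pr n y, L.pr_mem n y⟩, Subtype.ext ?_⟩
      show S.f (L.pr n y) = x
      rw [S.hf, add_zero, hy, GM.pr_dg hx]
    · rintro ⟨⟨y, hy⟩, h⟩
      have h4 : S.f y = x := congrArg Subtype.val h
      refine Subtype.ext ?_
      show S.g x = 0
      have h5 : x ∈ LinearMap.ker S.g := by
        rw [← S.ex]
        exact ⟨y, h4⟩
      exact h5
  have h6 : Function.Injective (Hil_map S.f S.hf n) := by
    rintro ⟨x, hx⟩ ⟨y, hy⟩ h
    exact Subtype.ext (S.inj (congrArg Subtype.val h))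
  rw [h2, h3, LinearMap.finrank_range_of_inj h6] at h1
  unfold GM.hil
  omega

set_option linter.unusedSectionVars false in
theorem Hil_sub_congr (M : GM 𝒜) {N N' : Submodule A M.X} (h : M.Hom N) (h' : M.Hom N')
    (e : N = N') : (M.sub N h).hil = (M.sub N' h').hil := by
  subst e
  rfl

/-- The boundaries of a complex of free modules. -/
@[reducible] noncomputable def Hil_G (P : MC 𝒜) (i : ℕ) : GM 𝒜 :=
  (Fre 𝒜 (P.w i)).sub (LinearMap.range (P.bd i)) (range_hom (P.bd_mem i))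

theorem Hil_step0 (fin : ∀ n, Module.Finite K (𝒜 n)) {P : MC 𝒜} {M : GM 𝒜} {d : ℕ}
    (R : Res P M d) (n : ℤ) :
    (Fre 𝒜 (P.w 0)).hil n = (Hil_G P 0).hil n + M.hil n := by
  obtain ⟨S⟩ := SES_ker (M := Fre 𝒜 (P.w 0)) R.ε R.hε R.surj
  have h1 := H_ses S n (H_pi_fin _ _ (Hil_finA fin) n)
  have h2 := Hil_sub_congr (Fre 𝒜 (P.w 0)) (range_hom (P.bd_mem 0)) (ker_hom R.hε) R.ex0
  rw [h1, ← h2]

theorem Hil_step (fin : ∀ n, Module.Finite K (𝒜 n)) {P : MC 𝒜} {M : GM 𝒜} {d : ℕ}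
    (R : Res P M d) (i : ℕ) (n : ℤ) :
    (Fre 𝒜 (P.w (i + 1))).hil n = (Hil_G P (i + 1)).hil n + (Hil_G P i).hil n := by
  have hm : (P.bd i).rangeRestrict ∈ Hm (Fre 𝒜 (P.w (i + 1))) (Hil_G P i) 0 := by
    intro n x
    exact Subtype.ext (P.bd_mem i n x)
  obtain ⟨S⟩ := SES_ker (M := Fre 𝒜 (P.w (i + 1))) (N := Hil_G P i) (P.bd i).rangeRestrict hm
    (P.bd i).surjective_rangeRestrict
  have h1 := H_ses S n (H_pi_fin _ _ (Hil_finA fin) n)
  have h2 := Hil_sub_congr (Fre 𝒜 (P.w (i + 1))) (range_hom (P.bd_mem (i + 1))) (ker_hom hm)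
    ((R.ex i).trans (LinearMap.ker_rangeRestrict _).symm)
  rw [h1, ← h2]

theorem Hil_Gzero {P : MC 𝒜} {M : GM 𝒜} {d : ℕ} (R : Res P M d) (n : ℤ) :
    (Hil_G P d).hil n = 0 := by
  have h1 : P.n (d + 1) = 0 := R.zero (d + 1) (Nat.lt_succ_self d)
  have : IsEmpty (Fin (P.n (d + 1))) := by
    rw [h1]
    infer_instance
  have h2 : ∀ x ∈ (Hil_G P d).dg n, x = 0 := by
    rintro ⟨x, y, rfl⟩ _
    refine Subtype.ext ?_
    show P.bd d y = 0
    have : y = 0 := Subsingleton.elim _ _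
    rw [this, map_zero]
  have h3 : (Hil_G P d).dg n = ⊥ := (Submodule.eq_bot_iff _).2 h2
  unfold GM.hil
  rw [h3, finrank_bot]

theorem Hil_G_adm (fin : ∀ n, Module.Finite K (𝒜 n))
    (grow : ∃ C m : ℕ, ∀ s, finrank K (𝒜 s) ≤ C * (s + 1) ^ m) (P : MC 𝒜) (i : ℕ) :
    Adm (Hil_G P i).hil := by
  refine N_adm_of_le (Hil_adm_pi grow (P.w i)) fun n => ?_
  rw [← H_pi (P.w i) (AsA 𝒜) (Hil_finA fin) n]
  have := H_pi_fin (P.w i) (AsA 𝒜) (Hil_finA fin) n
  have hm : (LinearMap.range (P.bd i)).subtype ∈ Hm (Hil_G P i) (Fre 𝒜 (P.w i)) 0 := by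
    intro n x
    rw [add_zero]
    rfl
  refine LinearMap.finrank_le_finrank_of_injective
    (f := Hil_map (M := Hil_G P i) (N := Fre 𝒜 (P.w i)) (LinearMap.range (P.bd i)).subtype hm n) ?_
  intro x y h
  have h2 : ((x.1 : LinearMap.range (P.bd i)) : Fin (P.n i) → A)
      = ((y.1 : LinearMap.range (P.bd i)) : Fin (P.n i) → A) :=
    congrArg (fun z : (Fre 𝒜 (P.w i)).dg n => z.1) h
  have h3 : (x.1 : LinearMap.range (P.bd i)) = y.1 := Subtype.ext h2
  exact Subtype.ext h3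

theorem Hil_fre (fin : ∀ n, Module.Finite K (𝒜 n))
    (grow : ∃ C m : ℕ, ∀ s, finrank K (𝒜 s) ≤ C * (s + 1) ^ m) {r : ℕ} (w : Fin r → ℤ)
    {t : ℝ} (h0 : 0 < t) (h1 : t < 1) :
    HH (Fre 𝒜 w).hil t = (∑ s, t ^ (w s)) * HH (AsA 𝒜).hil t := by
  have h2 : (Fre 𝒜 w).hil = fun n => ∑ s, (AsA 𝒜).hil (n + -w s) := by
    funext n
    exact H_pi w (AsA 𝒜) (Hil_finA fin) n
  rw [h2, N_sum _ (fun s _ => N_adm_shift (Hil_admA grow) (-w s)) h0 h1, Finset.sum_mul]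
  refine Finset.sum_congr rfl fun s _ => ?_
  rw [N_shift _ _ h0, neg_neg]

theorem H_res (fin : ∀ n, Module.Finite K (𝒜 n))
    (grow : ∃ C m : ℕ, ∀ s, finrank K (𝒜 s) ≤ C * (s + 1) ^ m) {P : MC 𝒜} {M : GM 𝒜} {d : ℕ}
    (R : Res P M d) {t : ℝ} (h0 : 0 < t) (h1 : t < 1) :
    HH M.hil t = P.chi d t * HH (AsA 𝒜).hil t := by
  have hfa : ∀ i, Adm (Fre 𝒜 (P.w i)).hil := fun i => by
    have h2 : (Fre 𝒜 (P.w i)).hil = fun n => ∑ s, (AsA 𝒜).hil (n - P.w i s) := by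
      funext n
      exact H_pi (P.w i) (AsA 𝒜) (Hil_finA fin) n
    rw [h2]
    exact Hil_adm_pi grow (P.w i)
  have hMa : Adm M.hil := N_adm_of_le (hfa 0) fun n => by
    rw [Hil_step0 fin R n]
    exact Nat.le_add_left _ _
  have key : ∀ k : ℕ, HH M.hil t = ∑ i ∈ Finset.range (k + 1), (-1) ^ i * HH (Fre 𝒜 (P.w i)).hil t
      + (-1) ^ (k + 1) * HH (Hil_G P k).hil t := by
    intro k
    induction k with
    | zero =>
      have h2 : (Fre 𝒜 (P.w 0)).hil = fun n => (Hil_G P 0).hil n + M.hil n :=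
        funext fun n => Hil_step0 fin R n
      rw [Finset.sum_range_one, h2, N_add (Hil_G_adm fin grow P 0) hMa h0 h1]
      ring
    | succ k ih =>
      have h2 : (Fre 𝒜 (P.w (k + 1))).hil
          = fun n => (Hil_G P (k + 1)).hil n + (Hil_G P k).hil n :=
        funext fun n => Hil_step fin R k n
      have h3 : HH (Fre 𝒜 (P.w (k + 1))).hil t
          = HH (Hil_G P (k + 1)).hil t + HH (Hil_G P k).hil t := by
        rw [h2, N_add (Hil_G_adm fin grow P (k + 1)) (Hil_G_adm fin grow P k) h0 h1]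
      rw [Finset.sum_range_succ, ih, h3]
      ring
  have h2 := key d
  have h3 : (Hil_G P d).hil = fun _ => 0 := funext fun n => Hil_Gzero R n
  rw [h3, Num_zero, mul_zero, add_zero] at h2
  rw [h2]
  unfold MC.chi
  rw [Finset.sum_mul]
  refine Finset.sum_congr rfl fun i _ => ?_
  rw [Hil_fre fin grow (P.w i) h0 h1]
  ring

end Pool.Agent.NAS
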