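import Pool.Agent.Lib_helper19.NAS.Defs3
import Pool.Agent.Lib_helper19.NAS.B.Frx
import Pool.Agent.Lib_helper19.NAS.B.Hil

/-!
# Ext and resolutions (MP_ef4bac_al, project NAS, block Rs)
-/

set_option autoImplicit false

namespace Pool.Agent.NAS

open Module Filter Topology

universe u

/-- Two surjections with the same kernel have isomorphic targets. -/
theorem Rs_two {K V W W' : Type*} [Field K] [AddCommGroup V] [Module K V] [AddCommGroup W]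
    [Module K W] [AddCommGroup W'] [Module K W'] (f : V →ₗ[K] W) (g : V →ₗ[K] W')
    (hf : Function.Surjective f) (hg : Function.Surjective g)
    (h : ∀ x, f x = 0 ↔ g x = 0) : Nonempty (W ≃ₗ[K] W') := by
  have h1 : LinearMap.ker f = LinearMap.ker g := by
    ext x
    rw [LinearMap.mem_ker, LinearMap.mem_ker, h]
  exact ⟨(f.quotKerEquivOfSurjective hf).symm ≪≫ₗ (Submodule.quotEquivOfEq _ _ h1) ≪≫ₗ
    (g.quotKerEquivOfSurjective hg)⟩

variable {K A : Type u} [Field K] [Ring A] [Algebra K A] {𝒜 : ℕ → Submodule K A}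
  [GradedAlgebra 𝒜]

/-- The syzygies of a resolution. -/
noncomputable def Rs_Sy (P : MC 𝒜) (M : GM 𝒜) : ℕ → GM 𝒜
  | 0 => M
  | i + 1 => (Fre 𝒜 (P.w i)).sub (LinearMap.range (P.bd i)) (range_hom (P.bd_mem i))

/-- The maps onto the syzygies. -/
noncomputable def Rs_q {P : MC 𝒜} {M : GM 𝒜} {d : ℕ} (R : Res P M d) :
    (i : ℕ) → ((Fre 𝒜 (P.w i)).X →ₗ[A] (Rs_Sy P M i).X)
  | 0 => R.ε
  | i + 1 => (P.bd i).rangeRestrict

theorem Rs_q_mem {P : MC 𝒜} {M : GM 𝒜} {d : ℕ} (R : Res P M d) (i : ℕ) :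
    Rs_q R i ∈ Hm (Fre 𝒜 (P.w i)) (Rs_Sy P M i) 0 := by
  cases i with
  | zero => exact R.hε
  | succ i =>
    intro n x
    exact Subtype.ext (P.bd_mem i n x)

theorem Rs_q_surj {P : MC 𝒜} {M : GM 𝒜} {d : ℕ} (R : Res P M d) (i : ℕ) :
    Function.Surjective (Rs_q R i) := by
  cases i with
  | zero => exact R.surj
  | succ i => exact (P.bd i).surjective_rangeRestrict

theorem Rs_q_ker {P : MC 𝒜} {M : GM 𝒜} {d : ℕ} (R : Res P M d) (i : ℕ) :
    LinearMap.range (P.bd i) = LinearMap.ker (Rs_q R i) := by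
  cases i with
  | zero => exact R.ex0
  | succ i =>
    have h1 : LinearMap.ker (Rs_q R (i + 1)) = LinearMap.ker (P.bd i) :=
      LinearMap.ker_rangeRestrict (P.bd i)
    rw [h1]
    exact R.ex i

/-- The short exact sequence of a syzygy. -/
noncomputable def Rs_ses {P : MC 𝒜} {M : GM 𝒜} {d : ℕ} (R : Res P M d) (i : ℕ) :
    SES (Rs_Sy P M (i + 1)) (Fre 𝒜 (P.w i)) (Rs_Sy P M i) where
  f := (LinearMap.range (P.bd i)).subtype
  g := Rs_q R i
  hf := fun n x => by rw [add_zero]; rfl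
  hg := Rs_q_mem R i
  inj := (LinearMap.range (P.bd i)).injective_subtype
  surj := Rs_q_surj R i
  ex := (Submodule.range_subtype _).trans (Rs_q_ker R i)

theorem Rs_shift {P : MC 𝒜} {M : GM 𝒜} {d : ℕ} (R : Res P M d) (k i : ℕ) (a : ℤ) :
    Nonempty (E (k + 1) (Rs_Sy P M (i + 1)) a ≃ₗ[K] E (k + 2) (Rs_Sy P M i) a) := by
  obtain ⟨δ, h1, h2⟩ := LES_d (Rs_ses R i) (k + 1) a
  have s1 := E_free (𝒜 := 𝒜) (P.w i) k a
  have s2 := E_free (𝒜 := 𝒜) (P.w i) (k + 1) a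
  refine ⟨LinearEquiv.ofBijective δ ⟨?_, ?_⟩⟩
  · rw [← LinearMap.ker_eq_bot, ← h1, LinearMap.range_eq_bot]
    refine LinearMap.ext fun x => ?_
    rw [Subsingleton.elim x 0, map_zero, map_zero]
  · rw [← LinearMap.range_eq_top, h2, LinearMap.ker_eq_top]
    refine LinearMap.ext fun x => Subsingleton.elim _ _

theorem Rs_shifts {P : MC 𝒜} {M : GM 𝒜} {d : ℕ} (R : Res P M d) (a : ℤ) (k : ℕ) :
    ∀ i j, j = i + k → Nonempty (E (k + 1) (Rs_Sy P M i) a ≃ₗ[K] E 1 (Rs_Sy P M j) a) := by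
  induction k with
  | zero =>
    intro i j hj
    rw [add_zero] at hj
    subst hj
    exact ⟨LinearEquiv.refl K _⟩
  | succ k ih =>
    intro i j hj
    obtain ⟨e1⟩ := Rs_shift R k i a
    obtain ⟨e2⟩ := ih (i + 1) j (by omega)
    exact ⟨e1.symm ≪≫ₗ e2⟩

/-- The values at the generators. -/
noncomputable def Rs_T {P : MC 𝒜} {M : GM 𝒜} {d : ℕ} (R : Res P M d) (i : ℕ) (a : ℤ) :
    Hm (Rs_Sy P M i) (AsA 𝒜) a →ₗ[K] (Fin (P.n i) → A) where
  toFun f t := f.1 (Rs_q R i (Pi.single t (1 : A)))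
  map_add' _ _ := rfl
  map_smul' _ _ := rfl

omit [GradedAlgebra 𝒜] in
theorem Rs_bd_single (P : MC 𝒜) (i : ℕ) (s : Fin (P.n (i + 1))) :
    P.bd i (Pi.single s (1 : A)) = ∑ t, P.D (i + 1) i s t • (Pi.single t (1 : A) : Fin (P.n i) → A) := by
  funext t
  rw [Finset.sum_apply]
  show ∑ s', (Pi.single s (1 : A) : Fin (P.n (i + 1)) → A) s' * P.D (i + 1) i s' t = _
  rw [Finset.sum_eq_single s, Finset.sum_eq_single t]
  · rw [Pi.single_eq_same, Pi.smul_apply, Pi.single_eq_same, one_mul, smul_eq_mul, mul_one]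
  · intro t' _ ht
    rw [Pi.smul_apply, Pi.single_eq_of_ne (Ne.symm ht), smul_zero]
  · intro hh
    exact absurd (Finset.mem_univ t) hh
  · intro s' _ hs
    rw [Pi.single_eq_of_ne hs, zero_mul]
  · intro hh
    exact absurd (Finset.mem_univ s) hh

theorem Rs_single_mem {r : ℕ} (w : Fin r → ℤ) (t : Fin r) :
    (Pi.single t (1 : A) : Fin r → A) ∈ (Fre 𝒜 w).dg (w t) := by
  have h1 : (1 : A) ∈ (AsA 𝒜).dg 0 := prA_dg.2 one_mem_hA
  have h2 := Hm_dg (Frx_single_mem w (AsA 𝒜) t) h1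
  rw [zero_add] at h2
  exact h2

theorem Rs_T_inj {P : MC 𝒜} {M : GM 𝒜} {d : ℕ} (R : Res P M d) (i : ℕ) (a : ℤ) :
    Function.Injective (Rs_T R i a) := by
  intro f g hfg
  have h1 : f.1 ∘ₗ Rs_q R i = g.1 ∘ₗ Rs_q R i := by
    refine LinearMap.pi_ext' fun t => LinearMap.ext_ring ?_
    exact congrFun hfg t
  refine Subtype.ext (LinearMap.ext fun y => ?_)
  obtain ⟨x, rfl⟩ := Rs_q_surj R i y
  exact LinearMap.congr_fun h1 x

theorem Rs_T_Zc {P : MC 𝒜} {M : GM 𝒜} {d : ℕ} (R : Res P M d) (i : ℕ) (a : ℤ)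
    (f : Hm (Rs_Sy P M i) (AsA 𝒜) a) : Rs_T R i a f ∈ P.Zc (AsA 𝒜) i a := by
  constructor
  · intro t _
    have h1 := Hm_dg (Rs_q_mem R i) (Rs_single_mem (P.w i) t)
    have h2 := Hm_dg f.2 h1
    rw [add_zero] at h2
    exact h2
  · show P.cod (AsA 𝒜) i (Rs_T R i a f) = 0
    funext s
    rw [MC.cod_apply]
    show ∑ t, P.D (i + 1) i s t • f.1 (Rs_q R i (Pi.single t (1 : A))) = 0
    have h1 : Rs_q R i (P.bd i (Pi.single s (1 : A))) = 0 := by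
      have : P.bd i (Pi.single s (1 : A)) ∈ LinearMap.ker (Rs_q R i) := by
        rw [← Rs_q_ker]
        exact ⟨_, rfl⟩
      exact this
    have h2 := congrArg f.1 h1
    rw [Rs_bd_single, map_sum, map_sum, map_zero] at h2
    rw [← h2]
    refine Finset.sum_congr rfl fun t _ => ?_
    rw [map_smul, map_smul]

theorem Rs_T_surj {P : MC 𝒜} {M : GM 𝒜} {d : ℕ} (R : Res P M d) (i : ℕ) (a : ℤ)
    (z : Fin (P.n i) → A) (hz : z ∈ P.Zc (AsA 𝒜) i a) :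
    ∃ f : Hm (Rs_Sy P M i) (AsA 𝒜) a, Rs_T R i a f = z := by
  have hz1 : ∀ t, z t ∈ (AsA 𝒜).dg (P.w i t + a) := fun t => hz.1 t (Set.mem_univ t)
  have hz2 : P.cod (AsA 𝒜) i z = 0 := hz.2
  have hm : (Fintype.linearCombination A z : (Fre 𝒜 (P.w i)).X →ₗ[A] (AsA 𝒜).X)
      ∈ Hm (Fre 𝒜 (P.w i)) (AsA 𝒜) a := Frx_comb (M := AsA 𝒜) (P.w i) a z hz1
  have h0 : (Fintype.linearCombination A z : (Fre 𝒜 (P.w i)).X →ₗ[A] (AsA 𝒜).X)
      ∘ₗ (Rs_ses R i).f = 0 := by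
    refine LinearMap.ext fun y => ?_
    obtain ⟨_, x, rfl⟩ := y
    show (Fintype.linearCombination A z) (P.bd i x) = 0
    have h1 : (Fintype.linearCombination A z) ∘ₗ P.bd i = 0 := by
      refine LinearMap.pi_ext' fun s => LinearMap.ext_ring ?_
      show (Fintype.linearCombination A z) (P.bd i (Pi.single s (1 : A))) = 0
      rw [Rs_bd_single, map_sum]
      have h3 := congrFun hz2 s
      rw [MC.cod_apply] at h3
      refine Eq.trans (Finset.sum_congr rfl fun t _ => ?_) h3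
      rw [map_smul, Fintype.linearCombination_apply_single, one_smul]
    exact LinearMap.congr_fun h1 x
  obtain ⟨k, hk1, hk2⟩ := Les_fac (Rs_ses R i) (AsA 𝒜) a _ hm h0
  refine ⟨⟨k, hk1⟩, funext fun t => ?_⟩
  have h4 : k (Rs_q R i (Pi.single t (1 : A)))
      = (Fintype.linearCombination A z) (Pi.single t (1 : A)) :=
    LinearMap.congr_fun hk2 (Pi.single t (1 : A))
  show k (Rs_q R i (Pi.single t (1 : A))) = z t
  rw [h4, Fintype.linearCombination_apply_single, one_smul]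

theorem Rs_T_cod {P : MC 𝒜} {M : GM 𝒜} {d : ℕ} (R : Res P M d) (i : ℕ) (a : ℤ)
    (g : Hm (Fre 𝒜 (P.w i)) (AsA 𝒜) a) :
    Rs_T R (i + 1) a (preH (Rs_ses R i).f (Rs_ses R i).hf (AsA 𝒜) a g)
      = P.cod (AsA 𝒜) i (fun t => g.1 (Pi.single t (1 : A))) := by
  funext s
  rw [MC.cod_apply]
  show g.1 (P.bd i (Pi.single s (1 : A))) = _
  rw [Rs_bd_single, map_sum]
  refine Finset.sum_congr rfl fun t _ => ?_
  rw [map_smul]

theorem Rs_Bc {P : MC 𝒜} {M : GM 𝒜} {d : ℕ} (R : Res P M d) (i : ℕ) (a : ℤ)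
    (f : Hm (Rs_Sy P M (i + 1)) (AsA 𝒜) a) :
    Rs_T R (i + 1) a f ∈ P.Bc (AsA 𝒜) (i + 1) a ↔
      ∃ g, preH (Rs_ses R i).f (Rs_ses R i).hf (AsA 𝒜) a g = f := by
  constructor
  · rintro ⟨z, hz, hz2⟩
    have hz1 : ∀ t, z t ∈ (AsA 𝒜).dg (P.w i t + a) := fun t => hz t (Set.mem_univ t)
    refine ⟨⟨Fintype.linearCombination A z, Frx_comb (M := AsA 𝒜) (P.w i) a z hz1⟩, ?_⟩
    apply Rs_T_inj R (i + 1) a
    rw [Rs_T_cod, ← hz2]
    congr 1
    funext t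
    show (Fintype.linearCombination A z) (Pi.single t (1 : A)) = z t
    rw [Fintype.linearCombination_apply_single, one_smul]
  · rintro ⟨g, rfl⟩
    rw [Rs_T_cod]
    refine ⟨_, fun t _ => ?_, rfl⟩
    exact Hm_dg g.2 (Rs_single_mem (P.w i) t)

/-- The class of a map in `Ext^0`. -/
noncomputable def Rs_mk0 (M : GM 𝒜) (a : ℤ) : Hm M (AsA 𝒜) a →ₗ[K] E 0 M a :=
  (Submodule.quotEquivOfEqBot (Bd 0 M a) rfl).symm.toLinearMap

theorem Rs_mk0_apply (M : GM 𝒜) (a : ℤ) (f : Hm M (AsA 𝒜) a) :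
    Rs_mk0 M a f = (Submodule.Quotient.mk (p := Bd 0 M a) f : E 0 M a) := rfl

theorem Rs_mk0_surj (M : GM 𝒜) (a : ℤ) : Function.Surjective (Rs_mk0 M a) :=
  (Submodule.quotEquivOfEqBot (Bd 0 M a) rfl).symm.surjective

theorem Rs_mk0_zero (M : GM 𝒜) (a : ℤ) (f : Hm M (AsA 𝒜) a) : Rs_mk0 M a f = 0 ↔ f = 0 :=
  (Submodule.quotEquivOfEqBot (Bd 0 M a) rfl).symm.map_eq_zero_iff

theorem Rs_Emap0 {M N : GM 𝒜} (f : M.X →ₗ[A] N.X) (hf : f ∈ Hm M N 0) (a : ℤ)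
    (g : Hm N (AsA 𝒜) a) : Emap f hf 0 a (Rs_mk0 N a g) = Rs_mk0 M a (preH f hf (AsA 𝒜) a g) := rfl

theorem RS_iso {P : MC 𝒜} {M : GM 𝒜} {d : ℕ} (R : Res P M d) (i : ℕ) (a : ℤ) :
    Nonempty (E i M a ≃ₗ[K] P.SH (AsA 𝒜) i a) := by
  -- the map to the cohomology
  have hT : ∀ i (f : Hm (Rs_Sy P M i) (AsA 𝒜) a), Rs_T R i a f ∈ P.Zc (AsA 𝒜) i a :=
    fun i f => Rs_T_Zc R i a f
  let Ψ : ∀ i, Hm (Rs_Sy P M i) (AsA 𝒜) a →ₗ[K] P.SH (AsA 𝒜) i a := fun i =>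
    ((P.Bc (AsA 𝒜) i a).submoduleOf (P.Zc (AsA 𝒜) i a)).mkQ ∘ₗ
      (Rs_T R i a).codRestrict (P.Zc (AsA 𝒜) i a) (hT i)
  have hΨs : ∀ i, Function.Surjective (Ψ i) := by
    intro i x
    obtain ⟨⟨z, hz⟩, rfl⟩ := Submodule.Quotient.mk_surjective _ x
    obtain ⟨f, rfl⟩ := Rs_T_surj R i a z hz
    exact ⟨f, rfl⟩
  have hΨ0 : ∀ i f, Ψ i f = 0 ↔ Rs_T R i a f ∈ P.Bc (AsA 𝒜) i a := by
    intro i f
    show (Submodule.Quotient.mk _ : P.SH (AsA 𝒜) i a) = 0 ↔ _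
    rw [Submodule.Quotient.mk_eq_zero]
    rfl
  cases i with
  | zero =>
    have key : Nonempty (E 0 (Rs_Sy P M 0) a ≃ₗ[K] P.SH (AsA 𝒜) 0 a) := by
      refine Rs_two (Rs_mk0 (Rs_Sy P M 0) a) (Ψ 0) (Rs_mk0_surj _ a) (hΨs 0) fun f => ?_
      rw [hΨ0, Rs_mk0_zero]
      constructor
      · intro h1
        rw [h1, map_zero]
        exact zero_mem _
      · intro h
        have h1 : Rs_T R 0 a f = 0 := (Submodule.mem_bot K).1 h
        exact Rs_T_inj R 0 a (h1.trans (map_zero _).symm)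
    exact key
  | succ i =>
    obtain ⟨e1⟩ := Rs_shifts R a i 0 i (by omega)
    obtain ⟨δ, h1, h2⟩ := LES_d (Rs_ses R i) 0 a
    have s2 := E_free (𝒜 := 𝒜) (P.w i) 0 a
    have hδ : Function.Surjective δ := by
      rw [← LinearMap.range_eq_top, h2, LinearMap.ker_eq_top]
      refine LinearMap.ext fun x => Subsingleton.elim _ _
    have key : Nonempty (E 1 (Rs_Sy P M i) a ≃ₗ[K] P.SH (AsA 𝒜) (i + 1) a) := by
      refine Rs_two (δ ∘ₗ Rs_mk0 (Rs_Sy P M (i + 1)) a) (Ψ (i + 1))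
        (hδ.comp (Rs_mk0_surj _ a)) (hΨs (i + 1)) fun f => ?_
      rw [hΨ0, Rs_Bc]
      have h3 : (δ ∘ₗ Rs_mk0 (Rs_Sy P M (i + 1)) a) f = 0 ↔
          Rs_mk0 (Rs_Sy P M (i + 1)) a f ∈
            LinearMap.range (Emap (Rs_ses R i).f (Rs_ses R i).hf 0 a) := by
        rw [h1]
        rfl
      rw [h3]
      constructor
      · rintro ⟨g, hg⟩
        obtain ⟨g, rfl⟩ := Rs_mk0_surj _ a g
        refine ⟨g, ?_⟩
        rw [Rs_Emap0] at hg
        have h4 := (Rs_mk0_zero _ a (preH (Rs_ses R i).f (Rs_ses R i).hf (AsA 𝒜) a g - f)).1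
          (by rw [map_sub, hg, sub_self])
        exact sub_eq_zero.1 h4
      · rintro ⟨g, rfl⟩
        exact ⟨Rs_mk0 _ a g, rfl⟩
    obtain ⟨e2⟩ := key
    exact ⟨e1 ≪≫ₗ e2⟩

theorem RS_van {P : MC 𝒜} {M : GM 𝒜} {d : ℕ} (R : Res P M d) (i : ℕ) (hi : d < i) (a : ℤ) :
    Subsingleton (E i M a) := by
  obtain ⟨e⟩ := RS_iso R i a
  refine (e.toEquiv.subsingleton_congr).2 ?_
  have h0 : P.n i = 0 := R.zero i hi
  have h1 : Subsingleton (Fin (P.n i) → A) := by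
    rw [h0]
    infer_instance
  have h2 : Subsingleton (P.Zc (AsA 𝒜) i a) := ⟨fun x y => Subtype.ext (Subsingleton.elim _ _)⟩
  refine ⟨fun x y => ?_⟩
  obtain ⟨x, rfl⟩ := Submodule.Quotient.mk_surjective _ x
  obtain ⟨y, rfl⟩ := Submodule.Quotient.mk_surjective _ y
  rw [Subsingleton.elim x y]

omit [GradedAlgebra 𝒜] in
/-- The cochains as a product. -/
theorem Rs_Cc (P : MC 𝒜) (M : GM 𝒜) (hM : ∀ n, Module.Finite K (M.dg n)) (i : ℕ) (a : ℤ) :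
    Module.Finite K (P.Cc M i a) ∧
      finrank K (P.Cc M i a) ≤ ∑ t, M.hil (P.w i t + a) := by
  let φ : P.Cc M i a →ₗ[K] (∀ t, M.dg (P.w i t + a)) :=
    { toFun := fun x t => ⟨x.1 t, x.2 t (Set.mem_univ t)⟩
      map_add' := fun _ _ => rfl
      map_smul' := fun _ _ => rfl }
  have hφ : Function.Injective φ := by
    intro x y h
    refine Subtype.ext (funext fun t => ?_)
    exact congrArg Subtype.val (congrFun h t)
  have h1 : Module.Finite K (∀ t, M.dg (P.w i t + a)) := by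
    have : ∀ t, Module.Finite K (M.dg (P.w i t + a)) := fun t => hM _
    infer_instance
  refine ⟨Module.Finite.of_injective φ hφ, ?_⟩
  have : ∀ t, Module.Finite K (M.dg (P.w i t + a)) := fun t => hM _
  refine (LinearMap.finrank_le_finrank_of_injective hφ).trans ?_
  rw [Module.finrank_pi_fintype]
  exact le_refl _

omit [GradedAlgebra 𝒜] in
theorem Rs_SH (P : MC 𝒜) (M : GM 𝒜) (hM : ∀ n, Module.Finite K (M.dg n)) (i : ℕ) (a : ℤ) :
    Module.Finite K (P.SH M i a) ∧ finrank K (P.SH M i a) ≤ ∑ t, M.hil (P.w i t + a) := by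
  obtain ⟨h1, h2⟩ := Rs_Cc P M hM i a
  have h3 : P.Zc M i a ≤ P.Cc M i a := inf_le_left
  have h4 : Module.Finite K (P.Zc M i a) := Submodule.finiteDimensional_of_le h3
  refine ⟨inferInstance, ?_⟩
  have h5 : finrank K (P.SH M i a) ≤ finrank K (P.Zc M i a) := Submodule.finrank_quotient_le _
  exact h5.trans ((Submodule.finrank_mono h3).trans h2)

theorem RS_fin (fin : ∀ n, Module.Finite K (𝒜 n)) {P : MC 𝒜} {M : GM 𝒜} {d : ℕ} (R : Res P M d)
    (i : ℕ) (a : ℤ) : Module.Finite K (E i M a) := by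
  obtain ⟨e⟩ := RS_iso R i a
  have h1 := (Rs_SH P (AsA 𝒜) (fun n => H_fin fin (AsA 𝒜) (Module.Finite.self A) n) i a).1
  exact Module.Finite.equiv e.symm

theorem RS_adm (fin : ∀ n, Module.Finite K (𝒜 n))
    (grow : ∃ C m : ℕ, ∀ s, finrank K (𝒜 s) ≤ C * (s + 1) ^ m) {P : MC 𝒜} {M : GM 𝒜} {d : ℕ}
    (R : Res P M d) (i : ℕ) : Adm (eE i M) := by
  have hA : Adm (AsA 𝒜).hil := H_adm fin grow (AsA 𝒜) (Module.Finite.self A)
  refine N_adm_of_le (g := fun a => ∑ t : Fin (P.n i), (AsA 𝒜).hil (a + P.w i t))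
    (N_adm_sum Finset.univ fun t _ => N_adm_shift hA (P.w i t)) fun a => ?_
  obtain ⟨e⟩ := RS_iso R i a
  have h1 := (Rs_SH P (AsA 𝒜) (fun n => H_fin fin (AsA 𝒜) (Module.Finite.self A) n) i a).2
  have h2 : eE i M a = finrank K (P.SH (AsA 𝒜) i a) := LinearEquiv.finrank_eq e
  rw [h2]
  refine h1.trans (le_of_eq ?_)
  exact Finset.sum_congr rfl fun t _ => by rw [add_comm]

end Pool.Agent.NAS
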