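import Pool.Agent.Lib_helper19.NAS.Defs3
import Pool.Agent.Lib_helper19.NAS.B.Num
import Pool.Agent.Lib_helper19.NAS.B.Hil

/-!
# The long exact sequence of the cohomology of Hom(P, -) (MP_ef4bac_al, project NAS, block Sl)
-/

set_option autoImplicit false

namespace Pool.Agent.NAS

open Module Filter Topology

universe u

variable {K A : Type u} [Field K] [Ring A] [Algebra K A] {𝒜 : ℕ → Submodule K A}
  [GradedAlgebra 𝒜]

omit [GradedAlgebra 𝒜] in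
theorem Sl_mk_zero (P : MC 𝒜) (M : GM 𝒜) (i : ℕ) (a : ℤ) (x : P.Zc M i a) :
    (Submodule.Quotient.mk x : P.SH M i a) = 0 ↔ x.1 ∈ P.Bc M i a :=
  (Submodule.Quotient.mk_eq_zero _).trans Iff.rfl

omit [GradedAlgebra 𝒜] in
theorem Sl_mk_eq (P : MC 𝒜) (M : GM 𝒜) (i : ℕ) (a : ℤ) (x y : P.Zc M i a) :
    (Submodule.Quotient.mk x : P.SH M i a) = Submodule.Quotient.mk y ↔
      x.1 - y.1 ∈ P.Bc M i a :=
  (Submodule.Quotient.eq _).trans Iff.rfl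

omit [GradedAlgebra 𝒜] in
theorem Sl_map_mk (P : MC 𝒜) {M N : GM 𝒜} (f : M.X →ₗ[A] N.X) (hf : f ∈ Hm M N 0) (i : ℕ) (a : ℤ)
    (x : P.Zc M i a) : P.SHmap f hf i a (Submodule.Quotient.mk x)
      = Submodule.Quotient.mk ⟨P.cmap f i x.1, P.cmap_Zc f hf i a x.1 x.2⟩ := rfl

omit [GradedAlgebra 𝒜] in
theorem Sl_lift (P : MC 𝒜) {L M N : GM 𝒜} (S : SES L M N) (i : ℕ) (a : ℤ)
    (y : Fin (P.n i) → N.X) (hy : y ∈ P.Cc N i a) : ∃ x ∈ P.Cc M i a, P.cmap S.g i x = y := by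
  choose x hx using fun t => S.surj (y t)
  refine ⟨fun t => M.pr (P.w i t + a) (x t), fun t _ => M.pr_mem _ _, ?_⟩
  funext t
  rw [MC.cmap_apply]
  have h1 := S.hg (P.w i t + a) (x t)
  rw [h1, add_zero, hx]
  exact GM.pr_dg (hy t trivial)

omit [GradedAlgebra 𝒜] in
theorem Sl_ker (P : MC 𝒜) {L M N : GM 𝒜} (S : SES L M N) (i : ℕ) (a : ℤ)
    (x : Fin (P.n i) → M.X) (hx : x ∈ P.Cc M i a) (h0 : P.cmap S.g i x = 0) :
    ∃ z ∈ P.Cc L i a, P.cmap S.f i z = x := by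
  have h1 : ∀ t, ∃ z, S.f z = x t := by
    intro t
    have h2 : x t ∈ LinearMap.ker S.g := by
      rw [LinearMap.mem_ker]
      exact congrFun h0 t
    rw [← S.ex] at h2
    exact h2
  choose z hz using h1
  refine ⟨fun t => L.pr (P.w i t + a) (z t), fun t _ => L.pr_mem _ _, ?_⟩
  funext t
  rw [MC.cmap_apply]
  have h1 := S.hf (P.w i t + a) (z t)
  rw [h1, add_zero, hz]
  exact GM.pr_dg (hx t trivial)

omit [GradedAlgebra 𝒜] in
theorem Sl_gf (P : MC 𝒜) {L M N : GM 𝒜} (S : SES L M N) (i : ℕ)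
    (z : Fin (P.n i) → L.X) : P.cmap S.g i (P.cmap S.f i z) = 0 := by
  funext t
  rw [MC.cmap_apply, MC.cmap_apply]
  have h1 : S.f (z t) ∈ LinearMap.range S.f := ⟨z t, rfl⟩
  rw [S.ex] at h1
  exact h1

omit [GradedAlgebra 𝒜] in
theorem Sl_inj (P : MC 𝒜) {L M N : GM 𝒜} (S : SES L M N) (i : ℕ)
    (z : Fin (P.n i) → L.X) (h : P.cmap S.f i z = 0) : z = 0 := by
  funext t
  apply S.inj
  have h1 := congrFun h t
  rw [MC.cmap_apply] at h1
  rw [h1]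
  simp

omit [GradedAlgebra 𝒜] in
theorem Sl_cod_Cc (P : MC 𝒜) (M : GM 𝒜) (i : ℕ) (a : ℤ) (x : Fin (P.n i) → M.X)
    (hx : x ∈ P.Cc M i a) : P.cod M i x ∈ P.Cc M (i + 1) a := by
  intro s _
  rw [MC.cod_apply]
  refine Submodule.sum_mem _ fun t _ => ?_
  have h1 := GM.smul_mem_dg (P.deg (i + 1) i s t) (hx t trivial)
  have h2 : P.w (i + 1) s - P.w i t + (P.w i t + a) = P.w (i + 1) s + a := by ring
  rwa [h2] at h1

omit [GradedAlgebra 𝒜] in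
theorem Sl_cod_cod (P : MC 𝒜) (M : GM 𝒜) (i : ℕ) (x : Fin (P.n i) → M.X) :
    P.cod M (i + 1) (P.cod M i x) = 0 := by
  funext s
  rw [MC.cod_apply]
  simp only [MC.cod_apply, Finset.smul_sum]
  rw [Finset.sum_comm]
  simp only [← mul_smul]
  have h1 : ∀ t, ∑ r, (P.D (i + 1 + 1) (i + 1) s r * P.D (i + 1) i r t) • x t = 0 := by
    intro t
    rw [← Finset.sum_smul, P.DD i s t, zero_smul]
  rw [Finset.sum_congr rfl fun t _ => h1 t, Finset.sum_const_zero]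
  rfl

theorem SL_0 (P : MC 𝒜) {L M N : GM 𝒜} (S : SES L M N) (a : ℤ) :
    Function.Injective (P.SHmap S.f S.hf 0 a) := by
  rw [injective_iff_map_eq_zero]
  intro x hx
  obtain ⟨x, rfl⟩ := Submodule.Quotient.mk_surjective _ x
  rw [Sl_map_mk, Sl_mk_zero] at hx
  rw [Sl_mk_zero]
  have h1 : P.cmap S.f 0 x.1 = 0 := (Submodule.mem_bot K).1 hx
  have h2 := Sl_inj P S 0 x.1 h1
  rw [h2]
  exact zero_mem _

theorem SL_m (P : MC 𝒜) {L M N : GM 𝒜} (S : SES L M N) (i : ℕ) (a : ℤ) :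
    LinearMap.range (P.SHmap S.f S.hf i a) = LinearMap.ker (P.SHmap S.g S.hg i a) := by
  apply le_antisymm
  · rintro _ ⟨x, rfl⟩
    obtain ⟨x, rfl⟩ := Submodule.Quotient.mk_surjective _ x
    rw [LinearMap.mem_ker, Sl_map_mk, Sl_map_mk, Sl_mk_zero]
    have h1 := Sl_gf P S i x.1
    show P.cmap S.g i (P.cmap S.f i x.1) ∈ _
    rw [h1]
    exact zero_mem _
  · intro x hx
    obtain ⟨x, rfl⟩ := Submodule.Quotient.mk_surjective _ x
    rw [LinearMap.mem_ker, Sl_map_mk, Sl_mk_zero] at hx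
    have hxx : P.cmap S.g i x.1 ∈ P.Bc N i a := hx
    have key : ∃ y ∈ P.Bc M i a, P.cmap S.g i (x.1 - y) = 0 ∧ y ∈ P.Cc M i a ∧
        P.cod M i y = 0 := by
      cases i with
      | zero =>
        refine ⟨0, zero_mem _, ?_, zero_mem _, map_zero _⟩
        rw [sub_zero]
        exact (Submodule.mem_bot K).1 hxx
      | succ i =>
        obtain ⟨y, hy, hyx⟩ := hxx
        obtain ⟨y', hy', rfl⟩ := Sl_lift P S i a y hy
        refine ⟨P.cod M i y', ⟨y', hy', rfl⟩, ?_, Sl_cod_Cc P M i a y' hy', Sl_cod_cod P M i y'⟩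
        rw [map_sub, MC.cmap_cod, hyx, sub_self]
    obtain ⟨y, hyB, hy0, hyC, hyZ⟩ := key
    obtain ⟨z, hz, hzx⟩ := Sl_ker P S i a (x.1 - y) (sub_mem x.2.1 hyC) hy0
    have hz0 : P.cod L i z = 0 := by
      apply Sl_inj P S (i + 1)
      rw [MC.cmap_cod, hzx, map_sub, hyZ, sub_zero]
      exact x.2.2
    refine ⟨Submodule.Quotient.mk ⟨z, hz, hz0⟩, ?_⟩
    rw [Sl_map_mk, Sl_mk_eq]
    show P.cmap S.f i z - x.1 ∈ _
    rw [hzx]
    have h3 : x.1 - y - x.1 = -y := by abel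
    rw [h3]
    exact neg_mem hyB

omit [GradedAlgebra 𝒜] in
theorem Sl_delta (P : MC 𝒜) {L M N : GM 𝒜} (S : SES L M N) (i : ℕ) (a : ℤ) :
    ∃ δ : P.Zc N i a →ₗ[K] P.Zc L (i + 1) a, ∀ y : P.Zc N i a, ∃ x ∈ P.Cc M i a,
      P.cmap S.g i x = y.1 ∧ P.cmap S.f (i + 1) (δ y).1 = P.cod M i x := by
  classical
  -- sections
  let gC : P.Cc M i a →ₗ[K] P.Cc N i a := (P.cmap S.g i).restrict (P.cmap_Cc S.g S.hg i a)
  let fC : P.Cc L (i + 1) a →ₗ[K] P.Cc M (i + 1) a :=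
    (P.cmap S.f (i + 1)).restrict (P.cmap_Cc S.f S.hf (i + 1) a)
  let cC : P.Cc M i a →ₗ[K] P.Cc M (i + 1) a := (P.cod M i).restrict (Sl_cod_Cc P M i a)
  have hg : LinearMap.range gC = ⊤ := by
    rw [LinearMap.range_eq_top]
    rintro ⟨y, hy⟩
    obtain ⟨x, hx, hxy⟩ := Sl_lift P S i a y hy
    exact ⟨⟨x, hx⟩, Subtype.ext hxy⟩
  have hf : LinearMap.ker fC = ⊥ := by
    rw [LinearMap.ker_eq_bot']
    rintro ⟨z, hz⟩ h
    exact Subtype.ext (Sl_inj P S (i + 1) z (congrArg Subtype.val h))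
  obtain ⟨σ, hσ⟩ := gC.exists_rightInverse_of_surjective hg
  obtain ⟨τ, hτ⟩ := fC.exists_leftInverse_of_injective hf
  have hσ' : ∀ y, gC (σ y) = y := fun y => LinearMap.congr_fun hσ y
  have hτ' : ∀ y, τ (fC y) = y := fun y => LinearMap.congr_fun hτ y
  have hval : ∀ y : P.Zc N i a, P.cmap S.g i (σ ⟨y.1, y.2.1⟩).1 = y.1 := fun y =>
    congrArg Subtype.val (hσ' ⟨y.1, y.2.1⟩)
  have key : ∀ y : P.Zc N i a,
      P.cmap S.f (i + 1) (τ (cC (σ ⟨y.1, y.2.1⟩))).1 = P.cod M i (σ ⟨y.1, y.2.1⟩).1 ∧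
      P.cod L (i + 1) (τ (cC (σ ⟨y.1, y.2.1⟩))).1 = 0 := by
    intro y
    have h1 : P.cmap S.g (i + 1) (P.cod M i (σ ⟨y.1, y.2.1⟩).1) = 0 := by
      rw [MC.cmap_cod, hval]
      exact y.2.2
    obtain ⟨z, hz, hzx⟩ := Sl_ker P S (i + 1) a _
      (Sl_cod_Cc P M i a _ (σ ⟨y.1, y.2.1⟩).2) h1
    have h2 : cC (σ ⟨y.1, y.2.1⟩) = fC ⟨z, hz⟩ := Subtype.ext hzx.symm
    rw [h2, hτ']
    refine ⟨hzx, ?_⟩
    apply Sl_inj P S (i + 1 + 1)
    rw [MC.cmap_cod]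
    show P.cod M (i + 1) (P.cmap S.f (i + 1) z) = 0
    rw [hzx, Sl_cod_cod]
  let ι : P.Zc N i a →ₗ[K] P.Cc N i a := Submodule.inclusion inf_le_left
  let δ0 : P.Zc N i a →ₗ[K] (Fin (P.n (i + 1)) → L.X) :=
    (P.Cc L (i + 1) a).subtype ∘ₗ τ ∘ₗ cC ∘ₗ σ ∘ₗ ι
  have hδ0 : ∀ y, δ0 y ∈ P.Zc L (i + 1) a := fun y =>
    ⟨(τ (cC (σ ⟨y.1, y.2.1⟩))).2, (key y).2⟩
  refine ⟨δ0.codRestrict _ hδ0, fun y => ⟨(σ ⟨y.1, y.2.1⟩).1, (σ ⟨y.1, y.2.1⟩).2, hval y,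
    (key y).1⟩⟩

theorem SL_d (P : MC 𝒜) {L M N : GM 𝒜} (S : SES L M N) (i : ℕ) (a : ℤ) :
    ∃ δ : P.SH N i a →ₗ[K] P.SH L (i + 1) a,
      LinearMap.range (P.SHmap S.g S.hg i a) = LinearMap.ker δ ∧
      LinearMap.range δ = LinearMap.ker (P.SHmap S.f S.hf (i + 1) a) := by
  obtain ⟨δ, hδ⟩ := Sl_delta P S i a
  -- membership in the coboundaries
  have hB : ∀ y : P.Zc N i a, (δ y).1 ∈ P.Bc L (i + 1) a ↔
      ∃ x ∈ P.Zc M i a, P.cmap S.g i x = y.1 := by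
    intro y
    obtain ⟨x, hx, hxy, hxd⟩ := hδ y
    constructor
    · rintro ⟨z, hz, hzd⟩
      refine ⟨x - P.cmap S.f i z, ⟨sub_mem hx (P.cmap_Cc S.f S.hf i a z hz), ?_⟩, ?_⟩
      · show P.cod M i (x - P.cmap S.f i z) = 0
        rw [map_sub, ← hxd, ← hzd, MC.cmap_cod, sub_self]
      · rw [map_sub, Sl_gf, sub_zero, hxy]
    · rintro ⟨x', hx', hxy'⟩
      obtain ⟨z, hz, hzx⟩ := Sl_ker P S i a (x - x') (sub_mem hx hx'.1)
        (by rw [map_sub, hxy, hxy', sub_self])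
      refine ⟨z, hz, ?_⟩
      have h1 : P.cmap S.f (i + 1) (P.cod L i z - (δ y).1) = 0 := by
        rw [map_sub, MC.cmap_cod, hzx, hxd, map_sub]
        have : P.cod M i x' = 0 := hx'.2
        rw [this, sub_zero, sub_self]
      exact sub_eq_zero.1 (Sl_inj P S (i + 1) _ h1)
  have hle : (P.Bc N i a).submoduleOf (P.Zc N i a) ≤
      ((P.Bc L (i + 1) a).submoduleOf (P.Zc L (i + 1) a)).comap δ := by
    intro y hy
    have hy' : y.1 ∈ P.Bc N i a := hy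
    show (δ y).1 ∈ P.Bc L (i + 1) a
    rw [hB]
    cases i with
    | zero =>
      have h3 : y.1 = 0 := (Submodule.mem_bot K).1 hy'
      exact ⟨0, zero_mem _, by rw [map_zero, h3]⟩
    | succ i =>
      obtain ⟨w, hw, hwy⟩ := hy'
      obtain ⟨w', hw', rfl⟩ := Sl_lift P S i a w hw
      refine ⟨P.cod M i w', ⟨Sl_cod_Cc P M i a w' hw', Sl_cod_cod P M i w'⟩, ?_⟩
      rw [MC.cmap_cod, hwy]
  refine ⟨Submodule.mapQ _ _ δ hle, ?_, ?_⟩
  · apply le_antisymm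
    · rintro _ ⟨x, rfl⟩
      obtain ⟨x, rfl⟩ := Submodule.Quotient.mk_surjective _ x
      rw [LinearMap.mem_ker, Sl_map_mk, Submodule.mapQ_apply, Sl_mk_zero, hB]
      exact ⟨x.1, x.2, rfl⟩
    · intro y hy
      obtain ⟨y, rfl⟩ := Submodule.Quotient.mk_surjective _ y
      rw [LinearMap.mem_ker, Submodule.mapQ_apply, Sl_mk_zero, hB] at hy
      obtain ⟨x, hx, hxy⟩ := hy
      refine ⟨Submodule.Quotient.mk ⟨x, hx⟩, ?_⟩
      rw [Sl_map_mk, Sl_mk_eq]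
      show P.cmap S.g i x - y.1 ∈ _
      rw [hxy, sub_self]
      exact zero_mem _
  · apply le_antisymm
    · rintro _ ⟨y, rfl⟩
      obtain ⟨y, rfl⟩ := Submodule.Quotient.mk_surjective _ y
      rw [LinearMap.mem_ker, Submodule.mapQ_apply, Sl_map_mk, Sl_mk_zero]
      obtain ⟨x, hx, hxy, hxd⟩ := hδ y
      exact ⟨x, hx, hxd.symm⟩
    · intro z hz
      obtain ⟨z, rfl⟩ := Submodule.Quotient.mk_surjective _ z
      rw [LinearMap.mem_ker, Sl_map_mk, Sl_mk_zero] at hz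
      obtain ⟨x, hx, hxz⟩ := hz
      have hxz' : P.cod M i x = P.cmap S.f (i + 1) z.1 := hxz
      have hy0 : P.cod N i (P.cmap S.g i x) = 0 := by
        rw [← MC.cmap_cod, hxz', Sl_gf]
      let y : P.Zc N i a := ⟨P.cmap S.g i x, P.cmap_Cc S.g S.hg i a x hx, hy0⟩
      refine ⟨Submodule.Quotient.mk y, ?_⟩
      rw [Submodule.mapQ_apply, Sl_mk_eq]
      obtain ⟨x', hx', hxy', hxd'⟩ := hδ y
      obtain ⟨v, hv, hvx⟩ := Sl_ker P S i a (x' - x) (sub_mem hx' hx)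
        (by rw [map_sub, hxy', sub_self])
      refine ⟨v, hv, ?_⟩
      have h1 : P.cmap S.f (i + 1) (P.cod L i v - ((δ y).1 - z.1)) = 0 := by
        rw [map_sub, MC.cmap_cod, hvx, map_sub, map_sub, hxd', ← hxz', sub_self]
      exact sub_eq_zero.1 (Sl_inj P S (i + 1) _ h1)

omit [GradedAlgebra 𝒜] in
/-- The cochains as a product. -/
theorem Sl_Cc_equiv (P : MC 𝒜) (M : GM 𝒜) (i : ℕ) (a : ℤ) :
    Nonempty (P.Cc M i a ≃ₗ[K] ∀ t, M.dg (P.w i t + a)) :=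
  ⟨{ toFun := fun x t => ⟨x.1 t, x.2 t trivial⟩
     map_add' := fun _ _ => rfl
     map_smul' := fun _ _ => rfl
     invFun := fun y => ⟨fun t => (y t).1, fun t _ => (y t).2⟩
     left_inv := fun _ => rfl
     right_inv := fun _ => rfl }⟩

omit [GradedAlgebra 𝒜] in
theorem Sl_Cc_fin (P : MC 𝒜) (M : GM 𝒜) (hM : ∀ n, Module.Finite K (M.dg n)) (i : ℕ) (a : ℤ) :
    Module.Finite K (P.Cc M i a) := by
  obtain ⟨e⟩ := Sl_Cc_equiv P M i a
  exact Module.Finite.equiv e.symm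

omit [GradedAlgebra 𝒜] in
theorem Sl_Zc_fin (P : MC 𝒜) (M : GM 𝒜) (hM : ∀ n, Module.Finite K (M.dg n)) (i : ℕ) (a : ℤ) :
    Module.Finite K (P.Zc M i a) := by
  have := Sl_Cc_fin P M hM i a
  exact Module.Finite.of_injective (Submodule.inclusion (inf_le_left : P.Zc M i a ≤ P.Cc M i a))
    (Submodule.inclusion_injective _)

theorem SH_fin (P : MC 𝒜) (M : GM 𝒜) (hM : ∀ n, Module.Finite K (M.dg n)) (i : ℕ) (a : ℤ) :
    Module.Finite K (P.SH M i a) := by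
  have := Sl_Zc_fin P M hM i a
  infer_instance

omit [GradedAlgebra 𝒜] in
theorem Sl_sh_le (P : MC 𝒜) (M : GM 𝒜) (hM : ∀ n, Module.Finite K (M.dg n)) (i : ℕ) (a : ℤ) :
    P.sh M i a ≤ ∑ t, M.hil (a + P.w i t) := by
  have h1 := Sl_Cc_fin P M hM i a
  have h2 := Sl_Zc_fin P M hM i a
  obtain ⟨e⟩ := Sl_Cc_equiv P M i a
  have h3 : P.sh M i a ≤ finrank K (P.Zc M i a) :=
    Submodule.finrank_quotient_le ((P.Bc M i a).submoduleOf (P.Zc M i a))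
  have h4 : finrank K (P.Zc M i a) ≤ finrank K (P.Cc M i a) :=
    Submodule.finrank_mono (inf_le_left : P.Zc M i a ≤ P.Cc M i a)
  have h5 : finrank K (P.Cc M i a) = ∑ t, M.hil (a + P.w i t) := by
    rw [e.finrank_eq, Module.finrank_pi_fintype]
    refine Finset.sum_congr rfl fun t _ => ?_
    unfold GM.hil
    rw [add_comm]
  omega

theorem SH_adm (P : MC 𝒜) (M : GM 𝒜) (hM : ∀ n, Module.Finite K (M.dg n)) (ha : Adm M.hil)
    (i : ℕ) : Adm (P.sh M i) :=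
  N_adm_of_le (N_adm_sum Finset.univ fun t _ => N_adm_shift ha (P.w i t)) (Sl_sh_le P M hM i)

omit [GradedAlgebra 𝒜] in
theorem Sl_pi_dg {r : ℕ} (w : Fin r → ℤ) (M : GM 𝒜) (n : ℤ) (x : Fin r → M.X) :
    x ∈ (GM.pi w M).dg n ↔ ∀ s, x s ∈ M.dg (n - w s) := by
  constructor
  · intro h s
    rw [GM.mem_dg]
    exact congrFun (GM.mem_dg.1 h) s
  · intro h
    rw [GM.mem_dg]
    funext s
    exact GM.mem_dg.1 (h s)

omit [GradedAlgebra 𝒜] in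
theorem Sl_pi_Cc (P : MC 𝒜) {r : ℕ} (w : Fin r → ℤ) (M : GM 𝒜) (i : ℕ) (a : ℤ)
    (x : Fin (P.n i) → (GM.pi w M).X) :
    x ∈ P.Cc (GM.pi w M) i a ↔ ∀ s, (fun t => x t s) ∈ P.Cc M i (a - w s) := by
  constructor
  · intro h s t _
    have h1 := (Sl_pi_dg w M _ _).1 (h t trivial) s
    have h2 : P.w i t + a - w s = P.w i t + (a - w s) := by ring
    rwa [h2] at h1
  · intro h t _
    refine (Sl_pi_dg w M _ _).2 fun s => ?_
    have h1 : x t s ∈ M.dg (P.w i t + (a - w s)) := h s t trivial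
    have h2 : P.w i t + (a - w s) = P.w i t + a - w s := by ring
    rwa [h2] at h1

omit [GradedAlgebra 𝒜] in
theorem Sl_pi_cod (P : MC 𝒜) {r : ℕ} (w : Fin r → ℤ) (M : GM 𝒜) (i : ℕ)
    (x : Fin (P.n i) → (GM.pi w M).X) (s : Fin r) (t : Fin (P.n (i + 1))) :
    P.cod (GM.pi w M) i x t s = P.cod M i (fun t => x t s) t := by
  rw [MC.cod_apply, MC.cod_apply]
  exact Finset.sum_apply s Finset.univ (fun t' => P.D (i + 1) i t t' • x t')

omit [GradedAlgebra 𝒜] in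
theorem Sl_pi_Zc (P : MC 𝒜) {r : ℕ} (w : Fin r → ℤ) (M : GM 𝒜) (i : ℕ) (a : ℤ)
    (x : Fin (P.n i) → (GM.pi w M).X) :
    x ∈ P.Zc (GM.pi w M) i a ↔ ∀ s, (fun t => x t s) ∈ P.Zc M i (a - w s) := by
  constructor
  · rintro ⟨h1, h2⟩ s
    refine ⟨(Sl_pi_Cc P w M i a x).1 h1 s, ?_⟩
    show P.cod M i (fun t => x t s) = 0
    funext t
    rw [← Sl_pi_cod P w M i x s t]
    have h3 : P.cod (GM.pi w M) i x = 0 := h2
    rw [h3]
    rfl
  · intro h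
    refine ⟨(Sl_pi_Cc P w M i a x).2 fun s => (h s).1, ?_⟩
    show P.cod (GM.pi w M) i x = 0
    funext t
    funext s
    rw [Sl_pi_cod P w M i x s t]
    have h3 : P.cod M i (fun t => x t s) = 0 := (h s).2
    rw [h3]
    rfl

omit [GradedAlgebra 𝒜] in
theorem Sl_pi_Bc (P : MC 𝒜) {r : ℕ} (w : Fin r → ℤ) (M : GM 𝒜) (i : ℕ) (a : ℤ)
    (x : Fin (P.n i) → (GM.pi w M).X) :
    x ∈ P.Bc (GM.pi w M) i a ↔ ∀ s, (fun t => x t s) ∈ P.Bc M i (a - w s) := by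
  cases i with
  | zero =>
    constructor
    · intro h s
      have h3 : x = 0 := (Submodule.mem_bot K).1 h
      rw [h3]
      exact zero_mem (P.Bc M 0 (a - w s))
    · intro h
      refine (Submodule.mem_bot K).2 ?_
      funext t
      funext s
      exact congrFun ((Submodule.mem_bot K).1 (h s)) t
  | succ i =>
    constructor
    · rintro ⟨y, hy, rfl⟩ s
      refine ⟨fun t => y t s, (Sl_pi_Cc P w M i a y).1 hy s, ?_⟩
      funext t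
      exact (Sl_pi_cod P w M i y s t).symm
    · intro h
      choose y hy hyx using h
      refine ⟨fun t s => y s t, (Sl_pi_Cc P w M i a _).2 hy, ?_⟩
      funext t
      funext s
      rw [Sl_pi_cod P w M i _ s t]
      exact congrFun (hyx s) t

/-- The `s`-th component of a cocycle. -/
def Sl_comp (P : MC 𝒜) {r : ℕ} (w : Fin r → ℤ) (M : GM 𝒜) (i : ℕ) (a : ℤ) (s : Fin r) :
    P.Zc (GM.pi w M) i a →ₗ[K] P.Zc M i (a - w s) where
  toFun x := ⟨fun t => x.1 t s, (Sl_pi_Zc P w M i a x.1).1 x.2 s⟩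
  map_add' _ _ := Subtype.ext rfl
  map_smul' _ _ := Subtype.ext rfl

omit [GradedAlgebra 𝒜] in
theorem Sl_comp_mk (P : MC 𝒜) {r : ℕ} (w : Fin r → ℤ) (M : GM 𝒜) (i : ℕ) (a : ℤ) (s : Fin r)
    (x : P.Zc (GM.pi w M) i a) : (Sl_comp P w M i a s x).1 = fun t => x.1 t s := rfl

omit [GradedAlgebra 𝒜] in
theorem Sl_comp_le (P : MC 𝒜) {r : ℕ} (w : Fin r → ℤ) (M : GM 𝒜) (i : ℕ) (a : ℤ) (s : Fin r) :
    (P.Bc (GM.pi w M) i a).submoduleOf (P.Zc (GM.pi w M) i a) ≤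
      ((P.Bc M i (a - w s)).submoduleOf (P.Zc M i (a - w s))).comap (Sl_comp P w M i a s) :=
  fun x hx => (Sl_pi_Bc P w M i a x.1).1 hx s

/-- The map onto the product of the cohomology groups. -/
def Sl_Psi (P : MC 𝒜) {r : ℕ} (w : Fin r → ℤ) (M : GM 𝒜) (i : ℕ) (a : ℤ) :
    P.SH (GM.pi w M) i a →ₗ[K] ∀ s, P.SH M i (a - w s) :=
  LinearMap.pi fun s => Submodule.mapQ _ _ (Sl_comp P w M i a s) (Sl_comp_le P w M i a s)

omit [GradedAlgebra 𝒜] in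
theorem Sl_Psi_apply (P : MC 𝒜) {r : ℕ} (w : Fin r → ℤ) (M : GM 𝒜) (i : ℕ) (a : ℤ)
    (x : P.Zc (GM.pi w M) i a) (s : Fin r) :
    Sl_Psi P w M i a (Submodule.Quotient.mk x) s
      = Submodule.Quotient.mk (Sl_comp P w M i a s x) := rfl

omit [GradedAlgebra 𝒜] in
theorem Sl_Psi_bij (P : MC 𝒜) {r : ℕ} (w : Fin r → ℤ) (M : GM 𝒜) (i : ℕ) (a : ℤ) :
    Function.Bijective (Sl_Psi P w M i a) := by
  constructor
  · rw [injective_iff_map_eq_zero]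
    intro x hx
    obtain ⟨x, rfl⟩ := Submodule.Quotient.mk_surjective _ x
    refine (Sl_mk_zero P (GM.pi w M) i a x).2 ((Sl_pi_Bc P w M i a x.1).2 fun s => ?_)
    have h1 := congrFun hx s
    rw [Sl_Psi_apply] at h1
    exact (Sl_mk_zero P M i (a - w s) _).1 h1
  · intro y
    choose z hz using fun s => Submodule.Quotient.mk_surjective _ (y s)
    refine ⟨Submodule.Quotient.mk
      ⟨fun t s => (z s).1 t, (Sl_pi_Zc P w M i a _).2 fun s => (z s).2⟩, ?_⟩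
    refine funext fun s => ?_
    rw [Sl_Psi_apply, ← hz s]
    exact congrArg _ (Subtype.ext rfl)

theorem SH_pi (P : MC 𝒜) {r : ℕ} (w : Fin r → ℤ) (M : GM 𝒜) (i : ℕ) (a : ℤ) :
    Nonempty (P.SH (GM.pi w M) i a ≃ₗ[K] ∀ s, P.SH M i (a - w s)) :=
  ⟨LinearEquiv.ofBijective (Sl_Psi P w M i a) (Sl_Psi_bij P w M i a)⟩
theorem SH_van (P : MC 𝒜) (M : GM 𝒜) (i : ℕ) (h : P.n i = 0) (a : ℤ) :
    Subsingleton (P.SH M i a) := by
  have h0 : Subsingleton (P.Zc M i a) := by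
    constructor
    rintro ⟨x, hx⟩ ⟨y, hy⟩
    apply Subtype.ext
    funext t
    exact (Fin.cast h t).elim0
  constructor
  intro x y
  obtain ⟨x, rfl⟩ := Submodule.Quotient.mk_surjective _ x
  obtain ⟨y, rfl⟩ := Submodule.Quotient.mk_surjective _ y
  rw [Subsingleton.elim x y]

end Pool.Agent.NAS
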