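import Pool.Agent.Lib_helper19.NAS.Defs3
import Pool.Agent.Lib_helper19.NAS.B.Sl
import Pool.Agent.Lib_helper19.NAS.B.Rs

/-!
# Balance of Tor (MP_ef4bac_al, project NAS, block Db)
-/

set_option autoImplicit false

namespace Pool.Agent.NAS

open Module Filter Topology

universe u

variable {K A : Type u} [Field K] [Ring A] [Algebra K A] {𝒜 : ℕ → Submodule K A}
  [GradedAlgebra 𝒜]

/-- A resolution, cut into short exact sequences. -/
structure Db_seq (𝒜 : ℕ → Submodule K A) where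
  Ω : ℕ → GM 𝒜
  F : ℕ → GM 𝒜
  S : ∀ i, SES (Ω (i + 1)) (F i) (Ω i)

omit [GradedAlgebra 𝒜] in
/-- The shifted sequence. -/
def Db_seq.sh (s : Db_seq 𝒜) : Db_seq 𝒜 where
  Ω i := s.Ω (i + 1)
  F i := s.F (i + 1)
  S i := s.S (i + 1)

omit [GradedAlgebra 𝒜] in
theorem Db_comp (P : MC 𝒜) {L M N : GM 𝒜} (f : L.X →ₗ[A] M.X) (hf : f ∈ Hm L M 0)
    (g : M.X →ₗ[A] N.X) (hg : g ∈ Hm M N 0) (h : L.X →ₗ[A] N.X) (hh : h ∈ Hm L N 0)
    (he : h = g ∘ₗ f) (i : ℕ) (a : ℤ) (x : P.SH L i a) :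
    P.SHmap h hh i a x = P.SHmap g hg i a (P.SHmap f hf i a x) := by
  subst he
  obtain ⟨x, rfl⟩ := Submodule.Quotient.mk_surjective _ x
  rfl

theorem Db_iso (P : MC 𝒜) (d : ℕ) (a : ℤ) (i : ℕ) : ∀ (s : Db_seq 𝒜)
    (_ : ∀ k j, j ≠ d → Subsingleton (P.SH (s.F k) j a)) (j : ℕ) (_ : j + i + 1 = d),
    Nonempty (P.SH (s.Ω 0) j a ≃ₗ[K] LinearMap.ker (P.SHmap (s.S i).f (s.S i).hf d a)) := by
  induction i with
  | zero =>
    intro s hv j hj
    obtain rfl : j + 1 = d := hj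
    obtain ⟨δ, h1, h2⟩ := SL_d P (s.S 0) j a
    have hs := hv 0 j (by omega)
    have hinj : Function.Injective δ := by
      rw [← LinearMap.ker_eq_bot, ← h1, eq_bot_iff]
      rintro _ ⟨x, rfl⟩
      rw [Subsingleton.elim x 0, map_zero]
      exact zero_mem _
    exact ⟨(LinearEquiv.ofInjective δ hinj).trans (LinearEquiv.ofEq _ _ h2)⟩
  | succ i ih =>
    intro s hv j hj
    obtain ⟨δ, h1, h2⟩ := SL_d P (s.S 0) j a
    have hs := hv 0 j (by omega)
    have hs' := hv 0 (j + 1) (by omega)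
    have hinj : Function.Injective δ := by
      rw [← LinearMap.ker_eq_bot, ← h1, eq_bot_iff]
      rintro _ ⟨x, rfl⟩
      rw [Subsingleton.elim x 0, map_zero]
      exact zero_mem _
    have hsur : Function.Surjective δ := by
      rw [← LinearMap.range_eq_top, h2, eq_top_iff]
      intro x _
      exact Subsingleton.elim _ _
    obtain ⟨e⟩ := ih s.sh (fun k => hv (k + 1)) (j + 1) (by omega)
    exact ⟨(LinearEquiv.ofBijective δ ⟨hinj, hsur⟩).trans e⟩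

omit [Ring A] [Algebra K A] [GradedAlgebra 𝒜] in
theorem Db_alg {X' X Y Z : Type u} [AddCommGroup X'] [Module K X'] [AddCommGroup X] [Module K X]
    [AddCommGroup Y] [Module K Y] [AddCommGroup Z] [Module K Z] (w : X' →ₗ[K] X) (u : X →ₗ[K] Y)
    (v : Y →ₗ[K] Z) (vu : X →ₗ[K] Z) (hvu : ∀ x, vu x = v (u x)) (hu : Function.Surjective u)
    (hw : LinearMap.range w = LinearMap.ker u) :
    finrank K (LinearMap.ker v) =
      finrank K (↥(LinearMap.ker vu) ⧸ (LinearMap.range w).submoduleOf (LinearMap.ker vu)) := by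
  let φ : LinearMap.ker vu →ₗ[K] LinearMap.ker v := u.restrict (fun x hx => by
    rw [LinearMap.mem_ker, ← hvu]
    exact hx)
  have hφ : Function.Surjective φ := by
    rintro ⟨y, hy⟩
    obtain ⟨x, rfl⟩ := hu y
    refine ⟨⟨x, ?_⟩, rfl⟩
    rw [LinearMap.mem_ker, hvu]
    exact hy
  have hk : LinearMap.ker φ = (LinearMap.range w).submoduleOf (LinearMap.ker vu) := by
    ext x
    rw [hw]
    constructor
    · intro hx
      exact congrArg Subtype.val hx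
    · intro hx
      exact Subtype.ext hx
  rw [← hk]
  exact (φ.quotKerEquivOfSurjective hφ).finrank_eq.symm

section seq

variable (G : MC 𝒜) {M : GM 𝒜} {d : ℕ} (R : Res G M d)

/-- The syzygies. -/
noncomputable def Db_Z {G : MC 𝒜} {M : GM 𝒜} {d : ℕ} (R : Res G M d) :
    (i : ℕ) → Submodule A (Fin (G.n i) → A)
  | 0 => LinearMap.ker R.ε
  | i + 1 => LinearMap.ker (G.bd i)

theorem Db_Z_hom {G : MC 𝒜} {M : GM 𝒜} {d : ℕ} (R : Res G M d) (i : ℕ) :
    (Fre 𝒜 (G.w i)).Hom (Db_Z R i) := by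
  cases i with
  | zero => exact ker_hom R.hε
  | succ i => exact ker_hom (G.bd_mem i)

theorem Db_Z_eq {G : MC 𝒜} {M : GM 𝒜} {d : ℕ} (R : Res G M d) (i : ℕ) :
    LinearMap.range (G.bd i) = Db_Z R i := by
  cases i with
  | zero => exact R.ex0
  | succ i => exact R.ex i

/-- The syzygies as graded modules, with the module itself. -/
noncomputable def Db_Om {G : MC 𝒜} {M : GM 𝒜} {d : ℕ} (R : Res G M d) : ℕ → GM 𝒜
  | 0 => M
  | i + 1 => (Fre 𝒜 (G.w i)).sub (Db_Z R i) (Db_Z_hom R i)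

omit [GradedAlgebra 𝒜] in
theorem Db_sub_mem (M : GM 𝒜) (N : Submodule A M.X) (h : M.Hom N) :
    N.subtype ∈ Hm (M.sub N h) M 0 := by
  intro n x
  rw [add_zero]
  rfl

/-- The short exact sequences. -/
noncomputable def Db_S {G : MC 𝒜} {M : GM 𝒜} {d : ℕ} (R : Res G M d) :
    (i : ℕ) → SES (Db_Om R (i + 1)) (Fre 𝒜 (G.w i)) (Db_Om R i)
  | 0 =>
    { f := (Db_Z R 0).subtype
      g := R.ε
      hf := Db_sub_mem (Fre 𝒜 (G.w 0)) (Db_Z R 0) (Db_Z_hom R 0)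
      hg := R.hε
      inj := Subtype.val_injective
      surj := R.surj
      ex := Submodule.range_subtype _ }
  | i + 1 =>
    { f := (Db_Z R (i + 1)).subtype
      g := (G.bd i).codRestrict (Db_Z R i)
        (fun x => (Db_Z_eq R i) ▸ LinearMap.mem_range_self (G.bd i) x)
      hf := Db_sub_mem (Fre 𝒜 (G.w (i + 1))) (Db_Z R (i + 1)) (Db_Z_hom R (i + 1))
      hg := fun n x => Subtype.ext (G.bd_mem i n x)
      inj := Subtype.val_injective
      surj := by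
        rintro ⟨x, hx⟩
        have h1 : x ∈ LinearMap.range (G.bd i) := (Db_Z_eq R i) ▸ hx
        obtain ⟨y, hy⟩ := h1
        exact ⟨y, Subtype.ext hy⟩
      ex := (Submodule.range_subtype _).trans (LinearMap.ker_codRestrict _ _ _).symm }

/-- The sequence of a resolution. -/
noncomputable def Db_sq {G : MC 𝒜} {M : GM 𝒜} {d : ℕ} (R : Res G M d) : Db_seq 𝒜 where
  Ω := Db_Om R
  F i := Fre 𝒜 (G.w i)
  S := Db_S R

theorem Db_bd {G : MC 𝒜} {M : GM 𝒜} {d : ℕ} (R : Res G M d) (i : ℕ) :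
    G.bd i = (Db_S R i).f ∘ₗ (Db_S R (i + 1)).g := by
  cases i with
  | zero => rfl
  | succ i => rfl

end seq

theorem Db_surj (P : MC 𝒜) (d : ℕ) (hP : ∀ i, d < i → P.n i = 0) {L M N : GM 𝒜}
    (S : SES L M N) (a : ℤ) : Function.Surjective (P.SHmap S.g S.hg d a) := by
  obtain ⟨δ, h1, -⟩ := SL_d P S d a
  have hs := SH_van P L (d + 1) (hP _ (by omega)) a
  rw [← LinearMap.range_eq_top, h1, eq_top_iff]
  intro x _
  exact Subsingleton.elim _ _

theorem Db_range (P : MC 𝒜) (d : ℕ) (hP : ∀ i, d < i → P.n i = 0) {G : MC 𝒜} {M : GM 𝒜}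
    (R : Res G M d) (i : ℕ) (a : ℤ) : LinearMap.range (P.gmap G i d a) =
      LinearMap.ker (P.SHmap (Db_S R i).g (Db_S R i).hg d a) := by
  rw [← SL_m P (Db_S R i) d a]
  apply le_antisymm
  · rintro _ ⟨x, rfl⟩
    exact ⟨P.SHmap (Db_S R (i + 1)).g (Db_S R (i + 1)).hg d a x,
      (Db_comp P _ _ _ _ _ (G.bd_mem i) (Db_bd R i) d a x).symm⟩
  · rintro _ ⟨x, rfl⟩
    obtain ⟨y, rfl⟩ := Db_surj P d hP (Db_S R (i + 1)) a x
    exact ⟨y, Db_comp P _ _ _ _ _ (G.bd_mem i) (Db_bd R i) d a y⟩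

theorem Db_free (P : MC 𝒜) (d : ℕ) 
    (hv : ∀ j, j ≠ d → ∀ a, Subsingleton (P.SH (AsA 𝒜) j a)) {r : ℕ} (w : Fin r → ℤ) (j : ℕ)
    (hj : j ≠ d) (a : ℤ) : Subsingleton (P.SH (Fre 𝒜 w) j a) := by
  obtain ⟨e⟩ := SH_pi P w (AsA 𝒜) j a
  have := fun s => hv j hj (a - w s)
  exact e.toEquiv.subsingleton

/-- Let `P` be a complex (of length `d`) such that `Hom(P, A)` has cohomology only in degree `d`
and let `G` be a resolution of `M`. Then the cohomology of `Hom(P, M)` is the homology of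
`H^d(Hom(P, G))`. -/
theorem Db_0 (fin : ∀ n, Module.Finite K (𝒜 n)) (P : MC 𝒜) (d : ℕ)
    (hP : ∀ i, d < i → P.n i = 0)
    (hv : ∀ j, j ≠ d → ∀ a, Subsingleton (P.SH (AsA 𝒜) j a)) (M : GM 𝒜) (G : MC 𝒜)
    (R : Res G M d) (a : ℤ) :
    P.sh M d a = finrank K (P.SH (Fre 𝒜 (G.w 0)) d a ⧸ LinearMap.range (P.gmap G 0 d a)) := by
  rw [Db_range P d hP R 0 a]
  exact ((P.SHmap (Db_S R 0).g (Db_S R 0).hg d a).quotKerEquivOfSurjective
    (Db_surj P d hP (Db_S R 0) a)).finrank_eq.symm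

theorem Db_s (fin : ∀ n, Module.Finite K (𝒜 n)) (P : MC 𝒜) (d : ℕ)
    (hP : ∀ i, d < i → P.n i = 0)
    (hv : ∀ j, j ≠ d → ∀ a, Subsingleton (P.SH (AsA 𝒜) j a)) (M : GM 𝒜) (G : MC 𝒜)
    (R : Res G M d) (i : ℕ) (hi : i + 1 ≤ d) (a : ℤ) :
    P.sh M (d - (i + 1)) a =
      finrank K (↥(LinearMap.ker (P.gmap G i d a)) ⧸
        (LinearMap.range (P.gmap G (i + 1) d a)).submoduleOf
          (LinearMap.ker (P.gmap G i d a))) := by
  obtain ⟨e⟩ := Db_iso P d a i (Db_sq R) (fun k j hj => Db_free P d hv _ j hj a) (d - (i + 1))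
    (by omega)
  refine e.finrank_eq.trans ?_
  exact Db_alg _ (P.SHmap (Db_S R (i + 1)).g (Db_S R (i + 1)).hg d a) _ _
    (fun x => Db_comp P _ _ _ _ _ (G.bd_mem i) (Db_bd R i) d a x)
    (Db_surj P d hP (Db_S R (i + 1)) a) (Db_range P d hP R (i + 1) a)

end Pool.Agent.NAS
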