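import Pool.Agent.Lib_helper19.NAS.Defs3
import Pool.Agent.Lib_helper19.NAS.B.Rs
import Pool.Agent.Lib_helper19.NAS.B.R

/-!
# The complex dual to A/A_{>= N} (MP_ef4bac_al, project NAS, block Du)
-/

set_option autoImplicit false
set_option linter.unusedSectionVars false
set_option linter.unusedVariables false

namespace Pool.Agent.NAS

open Module Filter Topology

universe u

variable {K A : Type u} [Field K] [Ring A] [Algebra K A] {𝒜 : ℕ → Submodule K A}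
  [GradedAlgebra 𝒜]

/-! ### The dual module -/

variable (𝒜) in
/-- The functionals which vanish in the degrees `≥ N`. -/
def DuS (N : ℤ) : Submodule K (A →ₗ[K] K) where
  carrier := {f | ∀ k, N ≤ k → ∀ x ∈ hA 𝒜 k, f x = 0}
  add_mem' {f g} hf hg k hk x hx := by
    rw [LinearMap.add_apply, hf k hk x hx, hg k hk x hx, add_zero]
  zero_mem' _ _ _ _ := rfl
  smul_mem' c f hf k hk x hx := by
    rw [LinearMap.smul_apply, hf k hk x hx, smul_zero]

variable (𝒜) in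
/-- The underlying type of the dual module. -/
def DuX (N : ℤ) : Type u := ↥(DuS 𝒜 N)

noncomputable instance Du_acg (N : ℤ) : AddCommGroup (DuX 𝒜 N) :=
  inferInstanceAs (AddCommGroup ↥(DuS 𝒜 N))

noncomputable instance Du_modK (N : ℤ) : Module K (DuX 𝒜 N) :=
  inferInstanceAs (Module K ↥(DuS 𝒜 N))

/-- The functional of an element of the dual module. -/
def DuX.fn {N : ℤ} (f : DuX 𝒜 N) : A →ₗ[K] K := Subtype.val f

theorem DuX.ext {N : ℤ} {f g : DuX 𝒜 N} (h : f.fn = g.fn) : f = g := Subtype.ext h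

theorem DuX.van {N : ℤ} (f : DuX 𝒜 N) {k : ℤ} (hk : N ≤ k) {x : A} (hx : x ∈ hA 𝒜 k) :
    f.fn x = 0 := f.2 k hk x hx

variable (𝒜) in
/-- The functional as a linear map. -/
noncomputable def DuFn (N : ℤ) : DuX 𝒜 N →ₗ[K] (A →ₗ[K] K) := (DuS 𝒜 N).subtype

theorem DuFn_apply {N : ℤ} (f : DuX 𝒜 N) : DuFn 𝒜 N f = f.fn := rfl

theorem Du_mul_neg {k : ℤ} (hk : k < 0) {x : A} (hx : x ∈ hA 𝒜 k) : x = 0 := by
  rw [hA_neg hk] at hx
  exact (Submodule.mem_bot K).1 hx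

/-- Multiplication on the left does not lead out of the degrees `≥ N`. -/
theorem Du_smulS {N : ℤ} (f : DuX 𝒜 N) (a : A) : f.fn ∘ₗ LinearMap.mulLeft K a ∈ DuS 𝒜 N := by
  intro k hk x hx
  show f.fn (a * x) = 0
  refine GM.induct (M := AsA 𝒜) (P := fun a : A => f.fn (a * x) = 0) a ?_ ?_ ?_
  · rw [zero_mul, map_zero]
  · intro y z hy hz
    rw [add_mul, map_add, hy, hz, add_zero]
  · intro n y hy
    have hy' : y ∈ hA 𝒜 n := prA_dg.1 hy
    rcases lt_or_ge n 0 with h | h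
    · rw [Du_mul_neg h hy', zero_mul, map_zero]
    · exact f.van (by omega) (hA_mul hy' hx)

noncomputable instance Du_smul (N : ℤ) : SMul Aᵐᵒᵖ (DuX 𝒜 N) :=
  ⟨fun a f => ⟨f.fn ∘ₗ LinearMap.mulLeft K a.unop, Du_smulS f a.unop⟩⟩

theorem DuX.smul_fn {N : ℤ} (a : Aᵐᵒᵖ) (f : DuX 𝒜 N) (x : A) : (a • f).fn x = f.fn (a.unop * x) :=
  rfl

theorem DuX.add_fn {N : ℤ} (f g : DuX 𝒜 N) : (f + g).fn = f.fn + g.fn := rfl

theorem DuX.zero_fn {N : ℤ} : (0 : DuX 𝒜 N).fn = 0 := rfl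

theorem DuX.ksmul_fn {N : ℤ} (c : K) (f : DuX 𝒜 N) : (c • f).fn = c • f.fn := rfl

noncomputable instance Du_modA (N : ℤ) : Module Aᵐᵒᵖ (DuX 𝒜 N) where
  one_smul f := DuX.ext (LinearMap.ext fun x => by
    rw [DuX.smul_fn, MulOpposite.unop_one, one_mul])
  mul_smul a b f := DuX.ext (LinearMap.ext fun x => by
    rw [DuX.smul_fn, DuX.smul_fn, DuX.smul_fn, MulOpposite.unop_mul, mul_assoc])
  smul_zero a := DuX.ext (LinearMap.ext fun x => rfl)
  smul_add a f g := DuX.ext (LinearMap.ext fun x => rfl)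
  add_smul a b f := DuX.ext (LinearMap.ext fun x => by
    rw [DuX.add_fn, LinearMap.add_apply, DuX.smul_fn, DuX.smul_fn, DuX.smul_fn,
      MulOpposite.unop_add, add_mul, map_add])
  zero_smul f := DuX.ext (LinearMap.ext fun x => by
    rw [DuX.smul_fn, MulOpposite.unop_zero, zero_mul, map_zero, DuX.zero_fn]; rfl)

instance Du_tow (N : ℤ) : IsScalarTower K Aᵐᵒᵖ (DuX 𝒜 N) where
  smul_assoc c a f := DuX.ext (LinearMap.ext fun x => by
    rw [DuX.smul_fn, DuX.ksmul_fn, LinearMap.smul_apply, DuX.smul_fn, MulOpposite.unop_smul,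
      smul_mul_assoc, map_smul])

theorem Du_prA {k n : ℤ} {x : A} (hx : x ∈ hA 𝒜 k) : prA 𝒜 n x = if n = k then x else 0 := by
  split_ifs with h
  · subst h
    exact prA_of_mem hx
  · exact GM.pr_dg_ne (M := AsA 𝒜) (prA_dg.2 hx) h

theorem Du_prS {N : ℤ} (f : DuX 𝒜 N) (n : ℤ) : f.fn ∘ₗ prA 𝒜 n ∈ DuS 𝒜 N := by
  intro k hk x hx
  show f.fn (prA 𝒜 n x) = 0
  rw [Du_prA hx]
  split_ifs
  · exact f.van hk hx
  · exact map_zero _

/-- The projections of the dual module. -/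
noncomputable def Du_pr (a N n : ℤ) : DuX 𝒜 N →ₗ[K] DuX 𝒜 N where
  toFun f := ⟨f.fn ∘ₗ prA 𝒜 (a - n), Du_prS f (a - n)⟩
  map_add' f g := DuX.ext (LinearMap.ext fun x => rfl)
  map_smul' c f := DuX.ext (LinearMap.ext fun x => rfl)

theorem Du_pr_fn (a N n : ℤ) (f : DuX 𝒜 N) (x : A) :
    (Du_pr a N n f).fn x = f.fn (prA 𝒜 (a - n) x) := rfl

theorem Du_sum_fn {N : ℤ} {ι : Type*} (s : Finset ι) (f : ι → DuX 𝒜 N) (x : A) :
    (∑ i ∈ s, f i).fn x = ∑ i ∈ s, (f i).fn x := by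
  rw [← DuFn_apply, map_sum, LinearMap.sum_apply]
  rfl

variable (𝒜) in
/-- The right module dual to `A(a)/A(a)_{≥ N}`. -/
noncomputable def DuM (a N : ℤ) : GM (opG 𝒜) where
  X := DuX 𝒜 N
  pr := Du_pr a N
  pr_self n f := DuX.ext (lin_ext (𝒜 := 𝒜) fun k x hx => by
    rw [Du_pr_fn, Du_pr_fn, Du_pr_fn, Du_prA hx]
    split_ifs with h
    · rw [Du_prA hx, if_pos h]
    · rw [map_zero])
  pr_ne n m f h := DuX.ext (lin_ext (𝒜 := 𝒜) fun k x hx => by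
    rw [Du_pr_fn, Du_pr_fn, Du_prA hx, DuX.zero_fn, LinearMap.zero_apply]
    split_ifs with h1
    · rw [Du_prA hx, if_neg (fun h2 => h (by omega)), map_zero]
    · rw [map_zero, map_zero])
  pr_sum f := by
    refine ⟨Finset.Icc (a - N) a, DuX.ext (lin_ext (𝒜 := 𝒜) fun k x hx => ?_)⟩
    rw [Du_sum_fn]
    have h1 : ∀ n ∈ Finset.Icc (a - N) a, (Du_pr a N n f).fn x
        = if n = a - k then f.fn x else 0 := by
      intro n _
      rw [Du_pr_fn, Du_prA hx]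
      by_cases h : n = a - k
      · rw [if_pos h, if_pos (by omega)]
      · rw [if_neg h, if_neg (by omega), map_zero]
    rw [Finset.sum_congr rfl h1, Finset.sum_ite_eq']
    split_ifs with h2
    · rfl
    · rw [Finset.mem_Icc, not_and_or, not_le, not_le] at h2
      rcases h2 with h2 | h2
      · exact (f.van (k := k) (by omega) hx).symm
      · rw [Du_mul_neg (𝒜 := 𝒜) (k := k) (by omega) hx, map_zero]
  pr_smul k b hb n f := DuX.ext (lin_ext (𝒜 := 𝒜) fun j x hx => by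
    have hb' : b.unop ∈ hA 𝒜 k := mem_hA_opG.1 hb
    rw [Du_pr_fn, DuX.smul_fn, DuX.smul_fn, Du_pr_fn, Du_prA hx, Du_prA (hA_mul hb' hx)]
    by_cases h : a - (k + n) = j
    · rw [if_pos h, if_pos (by omega)]
    · rw [if_neg h, if_neg (by omega), mul_zero])

theorem DuM_fin (fin : ∀ n, Module.Finite K (𝒜 n)) (a N : ℤ) :
    Module.Finite K (DuM 𝒜 a N).X := by
  have : ∀ k : Fin N.toNat, Module.Finite K (𝒜 k) := fun k => fin k
  let g : DuX 𝒜 N →ₗ[K] (∀ k : Fin N.toNat, (𝒜 k →ₗ[K] K)) :=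
    LinearMap.pi fun k => (LinearMap.lcomp K K (𝒜 k).subtype) ∘ₗ DuFn 𝒜 N
  have hg : Function.Injective g := by
    rw [← LinearMap.ker_eq_bot, LinearMap.ker_eq_bot']
    intro f hf
    refine DuX.ext (lin_ext (𝒜 := 𝒜) fun k x hx => ?_)
    rw [DuX.zero_fn, LinearMap.zero_apply]
    rcases lt_or_ge k N with h | h
    · rcases lt_or_ge k 0 with h0 | h0
      · rw [Du_mul_neg h0 hx, map_zero]
      · lift k to ℕ using h0
        have h1 : k < N.toNat := by omega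
        rw [hA_nat] at hx
        have h2 := LinearMap.congr_fun (congrFun hf ⟨k, h1⟩) ⟨x, hx⟩
        exact h2
    · exact f.van h hx
  exact Module.Finite.of_injective g hg


/-! ### Opposite rings -/

theorem Du_prOp (n : ℤ) (x : A) :
    prA (opG 𝒜) n (MulOpposite.op x) = MulOpposite.op (prA 𝒜 n x) := by
  refine GM.induct (M := AsA 𝒜) (P := fun x : A =>
    prA (opG 𝒜) n (MulOpposite.op x) = MulOpposite.op (prA 𝒜 n x)) x ?_ ?_ ?_
  · rw [MulOpposite.op_zero, map_zero, map_zero, MulOpposite.op_zero]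
  · intro y z hy hz
    rw [MulOpposite.op_add, map_add, hy, hz, map_add, MulOpposite.op_add]
  · intro k y hy
    have hy' : y ∈ hA 𝒜 k := prA_dg.1 hy
    have hy2 : MulOpposite.op y ∈ hA (opG 𝒜) k := mem_hA_opG.2 hy'
    rw [Du_prA hy', Du_prA hy2]
    split_ifs
    · rfl
    · exact MulOpposite.op_zero.symm

theorem Du_ex {R : MC (opG 𝒜)} {T : GM (opG 𝒜)} {d : ℕ} (Rs : Res R T d) {i j k : ℕ}
    (hj : i = j + 1) (hk : k = i + 1) (x : Fin (R.n i) → Aᵐᵒᵖ)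
    (hx : ∀ t, ∑ s, x s * R.D i j s t = 0) :
    ∃ y : Fin (R.n k) → Aᵐᵒᵖ, ∀ s, x s = ∑ r, y r * R.D k i r s := by
  subst hj
  subst hk
  have h1 : x ∈ LinearMap.ker (R.bd j) := by
    rw [LinearMap.mem_ker]
    funext t
    exact hx t
  rw [← Rs.ex j] at h1
  obtain ⟨y, hy⟩ := h1
  exact ⟨y, fun s => (congrFun hy s).symm⟩

theorem Du_exE {R : MC (opG 𝒜)} {T : GM (opG 𝒜)} {d : ℕ} (Rs : Res R T d) {e : ℕ}
    (he : e = 0) : ∃ ε : (Fin (R.n e) → Aᵐᵒᵖ) →ₗ[Aᵐᵒᵖ] T.X,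
      ε ∈ Hm (GM.pi (R.w e) (AsA (opG 𝒜))) T 0 ∧ Function.Surjective ε ∧
      ∀ k, k = e + 1 → ∀ x, ε x = 0 ↔
        ∃ y : Fin (R.n k) → Aᵐᵒᵖ, ∀ s, x s = ∑ r, y r * R.D k e r s := by
  subst he
  refine ⟨Rs.ε, Rs.hε, Rs.surj, ?_⟩
  rintro k rfl x
  constructor
  · intro h
    have h1 : x ∈ LinearMap.ker Rs.ε := h
    rw [← Rs.ex0] at h1
    obtain ⟨y, hy⟩ := h1
    exact ⟨y, fun s => (congrFun hy s).symm⟩
  · rintro ⟨y, hy⟩
    have h1 : x ∈ LinearMap.range (R.bd 0) := ⟨y, funext fun s => (hy s).symm⟩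
    rw [Rs.ex0] at h1
    exact h1

/-! ### Projections of cochains -/

theorem Du_prC_mem (P : MC 𝒜) (M : GM 𝒜) (i : ℕ) (c : ℤ) (x : Fin (P.n i) → M.X) :
    (fun t => M.pr (P.w i t + c) (x t)) ∈ P.Cc M i c := fun t _ => M.pr_mem _ _

theorem Du_prC_of (P : MC 𝒜) (M : GM 𝒜) (i : ℕ) (c : ℤ) {x : Fin (P.n i) → M.X}
    (hx : x ∈ P.Cc M i c) : (fun t => M.pr (P.w i t + c) (x t)) = x :=
  funext fun t => GM.pr_dg (hx t (Set.mem_univ t))

theorem Du_prC_cod (P : MC 𝒜) (M : GM 𝒜) (i : ℕ) (c : ℤ) (x : Fin (P.n i) → M.X) :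
    P.cod M i (fun t => M.pr (P.w i t + c) (x t))
      = fun s => M.pr (P.w (i + 1) s + c) (P.cod M i x s) := by
  funext s
  rw [MC.cod_apply, MC.cod_apply, map_sum]
  refine Finset.sum_congr rfl fun t _ => ?_
  rw [← M.pr_smul _ _ (P.deg (i + 1) i s t)]
  congr 2
  ring

theorem Du_Bc (P : MC 𝒜) (M : GM 𝒜) {i j : ℕ} (hj : j = i + 1) (c : ℤ)
    {z : Fin (P.n j) → M.X} (hz : z ∈ P.Cc M j c) (x : Fin (P.n i) → M.X)
    (hx : ∀ s, z s = ∑ t, P.D j i s t • x t) : z ∈ P.Bc M j c := by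
  subst hj
  have h1 : P.cod M i x = z := funext fun s => (hx s).symm
  refine ⟨_, Du_prC_mem P M i c x, ?_⟩
  rw [Du_prC_cod, h1]
  exact Du_prC_of P M (i + 1) c hz

theorem Du_Bc' (P : MC 𝒜) (M : GM 𝒜) {i j : ℕ} (hj : j = i + 1) (c : ℤ)
    {z : Fin (P.n j) → M.X} (hz : z ∈ P.Bc M j c) :
    ∃ x : Fin (P.n i) → M.X, ∀ s, z s = ∑ t, P.D j i s t • x t := by
  subst hj
  obtain ⟨x, _, hx⟩ := hz
  exact ⟨x, fun s => (congrFun hx s).symm⟩

/-! ### The transposed complex -/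

section

variable {R : MC (opG 𝒜)} {d : ℕ} (hP : ∀ i, d < i → R.n i = 0)

theorem Du_rtD {i j : ℕ} (m : Fin (R.n (nu d j)) → A) (s : Fin (R.n (nu d i))) :
    MulOpposite.op (∑ t, (R.rt d hP).D i j s t * m t)
      = ∑ t, MulOpposite.op (m t) * R.D (nu d j) (nu d i) t s := by
  rw [Finset.op_sum]
  rfl

theorem Du_rt_n {i : ℕ} (hi : d < i) : (R.rt d hP).n i = 0 := by
  show R.n (nu d i) = 0
  exact hP _ (by rw [nu_zero d i hi]; omega)

/-- The cohomology of the transposed complex vanishes except in the highest degree. -/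
theorem Du_van {T : GM (opG 𝒜)} (Rs : Res R T d) (j : ℕ) (hj : j ≠ d) (c : ℤ) :
    Subsingleton ((R.rt d hP).SH (AsA 𝒜) j c) := by
  rw [Submodule.Quotient.subsingleton_iff, eq_top_iff]
  rintro ⟨z, hz1, hz2⟩ _
  show z ∈ (R.rt d hP).Bc (AsA 𝒜) j c
  rcases lt_or_gt_of_ne hj with hjd | hjd
  · have h1 : nu d j = nu d (j + 1) + 1 := by
      rw [nu_le d j (by omega), nu_le d (j + 1) (by omega)]
      omega
    have h2 : ∀ s : Fin (R.n (nu d (j + 1))), ∑ t, MulOpposite.op (z t) *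
        R.D (nu d j) (nu d (j + 1)) t s = 0 := by
      intro s
      refine (Du_rtD hP (i := j + 1) (j := j) z s).symm.trans ?_
      have h3 : (R.rt d hP).cod (AsA 𝒜) j z = 0 := hz2
      exact congrArg MulOpposite.op (congrFun h3 s)
    rcases j with _ | j
    · obtain ⟨y, hy⟩ := Du_ex Rs h1 rfl (fun t => MulOpposite.op (z t)) h2
      have h5 : R.n (nu d 0 + 1) = 0 := hP _ (by rw [nu_le d 0 (by omega)]; omega)
      have h6 : z = 0 := by
        funext t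
        have h7 := hy t
        have h8 : ∑ r, y r * R.D (nu d 0 + 1) (nu d 0) r t = 0 :=
          Finset.sum_eq_zero fun r _ => (Fin.cast h5 r).elim0
        rw [h8] at h7
        exact MulOpposite.op_injective h7
      rw [h6]
      exact zero_mem _
    · obtain ⟨y, hy⟩ := Du_ex Rs h1 (k := nu d j)
        (by rw [nu_le d j (by omega), nu_le d (j + 1) (by omega)]; omega)
        (fun t => MulOpposite.op (z t)) h2
      refine Du_Bc (R.rt d hP) (AsA 𝒜) (i := j) rfl c hz1 (fun t => (y t).unop) fun s => ?_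
      apply MulOpposite.op_injective
      rw [hy s]
      exact (Du_rtD hP (i := j + 1) (j := j) (fun t => (y t).unop) s).symm
  · have h6 : z = 0 := funext fun t => (Fin.cast (Du_rt_n hP hjd) t).elim0
    rw [h6]
    exact zero_mem _

end


/-! ### The isomorphism in the highest degree -/

section

variable {R : MC (opG 𝒜)} {d : ℕ} (hP : ∀ i, d < i → R.n i = 0) {N : ℤ}

/-- A column of a cochain. -/
noncomputable def Du_col (e : ℕ) {r : ℕ} (u : Fin r) :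
    (Fin e → Fin r → A) →ₗ[K] (Fin e → Aᵐᵒᵖ) :=
  LinearMap.pi fun t => (MulOpposite.opLinearEquiv K).toLinearMap ∘ₗ
    (LinearMap.proj u : (Fin r → A) →ₗ[K] A) ∘ₗ (LinearMap.proj t)

theorem Du_col_apply (e : ℕ) {r : ℕ} (u : Fin r) (m : Fin e → Fin r → A) (t : Fin e) :
    Du_col (K := K) e u m t = MulOpposite.op (m t u) := rfl

/-- The pairing. -/
noncomputable def Du_psi {e : ℕ} (ε : (Fin e → Aᵐᵒᵖ) →ₗ[Aᵐᵒᵖ] DuX 𝒜 N) (r : ℕ) :
    (Fin e → Fin r → A) →ₗ[K] Module.Dual K (Fin r → A) :=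
  ∑ u : Fin r, (LinearMap.lcomp K K (LinearMap.proj u : (Fin r → A) →ₗ[K] A)) ∘ₗ
    DuFn 𝒜 N ∘ₗ (ε.restrictScalars K) ∘ₗ Du_col e u

theorem Du_psi_apply {e : ℕ} (ε : (Fin e → Aᵐᵒᵖ) →ₗ[Aᵐᵒᵖ] DuX 𝒜 N) (r : ℕ)
    (m : Fin e → Fin r → A) (b : Fin r → A) :
    Du_psi ε r m b = ∑ u, (ε fun t => MulOpposite.op (m t u)).fn (b u) := by
  unfold Du_psi
  rw [LinearMap.sum_apply, LinearMap.sum_apply]
  rfl

/-- The cochains of degree `a`, as in `MC.Cc`. -/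
noncomputable def Du_C (𝒜 : ℕ → Submodule K A) [GradedAlgebra 𝒜] {r : ℕ} (w : Fin r → ℤ) (a : ℤ) :
    Submodule K (Fin r → A) :=
  Submodule.pi Set.univ fun t => (AsA 𝒜).dg (w t + a)

theorem Du_mem_C {r : ℕ} {w : Fin r → ℤ} {a : ℤ} {b : Fin r → A} :
    b ∈ Du_C 𝒜 w a ↔ ∀ s, b s ∈ hA 𝒜 (w s + a) :=
  ⟨fun h s => prA_dg.1 (h s (Set.mem_univ s)), fun h s _ => prA_dg.2 (h s)⟩

theorem Du_dg_fn {a n : ℤ} {f : DuX 𝒜 N} (hf : f ∈ (DuM 𝒜 a N).dg n) (x : A) :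
    f.fn x = f.fn (prA 𝒜 (a - n) x) := by
  have h1 : Du_pr a N n f = f := GM.pr_dg hf
  have h2 := Du_pr_fn a N n f x
  rw [h1] at h2
  exact h2

theorem Du_Fre_dg {r : ℕ} {w : Fin r → ℤ} {n : ℤ} {x : Fin r → A} :
    x ∈ (Fre 𝒜 w).dg n ↔ ∀ s, x s ∈ hA 𝒜 (n - w s) := by
  constructor
  · intro h s
    have h1 : prA 𝒜 (n - w s) (x s) = x s := congrFun (GM.pr_dg h) s
    rw [← h1]
    exact prA_mem _ _
  · intro h
    rw [GM.mem_dg]
    funext s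
    exact prA_of_mem (h s)

/-- The degree of the column. -/
theorem Du_col_dg {e : ℕ} {v : Fin e → ℤ} {c : ℤ} {r : ℕ} {w : Fin r → ℤ}
    {m : Fin e → Fin r → A} (hm : ∀ t, m t ∈ (Fre 𝒜 w).dg (-v t + c)) (u : Fin r) :
    (fun t => MulOpposite.op (m t u)) ∈ (GM.pi v (AsA (opG 𝒜))).dg (c - w u) := by
  rw [GM.mem_dg]
  funext t
  refine prA_of_mem ?_
  rw [mem_hA_opG]
  show m t u ∈ hA 𝒜 (c - w u - v t)
  have h1 := Du_Fre_dg.1 (hm t) u
  have h2 : -v t + c - w u = c - w u - v t := by ring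
  rwa [h2] at h1

theorem Du_psi_ker {a : ℤ} {e : ℕ} {v : Fin e → ℤ} {ε : (Fin e → Aᵐᵒᵖ) →ₗ[Aᵐᵒᵖ] DuX 𝒜 N}
    (hε : ε ∈ Hm (GM.pi v (AsA (opG 𝒜))) (DuM 𝒜 a N) 0) {r : ℕ} {w : Fin r → ℤ}
    {m : Fin e → Fin r → A} (hm : ∀ t, m t ∈ (Fre 𝒜 w).dg (-v t + 0))
    (h0 : ∀ b ∈ Du_C 𝒜 w a, Du_psi ε r m b = 0) (u : Fin r) :
    ε (fun t => MulOpposite.op (m t u)) = 0 := by
  classical
  have h1 : ε (fun t => MulOpposite.op (m t u)) ∈ (DuM 𝒜 a N).dg (0 - w u + 0) :=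
    Hm_dg hε (Du_col_dg hm u)
  refine DuX.ext (LinearMap.ext fun x => ?_)
  rw [Du_dg_fn h1, DuX.zero_fn, LinearMap.zero_apply]
  have h2 : a - (0 - w u + 0) = w u + a := by ring
  rw [h2]
  have h3 : (Pi.single u (prA 𝒜 (w u + a) x) : Fin r → A) ∈ Du_C 𝒜 w a := by
    rw [Du_mem_C]
    intro s
    by_cases hs : s = u
    · subst hs
      rw [Pi.single_eq_same]
      exact prA_mem _ _
    · rw [Pi.single_eq_of_ne hs]
      exact zero_mem _
  have h4 := h0 _ h3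
  rw [Du_psi_apply, Finset.sum_eq_single u] at h4
  · rwa [Pi.single_eq_same] at h4
  · intro s _ hs
    rw [Pi.single_eq_of_ne hs, map_zero]
  · intro h
    exact absurd (Finset.mem_univ u) h

theorem Du_psi_surj {a : ℤ} {e : ℕ} {v : Fin e → ℤ} {ε : (Fin e → Aᵐᵒᵖ) →ₗ[Aᵐᵒᵖ] DuX 𝒜 N}
    (hε : ε ∈ Hm (GM.pi v (AsA (opG 𝒜))) (DuM 𝒜 a N) 0) (hs : Function.Surjective ε)
    {r : ℕ} {w : Fin r → ℤ} (hw : ∀ s, w s + a < N) (g : Module.Dual K (Du_C 𝒜 w a)) :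
    ∃ m : Fin e → Fin r → A, (∀ t, m t ∈ (Fre 𝒜 w).dg (-v t + 0)) ∧
      ∀ b : Du_C 𝒜 w a, Du_psi ε r m b.1 = g b := by
  classical
  have hsm : ∀ (u : Fin r) (x : A), (Pi.single u (prA 𝒜 (w u + a) x) : Fin r → A) ∈ Du_C 𝒜 w a := by
    intro u x
    rw [Du_mem_C]
    intro s
    by_cases hs : s = u
    · subst hs
      rw [Pi.single_eq_same]
      exact prA_mem _ _
    · rw [Pi.single_eq_of_ne hs]
      exact zero_mem _
  let f : Fin r → (A →ₗ[K] K) := fun u => g ∘ₗ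
    (((LinearMap.single K (fun _ : Fin r => A) u) ∘ₗ prA 𝒜 (w u + a)).codRestrict
      (Du_C 𝒜 w a) (hsm u))
  have hf : ∀ u x, f u x = g ⟨Pi.single u (prA 𝒜 (w u + a) x), hsm u x⟩ := fun u x => rfl
  have hf0 : ∀ u k, k ≠ w u + a → ∀ x ∈ hA 𝒜 k, f u x = 0 := by
    intro u k hk x hx
    have h1 : (⟨Pi.single u (prA 𝒜 (w u + a) x), hsm u x⟩ : Du_C 𝒜 w a) = 0 := by
      apply Subtype.ext
      show (Pi.single u (prA 𝒜 (w u + a) x) : Fin r → A) = 0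
      rw [Du_prA hx, if_neg (Ne.symm hk), Pi.single_zero]
    rw [hf, h1, map_zero]
  let F : Fin r → DuX 𝒜 N := fun u => ⟨f u, fun k hk x hx => hf0 u k (by
    have := hw u
    omega) x hx⟩
  have hF : ∀ u, F u ∈ (DuM 𝒜 a N).dg (-w u) := by
    intro u
    refine GM.mem_dg.2 (DuX.ext (lin_ext (𝒜 := 𝒜) fun k x hx => ?_))
    show f u (prA 𝒜 (a - (-w u)) x) = f u x
    rw [Du_prA hx]
    split_ifs with h
    · rfl
    · rw [map_zero, hf0 u k (by omega) x hx]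
  choose y hy using fun u => hs (F u)
  let y' : Fin r → Fin e → Aᵐᵒᵖ := fun u => (GM.pi v (AsA (opG 𝒜))).pr (-w u) (y u)
  have hy' : ∀ u, ε (y' u) = F u := by
    intro u
    have h1 : ε (y' u) = (DuM 𝒜 a N).pr (-w u + 0) (ε (y u)) := hε (-w u) (y u)
    rw [h1, hy, add_zero]
    exact GM.pr_dg (hF u)
  refine ⟨fun t u => (y' u t).unop, ?_, ?_⟩
  · intro t
    rw [Du_Fre_dg]
    intro u
    show (y' u t).unop ∈ hA 𝒜 (-v t + 0 - w u)
    rw [← mem_hA_opG]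
    have h1 : y' u t = prA (opG 𝒜) (-w u - v t) (y u t) := rfl
    have h2 : -v t + 0 - w u = -w u - v t := by ring
    rw [h1, h2]
    exact prA_mem _ _
  · intro b
    rw [Du_psi_apply]
    have h1 : ∀ u, (ε fun t => MulOpposite.op ((y' u t).unop)).fn (b.1 u) = f u (b.1 u) := by
      intro u
      have h2 : (fun t => MulOpposite.op ((y' u t).unop)) = y' u := rfl
      rw [h2, hy']
      rfl
    rw [Finset.sum_congr rfl fun u _ => h1 u]
    have h3 : b = ∑ u, (⟨Pi.single u (prA 𝒜 (w u + a) (b.1 u)), hsm u (b.1 u)⟩ :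
        Du_C 𝒜 w a) := by
      apply Subtype.ext
      rw [AddSubmonoidClass.coe_finsetSum]
      show b.1 = ∑ u, (Pi.single u (prA 𝒜 (w u + a) (b.1 u)) : Fin r → A)
      have h4 : ∀ u, prA 𝒜 (w u + a) (b.1 u) = b.1 u := fun u =>
        prA_of_mem (Du_mem_C.1 b.2 u)
      simp only [h4]
      exact (Finset.univ_sum_single b.1).symm
    conv_rhs => rw [h3, map_sum]
    rfl

/-- The kernel of the pairing. -/
theorem Du_top {T : GM (opG 𝒜)} (Rs : Res R T d) {ε : (Fin (R.n (nu d d)) → Aᵐᵒᵖ) →ₗ[Aᵐᵒᵖ] T.X}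
    (hk : ∀ k, k = nu d d + 1 → ∀ x, ε x = 0 ↔
        ∃ y : Fin (R.n k) → Aᵐᵒᵖ, ∀ s, x s = ∑ r, y r * R.D k (nu d d) r s)
    {r : ℕ} (w : Fin r → ℤ) (c : ℤ) {z : Fin (R.n (nu d d)) → Fin r → A}
    (hz : z ∈ (R.rt d hP).Cc (Fre 𝒜 w) d c) :
    z ∈ (R.rt d hP).Bc (Fre 𝒜 w) d c ↔ ∀ u, ε (fun t => MulOpposite.op (z t u)) = 0 := by
  rcases d with _ | d
  · constructor
    · intro h u
      have h1 : z = 0 := (Submodule.mem_bot K).1 h
      subst h1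
      exact map_zero ε
    · intro h
      have h1 : z = 0 := by
        funext t u
        obtain ⟨y, hy⟩ := (hk _ rfl _).1 (h u)
        have h2 := hy t
        have h5 : R.n (nu 0 0 + 1) = 0 := hP _ (by omega)
        rw [Finset.sum_eq_zero fun r _ => (Fin.cast h5 r).elim0] at h2
        exact MulOpposite.op_injective h2
      rw [h1]
      exact zero_mem _
  · have hkd : nu (d + 1) d = nu (d + 1) (d + 1) + 1 := by
      rw [nu_le _ _ (by omega), nu_le _ _ (by omega)]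
      omega
    constructor
    · intro h u
      obtain ⟨x, hx⟩ := Du_Bc' (R.rt (d + 1) hP) (Fre 𝒜 w) (i := d) rfl c h
      rw [hk _ hkd]
      refine ⟨fun t => MulOpposite.op (x t u), fun s => ?_⟩
      have h1 := congrArg MulOpposite.op (congrFun (hx s) u)
      rw [h1]
      have h2 := Du_rtD hP (i := d + 1) (j := d) (fun t => x t u) s
      rw [← h2, Finset.sum_apply]
      rfl
    · intro h
      choose y hy using fun u => (hk _ hkd _).1 (h u)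
      refine Du_Bc (R.rt (d + 1) hP) (Fre 𝒜 w) (i := d) rfl c hz
        (fun t u => (y u t).unop) fun s => ?_
      funext u
      apply MulOpposite.op_injective
      rw [hy u s]
      have h2 := Du_rtD hP (i := d + 1) (j := d) (fun t => (y u t).unop) s
      rw [Finset.sum_apply]
      exact h2.symm

theorem Du_equiv {a : ℤ} (Rs : Res R (DuM 𝒜 a N) d)
    {ε : (Fin (R.n (nu d d)) → Aᵐᵒᵖ) →ₗ[Aᵐᵒᵖ] DuX 𝒜 N}
    (hε : ε ∈ Hm (GM.pi (R.w (nu d d)) (AsA (opG 𝒜))) (DuM 𝒜 a N) 0)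
    (hs : Function.Surjective ε)
    (hk : ∀ k, k = nu d d + 1 → ∀ x, ε x = 0 ↔
        ∃ y : Fin (R.n k) → Aᵐᵒᵖ, ∀ s, x s = ∑ r, y r * R.D k (nu d d) r s)
    {r : ℕ} (w : Fin r → ℤ) (hw : ∀ s, w s + a < N) :
    ∃ Φ : (R.rt d hP).SH (Fre 𝒜 w) d 0 ≃ₗ[K] Module.Dual K (Du_C 𝒜 w a),
      ∀ (z : (R.rt d hP).Zc (Fre 𝒜 w) d 0) (b : Du_C 𝒜 w a),
        Φ (Submodule.Quotient.mk z) b = Du_psi ε r z.1 b.1 := by
  let Ψ : (R.rt d hP).Zc (Fre 𝒜 w) d 0 →ₗ[K] Module.Dual K (Du_C 𝒜 w a) :=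
    (LinearMap.lcomp K K (Du_C 𝒜 w a).subtype) ∘ₗ (Du_psi ε r) ∘ₗ
      ((R.rt d hP).Zc (Fre 𝒜 w) d 0).subtype
  have hΨ : ∀ z b, Ψ z b = Du_psi ε r z.1 b.1 := fun z b => rfl
  have hker : ((R.rt d hP).Bc (Fre 𝒜 w) d 0).submoduleOf ((R.rt d hP).Zc (Fre 𝒜 w) d 0)
      = LinearMap.ker Ψ := by
    ext z
    rw [LinearMap.mem_ker]
    show z.1 ∈ (R.rt d hP).Bc (Fre 𝒜 w) d 0 ↔ _
    refine (Du_top hP Rs hk w 0 z.2.1).trans ?_
    constructor
    · intro h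
      refine LinearMap.ext fun b => ?_
      refine (Du_psi_apply ε r z.1 b.1).trans (Finset.sum_eq_zero fun u _ => ?_)
      exact congrArg (fun f : DuX 𝒜 N => f.fn (b.1 u)) (h u)
    · intro h u
      refine Du_psi_ker hε (fun t => z.2.1 t (Set.mem_univ t)) (fun b hb => ?_) u
      exact LinearMap.congr_fun h ⟨b, hb⟩
  have hsurj : Function.Surjective Ψ := by
    intro g
    obtain ⟨m, hm, hg⟩ := Du_psi_surj hε hs hw g
    refine ⟨⟨m, fun t _ => hm t, ?_⟩, LinearMap.ext fun b => hg b⟩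
    show (R.rt d hP).cod (Fre 𝒜 w) d m = 0
    funext s
    exact (Fin.cast (Du_rt_n hP (Nat.lt_succ_self d)) s).elim0
  refine ⟨(Submodule.quotEquivOfEq _ _ hker).trans (Ψ.quotKerEquivOfSurjective hsurj), ?_⟩
  intro z b
  rfl

end


/-! ### Finiteness of the homology -/

theorem Du_quot1 {V : Type*} [AddCommGroup V] [Module K V] (B F : Submodule K V)
    (hF : Module.Finite K F) (h : ∀ z, ∃ f ∈ F, z - f ∈ B) : Module.Finite K (V ⧸ B) := by
  refine Module.Finite.of_surjective (B.mkQ ∘ₗ F.subtype) ?_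
  intro q
  obtain ⟨z, rfl⟩ := Submodule.Quotient.mk_surjective B q
  obtain ⟨f, hf, hz⟩ := h z
  exact ⟨⟨f, hf⟩, ((Submodule.Quotient.eq B).2 hz).symm⟩

theorem Du_quot2 {V : Type*} [AddCommGroup V] [Module K V] (Z B F : Submodule K V)
    (hF : Module.Finite K F) (h : ∀ z ∈ Z, ∃ f ∈ F, z - f ∈ B) :
    Module.Finite K (↥Z ⧸ B.submoduleOf Z) := by
  let g : ↥Z →ₗ[K] (V ⧸ B) := B.mkQ ∘ₗ Z.subtype
  have h1 : LinearMap.range g ≤ F.map B.mkQ := by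
    rintro _ ⟨z, rfl⟩
    obtain ⟨f, hf, hz⟩ := h z.1 z.2
    exact ⟨f, hf, ((Submodule.Quotient.eq B).2 hz).symm⟩
  have h2 : Module.Finite K (LinearMap.range g) := Submodule.finiteDimensional_of_le h1
  have h3 : LinearMap.ker g = B.submoduleOf Z := by
    ext z
    rw [LinearMap.mem_ker]
    exact Submodule.Quotient.mk_eq_zero B
  rw [← h3]
  exact Module.Finite.equiv g.quotKerEquivRange.symm

theorem Du_dg_fin (fin : ∀ n, Module.Finite K (𝒜 n)) (n : ℤ) :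
    Module.Finite K ((AsA 𝒜).dg n) := by
  have h1 : (AsA 𝒜).dg n = hA 𝒜 n := Submodule.ext fun x => prA_dg
  rw [h1]
  rcases le_or_gt 0 n with h | h
  · lift n to ℕ using h
    rw [hA_nat]
    exact fin n
  · rw [hA_neg h]
    infer_instance

theorem Du_Cc_fin (fin : ∀ n, Module.Finite K (𝒜 n)) (P : MC 𝒜) (i : ℕ) (c : ℤ) :
    Module.Finite K (P.Cc (AsA 𝒜) i c) := by
  have h1 : ∀ t : Fin (P.n i), Module.Finite K ((AsA 𝒜).dg (P.w i t + c)) := fun t =>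
    Du_dg_fin fin _
  let g : ↥(P.Cc (AsA 𝒜) i c) →ₗ[K] (∀ t : Fin (P.n i), ↥((AsA 𝒜).dg (P.w i t + c))) :=
    LinearMap.pi fun t => ((LinearMap.proj t : (Fin (P.n i) → A) →ₗ[K] A) ∘ₗ
      (P.Cc (AsA 𝒜) i c).subtype).codRestrict _ (fun x => x.2 t (Set.mem_univ t))
  refine Module.Finite.of_injective g fun x y h => Subtype.ext (funext fun t => ?_)
  exact congrArg Subtype.val (congrFun h t)

theorem Du_Zc_fin (fin : ∀ n, Module.Finite K (𝒜 n)) (P : MC 𝒜) (i : ℕ) (c : ℤ) :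
    Module.Finite K (P.Zc (AsA 𝒜) i c) := by
  have := Du_Cc_fin fin P i c
  exact Submodule.finiteDimensional_of_le (inf_le_left : P.Zc (AsA 𝒜) i c ≤ P.Cc (AsA 𝒜) i c)

/-- All coboundaries. -/
noncomputable def Du_Bt (P : MC 𝒜) : (i : ℕ) → Submodule K (Fin (P.n i) → A)
  | 0 => ⊥
  | i + 1 => LinearMap.range (P.cod (AsA 𝒜) i)

theorem Du_Bc_le (P : MC 𝒜) (i : ℕ) (c : ℤ) : P.Bc (AsA 𝒜) i c ≤ Du_Bt P i := by
  cases i with
  | zero => exact bot_le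
  | succ i =>
    rintro _ ⟨x, _, rfl⟩
    exact ⟨x, rfl⟩

theorem Du_Bt_zero {P : MC 𝒜} {e : ℕ} (he : e = 0) {b : Fin (P.n e) → A} (hb : b ∈ Du_Bt P e) :
    b = 0 := by
  subst he
  exact (Submodule.mem_bot K).1 hb

theorem Du_Bt_succ {P : MC 𝒜} {e k : ℕ} (he : e = k + 1) {b : Fin (P.n e) → A}
    (hb : b ∈ Du_Bt P e) : ∃ y : Fin (P.n k) → A, ∀ s, b s = ∑ t, P.D e k s t * y t := by
  subst he
  obtain ⟨y, hy⟩ := hb
  exact ⟨y, fun s => (congrFun hy s).symm⟩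

theorem Du_cod_zero {P : MC 𝒜} {e k : ℕ} (he : e = k + 1) {x : Fin (P.n k) → A}
    (hx : ∀ s : Fin (P.n e), ∑ t, P.D e k s t * x t = 0) : P.cod (AsA 𝒜) k x = 0 := by
  subst he
  funext s
  exact hx s

/-- Cocycles are sums of elements of a finite-dimensional space and coboundaries. -/
theorem Du_cf (fin : ∀ n, Module.Finite K (𝒜 n)) (P : MC 𝒜) (i : ℕ)
    (hS : {c | ¬ Subsingleton (P.SH (AsA 𝒜) i c)}.Finite) :
    ∃ F : Submodule K (Fin (P.n i) → A), Module.Finite K F ∧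
      ∀ x : Fin (P.n i) → A, P.cod (AsA 𝒜) i x = 0 → ∃ f ∈ F, x - f ∈ Du_Bt P i := by
  classical
  have h1 : ∀ c, Module.Finite K (P.Zc (AsA 𝒜) i c) := fun c => Du_Zc_fin fin P i c
  refine ⟨hS.toFinset.sup fun c => P.Zc (AsA 𝒜) i c, Submodule.finite_finset_sup _ _, ?_⟩
  intro x hx
  let xc : ℤ → (Fin (P.n i) → A) := fun c t => prA 𝒜 (P.w i t + c) (x t)
  have hxZ : ∀ c, xc c ∈ P.Zc (AsA 𝒜) i c := by
    intro c
    refine ⟨Du_prC_mem P (AsA 𝒜) i c x, ?_⟩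
    have h2 := Du_prC_cod P (AsA 𝒜) i c x
    rw [hx] at h2
    refine h2.trans ?_
    funext s
    exact map_zero _
  obtain ⟨t, ht⟩ := (GM.pi (fun s => -P.w i s) (AsA 𝒜)).pr_sum x
  have ht' : ∑ c ∈ t, xc c = x := by
    rw [← ht]
    refine Finset.sum_congr rfl fun c _ => funext fun s => ?_
    have h3 : P.w i s + c = c - -P.w i s := by ring
    show prA 𝒜 (P.w i s + c) (x s) = prA 𝒜 (c - -P.w i s) (x s)
    rw [h3]
  have hB : ∀ c, c ∉ hS.toFinset → xc c ∈ Du_Bt P i := by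
    intro c hc
    rw [Set.Finite.mem_toFinset, Set.mem_ofPred_eq, not_not] at hc
    rw [Submodule.Quotient.subsingleton_iff, eq_top_iff] at hc
    exact Du_Bc_le P i c (hc (Submodule.mem_top (x := (⟨xc c, hxZ c⟩ : P.Zc (AsA 𝒜) i c))))
  refine ⟨∑ c ∈ t.filter (· ∈ hS.toFinset), xc c, ?_, ?_⟩
  · refine Submodule.sum_mem _ fun c hc => ?_
    exact (Finset.le_sup (f := fun c => P.Zc (AsA 𝒜) i c) (Finset.mem_filter.1 hc).2) (hxZ c)
  · have h4 : x - ∑ c ∈ t.filter (· ∈ hS.toFinset), xc c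
        = ∑ c ∈ t.filter (¬ · ∈ hS.toFinset), xc c := by
      rw [sub_eq_iff_eq_add']
      refine (ht'.symm).trans ?_
      exact (Finset.sum_filter_add_sum_filter_not t (· ∈ hS.toFinset) xc).symm
    rw [h4]
    exact Submodule.sum_mem _ fun c hc => hB c (Finset.mem_filter.1 hc).2

theorem Du_supp {T : GM (opG 𝒜)} (fin : ∀ n, Module.Finite K (opG 𝒜 n)) {R : MC (opG 𝒜)} {d : ℕ}
    (Rs : Res R T d) (j : ℕ) (hFS : FS (eE j T)) :
    {c | ¬ Subsingleton (R.SH (AsA (opG 𝒜)) j c)}.Finite := by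
  refine Set.Finite.subset hFS fun c hc => ?_
  rw [Function.mem_support]
  intro h0
  apply hc
  obtain ⟨e⟩ := RS_iso Rs j c
  have h1 := Du_Zc_fin fin R j c
  have h2 : finrank K (R.SH (AsA (opG 𝒜)) j c) = 0 := by
    rw [← e.finrank_eq]
    exact h0
  exact Module.finrank_zero_iff.1 h2

section

variable {R : MC (opG 𝒜)} {d : ℕ} (hP : ∀ i, d < i → R.n i = 0)

variable (K A) in
/-- The passage to the opposite algebra in every coordinate. -/
noncomputable def Du_op (e : ℕ) : (Fin e → A) ≃ₗ[K] (Fin e → Aᵐᵒᵖ) :=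
  LinearEquiv.piCongrRight fun _ => MulOpposite.opLinearEquiv K

theorem Du_Bt_bd {i : ℕ} (hi : i ≤ d) {b : Fin (R.n (nu d i)) → Aᵐᵒᵖ}
    (hb : b ∈ Du_Bt R (nu d i)) :
    (fun t => (b t).unop) ∈ LinearMap.range ((R.rt d hP).bd i) := by
  rcases Nat.lt_or_ge i d with h | h
  · have h1 : nu d i = nu d (i + 1) + 1 := by
      rw [nu_le d i (by omega), nu_le d (i + 1) (by omega)]
      omega
    obtain ⟨y, hy⟩ := Du_Bt_succ h1 hb
    refine ⟨fun t => (y t).unop, funext fun s => ?_⟩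
    show _ = (b s).unop
    rw [hy s, Finset.unop_sum]
    rfl
  · have h1 : nu d i = 0 := by
      rw [nu_le d i (by omega)]
      omega
    have h2 := Du_Bt_zero h1 hb
    rw [h2]
    have h3 : (fun t : Fin (R.n (nu d i)) => ((0 : Fin (R.n (nu d i)) → Aᵐᵒᵖ) t).unop) = 0 := rfl
    rw [h3]
    exact zero_mem _

theorem Du_FinH (fin : ∀ n, Module.Finite K (𝒜 n))
    (hS : ∀ j, {c | ¬ Subsingleton (R.SH (AsA (opG 𝒜)) j c)}.Finite) :
    (R.rt d hP).FinH := by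
  have fin' : ∀ n, Module.Finite K (opG 𝒜 n) := fun n => by
    have := fin n
    unfold opG
    infer_instance
  constructor
  · obtain ⟨F, hF, h⟩ := Du_cf fin' R (nu d 0) (hS _)
    have hF' : Module.Finite K (F.map (Du_op K A (R.n (nu d 0))).symm.toLinearMap) :=
      Module.Finite.map F _
    refine Du_quot1 _ (F.map (Du_op K A (R.n (nu d 0))).symm.toLinearMap) hF' fun z => ?_
    have h5 : R.n (nu d 0 + 1) = 0 := hP _ (by rw [nu_le d 0 (by omega)]; omega)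
    obtain ⟨f, hf, hz⟩ := h (Du_op K A _ z) (funext fun s => (Fin.cast h5 s).elim0)
    refine ⟨(Du_op K A _).symm f, ⟨f, hf, rfl⟩, ?_⟩
    have h6 := Du_Bt_bd hP (i := 0) (Nat.zero_le d) hz
    exact h6
  · intro i
    rcases Nat.lt_or_ge i d with hi | hi
    · obtain ⟨F, hF, h⟩ := Du_cf fin' R (nu d (i + 1)) (hS _)
      have hF' : Module.Finite K (F.map (Du_op K A (R.n (nu d (i + 1)))).symm.toLinearMap) :=
        Module.Finite.map F _
      refine Du_quot2 _ _ (F.map (Du_op K A (R.n (nu d (i + 1)))).symm.toLinearMap) hF'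
        fun z hz => ?_
      have h1 : nu d i = nu d (i + 1) + 1 := by
        rw [nu_le d i (by omega), nu_le d (i + 1) (by omega)]
        omega
      have h2 : ∀ s : Fin (R.n (nu d i)), ∑ t, R.D (nu d i) (nu d (i + 1)) s t *
          MulOpposite.op (z t) = 0 := by
        intro s
        have h3 : (R.rt d hP).bd i z = 0 := hz
        have h4 : MulOpposite.op (∑ t, z t * (R.D (nu d i) (nu d (i + 1)) s t).unop) = 0 :=
          congrArg MulOpposite.op (congrFun h3 s)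
        rw [Finset.op_sum] at h4
        exact h4
      obtain ⟨f, hf, hz'⟩ := h (Du_op K A _ z) (Du_cod_zero h1 h2)
      refine ⟨(Du_op K A _).symm f, ⟨f, hf, rfl⟩, ?_⟩
      exact Du_Bt_bd hP (i := i + 1) (by omega) hz'
    · refine Du_quot2 _ _ ⊥ inferInstance fun z _ => ⟨0, zero_mem _, ?_⟩
      have h1 : z = 0 := funext fun t => (Fin.cast (Du_rt_n hP (i := i + 1) (by omega)) t).elim0
      rw [h1, sub_zero]
      exact zero_mem _

end

/-- Naturality of the pairing. -/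
theorem Du_nat {N : ℤ} {e : ℕ} (ε : (Fin e → Aᵐᵒᵖ) →ₗ[Aᵐᵒᵖ] DuX 𝒜 N) (G : MC 𝒜) (i : ℕ)
    (z : Fin e → Fin (G.n (i + 1)) → A) (b : Fin (G.n i) → A) :
    Du_psi ε (G.n i) (fun t => G.bd i (z t)) b
      = Du_psi ε (G.n (i + 1)) z (G.cod (AsA 𝒜) i b) := by
  rw [Du_psi_apply, Du_psi_apply]
  have h1 : ∀ u : Fin (G.n i), (fun t => MulOpposite.op (G.bd i (z t) u))
      = ∑ s, MulOpposite.op (G.D (i + 1) i s u) • (fun t => MulOpposite.op (z t s)) := by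
    intro u
    funext t
    rw [Finset.sum_apply]
    exact Finset.op_sum Finset.univ (fun s => z t s * G.D (i + 1) i s u)
  have h2 : ∀ u : Fin (G.n i), (ε fun t => MulOpposite.op (G.bd i (z t) u)).fn (b u)
      = ∑ s, (ε fun t => MulOpposite.op (z t s)).fn (G.D (i + 1) i s u * b u) := by
    intro u
    rw [h1, map_sum, Du_sum_fn]
    refine Finset.sum_congr rfl fun s _ => ?_
    rw [map_smul, DuX.smul_fn]
    rfl
  rw [Finset.sum_congr rfl fun u _ => h2 u, Finset.sum_comm]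
  refine Finset.sum_congr rfl fun s _ => ?_
  rw [← map_sum]
  rfl

theorem Du_pack {d : ℕ} (H : Hyp 𝒜 d) (a : ℤ) (N : ℤ) : ∃ P : MC 𝒜,
    (∀ i, d < i → P.n i = 0) ∧ P.FinH ∧
    (∀ j, j ≠ d → ∀ c, Subsingleton (P.SH (AsA 𝒜) j c)) ∧
    ∃ ε : (Fin (P.n d) → Aᵐᵒᵖ) →ₗ[Aᵐᵒᵖ] DuX 𝒜 N,
      ∀ (r : ℕ) (w : Fin r → ℤ), (∀ s, w s + a < N) →
        ∃ Φ : P.SH (Fre 𝒜 w) d 0 ≃ₗ[K] Module.Dual K (Du_C 𝒜 w a),
          ∀ (z : P.Zc (Fre 𝒜 w) d 0) (b : Du_C 𝒜 w a),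
            Φ (Submodule.Quotient.mk z) b = Du_psi ε r z.1 b.1 := by
  have hT := DuM_fin H.fin a N
  obtain ⟨R, ⟨Rs⟩⟩ := H.resR (DuM 𝒜 a N) hT
  have hP : ∀ i, d < i → R.n i = 0 := Rs.zero
  have fin' : ∀ n, Module.Finite K (opG 𝒜 n) := fun n => by
    have := H.fin n
    unfold opG
    infer_instance
  have hnu : nu d d = 0 := by
    rw [nu_le d d le_rfl]
    omega
  obtain ⟨ε, hε, hs, hk⟩ := Du_exE Rs hnu
  exact ⟨R.rt d hP, fun i hi => Du_rt_n hP hi,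
    Du_FinH hP H.fin fun j => Du_supp fin' Rs j (H.gorR _ hT j), fun j hj c => Du_van hP Rs j hj c,
    ε, fun r w hw => Du_equiv hP Rs hε hs hk w hw⟩

/-- The complex `Hom(R, A)`, `R` a resolution of the right module dual to `A(a)/A(a)_{≥ N}`. -/
theorem Du {d : ℕ} (H : Hyp 𝒜 d) (a : ℤ) (N : ℤ) : ∃ P : MC 𝒜,
    (∀ i, d < i → P.n i = 0) ∧ P.FinH ∧
    (∀ j, j ≠ d → ∀ c, Subsingleton (P.SH (AsA 𝒜) j c)) ∧
    ∃ Φ : ∀ (G : MC 𝒜) (i : ℕ), (∀ s, G.w i s + a < N) →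
        (P.SH (Fre 𝒜 (G.w i)) d 0 ≃ₗ[K] Module.Dual K (G.Cc (AsA 𝒜) i a)),
      ∀ (G : MC 𝒜) (i : ℕ) (h : ∀ s, G.w i s + a < N) (h' : ∀ s, G.w (i + 1) s + a < N)
        (ξ : P.SH (Fre 𝒜 (G.w (i + 1))) d 0) (b : G.Cc (AsA 𝒜) i a)
        (hb : G.cod (AsA 𝒜) i b ∈ G.Cc (AsA 𝒜) (i + 1) a),
        Φ G i h (P.gmap G i d 0 ξ) b
          = Φ G (i + 1) h' ξ ⟨G.cod (AsA 𝒜) i b, hb⟩ := by
  obtain ⟨P, h1, h2, h3, ε, h4⟩ := Du_pack H a N
  refine ⟨P, h1, h2, h3, ?_⟩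
  choose Φ hΦ using h4
  refine ⟨fun G i h => Φ (G.n i) (G.w i) h, ?_⟩
  intro G i h h' ξ b hb
  obtain ⟨z, rfl⟩ := Submodule.Quotient.mk_surjective _ ξ
  have e1 := hΦ (G.n (i + 1)) (G.w (i + 1)) h' z ⟨G.cod (AsA 𝒜) i b, hb⟩
  have e2 := hΦ (G.n i) (G.w i) h (((P.cmap (M := Fre 𝒜 (G.w (i + 1))) (N := Fre 𝒜 (G.w i))
          (G.bd i) d).restrict (P.cmap_Zc (M := Fre 𝒜 (G.w (i + 1))) (N := Fre 𝒜 (G.w i))
          (G.bd i) (G.bd_mem i) d 0)) z) b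
  exact e2.trans ((Du_nat ε G i z.1 b.1).trans e1.symm)

end Pool.Agent.NAS
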