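import Pool.Agent.Lib_helper19.NAS.Defs3
import Pool.Agent.Lib_helper19.NAS.B.Tool
import Pool.Agent.Lib_helper19.NAS.B.Frx

/-!
# The modules V_j (MP_ef4bac_al, project NAS, block V)
-/

set_option autoImplicit false

namespace Pool.Agent.NAS

open Module Filter Topology

universe u

variable {K A : Type u} [Field K] [Ring A] [Algebra K A] {𝒜 : ℕ → Submodule K A}
  [GradedAlgebra 𝒜]

/-- The class of `1`. -/
def V_one (Q : Ideal A) : A ⧸ Q := Submodule.Quotient.mk 1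

omit [GradedAlgebra 𝒜] in
theorem V_kill (Q : Ideal A) (q : A) (hq : q ∈ Q) : q • V_one Q = 0 := by
  show (Submodule.Quotient.mk (q • (1 : A)) : A ⧸ Q) = 0
  rw [smul_eq_mul, mul_one]
  exact (Submodule.Quotient.mk_eq_zero Q).2 hq

theorem V_one_mem (Q : Ideal A) (h : HI 𝒜 Q) : V_one Q ∈ (CQ Q h).dg 0 := by
  rw [GM.mem_dg]
  refine congrArg (Submodule.Quotient.mk (p := Q)) ?_
  exact prA_of_mem one_mem_hA

/-- The value at the class of `1`, an element killed by `Q`. -/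
noncomputable def V_ev (Q : Ideal A) (h : HI 𝒜 Q) (h2 : TS Q) (N : GM 𝒜) (a : ℤ) :
    Hm (CQ Q h) N a →ₗ[K] (GaM Q h h2 N).X where
  toFun f := ⟨f.1 (V_one Q), fun q hq => by
    rw [← map_smul, V_kill Q q hq, map_zero]⟩
  map_add' _ _ := rfl
  map_smul' _ _ := rfl

theorem V_ev_apply (Q : Ideal A) (h : HI 𝒜 Q) (h2 : TS Q) (N : GM 𝒜) (a : ℤ)
    (f : Hm (CQ Q h) N a) : (V_ev Q h h2 N a f).1 = f.1 (V_one Q) := rfl

theorem V_ev_dg (Q : Ideal A) (h : HI 𝒜 Q) (h2 : TS Q) (N : GM 𝒜) (a : ℤ)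
    (f : Hm (CQ Q h) N a) : V_ev Q h h2 N a f ∈ (GaM Q h h2 N).dg a := by
  rw [GM.mem_dg]
  refine Subtype.ext ?_
  have h1 := Hm_dg f.2 (V_one_mem Q h)
  rw [zero_add] at h1
  exact GM.pr_dg h1

theorem V_ev_surj (Q : Ideal A) (h : HI 𝒜 Q) (h2 : TS Q) (N : GM 𝒜) (a : ℤ)
    (x : (GaM Q h h2 N).X) (hx : x ∈ (GaM Q h h2 N).dg a) :
    ∃ f : Hm (CQ Q h) N a, V_ev Q h h2 N a f = x := by
  let f : (A ⧸ Q) →ₗ[A] N.X := Q.liftQ (LinearMap.toSpanSingleton A N.X x.1)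
    (fun q hq => x.2 q hq)
  have hf : ∀ b : A, f (Submodule.Quotient.mk b) = b • x.1 := fun b => rfl
  have hx' : x.1 ∈ N.dg a := by
    rw [GM.mem_dg] at hx ⊢
    exact congrArg Subtype.val hx
  refine ⟨⟨f, ?_⟩, Subtype.ext ?_⟩
  · intro n y
    obtain ⟨b, rfl⟩ := Submodule.Quotient.mk_surjective Q y
    have h1 : (CQ Q h).pr n (Submodule.Quotient.mk b) = Submodule.Quotient.mk (prA 𝒜 n b) := rfl
    rw [h1, hf, hf, Tool_pr_smul b hx', add_sub_cancel_right]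
  · show f (Submodule.Quotient.mk 1) = x.1
    rw [hf, one_smul]

theorem V_ev_inj (Q : Ideal A) (h : HI 𝒜 Q) (h2 : TS Q) (N : GM 𝒜) (a : ℤ) :
    Function.Injective (V_ev Q h h2 N a) := by
  intro f g hfg
  refine Subtype.ext (LinearMap.ext fun y => ?_)
  obtain ⟨b, rfl⟩ := Submodule.Quotient.mk_surjective Q y
  have h1 : (Submodule.Quotient.mk b : A ⧸ Q) = b • V_one Q := by
    show _ = (Submodule.Quotient.mk (b • (1 : A)) : A ⧸ Q)
    rw [smul_eq_mul, mul_one]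
  have h3 : f.1 (V_one Q) = g.1 (V_one Q) := congrArg Subtype.val hfg
  rw [h1, map_smul, map_smul, h3]

/-- The map from the elements of the cosyzygy killed by `Q` to `V_j`. -/
noncomputable def V_cls (Q : Ideal A) (h : HI 𝒜 Q) (h2 : TS Q) : (j : ℕ) →
    ((GaM Q h h2 (IX 𝒜 j)).X →ₗ[A] (VV Q h h2 j).X)
  | 0 => LinearMap.id
  | j + 1 => (LinearMap.range (gaMap Q h h2 (pI (𝒜 := 𝒜) j))).mkQ

theorem V_cls_surj (Q : Ideal A) (h : HI 𝒜 Q) (h2 : TS Q) (j : ℕ) :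
    Function.Surjective (V_cls Q h h2 j) := by
  cases j with
  | zero => exact fun x => ⟨x, rfl⟩
  | succ j => exact Submodule.mkQ_surjective _

theorem V_cls_mem (Q : Ideal A) (h : HI 𝒜 Q) (h2 : TS Q) (j : ℕ) :
    V_cls Q h h2 j ∈ Hm (GaM Q h h2 (IX 𝒜 j)) (VV Q h h2 j) 0 := by
  cases j with
  | zero =>
    intro n x
    rw [add_zero]
    rfl
  | succ j =>
    intro n x
    rw [add_zero]
    rfl

/-- The value at the class of `1`, in `V_j`. -/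
noncomputable def V_th (Q : Ideal A) (h : HI 𝒜 Q) (h2 : TS Q) (j : ℕ) (a : ℤ) :
    Hm (CQ Q h) (IX 𝒜 j) a →ₗ[K] (VV Q h h2 j).X :=
  (V_cls Q h h2 j).restrictScalars K ∘ₗ V_ev Q h h2 (IX 𝒜 j) a

theorem V_th_dg (Q : Ideal A) (h : HI 𝒜 Q) (h2 : TS Q) (j : ℕ) (a : ℤ)
    (f : Hm (CQ Q h) (IX 𝒜 j) a) : V_th Q h h2 j a f ∈ (VV Q h h2 j).dg a := by
  have h1 := Hm_dg (V_cls_mem Q h h2 j) (V_ev_dg Q h h2 (IX 𝒜 j) a f)
  rw [add_zero] at h1
  exact h1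

theorem V_th_surj (Q : Ideal A) (h : HI 𝒜 Q) (h2 : TS Q) (j : ℕ) (a : ℤ)
    (x : (VV Q h h2 j).X) (hx : x ∈ (VV Q h h2 j).dg a) :
    ∃ f : Hm (CQ Q h) (IX 𝒜 j) a, V_th Q h h2 j a f = x := by
  obtain ⟨y, hy, rfl⟩ := Frx_lift (V_cls Q h h2 j) (V_cls_mem Q h h2 j) (V_cls_surj Q h h2 j) hx
  obtain ⟨f, rfl⟩ := V_ev_surj Q h h2 (IX 𝒜 j) a y hy
  exact ⟨f, rfl⟩

theorem V_th_ker (Q : Ideal A) (h : HI 𝒜 Q) (h2 : TS Q) (j : ℕ) (a : ℤ)
    (f : Hm (CQ Q h) (IX 𝒜 j) a) : V_th Q h h2 j a f = 0 ↔ f ∈ Bd j (CQ Q h) a := by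
  cases j with
  | zero =>
    constructor
    · intro hf
      have h1 : V_ev Q h h2 (IX 𝒜 0) a f = 0 := hf
      have h3 : f = 0 := V_ev_inj Q h h2 _ a (h1.trans (map_zero _).symm)
      rw [h3]
      exact zero_mem _
    · intro hf
      have h1 : f = 0 := (Submodule.mem_bot K).1 hf
      rw [h1, map_zero]
  | succ j =>
    constructor
    · intro hf
      have h1 : (Submodule.Quotient.mk (V_ev Q h h2 (IX 𝒜 (j + 1)) a f) :
          (GaM Q h h2 (IX 𝒜 (j + 1))).X ⧸ LinearMap.range (gaMap Q h h2 (pI (𝒜 := 𝒜) j))) = 0 := hf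
      rw [Submodule.Quotient.mk_eq_zero] at h1
      obtain ⟨y, hy⟩ := h1
      -- the homogeneous component
      have hy2 : gaMap Q h h2 (pI (𝒜 := 𝒜) j) ((GaM Q h h2 (coind (IX 𝒜 j))).pr a y)
          = V_ev Q h h2 (IX 𝒜 (j + 1)) a f := by
        have h3 := gaMap_mem Q h h2 (pI_mem (𝒜 := 𝒜) j) a y
        rw [add_zero] at h3
        rw [h3, hy]
        exact GM.pr_dg (V_ev_dg Q h h2 _ a f)
      obtain ⟨k, hk⟩ := V_ev_surj Q h h2 (coind (IX 𝒜 j)) a _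
        ((GaM Q h h2 (coind (IX 𝒜 j))).pr_mem a y)
      rw [Les_Bd]
      refine ⟨k, ?_⟩
      apply V_ev_inj Q h h2 _ a
      rw [← hy2, ← hk]
      rfl
    · intro hf
      rw [Les_Bd] at hf
      obtain ⟨k, rfl⟩ := hf
      show (Submodule.Quotient.mk _ :
          (GaM Q h h2 (IX 𝒜 (j + 1))).X ⧸ LinearMap.range (gaMap Q h h2 (pI (𝒜 := 𝒜) j))) = 0
      rw [Submodule.Quotient.mk_eq_zero]
      exact ⟨V_ev Q h h2 (coind (IX 𝒜 j)) a k, rfl⟩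

/-- The isomorphism of a quotient by the kernel with the range. -/
theorem V_quot {M N : Type*} [AddCommGroup M] [Module K M] [AddCommGroup N] [Module K N]
    (B : Submodule K M) (T : M →ₗ[K] N) (R : Submodule K N) (h1 : ∀ x, T x ∈ R)
    (h2 : ∀ y ∈ R, ∃ x, T x = y) (h3 : ∀ x, T x = 0 ↔ x ∈ B) :
    ∃ e : (M ⧸ B) ≃ₗ[K] R, ∀ x, (e (Submodule.Quotient.mk x) : N) = T x := by
  have hB : B ≤ LinearMap.ker (T.codRestrict R h1) := by
    intro x hx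
    rw [LinearMap.mem_ker]
    exact Subtype.ext ((h3 x).2 hx)
  refine ⟨LinearEquiv.ofBijective (B.liftQ (T.codRestrict R h1) hB) ⟨?_, ?_⟩, fun x => rfl⟩
  · rw [injective_iff_map_eq_zero]
    intro x hx
    obtain ⟨x, rfl⟩ := Submodule.Quotient.mk_surjective _ x
    have h4 : T x = 0 := congrArg Subtype.val hx
    rw [Submodule.Quotient.mk_eq_zero]
    exact (h3 x).1 h4
  · rintro ⟨y, hy⟩
    obtain ⟨x, rfl⟩ := h2 y hy
    exact ⟨Submodule.Quotient.mk x, rfl⟩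

theorem V_E (Q : Ideal A) (h : HI 𝒜 Q) (h2 : TS Q) (j : ℕ) (a : ℤ) :
    Nonempty (E j (CQ Q h) a ≃ₗ[K] (VV Q h h2 j).dg a) := by
  obtain ⟨e, _⟩ := V_quot (Bd j (CQ Q h) a) (V_th Q h h2 j a) ((VV Q h h2 j).dg a)
    (V_th_dg Q h h2 j a) (V_th_surj Q h h2 j a) (V_th_ker Q h h2 j a)
  exact ⟨e⟩

theorem V_kil (Q : Ideal A) (h : HI 𝒜 Q) (h2 : TS Q) (j : ℕ) : Kil Q (VV Q h h2 j) := by
  intro q hq x
  obtain ⟨y, rfl⟩ := V_cls_surj Q h h2 j x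
  have h1 : q • y = 0 := Subtype.ext (y.2 q hq)
  rw [← map_smul, h1, map_zero]

/-- The components of the isomorphism for a direct sum. -/
noncomputable def V_Th (P : MC 𝒜) (Q : Ideal A) (h : HI 𝒜 Q) (h2 : TS Q) (j : ℕ) (a : ℤ)
    (i : ℕ) : Hm (PB P Q h i) (IX 𝒜 j) a →ₗ[K] (Fin (P.n i) → (VV Q h h2 j).X) :=
  LinearMap.pi fun s => V_th Q h h2 j (P.w i s + a) ∘ₗ LinearMap.proj s ∘ₗ
    (Frx_eqv (P.w i) (CQ Q h) (IX 𝒜 j) a).toLinearMap

theorem V_Th_apply (P : MC 𝒜) (Q : Ideal A) (h : HI 𝒜 Q) (h2 : TS Q) (j : ℕ) (a : ℤ)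
    (i : ℕ) (f : Hm (PB P Q h i) (IX 𝒜 j) a) (s : Fin (P.n i)) :
    V_Th P Q h h2 j a i f s
      = V_th Q h h2 j (P.w i s + a) (Frx_eqv (P.w i) (CQ Q h) (IX 𝒜 j) a f s) := rfl

theorem V_bdQ_single (P : MC 𝒜) (Q : Ideal A) (h : HI 𝒜 Q) (h2 : TS Q) (i : ℕ)
    (s : Fin (P.n (i + 1))) : bdQ P Q h h2 i (Pi.single s (V_one Q))
      = ∑ t, P.D (i + 1) i s t • (Pi.single t (V_one Q) : Fin (P.n i) → A ⧸ Q) := by
  funext t
  rw [bdQ_apply, Finset.sum_apply]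
  rw [Finset.sum_eq_single s]
  · rw [Finset.sum_eq_single t]
    · rw [Pi.single_eq_same, Pi.smul_apply, Pi.single_eq_same]
      show (Submodule.Quotient.mk (1 * P.D (i + 1) i s t) : A ⧸ Q)
        = Submodule.Quotient.mk (P.D (i + 1) i s t • (1 : A))
      rw [smul_eq_mul, one_mul, mul_one]
    · intro t' _ ht
      rw [Pi.smul_apply, Pi.single_eq_of_ne (Ne.symm ht), smul_zero]
    · intro hh
      exact absurd (Finset.mem_univ t) hh
  · intro s' _ hs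
    rw [Pi.single_eq_of_ne hs, map_zero]
  · intro hh
    exact absurd (Finset.mem_univ s) hh

/-- `Ext^j(P_i/QP_i, A)_a` is the space of the cochains of `P` in `V_j`, naturally. -/
theorem V_iso (P : MC 𝒜) (Q : Ideal A) (h : HI 𝒜 Q) (h2 : TS Q) (j : ℕ) (a : ℤ) :
    ∃ Θ : ∀ i, E j (PB P Q h i) a ≃ₗ[K] P.Cc (VV Q h h2 j) i a,
      ∀ i (x : E j (PB P Q h i) a),
        (Θ (i + 1) (Emap (bdQ P Q h h2 i) (bdQ_mem P Q h h2 i) j a x) :
          Fin (P.n (i + 1)) → (VV Q h h2 j).X) = P.cod (VV Q h h2 j) i (Θ i x) := by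
  have key : ∀ i, ∃ e : E j (PB P Q h i) a ≃ₗ[K] P.Cc (VV Q h h2 j) i a,
      ∀ x, (e (Submodule.Quotient.mk x) : Fin (P.n i) → (VV Q h h2 j).X)
        = V_Th P Q h h2 j a i x := by
    intro i
    refine V_quot (Bd j (PB P Q h i) a) (V_Th P Q h h2 j a i) (P.Cc (VV Q h h2 j) i a) ?_ ?_ ?_
    · intro f s _
      rw [V_Th_apply]
      exact V_th_dg Q h h2 j _ _
    · intro y hy
      choose f hf using fun s => V_th_surj Q h h2 j (P.w i s + a) (y s) (hy s (Set.mem_univ s))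
      refine ⟨(Frx_eqv (P.w i) (CQ Q h) (IX 𝒜 j) a).symm f, ?_⟩
      funext s
      rw [V_Th_apply, LinearEquiv.apply_symm_apply, hf]
    · intro f
      rw [Frx_eqv_Bd]
      constructor
      · intro hf s
        rw [← V_th_ker Q h h2, ← V_Th_apply, hf]
        rfl
      · intro hf
        funext s
        rw [V_Th_apply]
        exact (V_th_ker Q h h2 j _ _).2 (hf s)
  choose Θ hΘ using key
  refine ⟨Θ, fun i x => ?_⟩
  obtain ⟨f, rfl⟩ := Submodule.Quotient.mk_surjective _ x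
  rw [Emap_mk, hΘ, hΘ]
  funext s
  rw [V_Th_apply, MC.cod_apply]
  have h1 : V_ev Q h h2 (IX 𝒜 j) (P.w (i + 1) s + a)
      (Frx_eqv (P.w (i + 1)) (CQ Q h) (IX 𝒜 j) a (preH (bdQ P Q h h2 i) (bdQ_mem P Q h h2 i) (IX 𝒜 j) a f) s)
      = ∑ t, P.D (i + 1) i s t • V_ev Q h h2 (IX 𝒜 j) (P.w i t + a)
        (Frx_eqv (P.w i) (CQ Q h) (IX 𝒜 j) a f t) := by
    refine Subtype.ext ?_
    rw [V_ev_apply, Frx_eqv_apply]
    show f.1 (bdQ P Q h h2 i (Pi.single s (V_one Q))) = _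
    rw [V_bdQ_single, map_sum, AddSubmonoidClass.coe_finsetSum]
    refine Finset.sum_congr rfl fun t _ => ?_
    rw [map_smul]
    rfl
  show V_cls Q h h2 j (V_ev Q h h2 (IX 𝒜 j) (P.w (i + 1) s + a) _) = _
  rw [h1, map_sum]
  refine Finset.sum_congr rfl fun t _ => ?_
  rw [map_smul]
  rfl

end Pool.Agent.NAS
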