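import Pool.Agent.Lib_helper19.NAS.Defs3
import Pool.Agent.Lib_helper19.NAS.B.Tool
import Pool.Agent.Lib_helper19.NAS.B.Les
import Pool.Agent.Lib_helper19.NAS.B.Rs
import Pool.Agent.Lib_helper19.NAS.B.V

/-!
# The diagram chase, common part (MP_ef4bac_al, project NAS, block Kc)

First the linear algebra of two families of long exact sequences, then the instance given by the
modules of cycles, boundaries and homology of `P/QP`.
-/

set_option autoImplicit false

namespace Pool.Agent.NAS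

open Module Filter Topology

universe u



section lin

variable {K : Type*} [Field K] {V W : Type*} [AddCommGroup V] [Module K V] [AddCommGroup W]
  [Module K W]

/-- Rank and nullity on a subspace. -/
theorem Kc_fin_map (f : V →ₗ[K] W) (X : Submodule K V) [Module.Finite K V] :
    finrank K (X ⊓ LinearMap.ker f : Submodule K V) + finrank K (X.map f) = finrank K X := by
  have h1 := LinearMap.finrank_range_add_finrank_ker (f.domRestrict X)
  rw [LinearMap.range_domRestrict] at h1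
  have h2 : finrank K (LinearMap.ker (f.domRestrict X))
      = finrank K (X ⊓ LinearMap.ker f : Submodule K V) := by
    have h3 : (LinearMap.ker (f.domRestrict X)).map X.subtype = X ⊓ LinearMap.ker f := by
      ext x
      simp only [Submodule.mem_map, LinearMap.mem_ker, Submodule.mem_inf]
      constructor
      · rintro ⟨y, hy, rfl⟩
        exact ⟨y.2, hy⟩
      · rintro ⟨hx, hk⟩
        exact ⟨⟨x, hx⟩, hk, rfl⟩
    rw [← h3]
    exact (LinearEquiv.finrank_eq
      (Submodule.equivMapOfInjective X.subtype (Submodule.injective_subtype X) _))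
  omega

theorem Kc_fin_le (X Y : Submodule K V) [Module.Finite K V] (h : X ≤ Y) :
    finrank K X ≤ finrank K Y := Submodule.finrank_mono h

end lin

/-- The two families of long exact sequences of a complex of left modules, with boundaries `b`
(shifted by one), cycles `z`, terms `p`, homology `h`. -/
structure KSys (K : Type*) [Field K] (b z p h : ℕ → ℕ → Type*)
    [∀ i j, AddCommGroup (b i j)] [∀ i j, Module K (b i j)]
    [∀ i j, AddCommGroup (z i j)] [∀ i j, Module K (z i j)]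
    [∀ i j, AddCommGroup (p i j)] [∀ i j, Module K (p i j)]
    [∀ i j, AddCommGroup (h i j)] [∀ i j, Module K (h i j)] where
  /-- `E^j(H_i) → E^j(Z_i)` -/
  r : ∀ i j, h i j →ₗ[K] z i j
  /-- `E^j(Z_i) → E^j(B_i)` -/
  u : ∀ i j, z i j →ₗ[K] b (i + 1) j
  /-- `E^j(B_i) → E^(j+1)(H_i)` -/
  t : ∀ i j, b (i + 1) j →ₗ[K] h i (j + 1)
  /-- `E^j(B_(i-1)) → E^j(P_i)` -/
  al : ∀ i j, b i j →ₗ[K] p i j
  /-- `E^j(P_i) → E^j(Z_i)` -/
  be : ∀ i j, p i j →ₗ[K] z i j
  /-- `E^j(Z_i) → E^(j+1)(B_(i-1))` -/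
  de : ∀ i j, z i j →ₗ[K] b i (j + 1)
  ru : ∀ i j, LinearMap.range (r i j) = LinearMap.ker (u i j)
  ut : ∀ i j, LinearMap.range (u i j) = LinearMap.ker (t i j)
  ab : ∀ i j, LinearMap.range (al i j) = LinearMap.ker (be i j)
  bd : ∀ i j, LinearMap.range (be i j) = LinearMap.ker (de i j)
  da : ∀ i j, LinearMap.range (de i j) = LinearMap.ker (al i (j + 1))
  al0 : ∀ i, LinearMap.ker (al i 0) = ⊥
  b0 : ∀ j, Subsingleton (b 0 j)

namespace KSys

variable {K : Type*} [Field K] {b z p h : ℕ → ℕ → Type*}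
    [∀ i j, AddCommGroup (b i j)] [∀ i j, Module K (b i j)]
    [∀ i j, AddCommGroup (z i j)] [∀ i j, Module K (z i j)]
    [∀ i j, AddCommGroup (p i j)] [∀ i j, Module K (p i j)]
    [∀ i j, AddCommGroup (h i j)] [∀ i j, Module K (h i j)]
    (S : KSys K b z p h)

/-- The differential `E^j(P_i) → E^j(P_(i+1))`. -/
def D (i j : ℕ) : p i j →ₗ[K] p (i + 1) j := (S.al (i + 1) j).comp ((S.u i j).comp (S.be i j))

/-- The coboundaries in `E^j(P_i)`. -/
def cob : ∀ i j : ℕ, Submodule K (p i j)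
  | 0, _ => ⊥
  | (i + 1), j => LinearMap.range (S.D i j)

/-- The dimension of the kernel of `al`. -/
noncomputable def kap (i j : ℕ) : ℕ := finrank K (LinearMap.ker (S.al i j))

theorem kap_zero (j : ℕ) : S.kap 0 j = 0 := by
  have := S.b0 j
  have h1 : Subsingleton (LinearMap.ker (S.al 0 j)) := inferInstance
  exact Module.finrank_zero_of_subsingleton

theorem cob_le_al (i j : ℕ) : S.cob i j ≤ LinearMap.range (S.al i j) := by
  cases i with
  | zero => exact bot_le
  | succ i =>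
    rintro _ ⟨x, rfl⟩
    exact ⟨_, rfl⟩

theorem cob_le_be (i j : ℕ) : S.cob i j ≤ LinearMap.ker (S.be i j) :=
  (S.cob_le_al i j).trans (S.ab i j).le

theorem cob_le (i j : ℕ) : S.cob i j ≤ LinearMap.ker (S.D i j) := by
  intro x hx
  have h1 : S.be i j x = 0 := S.cob_le_be i j hx
  simp [D, h1]

variable [∀ i j, Module.Finite K (b i j)] [∀ i j, Module.Finite K (z i j)]
    [∀ i j, Module.Finite K (p i j)] [∀ i j, Module.Finite K (h i j)]

set_option linter.unusedSectionVars false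

/-- **(3).** -/
theorem step (i j s : ℕ) (hs : finrank K (LinearMap.ker (S.D i j)) ≤ s + finrank K (S.cob i j)) :
    S.kap (i + 1) j ≤ s + S.kap i (j + 1) + finrank K (h i (j + 1)) := by
  unfold kap
  -- first step: `t`
  have h1 := Kc_fin_map (S.t i j) (LinearMap.ker (S.al (i + 1) j))
  have h2 : finrank K ((LinearMap.ker (S.al (i + 1) j)).map (S.t i j))
      ≤ finrank K (h i (j + 1)) := Submodule.finrank_le _
  -- second step: pull back along `u`
  set Y : Submodule K (z i j) := (LinearMap.ker (S.al (i + 1) j)).comap (S.u i j) with hY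
  have h3 : (LinearMap.ker (S.al (i + 1) j) ⊓ LinearMap.ker (S.t i j) : Submodule K (b (i + 1) j))
      = Y.map (S.u i j) := by
    rw [← S.ut i j, hY, Submodule.map_comap_eq, inf_comm]
  -- third step: `de`
  have h4 := Kc_fin_map (S.de i j) Y
  have h5 : finrank K (Y.map (S.de i j)) ≤ finrank K (LinearMap.ker (S.al i (j + 1))) := by
    rw [← S.da i j]
    exact Submodule.finrank_mono (LinearMap.map_le_range)
  have h6 : (Y ⊓ LinearMap.ker (S.de i j) : Submodule K (z i j))
      = (LinearMap.ker (S.D i j)).map (S.be i j) := by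
    rw [← S.bd i j, inf_comm, ← Submodule.map_comap_eq]
    congr 1
  -- fourth step: the image in `b (i+1) j`
  have h7 := Kc_fin_map ((S.u i j).comp (S.be i j)) (LinearMap.ker (S.D i j))
  have h8 : finrank K (S.cob i j) ≤ finrank K (LinearMap.ker (S.D i j)
      ⊓ LinearMap.ker ((S.u i j).comp (S.be i j)) : Submodule K (p i j)) := by
    refine Submodule.finrank_mono (le_inf (S.cob_le i j) ?_)
    intro x hx
    have h1 : S.be i j x = 0 := S.cob_le_be i j hx
    simp [h1]
  -- the quotient of `map u Y` by the image of `ker D` is a quotient of `Y / (Y ⊓ ker de)`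
  have h9 := Kc_fin_map (S.u i j) Y
  have h10 := Kc_fin_map (S.u i j) (Y ⊓ LinearMap.ker (S.de i j))
  have h11 : finrank K (Y ⊓ LinearMap.ker (S.de i j) ⊓ LinearMap.ker (S.u i j) :
      Submodule K (z i j)) ≤ finrank K (Y ⊓ LinearMap.ker (S.u i j) : Submodule K (z i j)) :=
    Submodule.finrank_mono (inf_le_inf_right _ inf_le_left)
  have h12 : finrank K ((Y ⊓ LinearMap.ker (S.de i j) : Submodule K (z i j)).map (S.u i j))
      = finrank K ((LinearMap.ker (S.D i j)).map ((S.u i j).comp (S.be i j))) := by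
    rw [h6, ← Submodule.map_comp]
  rw [h3] at h1
  omega

/-- **(4).** -/
theorem corner (n : ℕ) (hn0 : Subsingleton (h n 0)) (hp0 : ∀ m, n = m + 1 → Subsingleton (h m 0))
    (hp1 : ∀ m, n = m + 1 → Subsingleton (h m 1)) :
    finrank K (LinearMap.ker (S.D n 0)) ≤ finrank K (S.cob n 0)
      + (match n with | 0 => 0 | (m + 1) => S.kap m 1) := by
  have hu : ∀ m, Subsingleton (h m 0) → LinearMap.ker (S.u m 0) = ⊥ := by
    intro m hm
    rw [← S.ru m 0, eq_bot_iff]
    rintro _ ⟨x, rfl⟩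
    rw [Subsingleton.elim x 0, map_zero]
    exact zero_mem _
  have hD : LinearMap.ker (S.D n 0) = LinearMap.range (S.al n 0) := by
    rw [S.ab n 0]
    apply le_antisymm
    · intro x hx
      have h1 : S.al (n + 1) 0 (S.u n 0 (S.be n 0 x)) = 0 := hx
      have h2 : S.u n 0 (S.be n 0 x) = 0 := by
        have : S.u n 0 (S.be n 0 x) ∈ LinearMap.ker (S.al (n + 1) 0) := h1
        rw [S.al0] at this
        exact this
      have h3 : S.be n 0 x ∈ LinearMap.ker (S.u n 0) := h2
      rw [hu n hn0] at h3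
      exact h3
    · intro x hx
      have h1 : S.be n 0 x = 0 := hx
      simp [D, h1]
  rw [hD]
  have h1 := LinearMap.finrank_range_add_finrank_ker (S.al n 0)
  rw [S.al0, finrank_bot, add_zero] at h1
  rw [h1]
  cases n with
  | zero =>
    have := S.b0 0
    rw [Module.finrank_zero_of_subsingleton (M := b 0 0)]
    exact Nat.zero_le _
  | succ m =>
    have hm0 := hp0 m rfl
    have hm1 := hp1 m rfl
    -- `u m 0` is bijective
    have h2 := LinearMap.finrank_range_add_finrank_ker (S.u m 0)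
    rw [hu m hm0, finrank_bot, add_zero] at h2
    have h3 : LinearMap.range (S.u m 0) = ⊤ := by
      rw [S.ut m 0, eq_top_iff]
      intro x _
      exact Subsingleton.elim _ _
    rw [h3, finrank_top] at h2
    have h4 := LinearMap.finrank_range_add_finrank_ker (S.de m 0)
    rw [← S.bd m 0, S.da m 0] at h4
    -- the rank of `D`
    have h5 : finrank K (LinearMap.range (S.be m 0)) ≤ finrank K (S.cob (m + 1) 0) := by
      have h6 : S.cob (m + 1) 0
          = (LinearMap.range (S.be m 0)).map ((S.al (m + 1) 0).comp (S.u m 0)) := by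
        change LinearMap.range (S.D m 0) = _
        unfold D
        rw [← LinearMap.range_comp]
        rfl
      rw [h6]
      have h7 := Kc_fin_map ((S.al (m + 1) 0).comp (S.u m 0)) (LinearMap.range (S.be m 0))
      have h8 : (LinearMap.range (S.be m 0) ⊓ LinearMap.ker ((S.al (m + 1) 0).comp (S.u m 0)) :
          Submodule K (z m 0)) = ⊥ := by
        rw [LinearMap.ker_comp, S.al0, Submodule.comap_bot, hu m hm0, inf_bot_eq]
      rw [h8, finrank_bot, zero_add] at h7
      exact h7.ge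
    have h9 : S.kap m 1 = finrank K (LinearMap.ker (S.al m (0 + 1))) := rfl
    simp only
    rw [h9]
    omega

/-- Iteration of (3). -/
theorem iter (d : ℕ) (hv : ∀ i j, j < d → Subsingleton (h i j)) (s : ℕ → ℕ → ℕ)
    (hs : ∀ i j, finrank K (LinearMap.ker (S.D i j)) ≤ s i j + finrank K (S.cob i j)) :
    ∀ m j, m + j < d → S.kap m j ≤ ∑ q ∈ Finset.range m, s (m - 1 - q) (j + q) := by
  intro m
  induction m with
  | zero =>
    intro j _
    rw [S.kap_zero]
    exact Nat.zero_le _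
  | succ m ih =>
    intro j hj
    have h1 := S.step m j (s m j) (hs m j)
    have h2 := ih (j + 1) (by omega)
    have h3 := hv m (j + 1) (by omega)
    rw [Module.finrank_zero_of_subsingleton (M := h m (j + 1)), add_zero] at h1
    rw [Finset.sum_range_succ']
    have h4 : ∑ q ∈ Finset.range m, s (m + 1 - 1 - (q + 1)) (j + (q + 1))
        = ∑ q ∈ Finset.range m, s (m - 1 - q) (j + 1 + q) := by
      refine Finset.sum_congr rfl fun q _ => ?_
      congr 1
      · omega
      · omega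
    rw [h4]
    have h5 : s (m + 1 - 1 - 0) (j + 0) = s m j := by simp
    rw [h5]
    omega

/-- **(D').**  `dim S^n(V_0) ≤ Σ_(q ≥ 1) dim S^(n-1-q)(V_q)`, if `E^j` of the homology vanishes for
`j < d` and `n < d`. -/
theorem dprime (d : ℕ) (hv : ∀ i j, j < d → Subsingleton (h i j)) (s : ℕ → ℕ → ℕ)
    (hs : ∀ i j, finrank K (LinearMap.ker (S.D i j)) ≤ s i j + finrank K (S.cob i j)) (n : ℕ)
    (hn : n < d) :
    finrank K (LinearMap.ker (S.D n 0)) ≤ finrank K (S.cob n 0)
      + ∑ q ∈ Finset.range (n - 1), s (n - 2 - q) (1 + q) := by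
  have h1 := S.corner n (hv n 0 (by omega)) (fun m hm => hv m 0 (by omega))
    (fun m hm => hv m 1 (by omega))
  cases n with
  | zero => simpa using h1
  | succ m =>
    have h2 := S.iter d hv s hs m 1 (by omega)
    simp only at h1
    have h3 : ∑ q ∈ Finset.range (m + 1 - 1), s (m + 1 - 2 - q) (1 + q)
        = ∑ q ∈ Finset.range m, s (m - 1 - q) (1 + q) := by
      refine Finset.sum_congr (by congr 1) fun q _ => ?_
      congr 1
    rw [h3]
    omega

/-- **(5).**  The top cohomology, if the boundaries `b (d+1)` are zero. -/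
theorem top (d q : ℕ) (hb : Subsingleton (b (d + 1) q)) :
    finrank K (p d q) ≤ finrank K (S.cob d q) + finrank K (h d q)
      + (match d with | 0 => 0 | (m + 1) => finrank K (h m (q + 1)) + S.kap m (q + 1)) := by
  have h1 := LinearMap.finrank_range_add_finrank_ker (S.be d q)
  have h2 : finrank K (LinearMap.range (S.be d q)) ≤ finrank K (h d q) := by
    have h3 : LinearMap.range (S.r d q) = ⊤ := by
      rw [S.ru d q, eq_top_iff]
      intro x _
      exact Subsingleton.elim _ _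
    have h4 := LinearMap.finrank_range_add_finrank_ker (S.r d q)
    rw [h3, finrank_top] at h4
    have h5 : finrank K (LinearMap.range (S.be d q)) ≤ finrank K (z d q) :=
      Submodule.finrank_le _
    omega
  rw [← S.ab d q] at h1
  cases d with
  | zero =>
    have := S.b0 q
    have h3 : finrank K (LinearMap.range (S.al 0 q)) = 0 := by
      have h4 := LinearMap.finrank_range_add_finrank_ker (S.al 0 q)
      rw [Module.finrank_zero_of_subsingleton (M := b 0 q)] at h4
      omega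
    simp only
    omega
  | succ m =>
    simp only
    -- the range of `al` against the coboundaries
    have h3 := LinearMap.finrank_range_add_finrank_ker (S.t m q)
    have h4 : finrank K (LinearMap.range (S.t m q)) ≤ finrank K (h m (q + 1)) :=
      Submodule.finrank_le _
    rw [← S.ut m q] at h3
    have h5 := LinearMap.finrank_range_add_finrank_ker (S.de m q)
    rw [← S.bd m q, S.da m q] at h5
    have h5' : S.kap m (q + 1) = finrank K (LinearMap.ker (S.al m (q + 1))) := rfl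
    -- ranks
    have h6 := LinearMap.finrank_range_add_finrank_ker (S.al (m + 1) q)
    have h7 := LinearMap.finrank_range_add_finrank_ker (S.u m q)
    have h8 : S.cob (m + 1) q
        = (LinearMap.range (S.be m q)).map ((S.al (m + 1) q).comp (S.u m q)) := by
      change LinearMap.range (S.D m q) = _
      unfold D
      rw [← LinearMap.range_comp]
      rfl
    have h9 := Kc_fin_map ((S.al (m + 1) q).comp (S.u m q)) (LinearMap.range (S.be m q))
    rw [← h8] at h9
    have h10 := Kc_fin_map ((S.al (m + 1) q).comp (S.u m q)) (⊤ : Submodule K (z m q))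
    rw [top_inf_eq, finrank_top, Submodule.map_comp, Submodule.map_top] at h10
    have h11 : finrank K (LinearMap.range (S.be m q) ⊓
        LinearMap.ker ((S.al (m + 1) q).comp (S.u m q)) : Submodule K (z m q))
        ≤ finrank K (LinearMap.ker ((S.al (m + 1) q).comp (S.u m q))) :=
      Submodule.finrank_mono inf_le_right
    have h12 := Kc_fin_map (S.al (m + 1) q) (LinearMap.range (S.u m q))
    have h13 : finrank K (LinearMap.range (S.u m q) ⊓ LinearMap.ker (S.al (m + 1) q) :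
        Submodule K (b (m + 1) q)) ≤ finrank K (LinearMap.ker (S.al (m + 1) q)) :=
      Submodule.finrank_mono inf_le_right
    omega

end KSys


section inst

variable {K A : Type u} [Field K] [Ring A] [Algebra K A] {𝒜 : ℕ → Submodule K A}
  [GradedAlgebra 𝒜]

omit [GradedAlgebra 𝒜] in
theorem Kc_bot_hom (M : GM 𝒜) : M.Hom (⊥ : Submodule A M.X) := by
  intro n x hx
  rw [Submodule.mem_bot] at hx ⊢
  rw [hx, map_zero]

/-- The boundaries, with the index shifted. -/
@[reducible] noncomputable def Kc_GB (P : MC 𝒜) (Q : Ideal A) (h : HI 𝒜 Q) (h2 : TS Q) : ℕ → GM 𝒜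
  | 0 => (PB P Q h 0).sub ⊥ (Kc_bot_hom _)
  | i + 1 => GB P Q h h2 i

/-- The map onto the boundaries, with the index shifted. -/
noncomputable def Kc_al (P : MC 𝒜) (Q : Ideal A) (h : HI 𝒜 Q) (h2 : TS Q) :
    (i : ℕ) → (PB P Q h i).X →ₗ[A] (Kc_GB P Q h h2 i).X
  | 0 => 0
  | i + 1 => aMap P Q h h2 i

theorem Kc_al_mem (P : MC 𝒜) (Q : Ideal A) (h : HI 𝒜 Q) (h2 : TS Q) (i : ℕ) :
    Kc_al P Q h h2 i ∈ Hm (PB P Q h i) (Kc_GB P Q h h2 i) 0 := by
  cases i with
  | zero => exact zero_mem _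
  | succ i => exact aMap_mem P Q h h2 i

/-- The inclusion of the cycles. -/
noncomputable def Kc_be (P : MC 𝒜) (Q : Ideal A) (h : HI 𝒜 Q) (h2 : TS Q) (i : ℕ) :
    (GZ P Q h h2 i).X →ₗ[A] (PB P Q h i).X := (Zi P Q h h2 i).subtype

theorem Kc_be_mem (P : MC 𝒜) (Q : Ideal A) (h : HI 𝒜 Q) (h2 : TS Q) (i : ℕ) :
    Kc_be P Q h h2 i ∈ Hm (GZ P Q h h2 i) (PB P Q h i) 0 := by
  intro n x
  rw [add_zero]
  rfl

theorem Kc_BZ (P : MC 𝒜) (Q : Ideal A) (h : HI 𝒜 Q) (h2 : TS Q) (i : ℕ) :
    Bi P Q h h2 i ≤ Zi P Q h h2 i := by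
  cases i with
  | zero => exact le_top
  | succ i =>
    rintro _ ⟨x, rfl⟩
    show bdQ P Q h h2 i (bdQ P Q h h2 (i + 1) x) = 0
    funext t
    rw [bdQ_apply]
    have h3 : ∀ s, rho Q h2 (P.D (i + 1) i s t) (bdQ P Q h h2 (i + 1) x s)
        = ∑ r, rho Q h2 (P.D (i + 2) (i + 1) r s * P.D (i + 1) i s t) (x r) := by
      intro s
      rw [bdQ_apply, map_sum]
      refine Finset.sum_congr rfl fun r _ => ?_
      obtain ⟨y, hy⟩ := Submodule.Quotient.mk_surjective Q (x r)
      rw [← hy, rho_mk, rho_mk, rho_mk, mul_assoc]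
    rw [Finset.sum_congr rfl fun s _ => h3 s, Finset.sum_comm]
    refine Finset.sum_eq_zero fun r _ => ?_
    obtain ⟨y, hy⟩ := Submodule.Quotient.mk_surjective Q (x r)
    rw [← hy]
    simp only [rho_mk]
    have h4 := congrArg (fun z => Submodule.Quotient.mk (p := Q) (y * z)) (P.DD i r t)
    simp only [Finset.mul_sum, mul_zero, Submodule.Quotient.mk_zero] at h4
    have h5 := map_sum (Submodule.mkQ Q) (fun s => y * (P.D (i + 2) (i + 1) r s
      * P.D (i + 1) i s t)) Finset.univ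
    simp only [Submodule.mkQ_apply] at h5
    rw [← h5]
    exact h4

/-- The inclusion of the boundaries in the cycles. -/
noncomputable def Kc_u (P : MC 𝒜) (Q : Ideal A) (h : HI 𝒜 Q) (h2 : TS Q) (i : ℕ) :
    (GB P Q h h2 i).X →ₗ[A] (GZ P Q h h2 i).X := Submodule.inclusion (Kc_BZ P Q h h2 i)

theorem Kc_u_mem (P : MC 𝒜) (Q : Ideal A) (h : HI 𝒜 Q) (h2 : TS Q) (i : ℕ) :
    Kc_u P Q h h2 i ∈ Hm (GB P Q h h2 i) (GZ P Q h h2 i) 0 := by
  intro n x
  rw [add_zero]
  rfl

/-- The short exact sequence `B → Z → H`. -/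
noncomputable def Kc_S1 (P : MC 𝒜) (Q : Ideal A) (h : HI 𝒜 Q) (h2 : TS Q) (i : ℕ) :
    SES (GB P Q h h2 i) (GZ P Q h h2 i) (GH P Q h h2 i) where
  f := Kc_u P Q h h2 i
  g := Submodule.mkQ _
  hf := Kc_u_mem P Q h h2 i
  hg := by
    intro n x
    rw [add_zero]
    rfl
  inj := Submodule.inclusion_injective _
  surj := Submodule.mkQ_surjective _
  ex := by
    rw [Submodule.ker_mkQ]
    exact Submodule.range_inclusion _ _ _

/-- The short exact sequence `Z → P → B`. -/
noncomputable def Kc_S2 (P : MC 𝒜) (Q : Ideal A) (h : HI 𝒜 Q) (h2 : TS Q) (i : ℕ) :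
    SES (GZ P Q h h2 i) (PB P Q h i) (Kc_GB P Q h h2 i) where
  f := Kc_be P Q h h2 i
  g := Kc_al P Q h h2 i
  hf := Kc_be_mem P Q h h2 i
  hg := Kc_al_mem P Q h h2 i
  inj := Submodule.subtype_injective _
  surj := by
    cases i with
    | zero =>
      intro x
      refine ⟨0, ?_⟩
      exact Subsingleton.elim (α := ↥(⊥ : Submodule A (PB P Q h 0).X)) _ _
    | succ i => exact LinearMap.surjective_rangeRestrict _
  ex := by
    have h3 : LinearMap.range (Kc_be P Q h h2 i) = Zi P Q h h2 i := Submodule.range_subtype _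
    rw [h3]
    cases i with
    | zero => exact (LinearMap.ker_zero).symm
    | succ i => exact (LinearMap.ker_rangeRestrict _).symm

/-- The system of long exact sequences of `P/QP`. -/
noncomputable def Kc_sys (P : MC 𝒜) (Q : Ideal A) (h : HI 𝒜 Q) (h2 : TS Q) (a : ℤ) :
    KSys K (fun i j => E j (Kc_GB P Q h h2 i) a) (fun i j => E j (GZ P Q h h2 i) a)
      (fun i j => E j (PB P Q h i) a) (fun i j => E j (GH P Q h h2 i) a) where
  r i j := Emap (Kc_S1 P Q h h2 i).g (Kc_S1 P Q h h2 i).hg j a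
  u i j := Emap (Kc_S1 P Q h h2 i).f (Kc_S1 P Q h h2 i).hf j a
  t i j := (LES_d (Kc_S1 P Q h h2 i) j a).choose
  al i j := Emap (Kc_S2 P Q h h2 i).g (Kc_S2 P Q h h2 i).hg j a
  be i j := Emap (Kc_S2 P Q h h2 i).f (Kc_S2 P Q h h2 i).hf j a
  de i j := (LES_d (Kc_S2 P Q h h2 i) j a).choose
  ru i j := LES_m (Kc_S1 P Q h h2 i) j a
  ut i j := (LES_d (Kc_S1 P Q h h2 i) j a).choose_spec.1
  ab i j := LES_m (Kc_S2 P Q h h2 i) j a
  bd i j := (LES_d (Kc_S2 P Q h h2 i) j a).choose_spec.1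
  da i j := (LES_d (Kc_S2 P Q h h2 i) j a).choose_spec.2
  al0 i := LinearMap.ker_eq_bot.2 (LES_0 (Kc_S2 P Q h h2 i) a)
  b0 j := by
    have h3 : Subsingleton (Kc_GB P Q h h2 0).X :=
      inferInstanceAs (Subsingleton ↥(⊥ : Submodule A (PB P Q h 0).X))
    have h4 : Subsingleton (Hm (Kc_GB P Q h h2 0) (IX 𝒜 j) a) := by
      refine ⟨fun f g => Subtype.ext (LinearMap.ext fun x => ?_)⟩
      rw [Subsingleton.elim x 0, map_zero, map_zero]
    exact (Submodule.mkQ_surjective (Bd j (Kc_GB P Q h h2 0) a)).subsingleton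

theorem Kc_D (P : MC 𝒜) (Q : Ideal A) (h : HI 𝒜 Q) (h2 : TS Q) (a : ℤ) (i j : ℕ) :
    (Kc_sys P Q h h2 a).D i j = Emap (bdQ P Q h h2 i) (bdQ_mem P Q h h2 i) j a := by
  have h3 : bdQ P Q h h2 i
      = (Kc_be P Q h h2 i) ∘ₗ ((Kc_u P Q h h2 i) ∘ₗ (Kc_al P Q h h2 (i + 1))) := by
    refine LinearMap.ext fun x => ?_
    rfl
  have h4 := Emap_comp (Kc_al P Q h h2 (i + 1)) (Kc_al_mem P Q h h2 (i + 1)) (Kc_u P Q h h2 i)
    (Kc_u_mem P Q h h2 i) j a
  have h5 := Emap_comp ((Kc_u P Q h h2 i) ∘ₗ (Kc_al P Q h h2 (i + 1)))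
    (Hm_comp0 (Kc_al_mem P Q h h2 (i + 1)) (Kc_u_mem P Q h h2 i)) (Kc_be P Q h h2 i)
    (Kc_be_mem P Q h h2 i) j a
  have h6 : Emap (bdQ P Q h h2 i) (bdQ_mem P Q h h2 i) j a
      = Emap ((Kc_be P Q h h2 i) ∘ₗ ((Kc_u P Q h h2 i) ∘ₗ (Kc_al P Q h h2 (i + 1))))
        (Hm_comp0 (Hm_comp0 (Kc_al_mem P Q h h2 (i + 1)) (Kc_u_mem P Q h h2 i))
          (Kc_be_mem P Q h h2 i)) j a := by
    congr 1
  rw [h6, h5, h4]
  rfl

theorem Kc_fin {d : ℕ} (H : Hyp 𝒜 d) (M : GM 𝒜) (hM : Module.Finite A M.X) (j : ℕ) (a : ℤ) :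
    Module.Finite K (E j M a) := by
  obtain ⟨P, ⟨R⟩⟩ := H.res M hM
  exact RS_fin H.fin R j a

theorem Kc_finP {d : ℕ} (H : Hyp 𝒜 d) (P : MC 𝒜) (Q : Ideal A) (h : HI 𝒜 Q) (i : ℕ)
    (j : ℕ) (a : ℤ) : Module.Finite K (E j (PB P Q h i) a) := by
  refine Kc_fin H _ ?_ j a
  exact inferInstanceAs (Module.Finite A (Fin (P.n i) → A ⧸ Q))

theorem Kc_noeP {d : ℕ} (H : Hyp 𝒜 d) (P : MC 𝒜) (Q : Ideal A) (h : HI 𝒜 Q) (i : ℕ) :
    IsNoetherian A (PB P Q h i).X := by
  have := H.nl
  exact inferInstanceAs (IsNoetherian A (Fin (P.n i) → A ⧸ Q))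

theorem Kc_finZ {d : ℕ} (H : Hyp 𝒜 d) (P : MC 𝒜) (Q : Ideal A) (h : HI 𝒜 Q) (h2 : TS Q) (i : ℕ)
    (j : ℕ) (a : ℤ) : Module.Finite K (E j (GZ P Q h h2 i) a) := by
  refine Kc_fin H _ ?_ j a
  have := Kc_noeP H P Q h i
  exact inferInstanceAs (Module.Finite A (Zi P Q h h2 i))

theorem Kc_finB {d : ℕ} (H : Hyp 𝒜 d) (P : MC 𝒜) (Q : Ideal A) (h : HI 𝒜 Q) (h2 : TS Q) (i : ℕ)
    (j : ℕ) (a : ℤ) : Module.Finite K (E j (Kc_GB P Q h h2 i) a) := by
  refine Kc_fin H _ ?_ j a
  cases i with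
  | zero =>
    have := Kc_noeP H P Q h 0
    exact inferInstanceAs (Module.Finite A ↥(⊥ : Submodule A (PB P Q h 0).X))
  | succ i =>
    have := Kc_noeP H P Q h i
    exact inferInstanceAs (Module.Finite A (Bi P Q h h2 i))

theorem Kc_finH {d : ℕ} (H : Hyp 𝒜 d) (P : MC 𝒜) (Q : Ideal A) (h : HI 𝒜 Q) (h2 : TS Q) (i : ℕ)
    (j : ℕ) (a : ℤ) : Module.Finite K (E j (GH P Q h h2 i) a) := by
  refine Kc_fin H _ ?_ j a
  have := Kc_noeP H P Q h i
  exact inferInstanceAs (Module.Finite A (↥(Zi P Q h h2 i) ⧸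
    ((Bi P Q h h2 i).submoduleOf (Zi P Q h h2 i))))

theorem Kc_kk (P : MC 𝒜) (Q : Ideal A) (h : HI 𝒜 Q) (h2 : TS Q) (a : ℤ) (i j : ℕ) :
    (Kc_sys P Q h h2 a).kap i j = kk P Q h h2 i j a := by
  cases i with
  | zero => exact (Kc_sys P Q h h2 a).kap_zero j
  | succ i => rfl

/-- The cohomology of the complex of the `E^j(P_i/QP_i)` is `S^i(V_j)`. -/
theorem Kc_sh {d : ℕ} (H : Hyp 𝒜 d) (P : MC 𝒜) (Q : Ideal A) (h : HI 𝒜 Q) (h2 : TS Q) (a : ℤ)
    (i j : ℕ) : finrank K (LinearMap.ker ((Kc_sys P Q h h2 a).D i j))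
      = P.sh (VV Q h h2 j) i a + finrank K ((Kc_sys P Q h h2 a).cob i j) := by
  obtain ⟨Θ, hΘ⟩ := V_iso P Q h h2 j a
  have hfin := Kc_finP H P Q h i j a
  -- the embedding
  have key : ∀ i, ∀ x y : E j (PB P Q h i) a, (Θ i x : Fin (P.n i) → (VV Q h h2 j).X) = Θ i y →
      x = y := fun i x y hxy => (Θ i).injective (Subtype.ext hxy)
  let θ : ∀ i, E j (PB P Q h i) a →ₗ[K] (Fin (P.n i) → (VV Q h h2 j).X) := fun i =>
    (P.Cc (VV Q h h2 j) i a).subtype ∘ₗ (Θ i).toLinearMap
  have hθ : ∀ i, Function.Injective (θ i) := fun i x y hxy => key i x y hxy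
  have hker : (LinearMap.ker ((Kc_sys P Q h h2 a).D i j)).map (θ i)
      = P.Zc (VV Q h h2 j) i a := by
    rw [Kc_D]
    ext y
    constructor
    · rintro ⟨x, hx, rfl⟩
      refine ⟨(Θ i x).2, ?_⟩
      show P.cod (VV Q h h2 j) i (Θ i x) = 0
      rw [← hΘ]
      have hx' : Emap (bdQ P Q h h2 i) (bdQ_mem P Q h h2 i) j a x = 0 := hx
      rw [hx', map_zero]
      rfl
    · rintro ⟨hy1, hy2⟩
      refine ⟨(Θ i).symm ⟨y, hy1⟩, ?_, ?_⟩
      · show Emap (bdQ P Q h h2 i) (bdQ_mem P Q h h2 i) j a ((Θ i).symm ⟨y, hy1⟩) = 0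
        apply key (i + 1)
        rw [hΘ, map_zero, LinearEquiv.apply_symm_apply]
        exact hy2
      · show ((Θ i ((Θ i).symm ⟨y, hy1⟩) : P.Cc (VV Q h h2 j) i a) :
          Fin (P.n i) → (VV Q h h2 j).X) = y
        rw [LinearEquiv.apply_symm_apply]
  have hcob : ((Kc_sys P Q h h2 a).cob i j).map (θ i) = P.Bc (VV Q h h2 j) i a := by
    cases i with
    | zero => exact Submodule.map_bot _
    | succ i =>
      show (LinearMap.range ((Kc_sys P Q h h2 a).D i j)).map (θ (i + 1))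
        = (P.Cc (VV Q h h2 j) i a).map (P.cod (VV Q h h2 j) i)
      rw [Kc_D]
      ext y
      constructor
      · rintro ⟨_, ⟨x, rfl⟩, rfl⟩
        exact ⟨Θ i x, (Θ i x).2, (hΘ i x).symm⟩
      · rintro ⟨z, hz, rfl⟩
        refine ⟨_, ⟨(Θ i).symm ⟨z, hz⟩, rfl⟩, ?_⟩
        show (Θ (i + 1) (Emap (bdQ P Q h h2 i) (bdQ_mem P Q h h2 i) j a
          ((Θ i).symm ⟨z, hz⟩)) : Fin (P.n (i + 1)) → (VV Q h h2 j).X) = _
        rw [hΘ, LinearEquiv.apply_symm_apply]
  have hle : P.Bc (VV Q h h2 j) i a ≤ P.Zc (VV Q h h2 j) i a := by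
    rw [← hker, ← hcob]
    exact Submodule.map_mono ((Kc_sys P Q h h2 a).cob_le i j)
  have h3 : finrank K (LinearMap.ker ((Kc_sys P Q h h2 a).D i j))
      = finrank K (P.Zc (VV Q h h2 j) i a) := by
    rw [← hker]
    exact (LinearEquiv.finrank_eq (Submodule.equivMapOfInjective (θ i) (hθ i) _))
  have h4 : finrank K ((Kc_sys P Q h h2 a).cob i j) = finrank K (P.Bc (VV Q h h2 j) i a) := by
    rw [← hcob]
    exact (LinearEquiv.finrank_eq (Submodule.equivMapOfInjective (θ i) (hθ i) _))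
  have h5 : Module.Finite K (P.Zc (VV Q h h2 j) i a) := by
    rw [← hker]
    exact Module.Finite.equiv (Submodule.equivMapOfInjective (θ i) (hθ i) _)
  have h6 := Submodule.finrank_quotient_add_finrank
    ((P.Bc (VV Q h h2 j) i a).submoduleOf (P.Zc (VV Q h h2 j) i a))
  have h7 : finrank K ((P.Bc (VV Q h h2 j) i a).submoduleOf (P.Zc (VV Q h h2 j) i a))
      = finrank K (P.Bc (VV Q h h2 j) i a) :=
    LinearEquiv.finrank_eq (Submodule.submoduleOfEquivOfLe hle)
  rw [h3, h4, ← h6, h7]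
  rfl

end inst

end Pool.Agent.NAS
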