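import Pool.Agent.Lib_helper19.NAS.Defs3
import Pool.Agent.Lib_helper19.NAS.B.Rs
import Pool.Agent.Lib_helper19.NAS.B.V
import Pool.Agent.Lib_helper19.NAS.B.Kc

/-!
# The diagram chase, inequality (3) (MP_ef4bac_al, project NAS, block K3)
-/

set_option autoImplicit false

namespace Pool.Agent.NAS

open Module Filter Topology

universe u

variable {K A : Type u} [Field K] [Ring A] [Algebra K A] {𝒜 : ℕ → Submodule K A}
  [GradedAlgebra 𝒜]

theorem K3 {d : ℕ} (H : Hyp 𝒜 d) (P : MC 𝒜) (Q : Ideal A) (h : HI 𝒜 Q) (h2 : TS Q) (i j : ℕ)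
    (a : ℤ) : kk P Q h h2 (i + 1) j a ≤
      P.sh (VV Q h h2 j) i a + kk P Q h h2 i (j + 1) a + eE (j + 1) (GH P Q h h2 i) a := by
  have f1 := Kc_finB H P Q h h2
  have f2 := Kc_finZ H P Q h h2
  have f3 := Kc_finP H P Q h
  have f4 := Kc_finH H P Q h h2
  have h1 := (Kc_sys P Q h h2 a).step i j (P.sh (VV Q h h2 j) i a) (Kc_sh H P Q h h2 a i j).le
  rw [Kc_kk, Kc_kk] at h1
  exact h1

end Pool.Agent.NAS
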