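import Pool.Agent.Lib_helper19.NAS.Defs3

/-!
# Homology of P/QP is finite-dimensional (MP_ef4bac_al, project NAS, block T)
-/

set_option autoImplicit false

namespace Pool.Agent.NAS

open Module Filter Topology

universe u

section vect

variable {K V W : Type u} [Field K] [AddCommGroup V] [Module K V] [AddCommGroup W] [Module K W]

/-- `Z` is `B` up to a finite-dimensional space. -/
def T_fq (Z B : Submodule K V) : Prop := ∃ S : Submodule K V, S.FG ∧ Z ≤ S ⊔ B

theorem T_fq_top {B : Submodule K V} (h : Module.Finite K (V ⧸ B)) : T_fq ⊤ B := by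
  obtain ⟨g, hg⟩ := B.mkQ.exists_rightInverse_of_surjective B.range_mkQ
  refine ⟨LinearMap.range g, ?_, fun x _ => ?_⟩
  · rw [LinearMap.range_eq_map]
    exact Submodule.FG.map _ h.fg_top
  · have h1 : B.mkQ (g (B.mkQ x)) = B.mkQ x := LinearMap.congr_fun hg (B.mkQ x)
    have h2 : x - g (B.mkQ x) ∈ B := by
      rw [← Submodule.Quotient.mk_eq_zero, Submodule.Quotient.mk_sub, sub_eq_zero]
      exact h1.symm
    rw [← add_sub_cancel (g (B.mkQ x)) x]
    exact Submodule.add_mem_sup ⟨_, rfl⟩ h2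

theorem T_fq_quot {Z B : Submodule K V} (h : Module.Finite K (Z ⧸ B.submoduleOf Z)) :
    T_fq Z B := by
  obtain ⟨S, h1, h2⟩ := T_fq_top h
  refine ⟨S.map Z.subtype, h1.map _, fun x hx => ?_⟩
  obtain ⟨s, hs, b, hb, hsb⟩ := Submodule.mem_sup.1 (h2 (Submodule.mem_top (x := ⟨x, hx⟩)))
  have h3 : (s : V) + b = x := congrArg Subtype.val hsb
  rw [← h3]
  exact Submodule.add_mem_sup ⟨s, hs, rfl⟩ hb

/-- finite-dimensional preimages -/
theorem T_lift (d : V →ₗ[K] W) {S : Submodule K W} (h : S.FG) (hS : S ≤ LinearMap.range d) :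
    ∃ U : Submodule K V, U.FG ∧ S ≤ U.map d := by
  obtain ⟨g, hg⟩ := d.rangeRestrict.exists_rightInverse_of_surjective d.range_rangeRestrict
  have hS' : (S.submoduleOf (LinearMap.range d)).FG := by
    have : Module.Finite K S := Module.Finite.of_fg h
    have : Module.Finite K (S.submoduleOf (LinearMap.range d)) :=
      Module.Finite.equiv (Submodule.submoduleOfEquivOfLe hS).symm
    exact Module.Finite.iff_fg.1 this
  refine ⟨(S.submoduleOf (LinearMap.range d)).map g, hS'.map _, fun x hx => ?_⟩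
  have h1 : d.rangeRestrict (g ⟨x, hS hx⟩) = ⟨x, hS hx⟩ := LinearMap.congr_fun hg ⟨x, hS hx⟩
  exact ⟨g ⟨x, hS hx⟩, ⟨⟨x, hS hx⟩, hx, rfl⟩, congrArg Subtype.val h1⟩

end vect

section tensor

variable {K A : Type u} [Field K] [Ring A] [Algebra K A] {𝒜 : ℕ → Submodule K A}

section

variable (P : MC 𝒜) (X : Type u) [AddCommGroup X] [Module K X] [Module Aᵐᵒᵖ X]
  [IsScalarTower K Aᵐᵒᵖ X]

/-- The differential of `X ⊗ P` for a right module `X`. -/
def T_d (i : ℕ) : (Fin (P.n (i + 1)) → X) →ₗ[K] (Fin (P.n i) → X) where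
  toFun x t := ∑ s, MulOpposite.op (P.D (i + 1) i s t) • x s
  map_add' x y := by
    funext t
    simp [smul_add, Finset.sum_add_distrib]
  map_smul' c x := by
    funext t
    simp only [Pi.smul_apply, RingHom.id_apply, Finset.smul_sum]
    exact Finset.sum_congr rfl fun s _ => smul_comm _ _ _

theorem T_d_apply (i : ℕ) (x : Fin (P.n (i + 1)) → X) (t : Fin (P.n i)) :
    T_d P X i x t = ∑ s, MulOpposite.op (P.D (i + 1) i s t) • x s := rfl

theorem T_dd (i : ℕ) (x : Fin (P.n (i + 2)) → X) : T_d P X i (T_d P X (i + 1) x) = 0 := by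
  funext t
  rw [T_d_apply]
  simp only [T_d_apply, Finset.smul_sum, smul_smul]
  rw [Finset.sum_comm]
  refine Finset.sum_eq_zero fun s _ => ?_
  rw [← Finset.sum_smul]
  have h1 : ∑ r, MulOpposite.op (P.D (i + 1) i r t) * MulOpposite.op (P.D (i + 1 + 1) (i + 1) s r)
      = 0 := by
    have h2 := congrArg MulOpposite.op (P.DD i s t)
    rw [Finset.op_sum, MulOpposite.op_zero] at h2
    exact h2
  rw [h1, zero_smul]

/-- The cycles. -/
def T_Z : (i : ℕ) → Submodule K (Fin (P.n i) → X)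
  | 0 => ⊤
  | i + 1 => LinearMap.ker (T_d P X i)

end

variable (P : MC 𝒜) {X Y : Type u} [AddCommGroup X] [Module K X] [Module Aᵐᵒᵖ X]
  [IsScalarTower K Aᵐᵒᵖ X] [AddCommGroup Y] [Module K Y] [Module Aᵐᵒᵖ Y]
  [IsScalarTower K Aᵐᵒᵖ Y]

/-- A map of right modules on the chains. -/
def T_m (f : X →ₗ[Aᵐᵒᵖ] Y) (n : ℕ) : (Fin n → X) →ₗ[K] (Fin n → Y) :=
  LinearMap.compLeft (f.restrictScalars K) (Fin n)

theorem T_m_apply (f : X →ₗ[Aᵐᵒᵖ] Y) (n : ℕ) (x : Fin n → X) (t : Fin n) :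
    T_m (K := K) f n x t = f (x t) := rfl

theorem T_m_d (f : X →ₗ[Aᵐᵒᵖ] Y) (i : ℕ) (x : Fin (P.n (i + 1)) → X) :
    T_m (K := K) f _ (T_d P X i x) = T_d P Y i (T_m (K := K) f _ x) := by
  funext t
  rw [T_m_apply, T_d_apply, T_d_apply, map_sum]
  exact Finset.sum_congr rfl fun s _ => map_smul _ _ _

theorem T_m_surj {f : X →ₗ[Aᵐᵒᵖ] Y} (hf : Function.Surjective f) (n : ℕ) :
    Function.Surjective (T_m (K := K) f n) := by
  intro y
  choose g hg using hf
  exact ⟨fun t => g (y t), funext fun t => hg (y t)⟩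

/-- the property which is proved by induction -/
def T_P (P : MC 𝒜) (i : ℕ) (X : Type u) [AddCommGroup X] [Module K X] [Module Aᵐᵒᵖ X]
    [IsScalarTower K Aᵐᵒᵖ X] : Prop := T_fq (T_Z P X i) (LinearMap.range (T_d P X i))

/-- the induction step -/
theorem T_step (i : ℕ) (f : Y →ₗ[Aᵐᵒᵖ] X) (hf : Function.Surjective f)
    (h1 : T_P P (i + 1) Y) (h2 : T_P P i (LinearMap.ker f)) : T_P P (i + 1) X := by
  obtain ⟨S1, a1, a2⟩ := h1
  obtain ⟨S2, b1, b2⟩ := h2
  set κ : (LinearMap.ker f) →ₗ[Aᵐᵒᵖ] Y := (LinearMap.ker f).subtype with hκ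
  obtain ⟨U, c1, c2⟩ := T_lift (T_d P Y i) (S := S2.map (T_m (K := K) κ _) ⊓
    LinearMap.range (T_d P Y i)) (by
      have : Module.Finite K (S2.map (T_m (K := K) κ (P.n i))) := Module.Finite.of_fg (b1.map _)
      have h3 := Submodule.finiteDimensional_of_le (inf_le_left :
        S2.map (T_m (K := K) κ _) ⊓ LinearMap.range (T_d P Y i) ≤ S2.map (T_m (K := K) κ _))
      exact Module.Finite.iff_fg.1 h3) inf_le_right
  refine ⟨U.map (T_m (K := K) f _) ⊔ S1.map (T_m (K := K) f _), (c1.map _).sup (a1.map _),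
    fun x hx => ?_⟩
  obtain ⟨y, rfl⟩ := T_m_surj (K := K) hf _ x
  have hx' : T_d P X i (T_m (K := K) f _ y) = 0 := hx
  rw [← T_m_d] at hx'
  -- the boundary of `y` lies in the kernel
  have hk : ∀ t, T_d P Y i y t ∈ LinearMap.ker f := fun t => congrFun hx' t
  set z : Fin (P.n i) → LinearMap.ker f := fun t => ⟨T_d P Y i y t, hk t⟩ with hz
  have hzk : T_m (K := K) κ _ z = T_d P Y i y := rfl
  have hzZ : z ∈ T_Z P (LinearMap.ker f) i := by
    cases i with
    | zero => exact Submodule.mem_top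
    | succ i =>
      show T_d P (LinearMap.ker f) i z = 0
      have h3 : T_m (K := K) κ _ (T_d P (LinearMap.ker f) i z) = 0 := by
        rw [T_m_d, hzk, T_dd]
      funext t
      exact Subtype.ext (congrFun h3 t)
  obtain ⟨s, hs, b, ⟨w, rfl⟩, hsb⟩ := Submodule.mem_sup.1 (b2 hzZ)
  have h3 : T_m (K := K) κ _ s = T_d P Y i (y - T_m (K := K) κ _ w) := by
    rw [map_sub, ← hzk, ← T_m_d, ← hsb, map_add, add_sub_cancel_right]
  have h4 : T_m (K := K) κ _ s ∈ S2.map (T_m (K := K) κ _) ⊓ LinearMap.range (T_d P Y i) :=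
    ⟨⟨s, hs, rfl⟩, ⟨_, h3.symm⟩⟩
  obtain ⟨v, hv, hv'⟩ := c2 h4
  have h5 : y - T_m (K := K) κ _ w - v ∈ T_Z P Y (i + 1) := by
    show T_d P Y i (y - T_m (K := K) κ _ w - v) = 0
    rw [map_sub, ← h3, ← hv', sub_self]
  obtain ⟨s1, hs1, _, ⟨w1, rfl⟩, hsb1⟩ := Submodule.mem_sup.1 (a2 h5)
  have h6 : T_m (K := K) f _ (T_m (K := K) κ _ w) = 0 := by
    funext t
    exact (w t).2
  have h7 : T_m (K := K) f _ y = (T_m (K := K) f _ v + T_m (K := K) f _ s1) +
      T_d P X (i + 1) (T_m (K := K) f _ w1) := by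
    rw [← T_m_d, ← map_add, ← map_add, add_assoc, hsb1, map_add, map_sub, map_sub, h6]
    abel
  rw [h7]
  exact Submodule.add_mem_sup (Submodule.add_mem_sup ⟨v, hv, rfl⟩ ⟨s1, hs1, rfl⟩) ⟨_, rfl⟩

/-- the beginning of the induction -/
theorem T_step0 (f : Y →ₗ[Aᵐᵒᵖ] X) (hf : Function.Surjective f)
    (h1 : T_P P 0 Y) : T_P P 0 X := by
  obtain ⟨S1, a1, a2⟩ := h1
  refine ⟨S1.map (T_m (K := K) f _), a1.map _, fun x hx => ?_⟩
  obtain ⟨y, rfl⟩ := T_m_surj (K := K) hf _ x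
  obtain ⟨s, hs, _, ⟨w, rfl⟩, hsb⟩ := Submodule.mem_sup.1 (a2 (Submodule.mem_top (x := y)))
  rw [← hsb, map_add, T_m_d]
  exact Submodule.add_mem_sup ⟨s, hs, rfl⟩ ⟨_, rfl⟩

/-- finite direct sums -/
theorem T_pi (i m : ℕ) (h : T_P P i X) : T_P P i (Fin m → X) := by
  obtain ⟨S, a1, a2⟩ := h
  set Φ : (Fin m → Fin (P.n i) → X) →ₗ[K] (Fin (P.n i) → Fin m → X) :=
    { toFun := fun x t k => x k t
      map_add' := fun x y => rfl
      map_smul' := fun c x => rfl } with hΦ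
  refine ⟨(Submodule.pi Set.univ fun _ : Fin m => S).map Φ, (Submodule.fg_pi fun _ => a1).map _,
    fun x hx => ?_⟩
  have h1 : ∀ k : Fin m, (fun t => x t k) ∈ T_Z P X i := by
    intro k
    cases i with
    | zero => exact Submodule.mem_top
    | succ i =>
      show T_d P X i (fun t => x t k) = 0
      have hx' : T_d P (Fin m → X) i x = 0 := hx
      funext t
      have h2 := congrFun (congrFun hx' t) k
      rw [T_d_apply, Finset.sum_apply] at h2
      exact h2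
  have h2 : ∀ k : Fin m, ∃ s ∈ S, ∃ w, s + T_d P X i w = fun t => x t k := by
    intro k
    obtain ⟨s, hs, _, ⟨w, rfl⟩, hsb⟩ := Submodule.mem_sup.1 (a2 (h1 k))
    exact ⟨s, hs, w, hsb⟩
  choose s hs w hw using h2
  have h3 : x = Φ s + T_d P (Fin m → X) i (fun t k => w k t) := by
    funext t k
    have h4 := congrFun (hw k) t
    show x t k = s k t + (T_d P (Fin m → X) i (fun t k => w k t)) t k
    rw [← h4, T_d_apply, Finset.sum_apply]
    rfl
  rw [h3]
  exact Submodule.add_mem_sup ⟨s, fun k _ => hs k, rfl⟩ ⟨_, rfl⟩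

theorem T_op (fh : P.FinH) (i : ℕ) : T_P P i Aᵐᵒᵖ := by
  have hd : ∀ (i : ℕ) (x : Fin (P.n (i + 1)) → A),
      T_d P Aᵐᵒᵖ i (fun s => MulOpposite.op (x s)) = fun t => MulOpposite.op (P.bd i x t) := by
    intro i x
    funext t
    rw [T_d_apply]
    show _ = MulOpposite.op (∑ s, x s * P.D (i + 1) i s t)
    rw [Finset.op_sum]
    rfl
  set e : (Fin (P.n i) → A) →ₗ[K] (Fin (P.n i) → Aᵐᵒᵖ) :=
    LinearMap.compLeft (MulOpposite.opLinearEquiv K).toLinearMap (Fin (P.n i)) with he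
  have hfq : ∃ S : Submodule K (Fin (P.n i) → A), S.FG ∧ ∀ y : Fin (P.n i) → A,
      (fun t => MulOpposite.op (y t)) ∈ T_Z P Aᵐᵒᵖ i → ∃ s ∈ S, ∃ w, s + P.bd i w = y := by
    cases i with
    | zero =>
      obtain ⟨S, h1, h2⟩ := T_fq_top fh.1
      refine ⟨S, h1, fun y _ => ?_⟩
      obtain ⟨s, hs, _, ⟨w, rfl⟩, hsb⟩ := Submodule.mem_sup.1 (h2 (Submodule.mem_top (x := y)))
      exact ⟨s, hs, w, hsb⟩
    | succ i =>
      obtain ⟨S, h1, h2⟩ := T_fq_quot (fh.2 i)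
      refine ⟨S, h1, fun y hy => ?_⟩
      have hy' : y ∈ (LinearMap.ker (P.bd i)).restrictScalars K := by
        have h3 : T_d P Aᵐᵒᵖ i (fun t => MulOpposite.op (y t)) = 0 := hy
        rw [hd] at h3
        show P.bd i y = 0
        funext t
        exact MulOpposite.op_injective (congrFun h3 t)
      obtain ⟨s, hs, _, ⟨w, rfl⟩, hsb⟩ := Submodule.mem_sup.1 (h2 hy')
      exact ⟨s, hs, w, hsb⟩
  obtain ⟨S, h1, h2⟩ := hfq
  refine ⟨S.map e, h1.map _, fun y hy => ?_⟩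
  obtain ⟨s, hs, w, hw⟩ := h2 (fun t => (y t).unop) hy
  have h3 : y = e s + T_d P Aᵐᵒᵖ i (fun s => MulOpposite.op (w s)) := by
    rw [hd]
    funext t
    have h4 := congrFun hw t
    exact congrArg MulOpposite.op h4.symm
  rw [h3]
  exact Submodule.add_mem_sup ⟨s, hs, rfl⟩ ⟨_, rfl⟩

/-- all finitely generated right modules -/
theorem T_all (nr : IsNoetherianRing Aᵐᵒᵖ) (fh : P.FinH) (i : ℕ) :
    ∀ (X : Type u) [AddCommGroup X] [Module K X] [Module Aᵐᵒᵖ X] [IsScalarTower K Aᵐᵒᵖ X],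
      Module.Finite Aᵐᵒᵖ X → T_P P i X := by
  induction i with
  | zero =>
    intro X _ _ _ _ hX
    obtain ⟨m, f, hf⟩ := Module.Finite.exists_fin' Aᵐᵒᵖ X
    exact T_step0 P f hf (T_pi P 0 m (T_op P fh 0))
  | succ i ih =>
    intro X _ _ _ _ hX
    obtain ⟨m, f, hf⟩ := Module.Finite.exists_fin' Aᵐᵒᵖ X
    refine T_step P i f hf (T_pi P (i + 1) m (T_op P fh (i + 1))) (ih _ ?_)
    infer_instance

end tensor

variable {K A : Type u} [Field K] [Ring A] [Algebra K A] {𝒜 : ℕ → Submodule K A}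
  [GradedAlgebra 𝒜]

theorem T_fin (nr : IsNoetherianRing Aᵐᵒᵖ) (P : MC 𝒜) (fh : P.FinH) (Q : Ideal A) (h : HI 𝒜 Q)
    (h2 : TS Q) (i : ℕ) : Module.Finite K (GH P Q h h2 i).X := by
  let _ : Module Aᵐᵒᵖ (A ⧸ Q) :=
    { smul := fun a x => rho Q h2 a.unop x
      one_smul := fun x => by
        obtain ⟨x, rfl⟩ := Submodule.Quotient.mk_surjective Q x
        show rho Q h2 1 (Submodule.Quotient.mk x) = _
        rw [rho_mk, mul_one]
      mul_smul := fun a b x => by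
        obtain ⟨x, rfl⟩ := Submodule.Quotient.mk_surjective Q x
        show rho Q h2 (b.unop * a.unop) (Submodule.Quotient.mk x) =
          rho Q h2 a.unop (rho Q h2 b.unop (Submodule.Quotient.mk x))
        rw [rho_mk, rho_mk, rho_mk, mul_assoc]
      smul_zero := fun a => map_zero _
      smul_add := fun a x y => map_add _ _ _
      add_smul := fun a b x => by
        obtain ⟨x, rfl⟩ := Submodule.Quotient.mk_surjective Q x
        show rho Q h2 (a.unop + b.unop) (Submodule.Quotient.mk x) =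
          rho Q h2 a.unop (Submodule.Quotient.mk x) + rho Q h2 b.unop (Submodule.Quotient.mk x)
        rw [rho_mk, rho_mk, rho_mk, mul_add]
        rfl
      zero_smul := fun x => by
        obtain ⟨x, rfl⟩ := Submodule.Quotient.mk_surjective Q x
        show rho Q h2 0 (Submodule.Quotient.mk x) = 0
        rw [rho_mk, mul_zero]
        rfl }
  have hs : ∀ (a : A) (x : A ⧸ Q), MulOpposite.op a • x = rho Q h2 a x := fun a x => rfl
  have _ : IsScalarTower K Aᵐᵒᵖ (A ⧸ Q) := by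
    refine ⟨fun c a x => ?_⟩
    obtain ⟨x, rfl⟩ := Submodule.Quotient.mk_surjective Q x
    show rho Q h2 (c • a.unop) (Submodule.Quotient.mk x) =
      c • rho Q h2 a.unop (Submodule.Quotient.mk x)
    rw [rho_mk, rho_mk, mul_smul_comm]
    rfl
  have hX : Module.Finite Aᵐᵒᵖ (A ⧸ Q) := by
    refine ⟨⟨{Submodule.Quotient.mk 1}, ?_⟩⟩
    rw [eq_top_iff, Finset.coe_singleton]
    intro x _
    obtain ⟨x, rfl⟩ := Submodule.Quotient.mk_surjective Q x
    refine Submodule.mem_span_singleton.2 ⟨MulOpposite.op x, ?_⟩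
    rw [hs, rho_mk, one_mul]
  obtain ⟨S, h3, h4⟩ := T_all P nr fh i (A ⧸ Q) hX
  have hd : ∀ (i : ℕ) (x : Fin (P.n (i + 1)) → A ⧸ Q), T_d P (A ⧸ Q) i x = bdQ P Q h h2 i x := by
    intro i x
    funext t
    rw [bdQ_apply]
    rfl
  have hZ : ∀ x : Fin (P.n i) → A ⧸ Q, x ∈ T_Z P (A ⧸ Q) i ↔ x ∈ Zi P Q h h2 i := by
    intro x
    cases i with
    | zero => exact ⟨fun _ => Submodule.mem_top, fun _ => Submodule.mem_top⟩
    | succ i =>
      show T_d P (A ⧸ Q) i x = 0 ↔ bdQ P Q h h2 i x = 0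
      rw [hd]
  have hf : Module.Finite K ↥(S ⊓ T_Z P (A ⧸ Q) i) := by
    have : Module.Finite K S := Module.Finite.of_fg h3
    exact Submodule.finiteDimensional_of_le inf_le_left
  let f : ↥(S ⊓ T_Z P (A ⧸ Q) i) →ₗ[K] (GH P Q h h2 i).X :=
    { toFun := fun s => Submodule.Quotient.mk ⟨s.1, (hZ _).1 s.2.2⟩
      map_add' := fun s t => rfl
      map_smul' := fun c s => rfl }
  refine Module.Finite.of_surjective f fun x => ?_
  obtain ⟨⟨z, hz⟩, rfl⟩ := Submodule.Quotient.mk_surjective _ x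
  obtain ⟨s, hs1, _, ⟨w, rfl⟩, hsw⟩ := Submodule.mem_sup.1 (h4 ((hZ z).2 hz))
  have h5 : T_d P (A ⧸ Q) i w ∈ T_Z P (A ⧸ Q) i := by
    cases i with
    | zero => exact Submodule.mem_top
    | succ i => exact T_dd P (A ⧸ Q) i w
  have h6 : s ∈ T_Z P (A ⧸ Q) i := by
    have h7 : s = z - T_d P (A ⧸ Q) i w := by rw [← hsw, add_sub_cancel_right]
    rw [h7]
    exact sub_mem ((hZ z).2 hz) h5
  refine ⟨⟨s, hs1, h6⟩, ?_⟩
  refine (Submodule.Quotient.eq _).2 ?_
  refine ⟨-w, ?_⟩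
  rw [map_neg]
  have h8 : bdQ P Q h h2 i w = T_d P (A ⧸ Q) i w := (hd i w).symm
  show -(bdQ P Q h h2 i w) = s - z
  rw [h8, ← hsw]
  abel

end Pool.Agent.NAS
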