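import Pool.Agent.Lib_helper19.NAS.Defs3
import Pool.Agent.Lib_helper19.NAS.B.Rs
import Pool.Agent.Lib_helper19.NAS.B.V
import Pool.Agent.Lib_helper19.NAS.B.T
import Pool.Agent.Lib_helper19.NAS.B.Kc

/-!
# The diagram chase, (4) (MP_ef4bac_al, project NAS, block K4)
-/

set_option autoImplicit false

namespace Pool.Agent.NAS

open Module Filter Topology

universe u

variable {K A : Type u} [Field K] [Ring A] [Algebra K A] {𝒜 : ℕ → Submodule K A}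
  [GradedAlgebra 𝒜]

theorem K4 {d : ℕ} (H : Hyp 𝒜 d) (P : MC 𝒜) (fh : P.FinH) (Q : Ideal A) (h : HI 𝒜 Q) (h2 : TS Q)
    (m : ℕ) (hm : m + 2 < d) (a : ℤ) :
    P.sh (VV Q h h2 0) (m + 2) a ≤ kk P Q h h2 (m + 1) 1 a := by
  have f1 := Kc_finB H P Q h h2
  have f2 := Kc_finZ H P Q h h2
  have f3 := Kc_finP H P Q h
  have f4 := Kc_finH H P Q h h2
  have hH : ∀ i, Module.Finite K (GH P Q h h2 i).X := T_fin H.nr P fh Q h h2
  have h1 := (Kc_sys P Q h h2 a).corner (m + 2) (H.gor0 _ (hH _) 0 (by omega) a)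
    (fun l _ => H.gor0 _ (hH _) 0 (by omega) a) (fun l _ => H.gor0 _ (hH _) 1 (by omega) a)
  rw [Kc_sh H P Q h h2 a (m + 2) 0] at h1
  have h3 : (Kc_sys P Q h h2 a).kap (m + 1) 1 = kk P Q h h2 (m + 1) 1 a := Kc_kk P Q h h2 a _ _
  simp only at h1
  rw [h3] at h1
  omega

theorem K4' {d : ℕ} (H : Hyp 𝒜 d) (P : MC 𝒜) (fh : P.FinH) (Q : Ideal A) (h : HI 𝒜 Q)
    (h2 : TS Q) (n : ℕ) (hn : n < d) (hn1 : n ≤ 1) (a : ℤ) :
    P.sh (VV Q h h2 0) n a = 0 := by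
  have f1 := Kc_finB H P Q h h2
  have f2 := Kc_finZ H P Q h h2
  have f3 := Kc_finP H P Q h
  have f4 := Kc_finH H P Q h h2
  have hH : ∀ i, Module.Finite K (GH P Q h h2 i).X := T_fin H.nr P fh Q h h2
  have h1 := (Kc_sys P Q h h2 a).corner n (H.gor0 _ (hH _) 0 (by omega) a)
    (fun l hl => H.gor0 _ (hH _) 0 (by omega) a) (fun l hl => H.gor0 _ (hH _) 1 (by omega) a)
  rw [Kc_sh H P Q h h2 a n 0] at h1
  obtain rfl | rfl : n = 0 ∨ n = 1 := by omega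
  · simp only at h1
    omega
  · have h3 : (Kc_sys P Q h h2 a).kap 0 1 = 0 := Kc_kk P Q h h2 a _ _
    simp only at h1
    rw [h3] at h1
    omega

end Pool.Agent.NAS
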