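import Pool.Agent.Lib_helper19.NAS.Defs3
import Pool.Agent.Lib_helper19.NAS.B.Rs
import Pool.Agent.Lib_helper19.NAS.B.V
import Pool.Agent.Lib_helper19.NAS.B.Kc

/-!
# The diagram chase, inequality (5) (MP_ef4bac_al, project NAS, block K5)
-/

set_option autoImplicit false

namespace Pool.Agent.NAS

open Module Filter Topology

universe u

variable {K A : Type u} [Field K] [Ring A] [Algebra K A] {𝒜 : ℕ → Submodule K A}
  [GradedAlgebra 𝒜]

theorem K5 {d : ℕ} (H : Hyp 𝒜 d) (P : MC 𝒜) (Q : Ideal A) (h : HI 𝒜 Q) (h2 : TS Q) (m q : ℕ)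
    (hP : ∀ i, m + 1 < i → P.n i = 0) (a : ℤ) :
    P.sh (VV Q h h2 q) (m + 1) a ≤
      eE q (GH P Q h h2 (m + 1)) a + eE (q + 1) (GH P Q h h2 m) a + kk P Q h h2 m (q + 1) a := by
  have f1 := Kc_finB H P Q h h2
  have f2 := Kc_finZ H P Q h h2
  have f3 := Kc_finP H P Q h
  have f4 := Kc_finH H P Q h h2
  have hb : Subsingleton (E q (Kc_GB P Q h h2 (m + 2)) a) := by
    have h3 : Subsingleton (PB P Q h (m + 2)).X := by
      refine ⟨fun x y => funext fun t => ?_⟩
      exact (Fin.cast (hP (m + 2) (by omega)) t).elim0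
    have h4 : Subsingleton (Kc_GB P Q h h2 (m + 2)).X :=
      (LinearMap.surjective_rangeRestrict (bdQ P Q h h2 (m + 1))).subsingleton
    have h5 : Subsingleton (Hm (Kc_GB P Q h h2 (m + 2)) (IX 𝒜 q) a) := by
      refine ⟨fun f g => Subtype.ext (LinearMap.ext fun x => ?_)⟩
      rw [Subsingleton.elim x 0, map_zero, map_zero]
    exact (Submodule.mkQ_surjective (Bd q (Kc_GB P Q h h2 (m + 2)) a)).subsingleton
  have h1 := (Kc_sys P Q h h2 a).top (m + 1) q hb
  have h3 : finrank K (LinearMap.ker ((Kc_sys P Q h h2 a).D (m + 1) q))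
      ≤ finrank K (E q (PB P Q h (m + 1)) a) := Submodule.finrank_le _
  rw [Kc_sh H P Q h h2 a (m + 1) q] at h3
  have h4 : (Kc_sys P Q h h2 a).kap m (q + 1) = kk P Q h h2 m (q + 1) a := Kc_kk P Q h h2 a _ _
  simp only at h1
  rw [h4] at h1
  unfold eE
  omega

end Pool.Agent.NAS
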