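import Pool.Agent.Lib_helper19.NAS.Defs3
import Pool.Agent.Lib_helper19.NAS.B.K3
import Pool.Agent.Lib_helper19.NAS.B.K4
import Pool.Agent.Lib_helper19.NAS.B.K5
import Pool.Agent.Lib_helper19.NAS.B.T

/-!
# Consequences of the diagram chase (MP_ef4bac_al, project NAS, block Kd)
-/

set_option autoImplicit false

namespace Pool.Agent.NAS

open Module Filter Topology

universe u

variable {K A : Type u} [Field K] [Ring A] [Algebra K A] {𝒜 : ℕ → Submodule K A}
  [GradedAlgebra 𝒜]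

theorem Kd_FS_mono {f g : ℤ → ℕ} (hg : FS g) (h : ∀ a, f a ≤ g a) : FS f := by
  refine Set.Finite.subset hg fun a ha => ?_
  rw [Function.mem_support] at ha ⊢
  have := h a
  omega

theorem Kd_FS_add {f g : ℤ → ℕ} (hf : FS f) (hg : FS g) : FS (fun a => f a + g a) := by
  refine Set.Finite.subset (Set.Finite.union hf hg) fun a ha => ?_
  rw [Function.mem_support] at ha
  by_cases h : f a = 0
  · right
    rw [Function.mem_support]
    omega
  · left
    exact h

theorem KD {d : ℕ} (H : Hyp 𝒜 d) (P : MC 𝒜) (fh : P.FinH) (Q : Ideal A) (h : HI 𝒜 Q) (h2 : TS Q)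
    (n : ℕ) (hn : n < d) (a : ℤ) :
    P.sh (VV Q h h2 0) n a ≤
      ∑ l ∈ Finset.range (n - 1), P.sh (VV Q h h2 (l + 1)) (n - 2 - l) a := by
  have f1 := Kc_finB H P Q h h2
  have f2 := Kc_finZ H P Q h h2
  have f3 := Kc_finP H P Q h
  have f4 := Kc_finH H P Q h h2
  have hH : ∀ i, Module.Finite K (GH P Q h h2 i).X := T_fin H.nr P fh Q h h2
  have h1 := (Kc_sys P Q h h2 a).dprime d (fun i j hj => H.gor0 _ (hH i) j hj a)
    (fun i j => P.sh (VV Q h h2 j) i a) (fun i j => (Kc_sh H P Q h h2 a i j).le) n hn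
  rw [Kc_sh H P Q h h2 a n 0] at h1
  have h3 : ∑ q ∈ Finset.range (n - 1), P.sh (VV Q h h2 (1 + q)) (n - 2 - q) a
      = ∑ l ∈ Finset.range (n - 1), P.sh (VV Q h h2 (l + 1)) (n - 2 - l) a := by
    refine Finset.sum_congr rfl fun q _ => ?_
    rw [add_comm 1 q]
  rw [h3] at h1
  omega

theorem KF {d : ℕ} (H : Hyp 𝒜 d) (hd : 0 < d) (P : MC 𝒜) (hP : ∀ i, d < i → P.n i = 0)
    (fh : P.FinH) (Q : Ideal A) (h : HI 𝒜 Q) (h2 : TS Q) (q : ℕ)
    (hq : ∀ j, q < j → ∀ i, FS (P.sh (VV Q h h2 j) i)) : FS (P.sh (VV Q h h2 q) d) := by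
  have hH : ∀ i, Module.Finite K (GH P Q h h2 i).X := T_fin H.nr P fh Q h h2
  have hk : ∀ i j, q < j → FS (kk P Q h h2 i j) := by
    intro i
    induction i with
    | zero =>
      intro j _
      refine Set.Finite.subset Set.finite_empty fun a ha => ?_
      exact (ha rfl).elim
    | succ i ih =>
      intro j hj
      exact Kd_FS_mono (Kd_FS_add (Kd_FS_add (hq j hj i) (ih (j + 1) (by omega)))
        (H.gorf _ (hH i) (j + 1))) (fun a => K3 H P Q h h2 i j a)
  obtain ⟨m, rfl⟩ : ∃ m, d = m + 1 := ⟨d - 1, by omega⟩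
  exact Kd_FS_mono (Kd_FS_add (Kd_FS_add (H.gorf _ (hH (m + 1)) q) (H.gorf _ (hH m) (q + 1)))
    (hk m (q + 1) (by omega))) (fun a => K5 H P Q h h2 m q hP a)

end Pool.Agent.NAS
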