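import Pool.Agent.Lib_helper19.NAS.Defs3
import Pool.Agent.Lib_helper19.NAS.B.Sl
import Pool.Agent.Lib_helper19.NAS.B.Rs

/-!
# Ext of a finite-dimensional module with values in a finitely generated module (MP_ef4bac_al, project NAS, block Sf)
-/

set_option autoImplicit false

namespace Pool.Agent.NAS

open Module Filter Topology

universe u

variable {K A : Type u} [Field K] [Ring A] [Algebra K A] {𝒜 : ℕ → Submodule K A}
  [GradedAlgebra 𝒜]

/-- The case of a free module. -/
theorem Sf_free {d : ℕ} (H : Hyp 𝒜 d) (P : MC 𝒜) (T : GM 𝒜) (R : Res P T d)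
    (hT : Module.Finite K T.X) {r : ℕ} (w : Fin r → ℤ) (i : ℕ) : FS (P.sh (Fre 𝒜 w) i) := by
  have h1 : FS (eE i T) := H.gorf T hT i
  have hz : ∀ b, b ∉ Function.support (eE i T) → Subsingleton (P.SH (AsA 𝒜) i b) := by
    intro b hb
    obtain ⟨e⟩ := RS_iso R i b
    have h2 : finrank K (E i T b) = 0 := by
      by_contra h
      exact hb h
    have h3 := RS_fin H.fin R i b
    have h4 : Subsingleton (E i T b) := finrank_zero_iff.1 h2
    exact e.symm.toEquiv.subsingleton
  refine Set.Finite.subset
    (Set.finite_iUnion fun s : Fin r => h1.preimage (f := fun a => a - w s) ?_) ?_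
  · intro x _ y _ h
    exact sub_left_injective h
  · intro a ha
    by_contra hn
    apply ha
    obtain ⟨e⟩ := SH_pi P w (AsA 𝒜) i a
    have h2 : ∀ s, Subsingleton (P.SH (AsA 𝒜) i (a - w s)) := by
      intro s
      refine hz _ fun h => hn ?_
      exact Set.mem_iUnion.2 ⟨s, h⟩
    have h3 : Subsingleton (P.SH (Fre 𝒜 w) i a) := e.toEquiv.subsingleton
    exact finrank_zero_of_subsingleton

theorem SF {d : ℕ} (H : Hyp 𝒜 d) (P : MC 𝒜) (T : GM 𝒜) (R : Res P T d)
    (hT : Module.Finite K T.X) (M : GM 𝒜) (hM : Module.Finite A M.X) (i : ℕ) :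
    FS (P.sh M i) := by
  have key : ∀ k i, d < i + k → ∀ M : GM 𝒜, Module.Finite A M.X → FS (P.sh M i) := by
    intro k
    induction k with
    | zero =>
      intro i hi M _
      have h0 : ∀ a, P.sh M i a = 0 := by
        intro a
        have h1 := SH_van P M i (R.zero i hi) a
        exact finrank_zero_of_subsingleton
      have h2 : Function.support (P.sh M i) = ∅ := by
        ext a
        simp [h0 a]
      show (Function.support (P.sh M i)).Finite
      rw [h2]
      exact Set.finite_empty
    | succ k ih =>
      intro i hi M hM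
      obtain ⟨r, w, f, hf, hs⟩ := cover M hM
      obtain ⟨S⟩ := SES_ker f hf hs
      have hN : Module.Finite A ((Fre 𝒜 w).sub (LinearMap.ker f) (ker_hom hf)).X := by
        have h0 := H.nl
        have h1 : IsNoetherian A (Fin r → A) := inferInstance
        exact Module.Finite.of_fg (h1.noetherian (LinearMap.ker f))
      have hF : Module.Finite A (Fre 𝒜 w).X := by
        show Module.Finite A (Fin r → A)
        infer_instance
      have h1 := ih (i + 1) (by omega) _ hN
      have h2 := Sf_free H P T R hT w i
      refine Set.Finite.subset (h2.union h1) ?_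
      intro a ha
      by_contra hn
      rw [Set.mem_union, not_or] at hn
      have fF := SH_fin P (Fre 𝒜 w) (H_fin H.fin _ hF) i a
      have fN := SH_fin P _ (H_fin H.fin _ hN) (i + 1) a
      have z1 : Subsingleton (P.SH (Fre 𝒜 w) i a) :=
        finrank_zero_iff.1 (by by_contra h; exact hn.1 h)
      have z2 : Subsingleton (P.SH ((Fre 𝒜 w).sub (LinearMap.ker f) (ker_hom hf)) (i + 1) a) :=
        finrank_zero_iff.1 (by by_contra h; exact hn.2 h)
      apply ha
      obtain ⟨δ, hδ, _⟩ := SL_d P S i a
      have z3 : Subsingleton (P.SH M i a) := by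
        refine ⟨fun x y => ?_⟩
        have hx : ∀ x : P.SH M i a, x = 0 := by
          intro x
          have h3 : x ∈ LinearMap.ker δ := LinearMap.mem_ker.2 (z2.elim _ _)
          rw [← hδ] at h3
          obtain ⟨y, rfl⟩ := h3
          rw [z1.elim y 0, map_zero]
        rw [hx x, hx y]
      exact finrank_zero_of_subsingleton
  exact key (d + 1) i (by omega) M hM

theorem FinH_res {d : ℕ} (P : MC 𝒜) (T : GM 𝒜) (R : Res P T d) (hT : Module.Finite K T.X) :
    P.FinH := by
  constructor
  · let ε : (Fin (P.n 0) → A) →ₗ[K] T.X := R.ε.restrictScalars K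
    have h1 : (LinearMap.range (P.bd 0)).restrictScalars K = LinearMap.ker ε := by
      rw [R.ex0]
      rfl
    rw [h1]
    have hs : Function.Surjective ε := R.surj
    exact Module.Finite.equiv (LinearMap.quotKerEquivOfSurjective ε hs).symm
  · intro i
    have h1 : ((LinearMap.range (P.bd (i + 1))).restrictScalars K).submoduleOf
        ((LinearMap.ker (P.bd i)).restrictScalars K) = ⊤ := by
      rw [eq_top_iff]
      rintro ⟨x, hx⟩ _
      have h2 : x ∈ LinearMap.range (P.bd (i + 1)) := by
        rw [R.ex i]
        exact hx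
      exact h2
    rw [h1]
    infer_instance

end Pool.Agent.NAS
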