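import Pool.Agent.Lib_helper19.NAS.Defs3
import Pool.Agent.Lib_helper19.NAS.B.Kd
import Pool.Agent.Lib_helper19.NAS.B.Sf

/-!
# The modules V_j are finitely generated (MP_ef4bac_al, project NAS, block F1)
-/

set_option autoImplicit false

namespace Pool.Agent.NAS

open Module Filter Topology

universe u

variable {K A : Type u} [Field K] [Ring A] [Algebra K A] {𝒜 : ℕ → Submodule K A}
  [GradedAlgebra 𝒜]

/-- The subspace `A₊ V`. -/
def F1_P (V : GM 𝒜) : Submodule K V.X :=
  Submodule.span K {x | ∃ (a : A) (y : V.X), prA 𝒜 0 a = 0 ∧ x = a • y}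

/-- The component of degree `n` of an element of `A₊ V` lies in the submodule generated by the
components of smaller degree. -/
theorem F1_low (V : GM 𝒜) (N : Submodule A V.X) (n : ℤ) (hN : ∀ m < n, ∀ y ∈ V.dg m, y ∈ N)
    (x : V.X) (hx : x ∈ F1_P V) : V.pr n x ∈ N := by
  induction hx using Submodule.span_induction with
  | mem x hx =>
    obtain ⟨a, y, ha, rfl⟩ := hx
    obtain ⟨s, hs⟩ := (AsA 𝒜).pr_sum a
    have h4 : a = ∑ m ∈ s, prA 𝒜 m a := hs.symm
    rw [h4, Finset.sum_smul, map_sum]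
    refine Submodule.sum_mem _ fun m _ => ?_
    have h5 : n = m + (n - m) := by ring
    rw [h5, V.pr_smul m _ (prA_mem m a)]
    rcases lt_trichotomy m 0 with h | h | h
    · rw [prA_neg 𝒜 h, zero_smul]
      exact zero_mem _
    · rw [h, ha, zero_smul]
      exact zero_mem _
    · exact Submodule.smul_mem _ _ (hN (n - m) (by omega) _ (V.pr_mem _ _))
  | zero =>
    rw [map_zero]
    exact zero_mem _
  | add x y _ _ hx hy =>
    rw [map_add]
    exact add_mem hx hy
  | smul c x _ hx =>
    rw [map_smul, ← algebraMap_smul A c]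
    exact Submodule.smul_mem _ _ hx

/-- Graded Nakayama lemma. -/
theorem F1_nak (V : GM 𝒜) (hfin : ∀ n, Module.Finite K (V.dg n)) (n0 : ℤ)
    (hlow : ∀ n < n0, V.dg n = ⊥) (F : Finset ℤ)
    (hF : ∀ n, n ∉ F → ∀ v ∈ V.dg n, v ∈ F1_P V) : Module.Finite A V.X := by
  classical
  choose S hS using fun n => (Module.Finite.iff_fg.1 (hfin n) : (V.dg n).FG)
  let N : Submodule A V.X := Submodule.span A ((F.biUnion S : Finset V.X) : Set V.X)
  have hFN : ∀ n ∈ F, ∀ v ∈ V.dg n, v ∈ N := by
    intro n hn v hv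
    rw [← hS n] at hv
    have h1 : Submodule.span K ((S n : Finset V.X) : Set V.X) ≤ N.restrictScalars K := by
      rw [Submodule.span_le]
      intro x hx
      refine Submodule.subset_span ?_
      exact Finset.mem_coe.2 (Finset.mem_biUnion.2 ⟨n, hn, Finset.mem_coe.1 hx⟩)
    exact h1 hv
  have key : ∀ k : ℕ, ∀ n : ℤ, n < n0 + k → ∀ v ∈ V.dg n, v ∈ N := by
    intro k
    induction k with
    | zero =>
      intro n hn v hv
      rw [hlow n (by push_cast at hn; omega)] at hv
      rw [(Submodule.mem_bot K).1 hv]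
      exact zero_mem _
    | succ k ih =>
      intro n hn v hv
      by_cases hnF : n ∈ F
      · exact hFN n hnF v hv
      · have h1 := F1_low V N n (fun m hm y hy => ih m (by push_cast at hn; omega) y hy) v
          (hF n hnF v hv)
        rwa [GM.pr_dg hv] at h1
  refine Module.Finite.of_fg_top ?_
  refine ⟨F.biUnion S, ?_⟩
  rw [eq_top_iff]
  intro x _
  obtain ⟨s, hs⟩ := V.pr_sum x
  rw [← hs]
  refine Submodule.sum_mem _ fun n _ => ?_
  exact key (n + 1 - n0).toNat n (by omega) _ (V.pr_mem n x)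

/-- If the top cohomology vanishes in one degree then `V = A₊ V` in the corresponding degree. -/
theorem F1_step (P : MC 𝒜) (d : ℕ) (hd : 0 < d) (hP : P.n (d + 1) = 0) (w0 : ℤ)
    (π : Fin (P.n d) → K) (hπ : π ≠ 0) (hw : ∀ s, π s ≠ 0 → P.w d s = w0)
    (h0 : ∀ j t, j + 1 = d → ∑ s, π s • prA 𝒜 0 (P.D d j s t) = 0) (V : GM 𝒜) (a : ℤ)
    (hs : Subsingleton (P.SH V d a)) (v : V.X) (hv : v ∈ V.dg (w0 + a)) : v ∈ F1_P V := by
  classical
  obtain ⟨j, rfl⟩ : ∃ j, d = j + 1 := ⟨d - 1, by omega⟩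
  obtain ⟨s0, hs0⟩ := Function.ne_iff.1 hπ
  have hs0' : π s0 ≠ 0 := hs0
  let m : Fin (P.n (j + 1)) → V.X := Pi.single s0 ((π s0)⁻¹ • v)
  have hm : m ∈ P.Cc V (j + 1) a := by
    intro t _
    by_cases h : t = s0
    · subst h
      show (Pi.single t ((π t)⁻¹ • v) : Fin (P.n (j + 1)) → V.X) t ∈ V.dg (P.w (j + 1) t + a)
      rw [Pi.single_eq_same, hw t hs0']
      exact Submodule.smul_mem _ _ hv
    · show (Pi.single s0 ((π s0)⁻¹ • v) : Fin (P.n (j + 1)) → V.X) t ∈ V.dg (P.w (j + 1) t + a)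
      rw [Pi.single_eq_of_ne h]
      exact zero_mem _
  have hmz : m ∈ P.Zc V (j + 1) a := by
    refine ⟨hm, ?_⟩
    show P.cod V (j + 1) m = 0
    funext t
    exact (Fin.cast hP t).elim0
  have h1 : (⟨m, hmz⟩ : P.Zc V (j + 1) a) ∈
      (P.Bc V (j + 1) a).submoduleOf (P.Zc V (j + 1) a) := by
    rw [← Submodule.Quotient.mk_eq_zero]
    exact hs.elim _ _
  have h2 : m ∈ P.Bc V (j + 1) a := h1
  obtain ⟨n, _, hn⟩ := h2
  have h3 : v = ∑ s, π s • m s := by
    rw [Finset.sum_eq_single s0]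
    · show v = π s0 • (Pi.single s0 ((π s0)⁻¹ • v) : Fin (P.n (j + 1)) → V.X) s0
      rw [Pi.single_eq_same, smul_smul, mul_inv_cancel₀ hs0', one_smul]
    · intro s _ hne
      show π s • (Pi.single s0 ((π s0)⁻¹ • v) : Fin (P.n (j + 1)) → V.X) s = 0
      rw [Pi.single_eq_of_ne hne, smul_zero]
    · simp
  have h4 : v = ∑ t, (∑ s, π s • P.D (j + 1) j s t) • n t := by
    rw [h3]
    have h5 : ∀ s, m s = ∑ t, P.D (j + 1) j s t • n t := fun s => by
      rw [← hn, MC.cod_apply]
    simp only [h5, Finset.smul_sum, Finset.sum_smul]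
    rw [Finset.sum_comm]
    exact Finset.sum_congr rfl fun t _ => Finset.sum_congr rfl fun s _ => (smul_assoc _ _ _).symm
  rw [h4]
  refine Submodule.sum_mem _ fun t _ => Submodule.subset_span ⟨_, _, ?_, rfl⟩
  rw [map_sum]
  rw [← h0 j t rfl]
  exact Finset.sum_congr rfl fun s _ => map_smul _ _ _

theorem F1 {d : ℕ} (H : Hyp 𝒜 d) (Q : Ideal A) (h : HI 𝒜 Q) (h2 : TS Q) (q : ℕ) :
    Module.Finite A (VV Q h h2 q).X := by
  classical
  have hCQ : Module.Finite A (CQ Q h).X := by
    show Module.Finite A (A ⧸ Q)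
    infer_instance
  obtain ⟨P0, ⟨R0⟩⟩ := H.res (CQ Q h) hCQ
  -- large `q`
  have hbig : ∀ q, d < q → Module.Finite A (VV Q h h2 q).X := by
    intro q hq
    have h1 : ∀ a, (VV Q h h2 q).dg a = ⊥ := by
      intro a
      obtain ⟨e⟩ := V_E Q h h2 q a
      have h3 := RS_van R0 q hq a
      have h4 : Subsingleton ((VV Q h h2 q).dg a) := e.symm.toEquiv.subsingleton
      exact (Submodule.subsingleton_iff_eq_bot).1 h4
    have h5 : ∀ x : (VV Q h h2 q).X, x = 0 := by
      intro x
      obtain ⟨s, hs⟩ := (VV Q h h2 q).pr_sum x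
      rw [← hs]
      refine Finset.sum_eq_zero fun n _ => ?_
      have h6 := (VV Q h h2 q).pr_mem n x
      rw [h1 n] at h6
      exact (Submodule.mem_bot K).1 h6
    have h7 : Subsingleton (VV Q h h2 q).X := ⟨fun x y => by rw [h5 x, h5 y]⟩
    infer_instance
  -- `q = 0`
  have hzero : Module.Finite A (VV Q h h2 0).X := by
    have h1 : IsNoetherian A A := H.nl
    exact Module.Finite.of_fg (h1.noetherian (Gam Q h2 (AsA 𝒜)))
  by_cases hd : 0 < d
  · obtain ⟨P, T, ⟨R⟩, hT, w0, π, hπ, hw, h0⟩ := H.gork hd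
    have key : ∀ k q, d < q + k → Module.Finite A (VV Q h h2 q).X := by
      intro k
      induction k with
      | zero =>
        intro q hq
        exact hbig q hq
      | succ k ih =>
        intro q hq
        have h1 : ∀ j, q < j → ∀ i, FS (P.sh (VV Q h h2 j) i) := fun j hj i =>
          SF H P T R hT (VV Q h h2 j) (ih j (by omega)) i
        have h3 : FS (P.sh (VV Q h h2 q) d) :=
          KF H hd P R.zero (FinH_res P T R hT) Q h h2 q h1
        have hfin : ∀ n, Module.Finite K ((VV Q h h2 q).dg n) := by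
          intro n
          obtain ⟨e⟩ := V_E Q h h2 q n
          have := RS_fin H.fin R0 q n
          exact Module.Finite.equiv e
        obtain ⟨N, C, r, hN, _⟩ := RS_adm H.fin H.grow R0 q
        have hlow : ∀ n < -(N : ℤ), (VV Q h h2 q).dg n = ⊥ := by
          intro n hn
          obtain ⟨e⟩ := V_E Q h h2 q n
          have h4 : finrank K (E q (CQ Q h) n) = 0 := hN n hn
          have h5 := hfin n
          rw [← Submodule.finrank_eq_zero (R := K), ← e.finrank_eq]
          exact h4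
        refine F1_nak (VV Q h h2 q) hfin _ hlow (h3.toFinset.image (fun a => w0 + a)) ?_
        intro n hn v hv
        have h4 : n - w0 ∉ h3.toFinset := by
          intro h5
          exact hn (Finset.mem_image.2 ⟨n - w0, h5, by ring⟩)
        have h6 : P.sh (VV Q h h2 q) d (n - w0) = 0 := by
          by_contra h7
          exact h4 (h3.mem_toFinset.2 h7)
        have h8 := SH_fin P (VV Q h h2 q) hfin d (n - w0)
        have h9 : Subsingleton (P.SH (VV Q h h2 q) d (n - w0)) :=
          finrank_zero_iff.1 h6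
        refine F1_step P d hd (R.zero _ (by omega)) w0 π hπ hw h0 (VV Q h h2 q) (n - w0) h9 v ?_
        rwa [add_sub_cancel]
    exact key (d + 1) q (by omega)
  · cases q with
    | zero => exact hzero
    | succ q => exact hbig _ (by omega)

end Pool.Agent.NAS
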