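import Pool.Agent.Lib_helper19.NAS.Defs3
import Pool.Agent.Lib_helper19.NAS.B.Db
import Pool.Agent.Lib_helper19.NAS.B.Du
import Pool.Agent.Lib_helper19.NAS.B.Kd
import Pool.Agent.Lib_helper19.NAS.B.F1

/-!
# The inequality (D) (MP_ef4bac_al, project NAS, block D)
-/

set_option autoImplicit false

namespace Pool.Agent.NAS

open Module Filter Topology

universe u

section D_linear

variable {K : Type*} [Field K]

theorem D_rank {C0 C1 V0 V1 : Type*} [AddCommGroup C0] [Module K C0] [AddCommGroup C1] [Module K C1]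
    [AddCommGroup V0] [Module K V0] [AddCommGroup V1] [Module K V1] [Module.Finite K C0]
    [Module.Finite K C1] (δ : C0 →ₗ[K] C1) (Φ0 : V0 ≃ₗ[K] Module.Dual K C0)
    (Φ1 : V1 ≃ₗ[K] Module.Dual K C1) (g : V1 →ₗ[K] V0)
    (h : ∀ ξ b, Φ0 (g ξ) b = Φ1 ξ (δ b)) :
    finrank K (LinearMap.range g) = finrank K (LinearMap.range δ) := by
  have h1 : Φ0.toLinearMap ∘ₗ g = δ.dualMap ∘ₗ Φ1.toLinearMap := by
    refine LinearMap.ext fun ξ => LinearMap.ext fun b => ?_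
    exact h ξ b
  have h2 : (LinearMap.range g).map Φ0.toLinearMap = LinearMap.range δ.dualMap := by
    rw [← LinearMap.range_comp, h1, LinearMap.range_comp, LinearEquiv.range, Submodule.map_top]
  have h3 : finrank K ((LinearMap.range g).map Φ0.toLinearMap) = finrank K (LinearMap.range g) :=
    LinearEquiv.finrank_map_eq Φ0 _
  rw [← h3, h2, LinearMap.finrank_range_dualMap_eq_finrank_range]

theorem D_lin0 {C0 C1 V0 V1 : Type*} [AddCommGroup C0] [Module K C0] [AddCommGroup C1] [Module K C1]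
    [AddCommGroup V0] [Module K V0] [AddCommGroup V1] [Module K V1] [Module.Finite K C0]
    [Module.Finite K C1] (δ : C0 →ₗ[K] C1) (Φ0 : V0 ≃ₗ[K] Module.Dual K C0)
    (Φ1 : V1 ≃ₗ[K] Module.Dual K C1) (g : V1 →ₗ[K] V0)
    (h : ∀ ξ b, Φ0 (g ξ) b = Φ1 ξ (δ b)) :
    finrank K (V0 ⧸ LinearMap.range g) = finrank K (LinearMap.ker δ) := by
  haveI : Module.Finite K V0 := Module.Finite.equiv Φ0.symm
  have h1 := D_rank δ Φ0 Φ1 g h
  have h2 := Submodule.finrank_quotient_add_finrank (LinearMap.range g)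
  have h3 : finrank K V0 = finrank K C0 := by
    rw [LinearEquiv.finrank_eq Φ0, Subspace.dual_finrank_eq]
  have h4 := LinearMap.finrank_range_add_finrank_ker δ
  omega

theorem D_lin1 {C0 C1 C2 V0 V1 V2 : Type*} [AddCommGroup C0] [Module K C0] [AddCommGroup C1]
    [Module K C1] [AddCommGroup C2] [Module K C2] [AddCommGroup V0] [Module K V0]
    [AddCommGroup V1] [Module K V1] [AddCommGroup V2] [Module K V2] [Module.Finite K C0]
    [Module.Finite K C1] [Module.Finite K C2] (δ0 : C0 →ₗ[K] C1) (δ1 : C1 →ₗ[K] C2)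
    (hδ : ∀ b, δ1 (δ0 b) = 0) (Φ0 : V0 ≃ₗ[K] Module.Dual K C0)
    (Φ1 : V1 ≃ₗ[K] Module.Dual K C1) (Φ2 : V2 ≃ₗ[K] Module.Dual K C2) (g0 : V1 →ₗ[K] V0)
    (g1 : V2 →ₗ[K] V1) (h0 : ∀ ξ b, Φ0 (g0 ξ) b = Φ1 ξ (δ0 b))
    (h1 : ∀ ξ b, Φ1 (g1 ξ) b = Φ2 ξ (δ1 b)) :
    finrank K (↥(LinearMap.ker g0) ⧸ (LinearMap.range g1).submoduleOf (LinearMap.ker g0)) =
      finrank K (LinearMap.ker δ1) - finrank K (LinearMap.range δ0) := by
  haveI : Module.Finite K V1 := Module.Finite.equiv Φ1.symm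
  have r0 := D_rank δ0 Φ0 Φ1 g0 h0
  have r1 := D_rank δ1 Φ1 Φ2 g1 h1
  have hle : LinearMap.range g1 ≤ LinearMap.ker g0 := by
    rintro _ ⟨ξ, rfl⟩
    rw [LinearMap.mem_ker]
    apply Φ0.injective
    rw [map_zero]
    refine LinearMap.ext fun b => ?_
    rw [h0, h1, hδ, map_zero]
    rfl
  have h2 := Submodule.finrank_quotient_add_finrank
    ((LinearMap.range g1).submoduleOf (LinearMap.ker g0))
  have h3 : finrank K ((LinearMap.range g1).submoduleOf (LinearMap.ker g0))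
      = finrank K (LinearMap.range g1) :=
    LinearEquiv.finrank_eq (Submodule.submoduleOfEquivOfLe hle)
  have h4 : finrank K V1 = finrank K C1 := by
    rw [LinearEquiv.finrank_eq Φ1, Subspace.dual_finrank_eq]
  have h5 := LinearMap.finrank_range_add_finrank_ker g0
  have h6 := LinearMap.finrank_range_add_finrank_ker δ1
  omega

end D_linear

variable {K A : Type u} [Field K] [Ring A] [Algebra K A] {𝒜 : ℕ → Submodule K A}
  [GradedAlgebra 𝒜]

omit [GradedAlgebra 𝒜] in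
theorem D_cod_Cc (G : MC 𝒜) (M : GM 𝒜) (i : ℕ) (a : ℤ) :
    ∀ x ∈ G.Cc M i a, G.cod M i x ∈ G.Cc M (i + 1) a := by
  intro x hx s _
  rw [MC.cod_apply]
  refine Submodule.sum_mem _ fun t _ => ?_
  have h1 := GM.smul_mem_dg (G.deg (i + 1) i s t) (hx t (Set.mem_univ t))
  have h2 : G.w (i + 1) s - G.w i t + (G.w i t + a) = G.w (i + 1) s + a := by ring
  rwa [h2] at h1

omit [GradedAlgebra 𝒜] in
theorem D_cod_cod (G : MC 𝒜) (M : GM 𝒜) (i : ℕ) (x : Fin (G.n i) → M.X) :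
    G.cod M (i + 1) (G.cod M i x) = 0 := by
  funext s
  rw [MC.cod_apply]
  simp only [MC.cod_apply, Finset.smul_sum]
  rw [Finset.sum_comm]
  refine Finset.sum_eq_zero fun r _ => ?_
  have h1 : ∑ t, G.D (i + 1 + 1) (i + 1) s t • G.D (i + 1) i t r • x r
      = (∑ t, G.D (i + 2) (i + 1) s t * G.D (i + 1) i t r) • x r := by
    rw [Finset.sum_smul]
    exact Finset.sum_congr rfl fun t _ => (mul_smul _ _ _).symm
  rw [h1, G.DD, zero_smul]

/-- the differential on cochains of degree `a` -/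
def D_del (G : MC 𝒜) (M : GM 𝒜) (i : ℕ) (a : ℤ) : G.Cc M i a →ₗ[K] G.Cc M (i + 1) a :=
  (G.cod M i).restrict (D_cod_Cc G M i a)

omit [GradedAlgebra 𝒜] in
theorem D_del_coe (G : MC 𝒜) (M : GM 𝒜) (i : ℕ) (a : ℤ) (x : G.Cc M i a) :
    (D_del G M i a x : Fin (G.n (i + 1)) → M.X) = G.cod M i x := rfl

omit [GradedAlgebra 𝒜] in
theorem D_Cc_fin (G : MC 𝒜) (M : GM 𝒜) (hM : ∀ n, Module.Finite K (M.dg n)) (i : ℕ) (a : ℤ) :
    Module.Finite K (G.Cc M i a) := by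
  haveI : ∀ t, Module.Finite K (M.dg (G.w i t + a)) := fun t => hM _
  let f : G.Cc M i a →ₗ[K] (∀ t : Fin (G.n i), M.dg (G.w i t + a)) :=
    LinearMap.pi fun t => ((LinearMap.proj t).comp (G.Cc M i a).subtype).codRestrict _
      (fun x => x.2 t (Set.mem_univ t))
  refine Module.Finite.of_injective f ?_
  intro x y hxy
  refine Subtype.ext (funext fun t => ?_)
  exact congrArg Subtype.val (congrFun hxy t)

omit [GradedAlgebra 𝒜] in
theorem D_Zc_rank (G : MC 𝒜) (M : GM 𝒜) (i : ℕ) (a : ℤ) :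
    finrank K (G.Zc M i a) = finrank K (LinearMap.ker (D_del G M i a)) := by
  have h1 : (LinearMap.ker (D_del G M i a)).map (G.Cc M i a).subtype = G.Zc M i a := by
    ext x
    constructor
    · rintro ⟨y, hy, rfl⟩
      refine ⟨y.2, ?_⟩
      have h2 : D_del G M i a y = 0 := hy
      exact congrArg Subtype.val h2
    · rintro ⟨hx, hx2⟩
      exact ⟨⟨x, hx⟩, Subtype.ext hx2, rfl⟩
  rw [← h1, Submodule.finrank_map_subtype_eq]

omit [GradedAlgebra 𝒜] in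
theorem D_Bc_rank (G : MC 𝒜) (M : GM 𝒜) (i : ℕ) (a : ℤ) :
    finrank K (G.Bc M (i + 1) a) = finrank K (LinearMap.range (D_del G M i a)) := by
  have h1 : (LinearMap.range (D_del G M i a)).map (G.Cc M (i + 1) a).subtype
      = G.Bc M (i + 1) a := by
    ext x
    constructor
    · rintro ⟨_, ⟨y, rfl⟩, rfl⟩
      exact ⟨y, y.2, rfl⟩
    · rintro ⟨y, hy, rfl⟩
      exact ⟨_, ⟨⟨y, hy⟩, rfl⟩, rfl⟩
  rw [← h1, Submodule.finrank_map_subtype_eq]

omit [GradedAlgebra 𝒜] in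
theorem D_Bc_le (G : MC 𝒜) (M : GM 𝒜) (i : ℕ) (a : ℤ) : G.Bc M i a ≤ G.Zc M i a := by
  cases i with
  | zero => exact bot_le
  | succ i =>
    rintro _ ⟨y, hy, rfl⟩
    exact ⟨D_cod_Cc G M i a y hy, D_cod_cod G M i y⟩

omit [GradedAlgebra 𝒜] in
theorem D_sh_rank (G : MC 𝒜) (M : GM 𝒜) (hM : ∀ n, Module.Finite K (M.dg n)) (i : ℕ) (a : ℤ) :
    G.sh M i a = finrank K (G.Zc M i a) - finrank K (G.Bc M i a) := by
  haveI := D_Cc_fin G M hM i a
  haveI : Module.Finite K (G.Zc M i a) :=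
    Module.Finite.of_injective (Submodule.inclusion (inf_le_left : G.Zc M i a ≤ G.Cc M i a))
      (Submodule.inclusion_injective _)
  have h1 := Submodule.finrank_quotient_add_finrank ((G.Bc M i a).submoduleOf (G.Zc M i a))
  have h2 : finrank K ((G.Bc M i a).submoduleOf (G.Zc M i a)) = finrank K (G.Bc M i a) :=
    LinearEquiv.finrank_eq (Submodule.submoduleOfEquivOfLe (D_Bc_le G M i a))
  have h3 : G.sh M i a = finrank K (↥(G.Zc M i a) ⧸ (G.Bc M i a).submoduleOf (G.Zc M i a)) := rfl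
  omega

theorem D2 {d : ℕ} (H : Hyp 𝒜 d) (a : ℤ) (m : ℕ) (M : ℕ → GM 𝒜)
    (hM : ∀ j, Module.Finite A (M j).X) : ∃ P : MC 𝒜, (∀ i, d < i → P.n i = 0) ∧ P.FinH ∧
      ∀ j ≤ m, ∀ i ≤ d, P.sh (M j) (d - i) 0 = eE i (M j) a := by
  choose G hG using fun j => H.res (M j) (hM j)
  -- a bound for all degrees
  obtain ⟨N, hN⟩ : ∃ N : ℤ, ∀ j ≤ m, ∀ i, ∀ s, (G j).w i s + a < N := by
    classical
    let S : Finset ℤ := (Finset.range (m + 1)).biUnion fun j => (Finset.range (d + 1)).biUnion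
      fun i => Finset.univ.image fun s => (G j).w i s + a
    obtain ⟨N, hN⟩ := S.exists_le
    refine ⟨N + 1, fun j hj i s => ?_⟩
    by_cases hi : i ≤ d
    · have h1 : (G j).w i s + a ∈ S := by
        refine Finset.mem_biUnion.2 ⟨j, Finset.mem_range.2 (by omega), ?_⟩
        refine Finset.mem_biUnion.2 ⟨i, Finset.mem_range.2 (by omega), ?_⟩
        exact Finset.mem_image.2 ⟨s, Finset.mem_univ _, rfl⟩
      have := hN _ h1
      omega
    · have h1 : (G j).n i = 0 := (hG j).some.zero i (by omega)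
      exact (Fin.cast h1 s).elim0
  obtain ⟨P, hP, fh, hv, Φ, hΦ⟩ := Du H a N
  refine ⟨P, hP, fh, ?_⟩
  intro j hj i hi
  obtain ⟨R⟩ := hG j
  have hA : ∀ n, Module.Finite K ((AsA 𝒜).dg n) := fun n =>
    H_fin H.fin (AsA 𝒜) (inferInstanceAs (Module.Finite A A)) n
  have hC : ∀ i, Module.Finite K ((G j).Cc (AsA 𝒜) i a) := fun i => D_Cc_fin (G j) (AsA 𝒜) hA i a
  have hE : eE i (M j) a = (G j).sh (AsA 𝒜) i a := by
    obtain ⟨e⟩ := RS_iso R i a
    exact LinearEquiv.finrank_eq e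
  rw [hE, D_sh_rank (G j) (AsA 𝒜) hA i a]
  cases i with
  | zero =>
    rw [Nat.sub_zero, Db_0 H.fin P d hP hv (M j) (G j) R 0,
      D_lin0 (D_del (G j) (AsA 𝒜) 0 a) (Φ (G j) 0 (hN j hj 0)) (Φ (G j) 1 (hN j hj 1))
        (P.gmap (G j) 0 d 0) (fun ξ b => hΦ (G j) 0 (hN j hj 0) (hN j hj 1) ξ b _),
      D_Zc_rank]
    have h1 : finrank K ((G j).Bc (AsA 𝒜) 0 a) = 0 := finrank_bot K _
    rw [h1, Nat.sub_zero]
  | succ i =>
    rw [Db_s H.fin P d hP hv (M j) (G j) R i hi 0,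
      D_lin1 (D_del (G j) (AsA 𝒜) i a) (D_del (G j) (AsA 𝒜) (i + 1) a)
        (fun b => Subtype.ext (D_cod_cod (G j) (AsA 𝒜) i b))
        (Φ (G j) i (hN j hj i)) (Φ (G j) (i + 1) (hN j hj (i + 1)))
        (Φ (G j) (i + 1 + 1) (hN j hj (i + 1 + 1)))
        (P.gmap (G j) i d 0) (P.gmap (G j) (i + 1) d 0)
        (fun ξ b => hΦ (G j) i (hN j hj i) (hN j hj (i + 1)) ξ b _)
        (fun ξ b => hΦ (G j) (i + 1) (hN j hj (i + 1)) (hN j hj (i + 1 + 1)) ξ b _),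
      D_Zc_rank, D_Bc_rank]

theorem DD {d : ℕ} (H : Hyp 𝒜 d) (Q : Ideal A) (h : HI 𝒜 Q) (h2 : TS Q) (b : ℕ) (hb : 1 ≤ b)
    (hbd : b ≤ d) (a : ℤ) :
    eE b (VV Q h h2 0) a ≤
      ∑ l ∈ Finset.range (d - b - 1), eE (b + 2 + l) (VV Q h h2 (l + 1)) a := by
  obtain ⟨P, hP, fh, hsh⟩ := D2 H a d (fun j => VV Q h h2 j) (fun j => F1 H Q h h2 j)
  have h3 := KD H P fh Q h h2 (d - b) (by omega) 0
  rw [hsh 0 (Nat.zero_le d) b hbd] at h3
  refine h3.trans (le_of_eq ?_)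
  refine Finset.sum_congr rfl fun l hl => ?_
  rw [Finset.mem_range] at hl
  have h4 : d - b - 2 - l = d - (b + 2 + l) := by omega
  rw [h4]
  exact hsh (l + 1) (by omega) (b + 2 + l) (by omega)

end Pool.Agent.NAS
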