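import Pool.Agent.Lib_helper19.NAS.Defs3
import Pool.Agent.Lib_helper19.NAS.B.Tool
import Pool.Agent.Lib_helper19.NAS.B.Les
import Pool.Agent.Lib_helper19.NAS.B.Hil

/-!
# Finite-dimensional graded modules (MP_ef4bac_al, project NAS, block Gi)
-/

set_option autoImplicit false

namespace Pool.Agent.NAS

open Module Filter Topology

universe u

variable {K A : Type u} [Field K] [Ring A] [Algebra K A] {𝒜 : ℕ → Submodule K A}
  [GradedAlgebra 𝒜]

omit [GradedAlgebra 𝒜] in
/-- a homogeneous nonzero element of maximal degree -/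
theorem Gi_top (H : GM 𝒜) [Module.Finite K H.X] (hne : ¬ Subsingleton H.X) :
    ∃ (c : ℤ) (x : H.X), x ≠ 0 ∧ x ∈ H.dg c ∧ ∀ n, c < n → ∀ y : H.X, H.pr n y = 0 := by
  classical
  obtain ⟨S, hS⟩ := (Module.Finite.fg_top : (⊤ : Submodule K H.X).FG)
  choose s hs using H.pr_sum
  have hbd : ∀ n, n ∉ S.biUnion s → ∀ y : H.X, H.pr n y = 0 := by
    intro n hn y
    have hy : y ∈ Submodule.span K (S : Set H.X) := by rw [hS]; exact Submodule.mem_top
    induction hy using Submodule.span_induction with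
    | mem z hz => exact GM.pr_notin (hs z) fun h => hn (Finset.mem_biUnion.2 ⟨z, hz, h⟩)
    | zero => exact map_zero _
    | add z z' _ _ h h' => rw [map_add, h, h', add_zero]
    | smul c z _ h => rw [map_smul, h, smul_zero]
  rw [not_subsingleton_iff_nontrivial] at hne
  obtain ⟨y, hy⟩ := exists_ne (0 : H.X)
  have hex : ∃ n, ∃ y : H.X, H.pr n y ≠ 0 := by
    by_contra hcon
    push Not at hcon
    apply hy
    rw [← hs y]
    exact Finset.sum_eq_zero fun n _ => hcon n y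
  let F : Finset ℤ := (S.biUnion s).filter fun n => ∃ y : H.X, H.pr n y ≠ 0
  have hF : F.Nonempty := by
    obtain ⟨n, y, hn⟩ := hex
    refine ⟨n, Finset.mem_filter.2 ⟨?_, y, hn⟩⟩
    by_contra hcon
    exact hn (hbd n hcon y)
  obtain ⟨c, hc, hmax⟩ := F.exists_max_image id hF
  obtain ⟨_, y0, hy0⟩ := Finset.mem_filter.1 hc
  refine ⟨c, H.pr c y0, hy0, H.pr_mem c y0, fun n hn z => ?_⟩
  by_contra hcon
  have h1 : n ∈ F := by
    refine Finset.mem_filter.2 ⟨?_, z, hcon⟩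
    by_contra hcon'
    exact hcon (hbd n hcon' z)
  have h2 : n ≤ c := hmax n h1
  omega

/-- the action on a homogeneous element -/
theorem Gi_pr (H : GM 𝒜) {c : ℤ} {x : H.X} (hx : x ∈ H.dg c) (n : ℤ) (a : A) :
    H.pr n (a • x) = prA 𝒜 (n - c) a • x := by
  refine GM.induct (M := AsA 𝒜) (P := fun a => H.pr n (a • x) = prA 𝒜 (n - c) a • x) a ?_ ?_ ?_
  · rw [map_zero]
    show H.pr n ((0 : A) • x) = (0 : A) • x
    rw [zero_smul, map_zero]
  · intro a b ha hb
    show H.pr n ((a + b : A) • x) = prA 𝒜 (n - c) (a + b) • x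
    rw [add_smul, map_add, ha, hb, map_add, add_smul]
  · intro m a ha
    have ha' : a ∈ hA 𝒜 m := prA_dg.1 ha
    by_cases h : n - c = m
    · rw [h, prA_of_mem ha']
      have h1 := GM.smul_mem_dg ha' hx
      have h2 : m + c = n := by omega
      rw [h2] at h1
      exact GM.pr_dg h1
    · have h1 : H.pr n (a • x) = 0 := GM.pr_dg_ne (GM.smul_mem_dg ha' hx) (fun hh => h (by omega))
      have h2 : prA 𝒜 (n - c) a = 0 := GM.pr_dg_ne (M := AsA 𝒜) ha h
      rw [h1, h2, zero_smul]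

/-- the irrelevant ideal kills an element of maximal degree -/
theorem Gi_kill (H : GM 𝒜) {c : ℤ} {x : H.X} (hx : x ∈ H.dg c)
    (hmax : ∀ n, c < n → ∀ y : H.X, H.pr n y = 0) {a : A}
    (ha : a ∈ (HomogeneousIdeal.irrelevant 𝒜).toIdeal) : a • x = 0 := by
  have h0 : prA 𝒜 0 a = 0 := by
    have h1 := (HomogeneousIdeal.mem_irrelevant_iff 𝒜 a).1 ha
    have h2 : prA 𝒜 ((0 : ℕ) : ℤ) a = (DirectSum.decompose 𝒜 a 0 : A) := prA_nat 𝒜 0 a
    rw [Nat.cast_zero] at h2
    rw [h2]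
    exact h1
  obtain ⟨s, hs⟩ := H.pr_sum (a • x)
  rw [← hs]
  refine Finset.sum_eq_zero fun n _ => ?_
  rcases lt_trichotomy n c with h | h | h
  · rw [Gi_pr H hx, prA_neg 𝒜 (by omega), zero_smul]
  · rw [Gi_pr H hx, h, sub_self, h0, zero_smul]
  · exact hmax n h _

/-- the map from the trivial module -/
noncomputable def Gi_map (H : GM 𝒜) (c : ℤ) (x : H.X)
    (hk : ∀ a ∈ (HomogeneousIdeal.irrelevant 𝒜).toIdeal, a • x = 0) :
    (GM.pi (fun _ : Fin 1 => c) (TrivM 𝒜)).X →ₗ[A] H.X :=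
  (Submodule.liftQ (HomogeneousIdeal.irrelevant 𝒜).toIdeal (LinearMap.toSpanSingleton A H.X x)
    (fun a ha => hk a ha)) ∘ₗ (LinearMap.proj 0)

theorem Gi_map_apply (H : GM 𝒜) (c : ℤ) (x : H.X)
    (hk : ∀ a ∈ (HomogeneousIdeal.irrelevant 𝒜).toIdeal, a • x = 0)
    (v : (GM.pi (fun _ : Fin 1 => c) (TrivM 𝒜)).X) (a : A)
    (ha : v 0 = Submodule.Quotient.mk a) : Gi_map H c x hk v = a • x := by
  have h : Gi_map H c x hk v = (Submodule.liftQ (HomogeneousIdeal.irrelevant 𝒜).toIdeal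
      (LinearMap.toSpanSingleton A H.X x) (fun a ha => hk a ha)) (v 0) := rfl
  rw [h, ha]
  rfl

theorem Gi_map_mem (H : GM 𝒜) (c : ℤ) (x : H.X) (hx : x ∈ H.dg c)
    (hk : ∀ a ∈ (HomogeneousIdeal.irrelevant 𝒜).toIdeal, a • x = 0) :
    Gi_map H c x hk ∈ Hm (GM.pi (fun _ : Fin 1 => c) (TrivM 𝒜)) H 0 := by
  intro n v
  obtain ⟨a, ha⟩ := Submodule.Quotient.mk_surjective _ (v 0)
  rw [Gi_map_apply H c x hk v a ha.symm, add_zero, Gi_pr H hx]
  refine Gi_map_apply H c x hk _ _ ?_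
  rw [GM.pi_pr, ← ha]
  rfl

theorem Gi_map_inj (conn : ∀ a ∈ 𝒜 0, ∃ c : K, a = algebraMap K A c) (H : GM 𝒜) (c : ℤ)
    (x : H.X) (hx0 : x ≠ 0) (hk : ∀ a ∈ (HomogeneousIdeal.irrelevant 𝒜).toIdeal, a • x = 0) :
    Function.Injective (Gi_map H c x hk) := by
  rw [← LinearMap.ker_eq_bot, LinearMap.ker_eq_bot']
  intro v hv
  obtain ⟨a, ha⟩ := Submodule.Quotient.mk_surjective _ (v 0)
  rw [Gi_map_apply H c x hk v a ha.symm] at hv
  -- the component of degree 0
  have hmem : a - (DirectSum.decompose 𝒜 a 0 : A) ∈ (HomogeneousIdeal.irrelevant 𝒜).toIdeal := by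
    refine (HomogeneousIdeal.mem_irrelevant_iff 𝒜 _).2 ?_
    rw [map_sub, GradedRing.proj_apply, GradedRing.proj_apply,
      DirectSum.decompose_of_mem_same 𝒜 (SetLike.coe_mem _), sub_self]
  obtain ⟨κ, hκ⟩ := conn _ (SetLike.coe_mem (DirectSum.decompose 𝒜 a 0))
  have h1 : a • x = κ • x := by
    have h2 : a = (a - (DirectSum.decompose 𝒜 a 0 : A)) + (DirectSum.decompose 𝒜 a 0 : A) := by abel
    rw [h2, add_smul, hk _ hmem, zero_add, hκ, algebraMap_smul]
  have h3 : κ = 0 := by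
    rw [h1] at hv
    exact (smul_eq_zero.1 hv).resolve_right hx0
  have h4 : a ∈ (HomogeneousIdeal.irrelevant 𝒜).toIdeal := by
    rw [h3, map_zero] at hκ
    rwa [hκ, sub_zero] at hmem
  funext i
  have hi : i = 0 := Subsingleton.elim _ _
  rw [hi, ← ha]
  exact (Submodule.Quotient.mk_eq_zero _).2 h4

theorem Gi_ind (fin : ∀ n, Module.Finite K (𝒜 n))
    (conn : ∀ a ∈ 𝒜 0, ∃ c : K, a = algebraMap K A c) (nt : (1 : A) ≠ 0) {p : GM 𝒜 → Prop}
    (h0 : ∀ H : GM 𝒜, Subsingleton H.X → p H)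
    (hK : ∀ c : ℤ, p (GM.pi (fun _ : Fin 1 => c) (TrivM 𝒜)))
    (hs : ∀ (L M N : GM 𝒜), SES L M N → p L → p N → p M) :
    ∀ H : GM 𝒜, Module.Finite K H.X → p H := by
  have key : ∀ (n : ℕ) (H : GM 𝒜), Module.Finite K H.X → finrank K H.X ≤ n → p H := by
    intro n
    induction n with
    | zero =>
      intro H hH hn
      have : finrank K H.X = 0 := by omega
      exact h0 H (finrank_zero_iff.1 this)
    | succ n ih =>
      intro H hH hn
      by_cases hsub : Subsingleton H.X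
      · exact h0 H hsub
      obtain ⟨c, x, hx0, hx, hmax⟩ := Gi_top H hsub
      have hk : ∀ a ∈ (HomogeneousIdeal.irrelevant 𝒜).toIdeal, a • x = 0 :=
        fun a ha => Gi_kill H hx hmax ha
      have hm := Gi_map_mem H c x hx hk
      set N : Submodule A H.X := LinearMap.range (Gi_map H c x hk) with hN
      have hNh : H.Hom N := range_hom hm
      refine hs (GM.pi (fun _ : Fin 1 => c) (TrivM 𝒜)) H (H.quo N hNh)
        ⟨Gi_map H c x hk, N.mkQ, hm, ?_, Gi_map_inj conn H c x hx0 hk, N.mkQ_surjective,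
          N.ker_mkQ.symm⟩ (hK c) ?_
      · intro m y
        rw [add_zero]
        rfl
      · have hxN : x ∈ N := by
          refine ⟨fun _ => Submodule.Quotient.mk 1, ?_⟩
          rw [Gi_map_apply H c x hk _ 1 rfl, one_smul]
        have e : (H.X ⧸ N.restrictScalars K) ≃ₗ[K] (H.X ⧸ N) :=
          Submodule.Quotient.restrictScalarsEquiv K N
        have hfin : Module.Finite K (H.X ⧸ N) := Module.Finite.equiv e
        refine ih (H.quo N hNh) hfin ?_
        have h1 := Submodule.finrank_quotient_add_finrank (N.restrictScalars K)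
        have h2 : finrank K (H.X ⧸ N) = finrank K (H.X ⧸ N.restrictScalars K) := e.finrank_eq.symm
        have h3 : 0 < finrank K (N.restrictScalars K) := by
          rw [finrank_pos_iff_exists_ne_zero]
          exact ⟨⟨x, hxN⟩, fun h => hx0 (congrArg Subtype.val h)⟩
        show finrank K (H.X ⧸ N) ≤ n
        omega
  intro H hH
  exact key _ H hH le_rfl

end Pool.Agent.NAS
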