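import Pool.Agent.Lib_helper19.NAS.Defs3
import Pool.Agent.Lib_helper19.NAS.B.Tool

/-!
# A linear form on the last cohomology (MP_ef4bac_al, project NAS, block Gk)
-/

set_option autoImplicit false

namespace Pool.Agent.NAS

open Module Filter Topology

universe u

theorem Gk_lin {K : Type u} [Field K] {N N' : ℕ} (w : Fin N → ℤ) (w' : Fin N' → ℤ)
    (e : Fin N → Fin N' → K) (he : ∀ s t, w s ≠ w' t → e s t = 0)
    (h : ¬ ∃ (w0 : ℤ) (π : Fin N → K), π ≠ 0 ∧ (∀ s, π s ≠ 0 → w s = w0) ∧
      ∀ t, ∑ s, π s * e s t = 0) :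
    ∃ c : Fin N' → Fin N → K, (∀ t s, w' t ≠ w s → c t s = 0) ∧
      ∀ s s', ∑ t, e s t * c t s' = if s = s' then 1 else 0 := by
  classical
  set L : (Fin N' → K) →ₗ[K] (Fin N → K) := Matrix.mulVecLin (Matrix.of e) with hL
  have hLa : ∀ x s, L x s = ∑ t, e s t * x t := fun x s => rfl
  have hr : LinearMap.range L = ⊤ := by
    by_contra hne
    obtain ⟨f, hf0, hf⟩ := Submodule.exists_le_ker_of_lt_top _ (lt_top_iff_ne_top.2 hne)
    set π : Fin N → K := fun s => f (fun j => if s = j then 1 else 0) with hπ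
    have hfx : ∀ x, f x = ∑ s, x s * π s := fun x => by
      rw [LinearMap.pi_apply_eq_sum_univ f x]
      rfl
    obtain ⟨s1, hs1⟩ : ∃ s1, π s1 ≠ 0 := by
      by_contra hc
      push Not at hc
      apply hf0
      refine LinearMap.ext fun x => ?_
      rw [hfx, LinearMap.zero_apply]
      exact Finset.sum_eq_zero fun s _ => by rw [hc s, mul_zero]
    have hz : ∀ t, ∑ s, π s * e s t = 0 := by
      intro t
      have h1 : f (L (Pi.single t 1)) = 0 := hf ⟨_, rfl⟩
      rw [hfx] at h1
      rw [← h1]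
      refine Finset.sum_congr rfl fun s _ => ?_
      rw [hLa, Finset.sum_eq_single t (fun t' _ ht' => by rw [Pi.single_eq_of_ne ht', mul_zero])
        (fun ht' => absurd (Finset.mem_univ t) ht'), Pi.single_eq_same, mul_one, mul_comm]
    apply h
    refine ⟨w s1, fun s => if w s = w s1 then π s else 0, ?_, ?_, ?_⟩
    · intro h0
      have h2 := congrFun h0 s1
      simp only [if_true] at h2
      exact hs1 h2
    · intro s hs
      by_contra hc
      exact hs (if_neg hc)
    · intro t
      by_cases ht : w' t = w s1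
      · rw [← hz t]
        refine Finset.sum_congr rfl fun s _ => ?_
        beta_reduce
        by_cases hs : w s = w s1
        · rw [if_pos hs]
        · rw [he s t (fun hh => hs (hh.trans ht)), mul_zero, mul_zero]
      · refine Finset.sum_eq_zero fun s _ => ?_
        beta_reduce
        by_cases hs : w s = w s1
        · rw [he s t (fun hh => ht (hh.symm.trans hs)), mul_zero]
        · rw [if_neg hs, zero_mul]
  have hv : ∀ s' : Fin N, ∃ v, L v = Pi.single s' 1 := fun s' => by
    have : (Pi.single s' 1 : Fin N → K) ∈ LinearMap.range L := by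
      rw [hr]
      exact Submodule.mem_top
    exact this
  choose v hv using hv
  refine ⟨fun t s' => if w' t = w s' then v s' t else 0, fun t s' ht => if_neg ht, ?_⟩
  intro s s'
  by_cases hs : w s = w s'
  · have h1 : ∑ t, e s t * (if w' t = w s' then v s' t else 0) = L (v s') s := by
      rw [hLa]
      refine Finset.sum_congr rfl fun t _ => ?_
      by_cases ht : w' t = w s'
      · rw [if_pos ht]
      · rw [he s t (fun hh => ht (hh.symm.trans hs)), zero_mul, zero_mul]
    rw [h1, hv, Pi.single_apply]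
  · rw [if_neg (fun hh => hs (by rw [hh]))]
    refine Finset.sum_eq_zero fun t _ => ?_
    beta_reduce
    by_cases ht : w' t = w s'
    · rw [he s t (fun hh => hs (hh.trans ht)), zero_mul]
    · rw [if_neg ht, mul_zero]

variable {K A : Type u} [Field K] [Ring A] [Algebra K A] {𝒜 : ℕ → Submodule K A}
  [GradedAlgebra 𝒜]

/-- If the scalar part of the matrix has a homogeneous right inverse, the matrix is onto. -/
theorem Gk_onto (P : MC 𝒜) (m : ℕ) (a : ℤ) (e : Fin (P.n (m + 1)) → Fin (P.n m) → K)
    (he : ∀ s t, P.w (m + 1) s ≠ P.w m t → e s t = 0)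
    (hD : ∀ s t, P.w (m + 1) s = P.w m t → P.D (m + 1) m s t = algebraMap K A (e s t))
    (c : Fin (P.n m) → Fin (P.n (m + 1)) → K) (hc : ∀ t s, P.w m t ≠ P.w (m + 1) s → c t s = 0)
    (hec : ∀ s s', ∑ t, e s t * c t s' = if s = s' then 1 else 0)
    (y : Fin (P.n (m + 1)) → A) (hy : y ∈ P.Cc (AsA 𝒜) (m + 1) a) :
    ∃ x ∈ P.Cc (AsA 𝒜) m a, P.cod (AsA 𝒜) m x = y := by
  classical
  set X : (Fin (P.n (m + 1)) → A) → (Fin (P.n m) → A) := fun z t => ∑ s', c t s' • z s' with hX
  set G : (Fin (P.n (m + 1)) → A) → (Fin (P.n (m + 1)) → A) := fun z s =>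
    ∑ t, (P.D (m + 1) m s t - algebraMap K A (e s t)) * X z t with hG
  have hXm : ∀ z ∈ P.Cc (AsA 𝒜) (m + 1) a, X z ∈ P.Cc (AsA 𝒜) m a := by
    intro z hz t _
    rw [hX]
    refine Submodule.sum_mem _ fun s' _ => ?_
    by_cases ht : P.w m t = P.w (m + 1) s'
    · refine Submodule.smul_mem _ _ ?_
      show z s' ∈ (AsA 𝒜).dg (P.w m t + a)
      rw [ht]
      exact hz s' (Set.mem_univ _)
    · rw [hc t s' ht, zero_smul]
      exact zero_mem _
  have hcod : ∀ z s, P.cod (AsA 𝒜) m (X z) s = z s + G z s := by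
    intro z s
    have h1 : ∑ t, algebraMap K A (e s t) * X z t = z s := by
      have h2 : ∀ t, algebraMap K A (e s t) * X z t = ∑ s', (e s t * c t s') • z s' := by
        intro t
        rw [hX]
        simp only
        rw [Finset.mul_sum]
        refine Finset.sum_congr rfl fun s' _ => ?_
        rw [← Algebra.smul_def, smul_smul]
      rw [Finset.sum_congr rfl (fun t _ => h2 t), Finset.sum_comm]
      have h3 : ∀ s', ∑ t, (e s t * c t s') • z s' = if s = s' then z s' else 0 := by
        intro s'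
        rw [← Finset.sum_smul, hec]
        by_cases hs : s = s'
        · rw [if_pos hs, if_pos hs, one_smul]
        · rw [if_neg hs, if_neg hs, zero_smul]
      rw [Finset.sum_congr rfl (fun s' _ => h3 s'), Finset.sum_ite_eq Finset.univ s z,
        if_pos (Finset.mem_univ _)]
    rw [MC.cod_apply, hG]
    simp only [sub_mul, Finset.sum_sub_distrib, smul_eq_mul]
    rw [h1]
    abel
  have hGm : ∀ z ∈ P.Cc (AsA 𝒜) (m + 1) a, G z ∈ P.Cc (AsA 𝒜) (m + 1) a := by
    intro z hz
    have h1 : G z = fun s => P.cod (AsA 𝒜) m (X z) s - z s := by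
      funext s
      rw [hcod]
      abel
    rw [h1]
    intro s hs
    refine Submodule.sub_mem _ ?_ (hz s hs)
    rw [MC.cod_apply]
    refine Submodule.sum_mem _ fun t _ => ?_
    have h2 := GM.smul_mem_dg (M := AsA 𝒜) (P.deg (m + 1) m s t) (hXm z hz t (Set.mem_univ _))
    have h3 : P.w (m + 1) s - P.w m t + (P.w m t + a) = P.w (m + 1) s + a := by ring
    rwa [h3] at h2
  have hGe : ∀ z z' s, (∀ s', P.w (m + 1) s' < P.w (m + 1) s → z s' = z' s') → G z s = G z' s := by
    intro z z' s hzz
    rw [hG]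
    refine Finset.sum_congr rfl fun t _ => ?_
    rcases lt_trichotomy (P.w m t) (P.w (m + 1) s) with ht | ht | ht
    · have h1 : X z t = X z' t := by
        rw [hX]
        refine Finset.sum_congr rfl fun s' _ => ?_
        by_cases hs : P.w m t = P.w (m + 1) s'
        · rw [hzz s' (hs ▸ ht)]
        · rw [hc t s' hs, zero_smul, zero_smul]
      rw [h1]
    · rw [hD s t ht.symm, sub_self, zero_mul, zero_mul]
    · have h1 : P.D (m + 1) m s t = 0 := by
        have h2 := P.deg (m + 1) m s t
        rw [hA_neg (by omega)] at h2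
        exact (Submodule.mem_bot K).1 h2
      rw [h1, he s t (by omega), map_zero, sub_self, zero_mul, zero_mul]
  obtain ⟨b, hb⟩ : ∃ b : ℤ, ∀ s, b ≤ P.w (m + 1) s := by
    obtain ⟨b, hb⟩ := (Set.finite_range (P.w (m + 1))).bddBelow
    exact ⟨b, fun s => hb ⟨s, rfl⟩⟩
  obtain ⟨b', hb'⟩ : ∃ b' : ℤ, ∀ s, P.w (m + 1) s ≤ b' := by
    obtain ⟨b', hb'⟩ := (Set.finite_range (P.w (m + 1))).bddAbove
    exact ⟨b', fun s => hb' ⟨s, rfl⟩⟩
  have key : ∀ n : ℕ, ∃ z ∈ P.Cc (AsA 𝒜) (m + 1) a,
      ∀ s, P.w (m + 1) s < b + n → z s + G z s = y s := by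
    intro n
    induction n with
    | zero =>
      refine ⟨0, zero_mem _, fun s hs => ?_⟩
      have := hb s
      push_cast at hs
      omega
    | succ n ih =>
      obtain ⟨z, hz, hzs⟩ := ih
      refine ⟨fun s => if P.w (m + 1) s = b + n then y s - G z s else z s, ?_, ?_⟩
      · intro s hs
        show (if P.w (m + 1) s = b + n then y s - G z s else z s) ∈ _
        by_cases h1 : P.w (m + 1) s = b + n
        · rw [if_pos h1]
          exact Submodule.sub_mem _ (hy s hs) (hGm z hz s hs)
        · rw [if_neg h1]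
          exact hz s hs
      · intro s hs
        have h2 : G (fun s => if P.w (m + 1) s = b + n then y s - G z s else z s) s = G z s := by
          refine hGe _ _ s fun s' hs' => ?_
          rw [if_neg]
          push_cast at hs
          omega
        rw [h2]
        beta_reduce
        by_cases h1 : P.w (m + 1) s = b + n
        · rw [if_pos h1]
          abel
        · rw [if_neg h1]
          exact hzs s (by push_cast at hs; omega)
  obtain ⟨z, hz, hzs⟩ := key (b' - b + 1).toNat
  refine ⟨X z, hXm z hz, ?_⟩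
  funext s
  rw [hcod]
  refine hzs s ?_
  have h1 := hb s
  have h2 := hb' s
  omega

theorem GK (fin : ∀ n, Module.Finite K (𝒜 n))
    (conn : ∀ a ∈ 𝒜 0, ∃ c : K, a = algebraMap K A c) (nt : (1 : A) ≠ 0) (d : ℕ)
    (P : MC 𝒜) (a0 : ℤ) (h : P.sh (AsA 𝒜) d a0 ≠ 0) :
    ∃ (w0 : ℤ) (π : Fin (P.n d) → K), π ≠ 0 ∧ (∀ s, π s ≠ 0 → P.w d s = w0) ∧
      ∀ j t, j + 1 = d → ∑ s, π s • prA 𝒜 0 (P.D d j s t) = 0 := by
  classical
  have : Nontrivial A := ⟨1, 0, nt⟩
  cases d with
  | zero =>
    have hne : P.n 0 ≠ 0 := by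
      intro h0
      apply h
      have : IsEmpty (Fin (P.n 0)) := by
        rw [h0]
        infer_instance
      have : Subsingleton (P.SH (AsA 𝒜) 0 a0) := by
        have : Subsingleton (P.Zc (AsA 𝒜) 0 a0) :=
          ⟨fun x y => Subtype.ext (funext fun i => isEmptyElim i)⟩
        exact Quot.Subsingleton
      exact Module.finrank_zero_of_subsingleton
    have s0 : Fin (P.n 0) := ⟨0, Nat.pos_of_ne_zero hne⟩
    refine ⟨P.w 0 s0, Pi.single s0 1, ?_, ?_, fun j t hj => absurd hj (by omega)⟩
    · intro h0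
      have h1 := congrFun h0 s0
      rw [Pi.single_eq_same, Pi.zero_apply] at h1
      exact one_ne_zero h1
    · intro s hs
      by_contra hc
      apply hs
      rw [Pi.single_eq_of_ne]
      rintro rfl
      exact hc rfl
  | succ m =>
    by_contra hno
    have hsc : ∀ s t, ∃ c : K, prA 𝒜 0 (P.D (m + 1) m s t) = algebraMap K A c := by
      intro s t
      apply conn
      have := prA_mem (𝒜 := 𝒜) 0 (P.D (m + 1) m s t)
      rwa [show (0 : ℤ) = ((0 : ℕ) : ℤ) from rfl, hA_nat] at this
    choose e he using hsc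
    have hinj : Function.Injective (algebraMap K A) := (algebraMap K A).injective
    have he0 : ∀ s t, P.w (m + 1) s ≠ P.w m t → e s t = 0 := by
      intro s t hst
      apply hinj
      rw [← he, map_zero]
      exact GM.pr_dg_ne (M := AsA 𝒜) (prA_dg.2 (P.deg (m + 1) m s t)) (by omega)
    have hD : ∀ s t, P.w (m + 1) s = P.w m t → P.D (m + 1) m s t = algebraMap K A (e s t) := by
      intro s t hst
      rw [← he]
      symm
      apply prA_of_mem
      have := P.deg (m + 1) m s t
      rwa [hst, sub_self] at this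
    obtain ⟨c, hc, hec⟩ := Gk_lin (P.w (m + 1)) (P.w m) e he0 (by
      rintro ⟨w0, π, h1, h2, h3⟩
      apply hno
      refine ⟨w0, π, h1, h2, ?_⟩
      intro j t hj
      obtain rfl : j = m := by omega
      have h4 : ∀ s, π s • prA 𝒜 0 (P.D (j + 1) j s t) = algebraMap K A (π s * e s t) := by
        intro s
        rw [he, Algebra.smul_def, ← map_mul]
      rw [Finset.sum_congr rfl (fun s _ => h4 s), ← map_sum, h3, map_zero])
    apply h
    have : Subsingleton (P.SH (AsA 𝒜) (m + 1) a0) := by
      refine Submodule.Quotient.subsingleton_iff.2 (eq_top_iff.2 ?_)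
      rintro ⟨y, hy⟩ _
      obtain ⟨x, hx, hxy⟩ := Gk_onto P m a0 e he0 hD c hc hec y hy.1
      exact ⟨x, hx, hxy⟩
    exact Module.finrank_zero_of_subsingleton

end Pool.Agent.NAS
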