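import Pool.Agent.Lib_helper19.NAS.Defs3
import Pool.Agent.Lib_helper19.NAS.B.Gi
import Pool.Agent.Lib_helper19.NAS.B.Frx
import Pool.Agent.Lib_helper19.NAS.B.Rs

/-!
# Gorenstein condition for finite-dimensional modules (MP_ef4bac_al, project NAS, block Gl)
-/

set_option autoImplicit false

namespace Pool.Agent.NAS

open Module Filter Topology

universe u

variable {K A : Type u} [Field K] [Ring A] [Algebra K A] {𝒜 : ℕ → Submodule K A}
  [GradedAlgebra 𝒜]

theorem Gl_sub (M : GM 𝒜) (h : Subsingleton M.X) (i : ℕ) (a : ℤ) : Subsingleton (E i M a) := by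
  have h1 : Subsingleton (Hm M (IX 𝒜 i) a) := by
    constructor
    intro f g
    refine Subtype.ext (LinearMap.ext fun x => ?_)
    have hx : x = 0 := Subsingleton.elim _ _
    rw [hx, map_zero, map_zero]
  exact (Submodule.mkQ_surjective (Bd i M a)).subsingleton

theorem Gl_ses_sub {L M N : GM 𝒜} (S : SES L M N) (i : ℕ) (a : ℤ) (hL : Subsingleton (E i L a))
    (hN : Subsingleton (E i N a)) : Subsingleton (E i M a) := by
  have h1 := LES_m S i a
  have key : ∀ x : E i M a, x = 0 := by
    intro x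
    have h2 : x ∈ LinearMap.ker (Emap S.f S.hf i a) := by
      rw [LinearMap.mem_ker]
      exact Subsingleton.elim _ _
    rw [← h1] at h2
    obtain ⟨y, hy⟩ := h2
    rw [← hy, Subsingleton.elim y 0, map_zero]
  exact ⟨fun x y => (key x).trans (key y).symm⟩

theorem GL0 (fin : ∀ n, Module.Finite K (𝒜 n))
    (conn : ∀ a ∈ 𝒜 0, ∃ c : K, a = algebraMap K A c) (nt : (1 : A) ≠ 0) (d : ℕ)
    (h : ∀ i < d, ∀ a, Subsingleton (E i (TrivM 𝒜) a)) (M : GM 𝒜) (hM : Module.Finite K M.X) :
    ∀ i < d, ∀ a, Subsingleton (E i M a) := by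
  refine Gi_ind (𝒜 := 𝒜) fin conn nt (p := fun M => ∀ i < d, ∀ a, Subsingleton (E i M a))
    ?_ ?_ ?_ M hM
  · intro H hH i _ a
    exact Gl_sub H hH i a
  · intro c i hi a
    obtain ⟨e⟩ := E_pi (fun _ : Fin 1 => c) (TrivM 𝒜) i a
    have h1 : Subsingleton (∀ s : Fin 1, E i (TrivM 𝒜) ((fun _ : Fin 1 => c) s + a)) := by
      constructor
      intro x y
      funext s
      have := h i hi (c + a)
      exact Subsingleton.elim _ _
    exact e.toEquiv.subsingleton
  · intro L M N S hL hN i hi a
    exact Gl_ses_sub S i a (hL i hi a) (hN i hi a)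

theorem Gl_ses_fin {L M N : GM 𝒜} (S : SES L M N) (i : ℕ) (a : ℤ)
    (hL : Module.Finite K (E i L a)) (hN : Module.Finite K (E i N a)) :
    Module.Finite K (E i M a) ∧ eE i M a ≤ eE i N a + eE i L a := by
  have h1 := LES_m S i a
  have h2 : Module.Finite K (LinearMap.range (Emap S.g S.hg i a)) := Module.Finite.range _
  have h3 : Module.Finite K (E i M a ⧸ LinearMap.range (Emap S.g S.hg i a)) := by
    rw [h1]
    exact Module.Finite.equiv (LinearMap.quotKerEquivRange (Emap S.f S.hf i a)).symm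
  have h4 : Module.Finite K (E i M a) :=
    Module.Finite.of_submodule_quotient (LinearMap.range (Emap S.g S.hg i a))
  refine ⟨h4, ?_⟩
  have h5 := LinearMap.finrank_range_add_finrank_ker (Emap S.f S.hf i a)
  have h6 : finrank K (LinearMap.range (Emap S.f S.hf i a)) ≤ eE i L a := Submodule.finrank_le _
  have h7 : finrank K (LinearMap.ker (Emap S.f S.hf i a)) ≤ eE i N a := by
    rw [← h1]
    exact LinearMap.finrank_range_le _
  have h8 : eE i M a = finrank K (E i M a) := rfl
  omega

theorem GLf (fin : ∀ n, Module.Finite K (𝒜 n))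
    (conn : ∀ a ∈ 𝒜 0, ∃ c : K, a = algebraMap K A c) (nt : (1 : A) ≠ 0)
    (hf : ∀ i a, Module.Finite K (E i (TrivM 𝒜) a)) (h : ∀ i, FS (eE i (TrivM 𝒜)))
    (M : GM 𝒜) (hM : Module.Finite K M.X) : ∀ i, FS (eE i M) := by
  refine (Gi_ind (𝒜 := 𝒜) fin conn nt (p := fun M => (∀ i a, Module.Finite K (E i M a)) ∧
    ∀ i, FS (eE i M)) ?_ ?_ ?_ M hM).2
  · intro H hH
    have h1 : ∀ i a, Subsingleton (E i H a) := fun i a => Gl_sub H hH i a
    refine ⟨fun i a => ?_, fun i => ?_⟩
    · have := h1 i a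
      infer_instance
    · have h2 : Function.support (eE i H) = ∅ := by
        ext a
        simp only [Function.mem_support, ne_eq, Set.mem_empty_iff_false, iff_false, not_not]
        have := h1 i a
        exact finrank_zero_of_subsingleton
      show (Function.support (eE i H)).Finite
      rw [h2]
      exact Set.finite_empty
  · intro c
    have h1 : ∀ i a, Nonempty (E i (GM.pi (fun _ : Fin 1 => c) (TrivM 𝒜)) a ≃ₗ[K]
        (Fin 1 → E i (TrivM 𝒜) (c + a))) := fun i a => E_pi (fun _ : Fin 1 => c) (TrivM 𝒜) i a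
    refine ⟨fun i a => ?_, fun i => ?_⟩
    · obtain ⟨e⟩ := h1 i a
      have := hf i (c + a)
      exact Module.Finite.equiv e.symm
    · have h2 : ∀ a, eE i (GM.pi (fun _ : Fin 1 => c) (TrivM 𝒜)) a = eE i (TrivM 𝒜) (c + a) := by
        intro a
        obtain ⟨e⟩ := h1 i a
        have h3 : finrank K (Fin 1 → E i (TrivM 𝒜) (c + a)) = eE i (TrivM 𝒜) (c + a) :=
          LinearEquiv.finrank_eq (LinearEquiv.funUnique (Fin 1) K (E i (TrivM 𝒜) (c + a)))
        rw [← h3]
        exact LinearEquiv.finrank_eq e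
      have h4 : Function.support (eE i (GM.pi (fun _ : Fin 1 => c) (TrivM 𝒜)))
          = (fun a => c + a) ⁻¹' Function.support (eE i (TrivM 𝒜)) := by
        ext a
        rw [Function.mem_support, Set.mem_preimage, Function.mem_support, h2]
      show (Function.support _).Finite
      rw [h4]
      exact (h i).preimage (fun x _ y _ hxy => add_left_cancel hxy)
  · intro L M N S hL hN
    refine ⟨fun i a => (Gl_ses_fin S i a (hL.1 i a) (hN.1 i a)).1, fun i => ?_⟩
    refine ((hN.2 i).union (hL.2 i)).subset ?_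
    intro a ha
    have h1 := (Gl_ses_fin S i a (hL.1 i a) (hN.1 i a)).2
    rw [Function.mem_support] at ha
    by_cases h2 : eE i N a = 0
    · right
      rw [Function.mem_support]
      intro h3
      exact ha (by omega)
    · left
      exact h2

open CategoryTheory in
theorem GLp (fin : ∀ n, Module.Finite K (𝒜 n))
    (conn : ∀ a ∈ 𝒜 0, ∃ c : K, a = algebraMap K A c) (nt : (1 : A) ≠ 0) (n : ℕ)
    (h : HasProjectiveDimensionLT (ModuleCat.of A (TrivM 𝒜).X) n) (M : GM 𝒜)
    (hM : Module.Finite K M.X) : HasProjectiveDimensionLT (ModuleCat.of A M.X) n := by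
  refine Gi_ind (𝒜 := 𝒜) fin conn nt
    (p := fun M => HasProjectiveDimensionLT (ModuleCat.of A M.X) n) ?_ ?_ ?_ M hM
  · intro H hH
    have h0 : Limits.IsZero (ModuleCat.of A H.X) := ModuleCat.isZero_of_subsingleton _
    have h1 : HasProjectiveDimensionLT (ModuleCat.of A H.X) 0 := h0.hasProjectiveDimensionLT_zero
    exact hasProjectiveDimensionLT_of_ge _ 0 n (Nat.zero_le n)
  · intro c
    have e : ModuleCat.of A (TrivM 𝒜).X ≅
        ModuleCat.of A (GM.pi (fun _ : Fin 1 => c) (TrivM 𝒜)).X :=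
      (LinearEquiv.funUnique (Fin 1) A (TrivM 𝒜).X).symm.toModuleIso
    exact hasProjectiveDimensionLT_of_iso e n
  · intro L M N S hL hN
    have h1 : Function.Exact S.f S.g := by
      rw [LinearMap.exact_iff]
      exact S.ex.symm
    have h2 := ModuleCat.shortComplex_shortExact
      (ModuleCat.shortComplexOfCompEqZero S.f S.g h1.linearMap_comp_eq_zero) h1 S.inj S.surj
    exact h2.hasProjectiveDimensionLT_X₂ n hL hN

end Pool.Agent.NAS
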