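import Pool.Agent.Lib_helper19.NAS.Defs3

/-!
# Homogeneous Goldie theorem (MP_ef4bac_al, project NAS, block Go)
-/

set_option autoImplicit false

namespace Pool.Agent.NAS

open Module Filter Topology

universe u

section goldie

variable {K : Type*} [Field K] {A : Type*} [Ring A] [Algebra K A]
variable (𝒜 : ℕ → Submodule K A) [GradedAlgebra 𝒜]

/-- The left ideal of the `x` with `x s ∈ Q`. -/
def Go_lan (Q : Ideal A) (s : A) : Ideal A where
  carrier := {x | x * s ∈ Q}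
  add_mem' := by
    intro a b ha hb
    change (a + b) * s ∈ Q
    rw [add_mul]
    exact Q.add_mem ha hb
  zero_mem' := by
    change (0 : A) * s ∈ Q
    rw [zero_mul]
    exact Q.zero_mem
  smul_mem' := by
    intro c x hx
    change (c * x) * s ∈ Q
    rw [mul_assoc]
    exact Q.mul_mem_left c hx

theorem Go_mem_lan {Q : Ideal A} {s x : A} : x ∈ Go_lan Q s ↔ x * s ∈ Q := Iff.rfl

/-- The right ideal of the `y` with `J y ⊆ Q`. -/
def Go_ran (Q : Ideal A) [Q.IsTwoSided] (J : Set A) : Submodule Aᵐᵒᵖ A where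
  carrier := {y | ∀ x ∈ J, x * y ∈ Q}
  add_mem' := by
    intro a b ha hb x hx
    rw [mul_add]
    exact Q.add_mem (ha x hx) (hb x hx)
  zero_mem' := by
    intro x _
    rw [mul_zero]
    exact Q.zero_mem
  smul_mem' := by
    intro c y hy x hx
    change x * (y * MulOpposite.unop c) ∈ Q
    rw [← mul_assoc]
    exact Q.mul_mem_right _ (hy x hx)

theorem Go_mem_ran {Q : Ideal A} [Q.IsTwoSided] {J : Set A} {y : A} :
    y ∈ Go_ran Q J ↔ ∀ x ∈ J, x * y ∈ Q := Iff.rfl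

/-- `Go_lan Q s` is homogeneous. -/
theorem Go_lan_homog {Q : Ideal A} (hQ : Q.IsHomogeneous 𝒜) {s : A} {e : ℕ} (hs : s ∈ 𝒜 e) :
    (Go_lan Q s).IsHomogeneous 𝒜 := by
  intro i x hx
  rw [Go_mem_lan] at hx ⊢
  have h1 := DirectSum.coe_decompose_mul_add_of_right_mem 𝒜 (a := x) (i := i) hs
  rw [← h1]
  exact hQ _ hx

/-- From homogeneous `x` to all `x`. -/
theorem Go_all_of_homog {Q : Ideal A} {a b : A}
    (h : ∀ i, ∀ x ∈ 𝒜 i, a * x * b ∈ Q) (x : A) : a * x * b ∈ Q := by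
  classical
  rw [← DirectSum.sum_support_decompose 𝒜 x, Finset.mul_sum, Finset.sum_mul]
  exact Ideal.sum_mem _ fun i _ => h i _ (SetLike.coe_mem _)

/-- A left ideal with a homogeneous element outside `Q` contains a homogeneous element which is not
nilpotent modulo `Q`. -/
theorem Go_exists_nonnil [IsNoetherian Aᵐᵒᵖ A] {Q : Ideal A} [Q.IsTwoSided]
    (hprime : ∀ a b i j, a ∈ 𝒜 i → b ∈ 𝒜 j → (∀ x, a * x * b ∈ Q) → a ∈ Q ∨ b ∈ Q)
    (J : Ideal A) {a₀ : A} {e₀ : ℕ} (he₀ : a₀ ∈ 𝒜 e₀) (ha₀ : a₀ ∈ J) (hn : a₀ ∉ Q) :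
    ∃ e, ∃ a ∈ J, a ∈ 𝒜 e ∧ ∀ n : ℕ, a ^ n ∉ Q := by
  by_contra hcon
  push Not at hcon
  -- the set of right annihilators
  let T : Set (Submodule Aᵐᵒᵖ A) := {R | ∃ e, ∃ a ∈ J, a ∈ 𝒜 e ∧ a ∉ Q ∧ R = Go_ran Q {a}}
  have hT : T.Nonempty := ⟨Go_ran Q {a₀}, e₀, a₀, ha₀, he₀, hn, rfl⟩
  obtain ⟨R, hRT, hmax⟩ := (wellFounded_gt (α := Submodule Aᵐᵒᵖ A)).has_min T hT
  obtain ⟨e, a, haJ, hae, haQ, rfl⟩ := hRT
  have key : ∀ i, ∀ x ∈ 𝒜 i, a * x * a ∈ Q := by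
    intro i x hx
    by_cases hy : x * a ∈ Q
    · rw [mul_assoc]
      exact Q.mul_mem_left a hy
    · have hyJ : x * a ∈ J := J.mul_mem_left x haJ
      have hyh : x * a ∈ 𝒜 (i + e) := SetLike.GradedMul.mul_mem hx hae
      classical
      have hex : ∃ n : ℕ, (x * a) ^ n ∈ Q := by
        obtain ⟨n, hn⟩ := hcon (i + e) (x * a) hyJ hyh
        exact ⟨n, hn⟩
      set n := Nat.find hex with hndef
      have hn1 : (x * a) ^ n ∈ Q := Nat.find_spec hex
      have hn2 : n ≠ 0 := by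
        intro h0
        rw [h0, pow_zero] at hn1
        exact haQ (by
          have := Q.mul_mem_left a hn1
          rwa [mul_one] at this)
      have hn3 : n ≠ 1 := by
        intro h0
        rw [h0, pow_one] at hn1
        exact hy hn1
      obtain ⟨m, hm⟩ : ∃ m, n = m + 2 := ⟨n - 2, by omega⟩
      have hz : (x * a) ^ (m + 1) ∉ Q := Nat.find_min hex (by omega)
      have hz' : (x * a) ^ (m + 1) = ((x * a) ^ m * x) * a := by
        rw [pow_succ, mul_assoc]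
      have hzJ : (x * a) ^ (m + 1) ∈ J := by
        rw [hz']
        exact J.mul_mem_left _ haJ
      have hzh : (x * a) ^ (m + 1) ∈ 𝒜 ((m + 1) • (i + e)) := SetLike.pow_mem_graded _ hyh
      have hle : Go_ran Q {a} ≤ Go_ran Q {(x * a) ^ (m + 1)} := by
        intro w hw
        rw [Go_mem_ran] at hw ⊢
        intro z hzz
        rw [Set.mem_singleton_iff] at hzz
        subst hzz
        rw [hz', mul_assoc]
        exact Q.mul_mem_left _ (hw a rfl)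
      have heq : Go_ran Q {a} = Go_ran Q {(x * a) ^ (m + 1)} := by
        by_contra hne
        exact hmax _ ⟨_, _, hzJ, hzh, hz, rfl⟩ (lt_of_le_of_ne hle hne)
      have hmem : x * a ∈ Go_ran Q {(x * a) ^ (m + 1)} := by
        rw [Go_mem_ran]
        intro z hzz
        rw [Set.mem_singleton_iff] at hzz
        subst hzz
        rw [← pow_succ]
        rw [hm] at hn1
        exact hn1
      rw [← heq, Go_mem_ran] at hmem
      have := hmem a rfl
      rwa [← mul_assoc] at this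
  rcases hprime a a e e hae hae (Go_all_of_homog 𝒜 key) with h | h <;> exact haQ h

/-- Powers are eventually stable. -/
theorem Go_exists_stable_pow [IsNoetherianRing A] {Q : Ideal A} [Q.IsTwoSided] (a : A)
    (ha : ∀ n : ℕ, a ^ n ∉ Q) :
    ∃ k : ℕ, 0 < k ∧ ∀ x, x * (a ^ k * a ^ k) ∈ Q → x * a ^ k ∈ Q := by
  let f : ℕ →o Ideal A :=
    { toFun := fun n => Go_lan Q (a ^ n)
      monotone' := by
        refine monotone_nat_of_le_succ fun n x hx => ?_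
        rw [Go_mem_lan] at hx ⊢
        rw [pow_succ, ← mul_assoc]
        exact Q.mul_mem_right _ hx }
  obtain ⟨n, hn⟩ := monotone_stabilizes_iff_noetherian.2 (inferInstance : IsNoetherian A A) f
  refine ⟨n + 1, Nat.succ_pos n, fun x hx => ?_⟩
  rw [← pow_add] at hx
  have h1 : x ∈ f (n + 1 + (n + 1)) := hx
  rw [← hn _ (by omega)] at h1
  have h2 : x ∈ f (n + 1) := by
    rw [← hn _ (by omega)]
    exact h1
  exact h2

/-- **Graded Goldie theorem.** -/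
theorem Go_goldie [IsNoetherianRing A] [IsNoetherian Aᵐᵒᵖ A]
    (h0 : ∀ a ∈ 𝒜 0, ∃ c : K, a = algebraMap K A c)
    {Q : Ideal A} [Q.IsTwoSided] (hQh : Q.IsHomogeneous 𝒜) (hQ1 : (1 : A) ∉ Q)
    (hprime : ∀ a b i j, a ∈ 𝒜 i → b ∈ 𝒜 j → (∀ x, a * x * b ∈ Q) → a ∈ Q ∨ b ∈ Q)
    {I : Ideal A} (hI : I.IsHomogeneous 𝒜)
    (hess : ∀ J : Ideal A, J.IsHomogeneous 𝒜 → ¬ J ≤ Q → ¬ I ⊓ J ≤ Q) :
    ∃ e, ∃ s ∈ I, s ∈ 𝒜 e ∧ ∀ x, x * s ∈ Q → x ∈ Q := by
  classical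
  -- homogeneous elements outside `Q`
  have hex : ∀ J : Ideal A, J.IsHomogeneous 𝒜 → ¬ J ≤ Q → ∃ e, ∃ a ∈ J, a ∈ 𝒜 e ∧ a ∉ Q := by
    intro J hJ hJQ
    by_contra hcon
    push Not at hcon
    apply hJQ
    intro x hx
    rw [← DirectSum.sum_support_decompose 𝒜 x]
    exact Ideal.sum_mem _ fun i _ => hcon i _ (hJ i hx) (SetLike.coe_mem _)
  -- degree zero
  by_cases hdeg : ∃ a ∈ I, a ∈ 𝒜 0 ∧ a ∉ Q
  · obtain ⟨a, haI, ha0, haQ⟩ := hdeg
    obtain ⟨c, rfl⟩ := h0 a ha0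
    have hc : c ≠ 0 := by
      rintro rfl
      rw [map_zero] at haQ
      exact haQ Q.zero_mem
    refine ⟨0, algebraMap K A c, haI, ha0, fun x hx => ?_⟩
    have h1 : x = (x * algebraMap K A c) * algebraMap K A c⁻¹ := by
      rw [mul_assoc, ← map_mul, mul_inv_cancel₀ hc, map_one, mul_one]
    rw [h1]
    exact Q.mul_mem_right _ hx
  push Not at hdeg
  -- good elements
  let good : A → Prop := fun s => s ∈ I ∧ (∃ e, 0 < e ∧ s ∈ 𝒜 e) ∧ (∀ x, x * (s * s) ∈ Q → x * s ∈ Q)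
  have hgood : ∀ J : Ideal A, J.IsHomogeneous 𝒜 → ¬ J ≤ Q → ∃ b ∈ J, good b ∧ b * b ∉ Q := by
    intro J hJ hJQ
    have hIJ : (I ⊓ J).IsHomogeneous 𝒜 := by
      intro i x hx
      exact ⟨hI i hx.1, hJ i hx.2⟩
    obtain ⟨e₀, a₀, ha₀, he₀, hn₀⟩ := hex (I ⊓ J) hIJ (hess J hJ hJQ)
    obtain ⟨e, a, haIJ, hae, hnil⟩ := Go_exists_nonnil 𝒜 hprime (I ⊓ J) he₀ ha₀ hn₀
    obtain ⟨k, hk, hst⟩ := Go_exists_stable_pow a hnil
    have hmem : a ^ k ∈ I ⊓ J := by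
      obtain ⟨l, rfl⟩ : ∃ l, k = l + 1 := ⟨k - 1, by omega⟩
      rw [pow_succ]
      exact (I ⊓ J).mul_mem_left _ haIJ
    have he : 0 < e := by
      rcases Nat.eq_zero_or_pos e with h | h
      · exfalso
        subst h
        exact hnil 1 (by
          rw [pow_one]
          exact hdeg a haIJ.1 hae)
      · exact h
    refine ⟨a ^ k, hmem.2, ⟨hmem.1, ⟨k • e, ?_, SetLike.pow_mem_graded _ hae⟩, hst⟩, ?_⟩
    · rw [smul_eq_mul]
      exact Nat.mul_pos hk he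
    · rw [← pow_add]
      exact hnil _
  -- a good element with smallest left annihilator
  let T : Set (Submodule Aᵐᵒᵖ A) := {R | ∃ s, good s ∧ R = Go_ran Q (Go_lan Q s : Set A)}
  have hT : T.Nonempty := by
    have htop : ¬ (⊤ : Ideal A) ≤ Q := fun h => hQ1 (h Submodule.mem_top)
    obtain ⟨b, -, hb, -⟩ := hgood ⊤ (Ideal.IsHomogeneous.top 𝒜) htop
    exact ⟨_, b, hb, rfl⟩
  obtain ⟨R, hRT, hmax⟩ := (wellFounded_gt (α := Submodule Aᵐᵒᵖ A)).has_min T hT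
  obtain ⟨s, hs, rfl⟩ := hRT
  obtain ⟨hsI, ⟨e, he, hse⟩, hs2⟩ := hs
  by_cases hfin : Go_lan Q s ≤ Q
  · exact ⟨e, s, hsI, hse, fun x hx => hfin hx⟩
  exfalso
  obtain ⟨b, hbs, ⟨hbI, ⟨f, hf, hbf⟩, hb2⟩, hbb⟩ := hgood (Go_lan Q s) (Go_lan_homog 𝒜 hQh hse) hfin
  have hbs' : b * s ∈ Q := hbs
  -- stability of powers
  have hspow : ∀ n x, x * s ^ (n + 1) ∈ Q → x * s ∈ Q := by
    intro n
    induction n with
    | zero =>
      intro x hx
      rwa [zero_add, pow_one] at hx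
    | succ n ih =>
      intro x hx
      apply hs2
      have h1 : x * s ^ (n + 1 + 1) = (x * s) * s ^ (n + 1) := by
        rw [pow_succ' s (n + 1), mul_assoc]
      rw [h1] at hx
      have := ih _ hx
      rwa [mul_assoc] at this
  have hbpow : ∀ n x, x * b ^ (n + 1) ∈ Q → x * b ∈ Q := by
    intro n
    induction n with
    | zero =>
      intro x hx
      rwa [zero_add, pow_one] at hx
    | succ n ih =>
      intro x hx
      apply hb2
      have h1 : x * b ^ (n + 1 + 1) = (x * b) * b ^ (n + 1) := by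
        rw [pow_succ' b (n + 1), mul_assoc]
      rw [h1] at hx
      have := ih _ hx
      rwa [mul_assoc] at this
  obtain ⟨f', rfl⟩ : ∃ l, f = l + 1 := ⟨f - 1, by omega⟩
  obtain ⟨e', rfl⟩ : ∃ l, e = l + 1 := ⟨e - 1, by omega⟩
  set c : A := s ^ (f' + 1) + b ^ (e' + 1) with hc
  have hb_s : b ^ (e' + 1) * s ∈ Q := by
    rw [pow_succ, mul_assoc]
    exact Q.mul_mem_left _ hbs'
  -- the left annihilator of `c`
  have hcl : ∀ x, x * c ∈ Q → x * s ∈ Q ∧ x * b ∈ Q := by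
    intro x hx
    have h1 : x * (c * s) ∈ Q := by
      rw [← mul_assoc]
      exact Q.mul_mem_right _ hx
    have h2 : x * s ^ (f' + 1 + 1) ∈ Q := by
      have h3 : x * (c * s) = x * s ^ (f' + 1 + 1) + x * (b ^ (e' + 1) * s) := by
        rw [hc, add_mul, mul_add, ← pow_succ]
      rw [h3] at h1
      have h4 : x * (b ^ (e' + 1) * s) ∈ Q := Q.mul_mem_left x hb_s
      exact (Submodule.add_mem_iff_left Q h4).1 h1
    have h3 : x * s ∈ Q := hspow _ _ h2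
    refine ⟨h3, ?_⟩
    have h4 : x * s ^ (f' + 1) ∈ Q := by
      rw [pow_succ', ← mul_assoc]
      exact Q.mul_mem_right _ h3
    have h5 : x * b ^ (e' + 1) ∈ Q := by
      rw [hc, mul_add] at hx
      exact (Submodule.add_mem_iff_right Q h4).1 hx
    exact hbpow _ _ h5
  have hcl' : ∀ x, x * s ∈ Q → x * b ∈ Q → x * c ∈ Q := by
    intro x h1 h2
    rw [hc, mul_add]
    refine Q.add_mem ?_ ?_
    · rw [pow_succ', ← mul_assoc]
      exact Q.mul_mem_right _ h1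
    · rw [pow_succ', ← mul_assoc]
      exact Q.mul_mem_right _ h2
  have hcgood : good c := by
    refine ⟨?_, ⟨(f' + 1) * (e' + 1), Nat.mul_pos (Nat.succ_pos _) (Nat.succ_pos _), ?_⟩, ?_⟩
    · rw [hc]
      refine I.add_mem ?_ ?_
      · rw [pow_succ]
        exact I.mul_mem_left _ hsI
      · rw [pow_succ]
        exact I.mul_mem_left _ hbI
    · rw [hc]
      refine Submodule.add_mem _ ?_ ?_
      · have := SetLike.pow_mem_graded (f' + 1) hse
        rwa [smul_eq_mul] at this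
      · have := SetLike.pow_mem_graded (e' + 1) hbf
        rwa [smul_eq_mul, mul_comm] at this
    · intro x hx
      rw [← mul_assoc] at hx
      obtain ⟨h1, h2⟩ := hcl _ hx
      -- `x c s ∈ Q` and `x c b ∈ Q`
      have h3 : x * s ∈ Q := by
        have h4 : x * c * s = x * s ^ (f' + 1 + 1) + x * (b ^ (e' + 1) * s) := by
          rw [hc, mul_assoc, add_mul, mul_add, ← pow_succ]
        rw [h4] at h1
        have h5 : x * (b ^ (e' + 1) * s) ∈ Q := Q.mul_mem_left x hb_s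
        exact hspow _ _ ((Submodule.add_mem_iff_left Q h5).1 h1)
      have h4 : x * b ∈ Q := by
        have h5 : x * c * b = x * (s ^ (f' + 1) * b) + x * b ^ (e' + 1 + 1) := by
          rw [hc, mul_assoc, add_mul, mul_add, ← pow_succ]
        rw [h5] at h2
        have h6 : x * (s ^ (f' + 1) * b) ∈ Q := by
          rw [pow_succ', mul_assoc, ← mul_assoc]
          exact Q.mul_mem_right _ h3
        exact hbpow _ _ ((Submodule.add_mem_iff_right Q h6).1 h2)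
      exact hcl' x h3 h4
  have hle : Go_ran Q (Go_lan Q s : Set A) ≤ Go_ran Q (Go_lan Q c : Set A) := by
    intro y hy
    rw [Go_mem_ran] at hy ⊢
    intro x hx
    exact hy x (hcl x hx).1
  have heq : Go_ran Q (Go_lan Q s : Set A) = Go_ran Q (Go_lan Q c : Set A) := by
    by_contra hne
    exact hmax _ ⟨c, hcgood, rfl⟩ (lt_of_le_of_ne hle hne)
  have hcmem : c ∈ Go_ran Q (Go_lan Q c : Set A) := fun x hx => hx
  rw [← heq, Go_mem_ran] at hcmem
  have h1 : b * c ∈ Q := hcmem b hbs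
  exact hbb (hcl b h1).2

/-- From the opposite ring to right modules. -/
theorem Go_noeth_op {A : Type*} [Ring A] (nr : IsNoetherianRing Aᵐᵒᵖ) : IsNoetherian Aᵐᵒᵖ A := by
  let e : A ≃ₗ[Aᵐᵒᵖ] Aᵐᵒᵖ :=
    { toFun := MulOpposite.op
      invFun := MulOpposite.unop
      map_add' := fun _ _ => rfl
      map_smul' := fun _ _ => rfl
      left_inv := fun _ => rfl
      right_inv := fun _ => rfl }
  exact isNoetherian_of_linearEquiv e.symm

/-- **Graded Goldie theorem**, with left ideals containing `Q`. -/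
theorem Go_goldie2 {K A : Type*} [Field K] [Ring A] [Algebra K A] (𝒜 : ℕ → Submodule K A)
    [GradedAlgebra 𝒜] (nl : IsNoetherianRing A) (nr : IsNoetherianRing Aᵐᵒᵖ)
    (conn : ∀ a ∈ 𝒜 0, ∃ c : K, a = algebraMap K A c)
    (Q : Ideal A) (hQ : Q.IsHomogeneous 𝒜) (h2 : ∀ x ∈ Q, ∀ a, x * a ∈ Q) (hQ1 : (1 : A) ∉ Q)
    (prime : ∀ m n a b, a ∈ 𝒜 m → b ∈ 𝒜 n → (∀ x, a * x * b ∈ Q) → a ∈ Q ∨ b ∈ Q)
    (I : Ideal A) (hI : I.IsHomogeneous 𝒜) (hQI : Q ≤ I)
    (ess : ∀ J : Ideal A, J.IsHomogeneous 𝒜 → Q ≤ J → J ≠ Q → ∃ x ∈ I ⊓ J, x ∉ Q) :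
    ∃ n, ∃ s ∈ 𝒜 n, s ∈ I ∧ ∀ x, x * s ∈ Q → x ∈ Q := by
  have : Q.IsTwoSided := ⟨fun {a} b ha => h2 a ha b⟩
  have : IsNoetherian Aᵐᵒᵖ A := Go_noeth_op nr
  obtain ⟨e, s, hsI, hse, hs⟩ := Go_goldie 𝒜 conn hQ hQ1 (fun a b i j => prime i j a b) hI (by
    intro J hJ hJQ hle
    obtain ⟨x, ⟨hx1, hx2⟩, hxQ⟩ := ess (Q ⊔ J) (Ideal.IsHomogeneous.sup hQ hJ) le_sup_left (by
      intro h
      apply hJQ
      rw [← h]
      exact le_sup_right)
    obtain ⟨q, hq, j, hj, rfl⟩ := Submodule.mem_sup.1 hx2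
    have hjI : j ∈ I := by
      have := I.sub_mem hx1 (hQI hq)
      rwa [add_sub_cancel_left] at this
    exact hxQ (Q.add_mem hq (hle ⟨hjI, hj⟩)))
  exact ⟨e, s, hse, hsI, hs⟩

end goldie

section final

variable {K A : Type u} [Field K] [Ring A] [Algebra K A] {𝒜 : ℕ → Submodule K A}
  [GradedAlgebra 𝒜]

theorem Go_HI {Q : Ideal A} : HI 𝒜 Q ↔ Q.IsHomogeneous 𝒜 := by
  constructor
  · intro h i x hx
    have h1 := h (i : ℤ) x hx
    have h2 : (AsA 𝒜).pr (i : ℤ) x = (DirectSum.decompose 𝒜 x i : A) := prA_nat 𝒜 i x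
    rwa [h2] at h1
  · intro h n x hx
    rcases le_or_gt 0 n with h0 | h0
    · lift n to ℕ using h0
      have h2 : (AsA 𝒜).pr (n : ℤ) x = (DirectSum.decompose 𝒜 x n : A) := prA_nat 𝒜 n x
      rw [h2]
      exact h n hx
    · have h2 : (AsA 𝒜).pr n x = 0 := prA_neg 𝒜 h0 x
      rw [h2]
      exact zero_mem _

theorem G_goldie (nl : IsNoetherianRing A) (nr : IsNoetherianRing Aᵐᵒᵖ)
    (conn : ∀ a ∈ 𝒜 0, ∃ c : K, a = algebraMap K A c) (Q : Ideal A) (hQ : HI 𝒜 Q) (h2 : TS Q)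
    (hQ1 : (1 : A) ∉ Q)
    (prime : ∀ m n a b, a ∈ 𝒜 m → b ∈ 𝒜 n → (∀ x, a * x * b ∈ Q) → a ∈ Q ∨ b ∈ Q)
    (I : Ideal A) (hI : HI 𝒜 I) (hQI : Q ≤ I)
    (ess : ∀ J : Ideal A, HI 𝒜 J → Q ≤ J → J ≠ Q → ∃ x ∈ I ⊓ J, x ∉ Q) :
    ∃ n, ∃ s ∈ 𝒜 n, s ∈ I ∧ ∀ x, x * s ∈ Q → x ∈ Q :=
  Go_goldie2 𝒜 nl nr conn Q (Go_HI.1 hQ) h2 hQ1 prime I (Go_HI.1 hI) hQI
    (fun J hJ => ess J (Go_HI.2 hJ))

end final

end Pool.Agent.NAS
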