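import Pool.Agent.Lib_helper19.NAS.Defs3
import Pool.Agent.Lib_helper19.NAS.B.Tool

/-!
# Resolutions and projective dimension (MP_ef4bac_al, project NAS, block Rp)
-/

set_option autoImplicit false

namespace Pool.Agent.NAS

open Module Filter Topology

universe u

variable {K A : Type u} [Field K] [Ring A] [Algebra K A] {𝒜 : ℕ → Submodule K A}
  [GradedAlgebra 𝒜]

omit [Field K] [Algebra K A] [GradedAlgebra 𝒜] in
open CategoryTheory in
theorem Rp_step {X Y : Type u} [AddCommGroup X] [Module A X] [AddCommGroup Y] [Module A Y]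
    (hX : Module.Projective A X) (f : X →ₗ[A] Y) (hf : Function.Surjective f) (n : ℕ)
    (h : HasProjectiveDimensionLT (ModuleCat.of A (LinearMap.ker f)) n) :
    HasProjectiveDimensionLT (ModuleCat.of A Y) (n + 1) := by
  let S : ShortComplex (ModuleCat.{u} A) := f.shortComplexKer
  have hS : S.ShortExact := LinearMap.shortExact_shortComplexKer hf
  have h2 : HasProjectiveDimensionLT S.X₂ (n + 1) := by
    have : Projective S.X₂ := (IsProjective.iff_projective (R := A) X).1 hX
    have h6 : HasProjectiveDimensionLT S.X₂ 1 := inferInstance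
    exact hasProjectiveDimensionLT_of_ge _ 1 (n + 1) (by omega)
  exact hS.hasProjectiveDimensionLT_X₃ n h h2

omit [Field K] [Algebra K A] [GradedAlgebra 𝒜] in
open CategoryTheory in
theorem Rp_bot {X : Type u} [AddCommGroup X] [Module A X] (N : Submodule A X) (h : N = ⊥) :
    HasProjectiveDimensionLT (ModuleCat.of A N) 0 := by
  subst h
  exact (ModuleCat.isZero_of_subsingleton _).hasProjectiveDimensionLT_zero

omit [Field K] [Algebra K A] [GradedAlgebra 𝒜] in
open CategoryTheory in
/-- A submodule which is the image of a projective module. -/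
theorem Rp_range {X Y : Type u} [AddCommGroup X] [Module A X] [AddCommGroup Y] [Module A Y]
    (hX : Module.Projective A X) (f : X →ₗ[A] Y) (N : Submodule A Y) (hN : LinearMap.range f = N)
    (n : ℕ) (h : HasProjectiveDimensionLT (ModuleCat.of A (LinearMap.ker f)) n) :
    HasProjectiveDimensionLT (ModuleCat.of A N) (n + 1) := by
  subst hN
  refine Rp_step hX f.rangeRestrict f.surjective_rangeRestrict n ?_
  rw [LinearMap.ker_rangeRestrict]
  exact h

omit [Field K] [Algebra K A] [GradedAlgebra 𝒜] in
theorem Rp_zero {r : ℕ} (hr : r = 0) {Y : Type u} [AddCommGroup Y] [Module A Y]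
    (f : (Fin r → A) →ₗ[A] Y) : LinearMap.range f = ⊥ := by
  subst hr
  rw [eq_bot_iff]
  rintro _ ⟨x, rfl⟩
  rw [Subsingleton.elim x 0, map_zero]
  exact zero_mem _

open CategoryTheory in
theorem Rp_ker {P : MC 𝒜} {M : GM 𝒜} {d : ℕ} (R : Res P M d) (k : ℕ) :
    ∀ i, d ≤ i + 1 + k → HasProjectiveDimensionLT (ModuleCat.of A (LinearMap.ker (P.bd i))) k := by
  induction k with
  | zero =>
    intro i hi
    refine Rp_bot _ ?_
    rw [← R.ex i]
    exact Rp_zero (R.zero (i + 1 + 1) (by omega)) _
  | succ k ih =>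
    intro i hi
    exact Rp_range inferInstance (P.bd (i + 1)) _ (R.ex i) k (ih (i + 1) (by omega))

open CategoryTheory in
theorem RP (P : MC 𝒜) (M : GM 𝒜) (d : ℕ) (R : Res P M d) :
    HasProjectiveDimensionLT (ModuleCat.of A M.X) (d + 1) := by
  refine Rp_step (X := Fin (P.n 0) → A) inferInstance R.ε R.surj d ?_
  rcases d with _ | d
  · refine Rp_bot _ ?_
    rw [← R.ex0]
    exact Rp_zero (R.zero (0 + 1) (by omega)) _
  · exact Rp_range inferInstance (P.bd 0) _ R.ex0 d (Rp_ker R d 0 (by omega))

end Pool.Agent.NAS
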