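import Pool.Agent.Lib_helper19.NAS.Defs3
import Pool.Agent.Lib_helper19.NAS.B.Tool

/-!
# The resolution of the trivial right module (MP_ef4bac_al, project NAS, block Tr)
-/

set_option autoImplicit false

namespace Pool.Agent.NAS

open Module Filter Topology

universe u

section one

variable {K A : Type u} [Field K] [Ring A] [Algebra K A] {𝒜 : ℕ → Submodule K A}
  [GradedAlgebra 𝒜]

/-- Multiplication of an element of degree `0`. -/
theorem Tr_prsmul {M : GM 𝒜} {v : M.X} (hv : v ∈ M.dg 0) (a : A) (n : ℤ) :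
    M.pr n (a • v) = prA 𝒜 n a • v := by
  refine GM.induct (M := AsA 𝒜) (P := fun a => M.pr n (a • v) = prA 𝒜 n a • v) a ?_ ?_ ?_
  · simp
  · intro x y hx hy
    rw [add_smul, map_add, hx, hy, map_add, add_smul]
  · intro m x hx
    have hx' : x ∈ hA 𝒜 m := prA_dg.1 hx
    have h1 : x • v ∈ M.dg (m + 0) := GM.smul_mem_dg hx' hv
    rw [add_zero] at h1
    by_cases hnm : n = m
    · subst hnm
      rw [prA_of_mem hx', GM.pr_dg h1]
    · have h2 : prA 𝒜 n x = 0 := GM.pr_dg_ne hx hnm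
      rw [h2, zero_smul, GM.pr_dg_ne h1 hnm]

theorem Tr_irr (a : A) :
    a ∈ (HomogeneousIdeal.irrelevant 𝒜).toIdeal ↔ prA 𝒜 0 a = 0 := by
  have h1 : prA 𝒜 ((0 : ℕ) : ℤ) a = (DirectSum.decompose 𝒜 a 0 : A) := prA_nat 𝒜 0 a
  rw [HomogeneousIdeal.mem_iff, HomogeneousIdeal.mem_irrelevant_iff, GradedRing.proj_apply, ← h1]
  rfl

/-- A graded module with one-dimensional quotient in degree `0`. -/
theorem Tr_one (conn : ∀ a ∈ 𝒜 0, ∃ c : K, a = algebraMap K A c) {M : GM 𝒜}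
    (N : Submodule A M.X) (hN : M.Hom N) (h0 : finrank K ((M.quo N hN).dg 0) = 1)
    (h1 : ∀ a, a ≠ 0 → ∀ x ∈ M.dg a, x ∈ N) :
    ∃ ε : M.X →ₗ[A] (TrivM 𝒜).X, ε ∈ Hm M (TrivM 𝒜) 0 ∧ Function.Surjective ε ∧
      LinearMap.ker ε = N := by
  have hq : ∀ n, n ≠ 0 → ∀ y : (M.quo N hN).X, (M.quo N hN).pr n y = 0 := by
    intro n hn y
    obtain ⟨x, rfl⟩ := Submodule.Quotient.mk_surjective N y
    rw [GM.quo_pr]
    exact (Submodule.Quotient.mk_eq_zero N).2 (h1 n hn _ (M.pr_mem n x))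
  have hq0 : ∀ y : (M.quo N hN).X, (M.quo N hN).pr 0 y = y := by
    intro y
    refine GM.induct (M := M.quo N hN) (P := fun y => (M.quo N hN).pr 0 y = y) y ?_ ?_ ?_
    · exact map_zero _
    · intro x y hx hy
      rw [map_add, hx, hy]
    · intro n y hy
      by_cases hn : n = 0
      · subst hn
        exact GM.pr_dg hy
      · have h2 : y = 0 := by
          rw [← GM.pr_dg hy]
          exact hq n hn y
        rw [h2, map_zero]
  obtain ⟨v, hv, hvs⟩ := finrank_eq_one_iff'.1 h0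
  have hv0 : v.1 ≠ 0 := fun h => hv (Subtype.ext h)
  have hs : ∀ y : (M.quo N hN).X, ∃ c : K, c • v.1 = y := by
    intro y
    obtain ⟨c, hc⟩ := hvs ⟨y, (GM.mem_dg).2 (hq0 y)⟩
    exact ⟨c, congrArg Subtype.val hc⟩
  have hpr : ∀ a : A, prA 𝒜 0 a • v.1 = a • v.1 := by
    intro a
    rw [← Tr_prsmul v.2 a 0, hq0]
  have hc : ∀ a : A, ∃ c : K, prA 𝒜 0 a = algebraMap K A c := by
    intro a
    refine conn _ ?_
    have h2 := prA_mem (𝒜 := 𝒜) 0 a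
    have h3 : hA 𝒜 (0 : ℤ) = 𝒜 0 := hA_nat 0
    rwa [h3] at h2
  have hker : (HomogeneousIdeal.irrelevant 𝒜).toIdeal =
      LinearMap.ker (LinearMap.toSpanSingleton A (M.quo N hN).X v.1) := by
    ext a
    rw [Tr_irr, LinearMap.mem_ker, LinearMap.toSpanSingleton_apply, ← hpr]
    constructor
    · intro h
      rw [h, zero_smul]
    · intro h
      obtain ⟨c, hc⟩ := hc a
      rw [hc, algebraMap_smul] at h
      rcases smul_eq_zero.1 h with h2 | h2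
      · rw [hc, h2, map_zero]
      · exact absurd h2 hv0
  have hsur : Function.Surjective (LinearMap.toSpanSingleton A (M.quo N hN).X v.1) := by
    intro y
    obtain ⟨c, hc⟩ := hs y
    refine ⟨algebraMap K A c, ?_⟩
    rw [LinearMap.toSpanSingleton_apply, algebraMap_smul]
    exact hc
  let e : (TrivM 𝒜).X ≃ₗ[A] (M.quo N hN).X :=
    (Submodule.quotEquivOfEq _ _ hker).trans
      (LinearMap.quotKerEquivOfSurjective (LinearMap.toSpanSingleton A (M.quo N hN).X v.1) hsur)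
  have he : ∀ a : A, e (Submodule.Quotient.mk a) = a • v.1 := fun a => rfl
  refine ⟨e.symm.toLinearMap ∘ₗ N.mkQ, ?_, ?_, ?_⟩
  · intro n x
    obtain ⟨z, hz⟩ := e.surjective (N.mkQ x)
    obtain ⟨a, rfl⟩ := Submodule.Quotient.mk_surjective _ z
    have h2 : e.symm (N.mkQ x) = Submodule.Quotient.mk a := by
      rw [← hz]
      exact e.symm_apply_apply _
    have h3 : N.mkQ (M.pr n x) = e (Submodule.Quotient.mk (prA 𝒜 n a)) := by
      rw [he, ← Tr_prsmul v.2 a n, ← he, hz]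
      rfl
    rw [add_zero]
    show e.symm (N.mkQ (M.pr n x)) = (TrivM 𝒜).pr n (e.symm (N.mkQ x))
    rw [h2, h3]
    exact e.symm_apply_apply _
  · exact e.symm.surjective.comp (Submodule.mkQ_surjective N)
  · rw [LinearMap.ker_comp, LinearEquiv.ker, Submodule.comap_bot, Submodule.ker_mkQ]

end one

section tp

variable {K A : Type u} [Field K] [Ring A] [Algebra K A] {𝒜 : ℕ → Submodule K A}

/-- The shifted transposed complex. -/
@[reducible] def Tr_P (P : MC 𝒜) (d : ℕ) (hP : ∀ i, d < i → P.n i = 0) (c : ℤ) : MC (opG 𝒜) :=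
  { P.tr d hP with
    w := fun i t => c - P.w (nu d i) t
    deg := fun i j s t => by
      have h1 : c - P.w (nu d i) s - (c - P.w (nu d j) t)
          = - P.w (nu d i) s - - P.w (nu d j) t := by ring
      rw [h1]
      exact (P.tr d hP).deg i j s t }

/-- The cochain maps with general indices. -/
def Tr_c (P : MC 𝒜) (i j : ℕ) : (Fin (P.n j) → A) →ₗ[K] (Fin (P.n i) → A) where
  toFun m s := ∑ t, P.D i j s t * m t
  map_add' m m' := by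
    funext s
    simp [mul_add, Finset.sum_add_distrib]
  map_smul' c m := by
    funext s
    simp [Finset.smul_sum]

theorem Tr_c_apply (P : MC 𝒜) (i j : ℕ) (m : Fin (P.n j) → A) (s : Fin (P.n i)) :
    Tr_c P i j m s = ∑ t, P.D i j s t * m t := rfl

/-- The chain maps with general indices. -/
def Tr_b (P : MC 𝒜) (i j : ℕ) (x : Fin (P.n i) → A) (t : Fin (P.n j)) : A :=
  ∑ s, x s * P.D i j s t

/-- The identification with the opposite algebra. -/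
def Tr_u (K A : Type u) [Field K] [Ring A] [Algebra K A] (r : ℕ) :
    (Fin r → Aᵐᵒᵖ) ≃ₗ[K] (Fin r → A) :=
  LinearEquiv.piCongrRight fun _ => (MulOpposite.opLinearEquiv K).symm

theorem Tr_u_apply {r : ℕ} (x : Fin r → Aᵐᵒᵖ) (t : Fin r) : Tr_u K A r x t = (x t).unop := rfl

theorem Tr_bd (P : MC 𝒜) (d : ℕ) (hP : ∀ i, d < i → P.n i = 0) (c : ℤ) (i : ℕ)
    (x : Fin (P.n (nu d (i + 1))) → Aᵐᵒᵖ) :
    Tr_u K A (P.n (nu d i)) ((Tr_P P d hP c).bd i x)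
      = Tr_c P (nu d i) (nu d (i + 1)) (Tr_u K A _ x) := by
  funext t
  show MulOpposite.unop (∑ s, x s * MulOpposite.op (P.D (nu d i) (nu d (i + 1)) t s)) = _
  rw [Finset.unop_sum]
  rfl

theorem Tr_bdbd (P : MC 𝒜) (i : ℕ) (x : Fin (P.n (i + 2)) → A) :
    P.bd i (P.bd (i + 1) x) = 0 := by
  funext t
  show ∑ s, (∑ r, x r * P.D (i + 2) (i + 1) r s) * P.D (i + 1) i s t = 0
  simp only [Finset.sum_mul, mul_assoc]
  rw [Finset.sum_comm]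
  refine Finset.sum_eq_zero fun r _ => ?_
  rw [← Finset.mul_sum, P.DD, mul_zero]

theorem Tr_zero {r : ℕ} (hr : r = 0) {B : Type u} [Zero B] (x : Fin r → B) : x = 0 := by
  subst hr
  exact Subsingleton.elim _ _

variable [GradedAlgebra 𝒜]

theorem Tr_cod (P : MC 𝒜) (d : ℕ) (hP : ∀ i, d < i → P.n i = 0) (c : ℤ) (i : ℕ)
    (x : Fin (P.n (nu d i)) → Aᵐᵒᵖ) :
    Tr_u K A (P.n (nu d (i + 1))) ((Tr_P P d hP c).cod (AsA (opG 𝒜)) i x)
      = Tr_b P (nu d i) (nu d (i + 1)) (Tr_u K A _ x) := by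
  funext t
  show MulOpposite.unop (∑ s, MulOpposite.op (P.D (nu d i) (nu d (i + 1)) s t) * x s) = _
  rw [Finset.unop_sum]
  rfl

theorem Tr_dg {n : ℤ} {x : Aᵐᵒᵖ} : x ∈ (AsA (opG 𝒜)).dg n ↔ x.unop ∈ (AsA 𝒜).dg n := by
  rw [prA_dg, prA_dg, mem_hA_opG]

/-- The component of a cochain. -/
noncomputable def Tr_pr (P : MC 𝒜) (j : ℕ) (b : ℤ) (x : Fin (P.n j) → A) : Fin (P.n j) → A :=
  fun t => prA 𝒜 (P.w j t + b) (x t)

/-- The cochain maps respect the components. -/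
theorem Tr_cpr (P : MC 𝒜) (i j : ℕ) (b : ℤ) (m : Fin (P.n j) → A) :
    Tr_c P i j (Tr_pr P j b m) = Tr_pr P i b (Tr_c P i j m) := by
  funext s
  unfold Tr_pr
  rw [Tr_c_apply, Tr_c_apply, map_sum]
  refine Finset.sum_congr rfl fun t _ => ?_
  have h1 := (AsA 𝒜).pr_smul _ _ (P.deg i j s t) (P.w j t + b) (m t)
  have h2 : P.w i s - P.w j t + (P.w j t + b) = P.w i s + b := by ring
  rw [h2] at h1
  exact h1.symm

theorem Tr_mem_Cc (P : MC 𝒜) {j : ℕ} {b : ℤ} {y : Fin (P.n j) → A} :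
    y ∈ P.Cc (AsA 𝒜) j b ↔ ∀ t, y t ∈ (AsA 𝒜).dg (P.w j t + b) :=
  ⟨fun h t => h t (Set.mem_univ t), fun h _ _ => h _⟩

theorem Tr_pr_mem (P : MC 𝒜) (j : ℕ) (b : ℤ) (x : Fin (P.n j) → A) :
    Tr_pr P j b x ∈ P.Cc (AsA 𝒜) j b :=
  (Tr_mem_Cc P).2 fun _ => (AsA 𝒜).pr_mem _ _

theorem Tr_pr_of (P : MC 𝒜) (j : ℕ) (b : ℤ) (x : Fin (P.n j) → A)
    (hx : x ∈ P.Cc (AsA 𝒜) j b) : Tr_pr P j b x = x := by
  funext t
  exact GM.pr_dg ((Tr_mem_Cc P).1 hx t)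

theorem Tr_Z (P : MC 𝒜) {i : ℕ} {a : ℤ} (h : Subsingleton (P.SH (AsA 𝒜) i a)) :
    ∀ x ∈ P.Zc (AsA 𝒜) i a, x ∈ P.Bc (AsA 𝒜) i a := by
  intro x hx
  have h1 := Submodule.Quotient.subsingleton_iff.1 h
  have h2 : (⟨x, hx⟩ : P.Zc (AsA 𝒜) i a) ∈ (P.Bc (AsA 𝒜) i a).submoduleOf (P.Zc (AsA 𝒜) i a) := by
    rw [h1]
    exact Submodule.mem_top
  exact h2

theorem Tr_mem_Zc (P : MC 𝒜) {i j : ℕ} (hj : j = i + 1) (b : ℤ) (y : Fin (P.n i) → A) :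
    y ∈ P.Zc (AsA 𝒜) i b ↔ y ∈ P.Cc (AsA 𝒜) i b ∧ Tr_c P j i y = 0 := by
  subst hj
  exact Iff.rfl

theorem Tr_mem_Bc (P : MC 𝒜) {i j : ℕ} (hj : j = i + 1) (b : ℤ) (y : Fin (P.n j) → A) :
    y ∈ P.Bc (AsA 𝒜) j b ↔ ∃ z ∈ P.Cc (AsA 𝒜) i b, Tr_c P j i z = y := by
  subst hj
  exact Iff.rfl

theorem Tr_mem_Bc0 (P : MC 𝒜) {j : ℕ} (hj : j = 0) (b : ℤ) (y : Fin (P.n j) → A) :
    y ∈ P.Bc (AsA 𝒜) j b ↔ y = 0 := by
  subst hj
  exact Iff.rfl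

/-- The decomposition of a cochain. -/
theorem Tr_dec (P : MC 𝒜) (j : ℕ) (x : Fin (P.n j) → A) :
    ∃ s : Finset ℤ, ∑ b ∈ s, Tr_pr P j b x = x := by
  obtain ⟨s, hs⟩ := (GM.pi (fun t => - P.w j t) (AsA 𝒜)).pr_sum x
  refine ⟨s, Eq.trans (Finset.sum_congr rfl fun b _ => ?_) hs⟩
  funext t
  show prA 𝒜 (P.w j t + b) (x t) = prA 𝒜 (b - - P.w j t) (x t)
  congr 2
  ring

theorem Tr_exc (P : MC 𝒜) {i j k : ℕ} (hj : j = i + 1) (hk : k = j + 1)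
    (h : ∀ a, Subsingleton (P.SH (AsA 𝒜) j a)) (x : Fin (P.n j) → A)
    (hx : Tr_c P k j x = 0) : ∃ z, Tr_c P j i z = x := by
  classical
  obtain ⟨s, hs⟩ := Tr_dec P j x
  have h1 : ∀ b, ∃ z, Tr_c P j i z = Tr_pr P j b x := by
    intro b
    have h2 : Tr_pr P j b x ∈ P.Zc (AsA 𝒜) j b := by
      rw [Tr_mem_Zc P hk]
      refine ⟨Tr_pr_mem P j b x, ?_⟩
      rw [Tr_cpr, hx]
      funext t
      exact map_zero _
    obtain ⟨z, _, hz⟩ := (Tr_mem_Bc P hj b _).1 (Tr_Z P (h b) _ h2)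
    exact ⟨z, hz⟩
  choose z hz using h1
  refine ⟨∑ b ∈ s, z b, ?_⟩
  rw [map_sum, ← hs]
  exact Finset.sum_congr rfl fun b _ => hs.symm ▸ hz b

theorem Tr_exc0 (P : MC 𝒜) {j k : ℕ} (hj : j = 0) (hk : k = j + 1)
    (h : ∀ a, Subsingleton (P.SH (AsA 𝒜) j a)) (x : Fin (P.n j) → A)
    (hx : Tr_c P k j x = 0) : x = 0 := by
  classical
  obtain ⟨s, hs⟩ := Tr_dec P j x
  rw [← hs]
  refine Finset.sum_eq_zero fun b _ => ?_
  have h2 : Tr_pr P j b x ∈ P.Zc (AsA 𝒜) j b := by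
    rw [Tr_mem_Zc P hk]
    refine ⟨Tr_pr_mem P j b x, ?_⟩
    rw [Tr_cpr, hx]
    funext
    exact map_zero _
  exact (Tr_mem_Bc0 P hj b _).1 (Tr_Z P (h b) _ h2)

/-- Exactness of the chain complex in the homogeneous components. -/
theorem Tr_exb {P : MC 𝒜} {M : GM 𝒜} {d : ℕ} (R : Res P M d) {i j k : ℕ} (hj : i = j + 1)
    (hk : k = i + 1) (y : Fin (P.n i) → A) (hy : Tr_b P i j y = 0) (b : ℤ)
    (hb : ∀ t, y t ∈ (AsA 𝒜).dg (b - P.w i t)) :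
    ∃ z : Fin (P.n k) → A, (∀ s, z s ∈ (AsA 𝒜).dg (b - P.w k s)) ∧ Tr_b P k i z = y := by
  subst hj
  subst hk
  have h1 : y ∈ LinearMap.ker (P.bd j) := hy
  rw [← R.ex j] at h1
  obtain ⟨z, hz⟩ := h1
  refine ⟨(Fre 𝒜 (P.w (j + 1 + 1))).pr b z, fun s => (AsA 𝒜).pr_mem _ _, ?_⟩
  have h2 := P.bd_mem (j + 1) b z
  rw [hz, add_zero] at h2
  refine Eq.trans h2 ?_
  funext t
  exact GM.pr_dg (hb t)

theorem Tr_triv {n : ℤ} (hn : n ≠ 0) {x : (TrivM 𝒜).X} (hx : x ∈ (TrivM 𝒜).dg n) : x = 0 := by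
  rw [← GM.pr_dg hx]
  obtain ⟨a, rfl⟩ := Submodule.Quotient.mk_surjective _ x
  have h1 : prA 𝒜 n a ∈ (HomogeneousIdeal.irrelevant 𝒜).toIdeal := by
    rw [Tr_irr]
    exact (AsA 𝒜).pr_ne 0 n a (Ne.symm hn)
  exact (Submodule.Quotient.mk_eq_zero _).2 h1

theorem Tr_exb0 {P : MC 𝒜} {d : ℕ} (R : Res P (TrivM 𝒜) d) {i k : ℕ} (hi : i = 0)
    (hk : k = i + 1) (y : Fin (P.n i) → A) (b : ℤ) (hb0 : b ≠ 0)
    (hb : ∀ t, y t ∈ (AsA 𝒜).dg (b - P.w i t)) :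
    ∃ z : Fin (P.n k) → A, (∀ s, z s ∈ (AsA 𝒜).dg (b - P.w k s)) ∧ Tr_b P k i z = y := by
  subst hi
  subst hk
  have h0 : y ∈ (Fre 𝒜 (P.w 0)).dg b := by
    rw [GM.mem_dg]
    funext t
    exact GM.pr_dg (hb t)
  have h3 := Hm_dg R.hε h0
  rw [add_zero] at h3
  have h1 : y ∈ LinearMap.ker R.ε := Tr_triv hb0 h3
  rw [← R.ex0] at h1
  obtain ⟨z, hz⟩ := h1
  refine ⟨(Fre 𝒜 (P.w 1)).pr b z, fun s => (AsA 𝒜).pr_mem _ _, ?_⟩
  have h2 := P.bd_mem 0 b z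
  rw [hz, add_zero] at h2
  refine Eq.trans h2 ?_
  funext t
  exact GM.pr_dg (hb t)

/-- The two descriptions of the boundaries at the end of the complex. -/
theorem Tr_N1 (P : MC 𝒜) (d : ℕ) (hP : ∀ i, d < i → P.n i = 0) (c b : ℤ)
    (x : Fin (P.n (nu d 0)) → Aᵐᵒᵖ) (hx : Tr_u K A _ x ∈ P.Bc (AsA 𝒜) (nu d 0) b) :
    x ∈ LinearMap.range ((Tr_P P d hP c).bd 0) := by
  rcases Nat.eq_zero_or_pos d with hd | hd
  · have h0 : nu d 0 = 0 := by rw [nu_le d 0 (by omega), hd]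
    have h1 := (Tr_mem_Bc0 P h0 b _).1 hx
    rw [(LinearEquiv.map_eq_zero_iff (Tr_u K A (P.n (nu d 0)))).1 h1]
    exact zero_mem _
  · have h0 : nu d 0 = nu d 1 + 1 := by
      rw [nu_le d 0 (by omega), nu_le d 1 (by omega)]
      omega
    obtain ⟨z, _, hz⟩ := (Tr_mem_Bc P h0 b _).1 hx
    refine ⟨(Tr_u K A (P.n (nu d 1))).symm z, (Tr_u K A (P.n (nu d 0))).injective ?_⟩
    exact ((Tr_bd P d hP c 0 _).trans (congrArg (Tr_c P (nu d 0) (nu d 1))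
      (LinearEquiv.apply_symm_apply (Tr_u K A (P.n (nu d 1))) z))).trans hz

theorem Tr_N2 (P : MC 𝒜) (d : ℕ) (hP : ∀ i, d < i → P.n i = 0) (c b : ℤ)
    (x : Fin (P.n (nu d 0)) → Aᵐᵒᵖ) (hx : Tr_u K A _ x ∈ P.Cc (AsA 𝒜) (nu d 0) b)
    (hN : x ∈ LinearMap.range ((Tr_P P d hP c).bd 0)) :
    Tr_u K A _ x ∈ P.Bc (AsA 𝒜) (nu d 0) b := by
  obtain ⟨w, hw⟩ := hN
  have h2 : Tr_u K A _ x = Tr_c P (nu d 0) (nu d 1) (Tr_u K A _ w) := by
    rw [← hw]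
    exact Tr_bd P d hP c 0 w
  rcases Nat.eq_zero_or_pos d with hd | hd
  · have h0 : P.n (nu d 1) = 0 := hP _ (by rw [nu_zero d 1 (by omega)]; omega)
    have h3 : Tr_u K A (P.n (nu d 1)) w = 0 := Tr_zero h0 _
    rw [h2, h3, map_zero]
    exact zero_mem _
  · have h0 : nu d 0 = nu d 1 + 1 := by
      rw [nu_le d 0 (by omega), nu_le d 1 (by omega)]
      omega
    rw [Tr_mem_Bc P h0 b]
    refine ⟨Tr_pr P (nu d 1) b (Tr_u K A _ w), Tr_pr_mem P _ _ _, ?_⟩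
    rw [Tr_cpr]
    have h4 := Tr_pr_of P _ b _ hx
    rwa [h2] at h4 ⊢

theorem Tr_fin (fin : ∀ n, Module.Finite K (𝒜 n)) (P : MC 𝒜) (i : ℕ) (b : ℤ) :
    Module.Finite K (P.Cc (AsA 𝒜) i b) := by
  have h1 : ∀ n, Module.Finite K ((AsA 𝒜).dg n) := by
    intro n
    have h2 : (AsA 𝒜).dg n = hA 𝒜 n := Submodule.ext fun x => prA_dg
    rw [h2]
    rcases le_or_gt 0 n with h | h
    · lift n to ℕ using h
      rw [hA_nat]
      exact fin n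
    · rw [hA_neg h]
      infer_instance
  have h3 : Function.Injective (LinearMap.pi (fun t : Fin (P.n i) =>
      ((LinearMap.proj t).comp (P.Cc (AsA 𝒜) i b).subtype).codRestrict
        ((AsA 𝒜).dg (P.w i t + b)) (fun x => (Tr_mem_Cc P).1 x.2 t))) := by
    intro x y h
    refine Subtype.ext (funext fun t => ?_)
    exact congrArg Subtype.val (congrFun h t)
  exact Module.Finite.of_injective _ h3

theorem Tr_sub (fin : ∀ n, Module.Finite K (𝒜 n)) (P : MC 𝒜) (i : ℕ) (b : ℤ)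
    (h : P.sh (AsA 𝒜) i b = 0) : Subsingleton (P.SH (AsA 𝒜) i b) := by
  have h1 := Tr_fin fin P i b
  have h2 : Module.Finite K (P.Zc (AsA 𝒜) i b) := Submodule.finiteDimensional_of_le inf_le_left
  have h3 : Module.Finite K (P.SH (AsA 𝒜) i b) := inferInstance
  exact Module.finrank_zero_iff.1 h

end tp

section main

variable {K A : Type u} [Field K] [Ring A] [Algebra K A] {𝒜 : ℕ → Submodule K A}
  [GradedAlgebra 𝒜]

theorem Tr_uCc (P : MC 𝒜) (i : ℕ) (c a : ℤ) (x : Fin (P.n i) → Aᵐᵒᵖ) :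
    (∀ t, x t ∈ (AsA (opG 𝒜)).dg (a - (c - P.w i t))) ↔
      Tr_u K A (P.n i) x ∈ P.Cc (AsA 𝒜) i (a - c) := by
  rw [Tr_mem_Cc]
  refine forall_congr' fun t => ?_
  have h2 : a - (c - P.w i t) = P.w i t + (a - c) := by ring
  rw [Tr_u_apply, ← Tr_dg, h2]

theorem Tr_Fre {r : ℕ} (w : Fin r → ℤ) (a : ℤ) (x : Fin r → A) :
    x ∈ (Fre 𝒜 w).dg a ↔ ∀ t, x t ∈ (AsA 𝒜).dg (a - w t) := by
  constructor
  · intro h t
    exact GM.mem_dg.2 (congrFun (GM.pr_dg h) t)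
  · intro h
    exact GM.mem_dg.2 (funext fun t => GM.pr_dg (h t))

theorem Tr_hom (P : MC 𝒜) (d : ℕ) (hP : ∀ i, d < i → P.n i = 0) (c : ℤ) :
    (Fre (opG 𝒜) ((Tr_P P d hP c).w 0)).Hom
      (LinearMap.range ((Tr_P P d hP c).bd 0)) := range_hom ((Tr_P P d hP c).bd_mem 0)

theorem Tr_ZC (P : MC 𝒜) (i : ℕ) (h : P.n (i + 1) = 0) (b : ℤ) (y : Fin (P.n i) → A)
    (hy : y ∈ P.Cc (AsA 𝒜) i b) : y ∈ P.Zc (AsA 𝒜) i b :=
  (Tr_mem_Zc P rfl b y).2 ⟨hy, Tr_zero h _⟩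

theorem Tr_h1 (fin : ∀ n, Module.Finite K (𝒜 n)) (P : MC 𝒜) (d : ℕ)
    (hP : ∀ i, d < i → P.n i = 0) (a0 : ℤ)
    (ha0 : ∀ a, P.sh (AsA 𝒜) (nu d 0) a = if a = a0 then 1 else 0) (a : ℤ) (ha : a ≠ 0)
    (x : Fin (P.n (nu d 0)) → Aᵐᵒᵖ)
    (hx : ∀ t, x t ∈ (AsA (opG 𝒜)).dg (a - (-a0 - P.w (nu d 0) t))) :
    x ∈ LinearMap.range ((Tr_P P d hP (- a0)).bd 0) := by
  have e0 : nu d 0 = d := by rw [nu_le d 0 (by omega)]; omega
  have h2 : P.sh (AsA 𝒜) (nu d 0) (a - - a0) = 0 := by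
    rw [ha0, if_neg (by omega)]
  refine Tr_N1 P d hP _ (a - - a0) x (Tr_Z P (Tr_sub fin P _ _ h2) _ ?_)
  exact Tr_ZC P _ (hP _ (by omega)) _ _ ((Tr_uCc P _ _ _ x).1 hx)

theorem Tr_h0 (P : MC 𝒜) (d : ℕ)
    (hP : ∀ i, d < i → P.n i = 0) (a0 : ℤ)
    (ha0 : ∀ a, P.sh (AsA 𝒜) (nu d 0) a = if a = a0 then 1 else 0) :
    finrank K (((Fre (opG 𝒜) ((Tr_P P d hP (- a0)).w 0)).quo _
      (Tr_hom P d hP (- a0))).dg 0) = 1 := by
  have e0 : nu d 0 = d := by rw [nu_le d 0 (by omega)]; omega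
  have e1 : (0 : ℤ) - - a0 = a0 := by ring
  let N := LinearMap.range ((Tr_P P d hP (- a0)).bd 0)
  let M := Fre (opG 𝒜) ((Tr_P P d hP (- a0)).w 0)
  let ψ : P.Zc (AsA 𝒜) (nu d 0) a0 →ₗ[K] (M.quo N (Tr_hom P d hP (- a0))).X :=
    ((N.mkQ).restrictScalars K) ∘ₗ (Tr_u K A (P.n (nu d 0))).symm.toLinearMap ∘ₗ
      (P.Zc (AsA 𝒜) (nu d 0) a0).subtype
  have hψ : ∀ y, ψ y = Submodule.Quotient.mk ((Tr_u K A (P.n (nu d 0))).symm y.1) := fun _ => rfl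
  have hu : ∀ y : P.Zc (AsA 𝒜) (nu d 0) a0, (Tr_u K A (P.n (nu d 0))).symm y.1 ∈ M.dg 0 := by
    intro y
    refine (Tr_Fre _ _ _).2 ?_
    refine (Tr_uCc P _ _ _ _).2 ?_
    rw [LinearEquiv.apply_symm_apply, e1]
    exact y.2.1
  have hm : ∀ y, ψ y ∈ (M.quo N (Tr_hom P d hP (- a0))).dg 0 := by
    intro y
    refine GM.mem_dg.2 ?_
    rw [hψ]
    exact congrArg _ (GM.pr_dg (hu y))
  have h2 : ∀ y : P.Zc (AsA 𝒜) (nu d 0) a0, ψ y = 0 ↔ y.1 ∈ P.Bc (AsA 𝒜) (nu d 0) a0 := by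
    intro y
    rw [hψ]
    refine (Submodule.Quotient.mk_eq_zero N).trans ?_
    constructor
    · intro h
      have h3 := Tr_N2 P d hP (- a0) a0 ((Tr_u K A (P.n (nu d 0))).symm y.1)
        (by rw [LinearEquiv.apply_symm_apply]; exact y.2.1) h
      rwa [LinearEquiv.apply_symm_apply] at h3
    · intro h
      refine Tr_N1 P d hP (- a0) a0 ((Tr_u K A (P.n (nu d 0))).symm y.1) ?_
      rwa [LinearEquiv.apply_symm_apply]
  let φ := ψ.codRestrict ((M.quo N (Tr_hom P d hP (- a0))).dg 0) hm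
  have hker : (P.Bc (AsA 𝒜) (nu d 0) a0).submoduleOf (P.Zc (AsA 𝒜) (nu d 0) a0)
      = LinearMap.ker φ := by
    ext y
    rw [LinearMap.mem_ker]
    refine Iff.trans ?_ ((h2 y).symm.trans ?_)
    · exact Iff.rfl
    · exact ⟨fun h => Subtype.ext h, fun h => congrArg Subtype.val h⟩
  have hsur : Function.Surjective φ := by
    rintro ⟨q, hq⟩
    obtain ⟨x, rfl⟩ := Submodule.Quotient.mk_surjective N q
    have h3 : M.pr 0 x ∈ M.dg 0 := M.pr_mem 0 x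
    have h4 : Tr_u K A (P.n (nu d 0)) (M.pr 0 x) ∈ P.Zc (AsA 𝒜) (nu d 0) a0 := by
      refine Tr_ZC P _ (hP _ (by omega)) _ _ ?_
      have h5 := (Tr_uCc P _ _ _ _).1 ((Tr_Fre _ _ _).1 h3)
      rwa [e1] at h5
    refine ⟨⟨_, h4⟩, Subtype.ext ?_⟩
    refine Eq.trans (congrArg (Submodule.Quotient.mk (p := N))
      (LinearEquiv.symm_apply_apply (Tr_u K A (P.n (nu d 0))) (M.pr 0 x))) ?_
    exact GM.pr_dg hq
  have e : P.SH (AsA 𝒜) (nu d 0) a0 ≃ₗ[K] (M.quo N (Tr_hom P d hP (- a0))).dg 0 :=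
    (Submodule.quotEquivOfEq _ _ hker).trans (φ.quotKerEquivOfSurjective hsur)
  have h6 := e.finrank_eq
  have h7 := ha0 a0
  rw [if_pos rfl] at h7
  exact h6.symm.trans h7

theorem Tr_ex (P : MC 𝒜) (d : ℕ) (hP : ∀ i, d < i → P.n i = 0)
    (hv : ∀ i, i ≠ d → ∀ a, Subsingleton (P.SH (AsA 𝒜) i a)) (c : ℤ) (i : ℕ) :
    LinearMap.range ((Tr_P P d hP c).bd (i + 1)) = LinearMap.ker ((Tr_P P d hP c).bd i) := by
  apply le_antisymm
  · rintro _ ⟨x, rfl⟩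
    exact Tr_bdbd (Tr_P P d hP c) i x
  · intro x hx
    have hx' : Tr_c P (nu d i) (nu d (i + 1)) (Tr_u K A (P.n (nu d (i + 1))) x) = 0 := by
      rw [← Tr_bd P d hP c i x]
      refine Eq.trans (congrArg _ hx) (map_zero _)
    by_cases h1 : d < i + 1
    · have h2 : x = 0 := Tr_zero (hP _ (by rw [nu_zero d (i + 1) h1]; omega)) x
      rw [h2]
      exact zero_mem _
    · have e1 : nu d (i + 1) = d - (i + 1) := nu_le d (i + 1) (by omega)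
      have e0 : nu d i = d - i := nu_le d i (by omega)
      by_cases h2 : d < i + 2
      · have h3 : nu d (i + 1) = 0 := by omega
        have h4 := Tr_exc0 P h3 (show nu d i = nu d (i + 1) + 1 by omega)
          (hv _ (by omega)) _ hx'
        have h5 : x = 0 := (LinearEquiv.map_eq_zero_iff (Tr_u K A (P.n (nu d (i + 1))))).1 h4
        rw [h5]
        exact zero_mem _
      · have e2 : nu d (i + 2) = d - (i + 2) := nu_le d (i + 2) (by omega)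
        obtain ⟨z, hz⟩ := Tr_exc P (show nu d (i + 1) = nu d (i + 2) + 1 by omega)
          (show nu d i = nu d (i + 1) + 1 by omega) (hv _ (by omega)) _ hx'
        refine ⟨(Tr_u K A (P.n (nu d (i + 2)))).symm z,
          (Tr_u K A (P.n (nu d (i + 1)))).injective ?_⟩
        exact ((Tr_bd P d hP c (i + 1) _).trans (congrArg (Tr_c P (nu d (i + 1)) (nu d (i + 2)))
          (LinearEquiv.apply_symm_apply (Tr_u K A (P.n (nu d (i + 2)))) z))).trans hz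

omit [GradedAlgebra 𝒜] in
theorem Tr_opconn (conn : ∀ a ∈ 𝒜 0, ∃ c : K, a = algebraMap K A c) :
    ∀ a ∈ opG 𝒜 0, ∃ c : K, a = algebraMap K Aᵐᵒᵖ c := by
  intro a ha
  obtain ⟨c, hc⟩ := conn _ ((mem_opG 𝒜).1 ha)
  refine ⟨c, ?_⟩
  rw [MulOpposite.algebraMap_apply, ← hc, MulOpposite.op_unop]

theorem Tr_main (fin : ∀ n, Module.Finite K (𝒜 n))
    (conn : ∀ a ∈ 𝒜 0, ∃ c : K, a = algebraMap K A c) (d : ℕ)
    (P : MC 𝒜) (hP : ∀ i, d < i → P.n i = 0)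
    (hv : ∀ i, i ≠ d → ∀ a, Subsingleton (P.SH (AsA 𝒜) i a)) (a0 : ℤ)
    (ha0 : ∀ a, P.sh (AsA 𝒜) d a = if a = a0 then 1 else 0) :
    Nonempty (Res (Tr_P P d hP (- a0)) (TrivM (opG 𝒜)) d) := by
  have e0 : nu d 0 = d := by rw [nu_le d 0 (by omega)]; omega
  have ha0' : ∀ a, P.sh (AsA 𝒜) (nu d 0) a = if a = a0 then 1 else 0 := by
    rw [e0]
    exact ha0
  obtain ⟨ε, h1, h2, h3⟩ := Tr_one (Tr_opconn conn)
    (M := Fre (opG 𝒜) ((Tr_P P d hP (- a0)).w 0)) _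
    (Tr_hom P d hP (- a0)) (Tr_h0 P d hP a0 ha0')
    (fun a ha x hx => Tr_h1 fin P d hP a0 ha0' a ha x ((Tr_Fre _ _ _).1 hx))
  refine ⟨⟨?_, ε, h1, h2, h3.symm, Tr_ex P d hP hv (- a0)⟩⟩
  intro i hi
  exact hP _ (by rw [nu_zero d i hi]; omega)

theorem Tr_sh0 (P : MC 𝒜) (i : ℕ) (a : ℤ)
    (h : ∀ x ∈ P.Zc (AsA 𝒜) i a, x ∈ P.Bc (AsA 𝒜) i a) : P.sh (AsA 𝒜) i a = 0 := by
  have h1 : (P.Bc (AsA 𝒜) i a).submoduleOf (P.Zc (AsA 𝒜) i a) = ⊤ := by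
    rw [eq_top_iff]
    intro x _
    exact h x.1 x.2
  have h2 : Subsingleton (P.SH (AsA 𝒜) i a) := Submodule.Quotient.subsingleton_iff.2 h1
  exact Module.finrank_zero_of_subsingleton

theorem Tr_Cc2 (P : MC 𝒜) (d : ℕ) (hP : ∀ i, d < i → P.n i = 0) (c : ℤ) (j : ℕ) (a : ℤ)
    (x : Fin (P.n (nu d j)) → Aᵐᵒᵖ) :
    x ∈ (Tr_P P d hP c).Cc (AsA (opG 𝒜)) j a ↔
      ∀ t, Tr_u K A (P.n (nu d j)) x t ∈ (AsA 𝒜).dg (a + c - P.w (nu d j) t) := by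
  refine (Tr_mem_Cc (Tr_P P d hP c)).trans ?_
  refine forall_congr' fun t => ?_
  have h5 : c - P.w (nu d j) t + a = a + c - P.w (nu d j) t := by ring
  rw [← h5]
  exact Tr_dg

theorem Tr_FS1 (d : ℕ) (P : MC 𝒜) (R : Res P (TrivM 𝒜) d) (c : ℤ) (j : ℕ) (a : ℤ)
    (hne : a ≠ - c) (x : Fin (P.n (nu d j)) → Aᵐᵒᵖ)
    (hx : x ∈ (Tr_P P d R.zero c).Zc (AsA (opG 𝒜)) j a) :
    x ∈ (Tr_P P d R.zero c).Bc (AsA (opG 𝒜)) j a := by
  by_cases h1 : d < j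
  · have h2 : x = 0 := Tr_zero (R.zero _ (by rw [nu_zero d j h1]; omega)) x
    rw [h2]
    exact zero_mem _
  have e0 : nu d j = d - j := nu_le d j (by omega)
  have h3 := (Tr_Cc2 P d R.zero c j a x).1 hx.1
  have h4 : ∀ k, k = nu d j + 1 → ∃ z : Fin (P.n k) → A,
      (∀ s, z s ∈ (AsA 𝒜).dg (a + c - P.w k s)) ∧
      Tr_b P k (nu d j) z = Tr_u K A (P.n (nu d j)) x := by
    intro k hk
    by_cases h2 : j = d
    · exact Tr_exb0 R (by omega) hk _ (a + c) (by omega) h3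
    · have e1 : nu d (j + 1) = d - (j + 1) := nu_le d (j + 1) (by omega)
      refine Tr_exb R (show nu d j = nu d (j + 1) + 1 by omega) hk _ ?_ _ h3
      rw [← Tr_cod P d R.zero c j x]
      exact (congrArg _ hx.2).trans (map_zero _)
  rcases j with _ | j
  · obtain ⟨z, hz, hzx⟩ := h4 _ rfl
    have h5 : z = 0 := Tr_zero (R.zero _ (by omega)) z
    have h6 : Tr_u K A (P.n (nu d 0)) x = 0 := by
      rw [← hzx, h5]
      funext t
      exact Finset.sum_eq_zero fun s _ => zero_mul _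
    have h7 : x = 0 := (LinearEquiv.map_eq_zero_iff (Tr_u K A (P.n (nu d 0)))).1 h6
    rw [h7]
    exact zero_mem _
  · have e1 : nu d j = nu d (j + 1) + 1 := by
      rw [nu_le d j (by omega), e0]
      omega
    obtain ⟨z, hz, hzx⟩ := h4 _ e1
    refine ⟨(Tr_u K A (P.n (nu d j))).symm z, ?_, (Tr_u K A (P.n (nu d (j + 1)))).injective ?_⟩
    · refine (Tr_Cc2 P d R.zero c j a _).2 ?_
      intro t
      rw [LinearEquiv.apply_symm_apply]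
      exact hz t
    · exact ((Tr_cod P d R.zero c j _).trans (congrArg (Tr_b P (nu d j) (nu d (j + 1)))
          (LinearEquiv.apply_symm_apply (Tr_u K A (P.n (nu d j))) z))).trans hzx

theorem Tr_FS (d : ℕ) (P : MC 𝒜) (R : Res P (TrivM 𝒜) d) (c : ℤ) (j : ℕ) :
    FS ((Tr_P P d R.zero c).sh (AsA (opG 𝒜)) j) := by
  refine (Set.finite_singleton (- c)).subset ?_
  intro a ha
  by_contra hne
  exact ha (Tr_sh0 _ _ _ fun x hx => Tr_FS1 d P R c j a (fun h => hne h) x hx)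

theorem TR_res (fin : ∀ n, Module.Finite K (𝒜 n))
    (conn : ∀ a ∈ 𝒜 0, ∃ c : K, a = algebraMap K A c) (nt : (1 : A) ≠ 0) (d : ℕ)
    (P : MC 𝒜) (R : Res P (TrivM 𝒜) d) (hv : ∀ i, i ≠ d → ∀ a, Subsingleton (P.SH (AsA 𝒜) i a))
    (hd : ∃ a0, ∀ a, P.sh (AsA 𝒜) d a = if a = a0 then 1 else 0) :
    ∃ P' : MC (opG 𝒜), Nonempty (Res P' (TrivM (opG 𝒜)) d) ∧
      ∀ j, FS (P'.sh (AsA (opG 𝒜)) j) := by
  obtain ⟨a0, ha0⟩ := hd
  exact ⟨Tr_P P d R.zero (- a0), Tr_main fin conn d P R.zero hv a0 ha0,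
    fun j => Tr_FS d P R (- a0) j⟩

end main

end Pool.Agent.NAS
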