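import Pool.Agent.Lib_helper19.NAS.Defs3
import Pool.Agent.Lib_helper19.NAS.B.Gl
import Pool.Agent.Lib_helper19.NAS.B.Gk
import Pool.Agent.Lib_helper19.NAS.B.Tr
import Pool.Agent.Lib_helper19.NAS.B.Rp
import Pool.Agent.Lib_helper19.NAS.B.R
import Pool.Agent.Lib_helper19.NAS.B.Rs

/-!
# The hypotheses (MP_ef4bac_al, project NAS, block Hy)
-/

set_option autoImplicit false

namespace Pool.Agent.NAS

open Module Filter Topology

universe u

variable {K A : Type u} [Field K] [Ring A] [Algebra K A] {𝒜 : ℕ → Submodule K A}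
  [GradedAlgebra 𝒜]

theorem Hy_triv (conn : ∀ a ∈ 𝒜 0, ∃ c : K, a = algebraMap K A c) :
    Module.Finite K (TrivM 𝒜).X := by
  have h1 : Function.Surjective (LinearMap.toSpanSingleton K (TrivM 𝒜).X
      (Submodule.Quotient.mk (1 : A))) := by
    intro y
    obtain ⟨x, rfl⟩ := Submodule.Quotient.mk_surjective _ y
    obtain ⟨c, hc⟩ := conn _ (SetLike.coe_mem (DirectSum.decompose 𝒜 x 0))
    refine ⟨c, ?_⟩
    rw [LinearMap.toSpanSingleton_apply, ← Submodule.Quotient.mk_smul, Submodule.Quotient.eq,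
      ← Algebra.algebraMap_eq_smul_one, ← hc, HomogeneousIdeal.mem_iff,
      HomogeneousIdeal.mem_irrelevant_iff, map_sub, GradedRing.proj_apply, GradedRing.proj_apply,
      DirectSum.decompose_coe, DirectSum.of_eq_same, sub_self]
  exact Module.Finite.of_surjective _ h1

omit [GradedAlgebra 𝒜] in
theorem Hy_opfin (fin : ∀ n, Module.Finite K (𝒜 n)) (n : ℕ) : Module.Finite K (opG 𝒜 n) := by
  have := fin n
  have h1 : Function.Surjective (opPart 𝒜 n) := by
    rintro ⟨x, hx⟩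
    exact ⟨⟨x.unop, (mem_opG 𝒜).1 hx⟩, rfl⟩
  exact Module.Finite.of_surjective _ h1

omit [GradedAlgebra 𝒜] in
theorem Hy_opconn (conn : ∀ a ∈ 𝒜 0, ∃ c : K, a = algebraMap K A c) :
    ∀ a ∈ opG 𝒜 0, ∃ c : K, a = algebraMap K Aᵐᵒᵖ c := by
  intro a ha
  obtain ⟨c, hc⟩ := conn _ ((mem_opG 𝒜).1 ha)
  refine ⟨c, ?_⟩
  rw [MulOpposite.algebraMap_apply, ← hc, MulOpposite.op_unop]

theorem Hy_FS {f g : ℤ → ℕ} (h : ∀ a, f a = g a) (hg : FS g) : FS f := by
  rwa [show f = g from funext h]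

theorem HY {d : ℕ} (H : Hyp0 𝒜 d) : Hyp 𝒜 d := by
  obtain ⟨P, ⟨R⟩, hv, hd⟩ := H.gor
  obtain ⟨P', ⟨R'⟩, hF'⟩ := TR_res H.fin H.conn H.nt d P R hv hd
  have nt' : (1 : Aᵐᵒᵖ) ≠ 0 := fun h => H.nt (MulOpposite.op_injective h)
  have fin' := Hy_opfin H.fin
  have conn' := Hy_opconn H.conn
  have hE : ∀ i a, eE i (TrivM 𝒜) a = P.sh (AsA 𝒜) i a := fun i a =>
    (RS_iso R i a).some.finrank_eq
  have hE' : ∀ i a, eE i (TrivM (opG 𝒜)) a = P'.sh (AsA (opG 𝒜)) i a := fun i a =>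
    (RS_iso R' i a).some.finrank_eq
  have h0 : ∀ i, i ≠ d → ∀ a, Subsingleton (E i (TrivM 𝒜) a) := fun i hi a =>
    have := hv i hi a
    (RS_iso R i a).some.toEquiv.subsingleton
  refine ⟨H.fin, H.conn, H.nt, H.grow, H.nl, H.nr, H.gd, ?_, ?_, ?_, ?_, ?_, ?_⟩
  · intro M hM
    exact R_res H.fin H.conn H.nl d M hM (H.gd _)
  · exact GL0 H.fin H.conn H.nt d (fun i hi a => h0 i (by omega) a)
  · refine GLf H.fin H.conn H.nt (fun i a => RS_fin H.fin R i a) ?_
    intro i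
    refine Hy_FS (hE i) ?_
    by_cases hi : i = d
    · subst hi
      obtain ⟨a0, ha0⟩ := hd
      refine (Set.finite_singleton a0).subset ?_
      intro a ha
      by_contra hne
      exact ha ((ha0 a).trans (if_neg hne))
    · have h2 : (P.sh (AsA 𝒜) i) = fun _ => 0 := by
        funext a
        have := hv i hi a
        exact Module.finrank_zero_of_subsingleton
      rw [h2]
      exact Set.finite_empty.subset fun a ha => ha rfl
  · intro _
    obtain ⟨a0, ha0⟩ := hd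
    refine ⟨P, TrivM 𝒜, ⟨R⟩, Hy_triv H.conn, ?_⟩
    exact GK H.fin H.conn H.nt d P a0 (by rw [ha0 a0, if_pos rfl]; exact one_ne_zero)
  · intro N hN
    refine R_res fin' conn' H.nr d N ?_ ?_
    · exact Module.Finite.of_restrictScalars_finite K _ _
    · exact GLp fin' conn' nt' (d + 1) (RP P' _ d R') N hN
  · refine GLf fin' conn' nt' (fun i a => RS_fin fin' R' i a) ?_
    intro i
    exact Hy_FS (hE' i) (hF' i)

end Pool.Agent.NAS
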