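import Pool.Agent.Lib_helper19.NAS.Defs3
import Pool.Agent.Lib_helper19.NAS.B.Hil

/-!
# Orders of vanishing (MP_ef4bac_al, project NAS, block Or)
-/

set_option autoImplicit false

namespace Pool.Agent.NAS

open Module Filter Topology

universe u

variable {K A : Type u} [Field K] [Ring A] [Algebra K A] {𝒜 : ℕ → Submodule K A}
  [GradedAlgebra 𝒜]

omit [GradedAlgebra 𝒜] in
/-- The alternating sum of a complex is a Laurent polynomial. -/
theorem Or_poly (P : MC 𝒜) (d : ℕ) :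
    ∃ (W : ℕ) (p : Polynomial ℝ), ∀ t : ℝ, 0 < t → p.eval t = t ^ W * P.chi d t := by
  classical
  let W : ℕ := ∑ i ∈ Finset.range (d + 1), ∑ s, (P.w i s).natAbs
  have hW : ∀ i ∈ Finset.range (d + 1), ∀ s, 0 ≤ (W : ℤ) + P.w i s := by
    intro i hi s
    have h1 : (P.w i s).natAbs ≤ ∑ s, (P.w i s).natAbs :=
      Finset.single_le_sum (f := fun s => (P.w i s).natAbs) (fun _ _ => Nat.zero_le _)
        (Finset.mem_univ s)
    have h2 : (∑ s, (P.w i s).natAbs) ≤ W :=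
      Finset.single_le_sum (f := fun i => ∑ s, (P.w i s).natAbs) (fun _ _ => Nat.zero_le _) hi
    omega
  refine ⟨W, ∑ i ∈ Finset.range (d + 1), (-1) ^ i * ∑ s, Polynomial.X ^ ((W : ℤ) + P.w i s).toNat,
    fun t ht => ?_⟩
  unfold MC.chi
  rw [Polynomial.eval_finsetSum, Finset.mul_sum]
  refine Finset.sum_congr rfl fun i hi => ?_
  rw [Polynomial.eval_mul, Polynomial.eval_pow, Polynomial.eval_neg, Polynomial.eval_one,
    Polynomial.eval_finsetSum]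
  have h1 : ∀ s, Polynomial.eval t (Polynomial.X ^ ((W : ℤ) + P.w i s).toNat) = t ^ W * t ^ (P.w i s) := by
    intro s
    rw [Polynomial.eval_pow, Polynomial.eval_X, ← zpow_natCast t W, ← zpow_add₀ ht.ne',
      ← zpow_natCast, Int.toNat_of_nonneg (hW i hi s)]
  simp only [h1]
  rw [← Finset.mul_sum]
  ring

theorem Or_ev : ∀ᶠ t : ℝ in 𝓝[<] 1, 0 < t ∧ t < 1 := by
  have h1 : Set.Ioo (0 : ℝ) 1 ∈ 𝓝[<] (1 : ℝ) := Ioo_mem_nhdsLT (by norm_num)
  exact h1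

theorem Or_ne {d : ℕ} (H : Hyp 𝒜 d) (M : GM 𝒜) (hM : Module.Finite A M.X) {n : ℤ} {x : M.X}
    (hx : x ∈ M.dg n) (h : x ≠ 0) : M.hil n ≠ 0 := by
  have h1 := H_fin H.fin M hM n
  have h2 : Nontrivial (M.dg n) := ⟨⟨⟨x, hx⟩, 0, fun hh => h (congrArg Subtype.val hh)⟩⟩
  exact Module.finrank_pos.ne'

theorem Or_finA : Module.Finite A (AsA 𝒜).X := inferInstanceAs (Module.Finite A A)

theorem Or_posA {d : ℕ} (H : Hyp 𝒜 d) {t : ℝ} (h0 : 0 < t) (h1 : t < 1) :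
    0 < HH (AsA 𝒜).hil t := by
  refine N_pos (H_adm H.fin H.grow (AsA 𝒜) Or_finA) (a := 0) ?_ h0 h1
  exact Or_ne H (AsA 𝒜) Or_finA (prA_dg.2 one_mem_hA) H.nt

/-- The order of the zero of `H_M/H_A` at `1`. -/
theorem Or_lim {d : ℕ} (H : Hyp 𝒜 d) (M : GM 𝒜) (hM : Module.Finite A M.X)
    (hne : ∃ n, M.hil n ≠ 0) : ∃ (k : ℕ) (c : ℝ), 0 < c ∧
      Tendsto (fun t => HH M.hil t / (HH (AsA 𝒜).hil t * (1 - t) ^ k)) (𝓝[<] (1 : ℝ)) (𝓝 c) := by
  obtain ⟨P, ⟨R⟩⟩ := H.res M hM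
  obtain ⟨W, p, hp⟩ := Or_poly P d
  obtain ⟨n, hn⟩ := hne
  have hpos : ∀ t : ℝ, 0 < t → t < 1 → 0 < HH M.hil t := fun t h0 h1 =>
    N_pos (H_adm H.fin H.grow M hM) hn h0 h1
  have hratio : ∀ t : ℝ, 0 < t → t < 1 → HH M.hil t / HH (AsA 𝒜).hil t = p.eval t / t ^ W := by
    intro t h0 h1
    rw [hp t h0, H_res H.fin H.grow R h0 h1, mul_div_assoc, div_self (Or_posA H h0 h1).ne',
      mul_one, mul_div_cancel_left₀ _ (by positivity)]
  have hpne : p ≠ 0 := by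
    rintro rfl
    have h1 := hratio (1 / 2) (by norm_num) (by norm_num)
    rw [Polynomial.eval_zero, zero_div] at h1
    have h2 := div_pos (hpos (1 / 2) (by norm_num) (by norm_num))
      (Or_posA H (t := 1 / 2) (by norm_num) (by norm_num))
    exact h2.ne' h1
  obtain ⟨q, hq, hnd⟩ := Polynomial.exists_eq_pow_rootMultiplicity_mul_and_not_dvd p hpne 1
  set k := Polynomial.rootMultiplicity 1 p with hk
  have hq1 : q.eval 1 ≠ 0 := by
    intro h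
    exact hnd (Polynomial.dvd_iff_isRoot.2 h)
  -- the limit
  have hlim : Tendsto (fun t : ℝ => (-1) ^ k * q.eval t / t ^ W) (𝓝[<] (1 : ℝ))
      (𝓝 ((-1) ^ k * q.eval 1)) := by
    have h1 : Tendsto (fun t : ℝ => (-1) ^ k * q.eval t / t ^ W) (𝓝 (1 : ℝ))
        (𝓝 ((-1) ^ k * q.eval 1 / 1 ^ W)) := by
      refine Tendsto.div ?_ ?_ (by simp)
      · exact (q.continuous.tendsto 1).const_mul _
      · exact (continuous_pow W).tendsto 1
    rw [one_pow, div_one] at h1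
    exact h1.mono_left nhdsWithin_le_nhds
  have heq : ∀ᶠ t in 𝓝[<] (1 : ℝ), (-1) ^ k * q.eval t / t ^ W
      = HH M.hil t / (HH (AsA 𝒜).hil t * (1 - t) ^ k) := by
    filter_upwards [Or_ev] with t ht
    have h1 : (1 - t) ^ k ≠ 0 := pow_ne_zero _ (by linarith [ht.2])
    rw [← div_div, hratio t ht.1 ht.2, hq, Polynomial.eval_mul, Polynomial.eval_pow,
      Polynomial.eval_sub, Polynomial.eval_X, Polynomial.eval_C]
    have h2 : (t - 1) ^ k = (-1) ^ k * (1 - t) ^ k := by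
      rw [← mul_pow]
      congr 1
      ring
    rw [h2]
    have h3 : t ^ W ≠ 0 := pow_ne_zero _ ht.1.ne'
    field_simp
  have hlim2 := hlim.congr' heq
  refine ⟨k, (-1) ^ k * q.eval 1, ?_, hlim2⟩
  have h1 : 0 ≤ (-1) ^ k * q.eval 1 := by
    refine ge_of_tendsto hlim2 ?_
    filter_upwards [Or_ev] with t ht
    have h2 := hpos t ht.1 ht.2
    have h3 := Or_posA H ht.1 ht.2
    have h4 : 0 < 1 - t := by linarith [ht.2]
    positivity
  refine lt_of_le_of_ne h1 (Ne.symm ?_)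
  exact mul_ne_zero (pow_ne_zero _ (by norm_num)) hq1

/-- A lower bound of the Hilbert series. -/
theorem Or_low {d : ℕ} (H : Hyp 𝒜 d) (M : GM 𝒜) (hM : Module.Finite A M.X) {n : ℤ}
    (hn : M.hil n ≠ 0) {t : ℝ} (h0 : 0 < t) (h1 : t < 1) : t ^ n ≤ HH M.hil t := by
  have h2 := N_summable (H_adm H.fin H.grow M hM) h0 h1
  have h3 : (M.hil n : ℝ) * t ^ n ≤ HH M.hil t :=
    h2.le_tsum n (fun a _ => by positivity)
  have h4 : (1 : ℝ) ≤ M.hil n := by exact_mod_cast Nat.one_le_iff_ne_zero.2 hn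
  have h5 : 0 < t ^ n := zpow_pos h0 n
  nlinarith

variable (𝒜) in
theorem Or_triv_dg {n : ℤ} (hn : n ≠ 0) : (TrivM 𝒜).dg n = ⊥ := by
  rw [eq_bot_iff]
  intro x hx
  rw [Submodule.mem_bot]
  have h1 : (TrivM 𝒜).pr n x = x := GM.pr_dg hx
  obtain ⟨a, rfl⟩ := Submodule.Quotient.mk_surjective _ x
  rw [← h1]
  have h2 : (TrivM 𝒜).pr n (Submodule.Quotient.mk a) = Submodule.Quotient.mk (prA 𝒜 n a) := rfl
  rw [h2, Submodule.Quotient.mk_eq_zero]
  rcases lt_or_gt_of_ne hn with h | h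
  · rw [prA_neg 𝒜 h]
    exact zero_mem _
  · obtain ⟨m, rfl⟩ := Int.eq_ofNat_of_zero_le h.le
    rw [prA_nat]
    have hm : 0 < m := by omega
    exact HomogeneousIdeal.mem_irrelevant_of_mem 𝒜 hm (SetLike.coe_mem _)

theorem Or_triv {d : ℕ} (H : Hyp 𝒜 d) : (∃ n, (TrivM 𝒜).hil n ≠ 0) ∧
    ∀ t : ℝ, HH (TrivM 𝒜).hil t = (TrivM 𝒜).hil 0 := by
  have hfin : Module.Finite A (TrivM 𝒜).X :=
    inferInstanceAs (Module.Finite A (A ⧸ (HomogeneousIdeal.irrelevant 𝒜).toIdeal))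
  constructor
  · refine ⟨0, Or_ne H (TrivM 𝒜) hfin (x := Submodule.Quotient.mk (1 : A)) ?_ ?_⟩
    · rw [GM.mem_dg]
      have h2 : (TrivM 𝒜).pr 0 (Submodule.Quotient.mk (1 : A))
        = Submodule.Quotient.mk (prA 𝒜 0 (1 : A)) := rfl
      rw [h2, prA_of_mem one_mem_hA]
    · intro h
      rw [Submodule.Quotient.mk_eq_zero] at h
      have h1 : (1 : A) ∈ HomogeneousIdeal.irrelevant 𝒜 := h
      rw [HomogeneousIdeal.mem_irrelevant_iff] at h1
      have h2 : GradedRing.proj 𝒜 0 (1 : A) = 1 := by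
        rw [GradedRing.proj_apply]
        exact DirectSum.decompose_of_mem_same 𝒜 SetLike.GradedOne.one_mem
      rw [h2] at h1
      exact H.nt h1
  · intro t
    unfold HH
    rw [tsum_eq_single 0]
    · simp
    · intro n hn
      have : (TrivM 𝒜).hil n = 0 := by
        unfold GM.hil
        rw [Or_triv_dg 𝒜 hn]
        exact finrank_bot K _
      rw [this]
      simp

theorem OR {d : ℕ} (H : Hyp 𝒜 d) (N0 : Ideal A) (hN0 : HI 𝒜 N0) (hne : N0 ≠ ⊥)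
    (hs : Sml (HH (AsA 𝒜).hil) ((AsA 𝒜).sub N0 hN0).hil) :
    ∃ φ : ℝ → ℝ, (∀ᶠ t in 𝓝[<] (1 : ℝ), 0 < φ t) ∧
      Tendsto (fun t => φ t / HH (AsA 𝒜).hil t) (𝓝[<] (1 : ℝ)) (𝓝 0) ∧
      (∀ (N : Ideal A) (hN : HI 𝒜 N), N ≠ ⊥ → ¬ Sml φ ((AsA 𝒜).sub N hN).hil) ∧
      ∃ (N : Ideal A) (hN : HI 𝒜 N), N ≠ ⊥ ∧ Bdd φ ((AsA 𝒜).sub N hN).hil := by
  classical
  have hnl := H.nl
  have hfinN : ∀ (N : Ideal A) (hN : HI 𝒜 N), Module.Finite A ((AsA 𝒜).sub N hN).X := by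
    intro N hN
    exact inferInstanceAs (Module.Finite A N)
  have hneN : ∀ (N : Ideal A) (hN : HI 𝒜 N), N ≠ ⊥ → ∃ n, ((AsA 𝒜).sub N hN).hil n ≠ 0 := by
    intro N hN h
    obtain ⟨x, hx, hx0⟩ := Submodule.exists_mem_ne_zero_of_ne_bot h
    obtain ⟨s, hs⟩ := ((AsA 𝒜).sub N hN).pr_sum ⟨x, hx⟩
    by_contra hcon
    push Not at hcon
    have h0 : ∀ n, ((AsA 𝒜).sub N hN).pr n ⟨x, hx⟩ = 0 := by
      intro n
      by_contra hne
      exact Or_ne H _ (hfinN N hN) (((AsA 𝒜).sub N hN).pr_mem n ⟨x, hx⟩) hne (hcon n)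
    rw [Finset.sum_eq_zero fun n _ => h0 n] at hs
    exact hx0 (congrArg Subtype.val hs).symm
  let F : Ideal A → ℕ → Prop := fun N k => ∃ (hN : HI 𝒜 N) (c : ℝ), N ≠ ⊥ ∧ 0 < c ∧
    Tendsto (fun t => HH ((AsA 𝒜).sub N hN).hil t / (HH (AsA 𝒜).hil t * (1 - t) ^ k))
      (𝓝[<] (1 : ℝ)) (𝓝 c)
  have hex : ∀ (N : Ideal A) (hN : HI 𝒜 N), N ≠ ⊥ → ∃ k, F N k := by
    intro N hN h
    obtain ⟨k, c, hc, hl⟩ := Or_lim H _ (hfinN N hN) (hneN N hN h)
    exact ⟨k, hN, c, h, hc, hl⟩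
  have h1t : Tendsto (fun t : ℝ => 1 - t) (𝓝[<] (1 : ℝ)) (𝓝 0) := by
    have : Tendsto (fun t : ℝ => 1 - t) (𝓝 (1 : ℝ)) (𝓝 (1 - 1)) :=
      (continuous_const.sub continuous_id).tendsto 1
    rw [sub_self] at this
    exact this.mono_left nhdsWithin_le_nhds
  have hpow : ∀ j : ℕ, 0 < j → Tendsto (fun t : ℝ => (1 - t) ^ j) (𝓝[<] (1 : ℝ)) (𝓝 0) := by
    intro j hj
    have := h1t.pow j
    rwa [zero_pow hj.ne'] at this
  -- the bound of the orders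
  obtain ⟨hT1, hT2⟩ := Or_triv H
  have hfinT : Module.Finite A (TrivM 𝒜).X :=
    inferInstanceAs (Module.Finite A (A ⧸ (HomogeneousIdeal.irrelevant 𝒜).toIdeal))
  obtain ⟨kT, cT, hcT, hlT⟩ := Or_lim H (TrivM 𝒜) hfinT hT1
  have hb0 : (0 : ℝ) < (TrivM 𝒜).hil 0 := by
    obtain ⟨n, hn⟩ := hT1
    have h1 := N_pos (H_adm H.fin H.grow _ hfinT) hn (t := 1 / 2) (by norm_num) (by norm_num)
    rwa [hT2] at h1
  have hbound : ∀ N k, F N k → k ≤ kT := by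
    rintro N k ⟨hN, c, hne, hc, hl⟩
    by_contra hlt
    push Not at hlt
    obtain ⟨n, hn⟩ := hneN N hN hne
    have h1 : Tendsto (fun t : ℝ => (HH ((AsA 𝒜).sub N hN).hil t /
        (HH (AsA 𝒜).hil t * (1 - t) ^ k)) * (1 - t) ^ (k - kT)) (𝓝[<] (1 : ℝ)) (𝓝 0) := by
      have := hl.mul (hpow (k - kT) (by omega))
      rwa [mul_zero] at this
    have h2 : Tendsto (fun t : ℝ => t ^ n * ((TrivM 𝒜).hil 0 : ℝ)⁻¹ * (HH (TrivM 𝒜).hil t /
        (HH (AsA 𝒜).hil t * (1 - t) ^ kT))) (𝓝[<] (1 : ℝ))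
        (𝓝 (1 ^ n * ((TrivM 𝒜).hil 0 : ℝ)⁻¹ * cT)) := by
      refine Tendsto.mul (Tendsto.mul_const _ ?_) hlT
      exact (tendsto_id.zpow₀ n (Or.inl one_ne_zero)).mono_left nhdsWithin_le_nhds
    have h3 : 1 ^ n * ((TrivM 𝒜).hil 0 : ℝ)⁻¹ * cT ≤ 0 := by
      refine le_of_tendsto_of_tendsto h2 h1 ?_
      filter_upwards [Or_ev] with t ht
      have hA := Or_posA H ht.1 ht.2
      have h4 : 0 < 1 - t := by linarith [ht.2]
      have h5 := Or_low H _ (hfinN N hN) hn ht.1 ht.2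
      rw [hT2]
      have h6 : t ^ n * ((TrivM 𝒜).hil 0 : ℝ)⁻¹ * (((TrivM 𝒜).hil 0 : ℝ) /
          (HH (AsA 𝒜).hil t * (1 - t) ^ kT)) = t ^ n / (HH (AsA 𝒜).hil t * (1 - t) ^ kT) := by
        field_simp
      have h7 : HH ((AsA 𝒜).sub N hN).hil t / (HH (AsA 𝒜).hil t * (1 - t) ^ k) * (1 - t) ^ (k - kT)
          = HH ((AsA 𝒜).sub N hN).hil t / (HH (AsA 𝒜).hil t * (1 - t) ^ kT) := by
        have h8 : (1 - t) ^ k = (1 - t) ^ kT * (1 - t) ^ (k - kT) := by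
          rw [← pow_add]
          congr 1
          omega
        rw [h8]
        have h9 : (1 - t) ^ (k - kT) ≠ 0 := by positivity
        field_simp
      rw [h6, h7]
      exact div_le_div_of_nonneg_right h5 (by positivity)
    rw [one_zpow, one_mul] at h3
    have h4 : 0 < ((TrivM 𝒜).hil 0 : ℝ)⁻¹ * cT := by positivity
    linarith
  -- the largest order
  obtain ⟨kN0, hF0⟩ := hex N0 hN0 hne
  have hS : ∃ k, ∃ N, F N k := ⟨kN0, N0, hF0⟩
  set k0 := Nat.findGreatest (fun k => ∃ N, F N k) kT with hk0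
  have hk0F : ∃ N, F N k0 := by
    have := Nat.findGreatest_spec (P := fun k => ∃ N, F N k) (hbound N0 kN0 hF0) ⟨N0, hF0⟩
    exact this
  have hmax : ∀ N k, F N k → k ≤ k0 := fun N k h =>
    Nat.le_findGreatest (hbound N k h) ⟨N, h⟩
  have hkpos : 0 < k0 := by
    have h1 : 0 < kN0 := by
      rcases Nat.eq_zero_or_pos kN0 with h | h
      · exfalso
        subst h
        obtain ⟨_, c, _, hc, hl⟩ := hF0
        simp only [pow_zero, mul_one] at hl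
        have := tendsto_nhds_unique hl hs
        exact hc.ne' this
      · exact h
    exact lt_of_lt_of_le h1 (hmax N0 kN0 hF0)
  refine ⟨fun t => HH (AsA 𝒜).hil t * (1 - t) ^ k0, ?_, ?_, ?_, ?_⟩
  · filter_upwards [Or_ev] with t ht
    have hA := Or_posA H ht.1 ht.2
    have h4 : 0 < 1 - t := by linarith [ht.2]
    positivity
  · refine (hpow k0 hkpos).congr' ?_
    filter_upwards [Or_ev] with t ht
    have hA := Or_posA H ht.1 ht.2
    rw [mul_div_assoc, mul_comm, div_mul_cancel₀ _ hA.ne']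
  · intro N hN hne hsm
    obtain ⟨k, hN', c, _, hc, hl⟩ := hex N hN hne
    have hk := hmax N k ⟨hN', c, hne, hc, hl⟩
    unfold Sml at hsm
    have h1 : Tendsto (fun t : ℝ => (HH ((AsA 𝒜).sub N hN).hil t /
        (HH (AsA 𝒜).hil t * (1 - t) ^ k0)) * (1 - t) ^ (k0 - k)) (𝓝[<] (1 : ℝ)) (𝓝 0) := by
      have h2 := hsm.mul (h1t.pow (k0 - k))
      rwa [zero_mul] at h2
    have h2 : Tendsto (fun t : ℝ => (HH ((AsA 𝒜).sub N hN).hil t /
        (HH (AsA 𝒜).hil t * (1 - t) ^ k))) (𝓝[<] (1 : ℝ)) (𝓝 0) := by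
      refine h1.congr' ?_
      filter_upwards [Or_ev] with t ht
      have h4 : 0 < 1 - t := by linarith [ht.2]
      have hA := Or_posA H ht.1 ht.2
      have h8 : (1 - t) ^ k0 = (1 - t) ^ k * (1 - t) ^ (k0 - k) := by
        rw [← pow_add]
        congr 1
        omega
      rw [h8]
      have h9 : (1 - t) ^ (k0 - k) ≠ 0 := by positivity
      field_simp
    exact hc.ne' (tendsto_nhds_unique hl h2)
  · obtain ⟨N, hN, c, hne, hc, hl⟩ := hk0F
    refine ⟨N, hN, hne, c + 1, ?_⟩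
    have h1 : ∀ᶠ t in 𝓝[<] (1 : ℝ), HH ((AsA 𝒜).sub N hN).hil t /
        (HH (AsA 𝒜).hil t * (1 - t) ^ k0) < c + 1 :=
      hl.eventually (gt_mem_nhds (by linarith))
    filter_upwards [h1, Or_ev] with t h1 ht
    have hA := Or_posA H ht.1 ht.2
    have h4 : 0 < 1 - t := by linarith [ht.2]
    have h5 : 0 < HH (AsA 𝒜).hil t * (1 - t) ^ k0 := by positivity
    rw [div_lt_iff₀ h5] at h1
    exact h1.le

end Pool.Agent.NAS
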