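import Pool.Agent.Lib_helper19.NAS.Defs3
import Pool.Agent.Lib_helper19.NAS.B.Go
import Pool.Agent.Lib_helper19.NAS.B.Hil

/-!
# Regular elements and bounded modules (MP_ef4bac_al, project NAS, block Rg)
-/

set_option autoImplicit false

namespace Pool.Agent.NAS

open Module Filter Topology

universe u

variable {K A : Type u} [Field K] [Ring A] [Algebra K A] {𝒜 : ℕ → Submodule K A}
  [GradedAlgebra 𝒜]

omit [GradedAlgebra 𝒜] in
theorem Rg_inj {M N : GM 𝒜} {a : ℤ} (f : M.X →ₗ[A] N.X) (hf : f ∈ Hm M N a)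
    (hi : Function.Injective f) (n : ℤ) (hN : Module.Finite K (N.dg (n + a))) :
    M.hil n ≤ N.hil (n + a) := by
  let g : M.dg n →ₗ[K] N.dg (n + a) :=
    (f.restrictScalars K).restrict (p := M.dg n) (q := N.dg (n + a)) (fun x hx => Hm_dg hf hx)
  have hg : Function.Injective g := by
    intro x y hxy
    exact Subtype.ext (hi (congrArg Subtype.val hxy))
  exact LinearMap.finrank_le_finrank_of_injective hg

omit [GradedAlgebra 𝒜] in
theorem Rg_surj {M N : GM 𝒜} (f : M.X →ₗ[A] N.X) (hf : f ∈ Hm M N 0)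
    (hs : Function.Surjective f) (n : ℤ) (hM : Module.Finite K (M.dg n)) :
    N.hil n ≤ M.hil n := by
  let g : M.dg n →ₗ[K] N.dg n :=
    (f.restrictScalars K).restrict (p := M.dg n) (q := N.dg n) (fun x hx => by
      have := Hm_dg hf hx
      rwa [add_zero] at this)
  have hg : Function.Surjective g := by
    rintro ⟨y, hy⟩
    obtain ⟨x, rfl⟩ := hs y
    refine ⟨⟨M.pr n x, M.pr_mem n x⟩, Subtype.ext ?_⟩
    show f (M.pr n x) = f x
    have h1 := hf n x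
    rw [add_zero] at h1
    rw [h1, GM.pr_dg hy]
  exact LinearMap.finrank_le_finrank_of_surjective hg

theorem Rg_finC (Q : Ideal A) (h : HI 𝒜 Q) : Module.Finite A (CQ Q h).X :=
  inferInstanceAs (Module.Finite A (A ⧸ Q))

theorem Rg_adm {d : ℕ} {φ : ℝ → ℝ} {Q : Ideal A} {h : HI 𝒜 Q} {h2 : TS Q} (C : Ctx d φ Q h h2)
    (M : GM 𝒜) (hM : Module.Finite A M.X) : Adm M.hil :=
  H_adm C.hyp.fin C.hyp.grow M hM

theorem Rg_fin {d : ℕ} {φ : ℝ → ℝ} {Q : Ideal A} {h : HI 𝒜 Q} {h2 : TS Q} (C : Ctx d φ Q h h2)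
    (M : GM 𝒜) (hM : Module.Finite A M.X) (n : ℤ) : Module.Finite K (M.dg n) :=
  H_fin C.hyp.fin M hM n

/-- Submodules of finitely generated modules are finitely generated. -/
theorem Rg_sub {d : ℕ} {φ : ℝ → ℝ} {Q : Ideal A} {h : HI 𝒜 Q} {h2 : TS Q} (C : Ctx d φ Q h h2)
    (M : GM 𝒜) (hM : Module.Finite A M.X) (N : Submodule A M.X) (hN : M.Hom N) :
    Module.Finite A (M.sub N hN).X := by
  have := C.hyp.nl
  have h1 : IsNoetherian A M.X := isNoetherian_of_isNoetherianRing_of_finite A M.X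
  exact Module.Finite.of_fg (IsNoetherian.noetherian N)

omit [GradedAlgebra 𝒜] in
theorem Rg_quoFin (M : GM 𝒜) (hM : Module.Finite A M.X) (N : Submodule A M.X) (hN : M.Hom N) :
    Module.Finite A (M.quo N hN).X :=
  Module.Finite.of_surjective N.mkQ N.mkQ_surjective

omit [GradedAlgebra 𝒜] in
theorem Rg_mkQ (M : GM 𝒜) (N : Submodule A M.X) (hN : M.Hom N) :
    (N.mkQ : M.X →ₗ[A] (M.quo N hN).X) ∈ Hm M (M.quo N hN) 0 := by
  intro n x
  rw [add_zero]
  rfl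

/-- Finitely generated modules killed by `Q` are bounded. -/
theorem RG_bdd {d : ℕ} {φ : ℝ → ℝ} {Q : Ideal A} {h : HI 𝒜 Q} {h2 : TS Q} (C : Ctx d φ Q h h2)
    (M : GM 𝒜) (hM : Module.Finite A M.X) (hk : Kil Q M) : Bdd φ M.hil := by
  obtain ⟨r, w, f, hf, hs⟩ := coverQ Q h M hM hk
  have hfin : ∀ n, Module.Finite K ((CQ Q h).dg n) := Rg_fin C _ (Rg_finC Q h)
  have hadm : Adm (CQ Q h).hil := Rg_adm C _ (Rg_finC Q h)
  have hadm' : ∀ s ∈ (Finset.univ : Finset (Fin r)), Adm (fun n => (CQ Q h).hil (n + -w s)) :=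
    fun s _ => N_adm_shift hadm _
  have h1 : ∀ n, M.hil n ≤ ∑ s, (CQ Q h).hil (n + -w s) := by
    intro n
    have h3 := Rg_surj f hf hs n (H_pi_fin w _ hfin n)
    rw [H_pi w _ hfin n] at h3
    simpa [sub_eq_add_neg] using h3
  refine N_bdd_of_le (N_adm_sum Finset.univ hadm') h1 ?_
  exact N_bdd_sum Finset.univ hadm' fun s _ => N_bdd_shift _ C.bdd

/-- The quotient by a left ideal which contains a regular element is small. -/
theorem RG_quo {d : ℕ} {φ : ℝ → ℝ} {Q : Ideal A} {h : HI 𝒜 Q} {h2 : TS Q} (C : Ctx d φ Q h h2)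
    (I : Submodule A (CQ Q h).X) (hI : (CQ Q h).Hom I) {n : ℕ} {s : A} (hs : s ∈ 𝒜 n)
    (hsI : (Submodule.Quotient.mk s : A ⧸ Q) ∈ I) (hreg : ∀ x, x * s ∈ Q → x ∈ Q) :
    Sml φ ((CQ Q h).quo I hI).hil := by
  have hfin : ∀ n, Module.Finite K ((CQ Q h).dg n) := Rg_fin C _ (Rg_finC Q h)
  have hadm : Adm (CQ Q h).hil := Rg_adm C _ (Rg_finC Q h)
  have hs' : s ∈ hA 𝒜 (n : ℤ) := by rwa [hA_nat]
  -- right multiplication by `s`
  have hr := rho_mem Q h h2 hs'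
  have hrI : ∀ x, rho Q h2 s x ∈ I := by
    intro x
    obtain ⟨x, rfl⟩ := Submodule.Quotient.mk_surjective Q x
    rw [rho_mk]
    exact I.smul_mem x hsI
  let g : (CQ Q h).X →ₗ[A] ((CQ Q h).sub I hI).X := LinearMap.codRestrict I (rho Q h2 s) hrI
  have hg : g ∈ Hm (CQ Q h) ((CQ Q h).sub I hI) n := fun m x => Subtype.ext (hr m x)
  have hgi : Function.Injective g := by
    rw [← LinearMap.ker_eq_bot, LinearMap.ker_eq_bot']
    intro x hx
    obtain ⟨x, rfl⟩ := Submodule.Quotient.mk_surjective Q x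
    have h3 : rho Q h2 s (Submodule.Quotient.mk x) = 0 := congrArg Subtype.val hx
    rw [rho_mk] at h3
    have h4 := (Submodule.Quotient.mk_eq_zero Q).1 h3
    exact (Submodule.Quotient.mk_eq_zero Q).2 (hreg x h4)
  have hle : ∀ a, (CQ Q h).hil (a - n) + ((CQ Q h).quo I hI).hil a ≤ (CQ Q h).hil a := by
    intro a
    obtain ⟨S⟩ := SES_quo (CQ Q h) I hI
    have h3 := H_ses S a (hfin a)
    have hsub : Module.Finite K (((CQ Q h).sub I hI).dg (a - n + n)) :=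
      Rg_fin C _ (Rg_sub C _ (Rg_finC Q h) I hI) _
    have h4 := Rg_inj g hg hgi (a - n) hsub
    have h5 : a - (n : ℤ) + n = a := by ring
    rw [h5] at h4
    omega
  have h6 : Sml φ (fun a => (CQ Q h).hil a - (CQ Q h).hil (a - n)) := by
    refine N_quot C.pos hadm (N_adm_of_le hadm fun a => Nat.sub_le _ _) C.bdd n fun a => ?_
    have := hle a
    omega
  refine N_sml_of_le C.pos (N_adm_of_le hadm fun a => Nat.sub_le _ _) (fun a => ?_) h6
  have := hle a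
  omega

/-- An essential left ideal contains a regular element. -/
theorem RG_ess {d : ℕ} {φ : ℝ → ℝ} {Q : Ideal A} {h : HI 𝒜 Q} {h2 : TS Q} (C : Ctx d φ Q h h2)
    (I : Submodule A (CQ Q h).X) (hI : (CQ Q h).Hom I)
    (hess : ∀ J : Submodule A (CQ Q h).X, (CQ Q h).Hom J → I ⊓ J = ⊥ → J = ⊥) :
    ∃ n, ∃ s ∈ 𝒜 n, (Submodule.Quotient.mk s : A ⧸ Q) ∈ I ∧ ∀ x, x * s ∈ Q → x ∈ Q := by
  have hI' : HI 𝒜 (Submodule.comap Q.mkQ I) := by
    intro n x hx
    exact hI n (Submodule.Quotient.mk x) hx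
  have hQI : Q ≤ Submodule.comap Q.mkQ I := by
    intro x hx
    rw [Submodule.mem_comap, Submodule.mkQ_apply, (Submodule.Quotient.mk_eq_zero Q).2 hx]
    exact zero_mem _
  obtain ⟨n, s, hs, hsI, hreg⟩ := G_goldie C.hyp.nl C.hyp.nr C.hyp.conn Q h h2 C.one C.prime
    (Submodule.comap Q.mkQ I) hI' hQI (by
      intro J hJ hQJ hne
      by_contra hcon
      push Not at hcon
      apply hne
      have hJ' : (CQ Q h).Hom (Submodule.map Q.mkQ J) := by
        rintro m _ ⟨x, hx, rfl⟩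
        exact ⟨prA 𝒜 m x, hJ m x hx, rfl⟩
      have h3 := hess (Submodule.map Q.mkQ J) hJ' (by
        rw [eq_bot_iff]
        rintro _ ⟨hx1, ⟨x, hx, rfl⟩⟩
        exact (Submodule.Quotient.mk_eq_zero Q).2 (hcon x ⟨hx1, hx⟩))
      refine le_antisymm ?_ hQJ
      intro x hx
      have h4 : Q.mkQ x ∈ Submodule.map Q.mkQ J := ⟨x, hx, rfl⟩
      rw [h3] at h4
      exact (Submodule.Quotient.mk_eq_zero Q).1 ((Submodule.mem_bot A).1 h4))
  exact ⟨n, s, hs, hsI, hreg⟩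

/-- A left ideal with small quotient contains a regular element. -/
theorem RG_sml {d : ℕ} {φ : ℝ → ℝ} {Q : Ideal A} {h : HI 𝒜 Q} {h2 : TS Q} (C : Ctx d φ Q h h2)
    (I : Submodule A (CQ Q h).X) (hI : (CQ Q h).Hom I) (hs : Sml φ ((CQ Q h).quo I hI).hil) :
    ∃ n, ∃ s ∈ 𝒜 n, (Submodule.Quotient.mk s : A ⧸ Q) ∈ I ∧ ∀ x, x * s ∈ Q → x ∈ Q := by
  refine RG_ess C I hI fun J hJ hIJ => ?_
  by_contra hne
  refine C.big J hJ hne ?_
  have hqf := Rg_quoFin (CQ Q h) (Rg_finC Q h) I hI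
  refine N_sml_of_le C.pos (Rg_adm C _ hqf) (fun a => ?_) hs
  let g : ((CQ Q h).sub J hJ).X →ₗ[A] ((CQ Q h).quo I hI).X := I.mkQ ∘ₗ J.subtype
  have hg : g ∈ Hm ((CQ Q h).sub J hJ) ((CQ Q h).quo I hI) 0 := fun m x => by
    rw [add_zero]
    rfl
  have hgi : Function.Injective g := by
    rw [← LinearMap.ker_eq_bot, LinearMap.ker_eq_bot']
    rintro ⟨x, hx⟩ h3
    have h4 : x ∈ I := (Submodule.Quotient.mk_eq_zero I).1 h3
    have h5 : x ∈ I ⊓ J := ⟨h4, hx⟩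
    rw [hIJ] at h5
    exact Subtype.ext ((Submodule.mem_bot A).1 h5)
  have h6 := Rg_inj g hg hgi a (Rg_fin C _ hqf _)
  rwa [add_zero] at h6

end Pool.Agent.NAS
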