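import Pool.Agent.Lib_helper19.NAS.Defs3
import Pool.Agent.Lib_helper19.NAS.B.Rg
import Pool.Agent.Lib_helper19.NAS.B.Rs
import Pool.Agent.Lib_helper19.NAS.B.V
import Pool.Agent.Lib_helper19.NAS.B.F1
import Pool.Agent.Lib_helper19.NAS.B.Les

/-!
# Ext of small modules is small (MP_ef4bac_al, project NAS, block P1)
-/

set_option autoImplicit false

namespace Pool.Agent.NAS

open Module Filter Topology

universe u

variable {K A : Type u} [Field K] [Ring A] [Algebra K A] {𝒜 : ℕ → Submodule K A}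
  [GradedAlgebra 𝒜]

/-! ### Dimensions in long exact sequences -/

/-- exactness in the middle -/
theorem P1_ex {X Y Z : Type u} [AddCommGroup X] [Module K X] [AddCommGroup Y] [Module K Y]
    [AddCommGroup Z] [Module K Z] (f : X →ₗ[K] Y) (g : Y →ₗ[K] Z)
    (h : LinearMap.range f = LinearMap.ker g) [Module.Finite K X] [Module.Finite K Y]
    [Module.Finite K Z] : finrank K Y ≤ finrank K X + finrank K Z := by
  have h1 := g.finrank_range_add_finrank_ker
  rw [← h] at h1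
  have h2 := f.finrank_range_le
  have h3 : finrank K (LinearMap.range g) ≤ finrank K Z := Submodule.finrank_le _
  omega

theorem P1_mid {L M N : GM 𝒜} (S : SES L M N) (i : ℕ) (a : ℤ) (hL : Module.Finite K (E i L a))
    (hM : Module.Finite K (E i M a)) (hN : Module.Finite K (E i N a)) :
    eE i M a ≤ eE i N a + eE i L a :=
  P1_ex _ _ (LES_m S i a)

theorem P1_right {L M N : GM 𝒜} (S : SES L M N) (i : ℕ) (a : ℤ) (hL : Module.Finite K (E i L a))
    (hM : Module.Finite K (E (i + 1) M a)) (hN : Module.Finite K (E (i + 1) N a)) :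
    eE (i + 1) N a ≤ eE i L a + eE (i + 1) M a := by
  obtain ⟨δ, -, h2⟩ := LES_d S i a
  exact P1_ex _ _ h2

theorem P1_left {L M N : GM 𝒜} (S : SES L M N) (i : ℕ) (a : ℤ) (hL : Module.Finite K (E i L a))
    (hM : Module.Finite K (E i M a)) (hN : Module.Finite K (E (i + 1) N a)) :
    eE i L a ≤ eE i M a + eE (i + 1) N a := by
  obtain ⟨δ, h1, -⟩ := LES_d S i a
  exact P1_ex _ _ h1

theorem P1_right0 {L M N : GM 𝒜} (S : SES L M N) (a : ℤ) (hM : Module.Finite K (E 0 M a)) :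
    eE 0 N a ≤ eE 0 M a :=
  LinearMap.finrank_le_finrank_of_injective (LES_0 S a)

/-- finiteness for finitely generated modules -/
theorem P1_fin {d : ℕ} (H : Hyp 𝒜 d) (M : GM 𝒜) (hM : Module.Finite A M.X) (i : ℕ) (a : ℤ) :
    Module.Finite K (E i M a) := by
  obtain ⟨P, ⟨R⟩⟩ := H.res M hM
  exact RS_fin H.fin R i a

theorem P1_adm {d : ℕ} (H : Hyp 𝒜 d) (M : GM 𝒜) (hM : Module.Finite A M.X) (i : ℕ) :
    Adm (eE i M) := by
  obtain ⟨P, ⟨R⟩⟩ := H.res M hM
  exact RS_adm H.fin H.grow R i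

/-- An isomorphism of degree `w`. -/
theorem P1_shift {M N : GM 𝒜} (e : M.X ≃ₗ[A] N.X) (w : ℤ) (he : (e : M.X →ₗ[A] N.X) ∈ Hm M N w)
    (i : ℕ) (a : ℤ) : eE i N a = eE i M (w + a) := by
  let e' : (GM.pi (fun _ : Fin 1 => w) M).X ≃ₗ[A] N.X := (LinearEquiv.funUnique (Fin 1) A M.X).trans e
  have he' : (e' : (GM.pi (fun _ : Fin 1 => w) M).X →ₗ[A] N.X) ∈
      Hm (GM.pi (fun _ : Fin 1 => w) M) N 0 := by
    intro n x
    have h1 := he (n - w) (x 0)
    rw [sub_add_cancel] at h1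
    rw [add_zero]
    exact h1
  obtain ⟨f⟩ := E_congr e' he' i a
  obtain ⟨g⟩ := E_pi (fun _ : Fin 1 => w) M i a
  unfold eE
  rw [← f.finrank_eq, g.finrank_eq]
  exact (LinearEquiv.funUnique (Fin 1) K (E i M (w + a))).finrank_eq

omit [GradedAlgebra 𝒜] in
theorem P1_surj {M N : GM 𝒜} {a : ℤ} (f : M.X →ₗ[A] N.X) (hf : f ∈ Hm M N a)
    (hs : Function.Surjective f) (n : ℤ) (hM : Module.Finite K (M.dg n)) :
    N.hil (n + a) ≤ M.hil n := by
  let g : M.dg n →ₗ[K] N.dg (n + a) :=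
    (f.restrictScalars K).restrict (p := M.dg n) (q := N.dg (n + a)) (fun x hx => Hm_dg hf hx)
  have hg : Function.Surjective g := by
    rintro ⟨y, hy⟩
    obtain ⟨x, rfl⟩ := hs y
    refine ⟨⟨M.pr n x, M.pr_mem n x⟩, Subtype.ext ?_⟩
    show f (M.pr n x) = f x
    have h1 := hf n x
    rw [h1, GM.pr_dg hy]
  exact LinearMap.finrank_le_finrank_of_surjective hg

/-! ### The largest small submodule -/

omit [GradedAlgebra 𝒜] in
theorem P1_subhil (M : GM 𝒜) (N : Submodule A M.X) (hN : M.Hom N) (n : ℤ) :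
    (M.sub N hN).hil n = finrank K ↥(M.dg n ⊓ N.restrictScalars K) := by
  unfold GM.hil
  have h1 : ∀ x : (M.sub N hN).dg n, Subtype.val (p := fun y => y ∈ N) x.1 ∈
      M.dg n ⊓ N.restrictScalars K := by
    rintro ⟨x, hx⟩
    refine ⟨?_, x.2⟩
    rw [SetLike.mem_coe, GM.mem_dg]
    exact congrArg (Subtype.val (p := fun y => y ∈ N)) (GM.pr_dg hx)
  refine LinearEquiv.finrank_eq (LinearEquiv.ofBijective
    (LinearMap.codRestrict (M.dg n ⊓ N.restrictScalars K)
      ((N.subtype.restrictScalars K) ∘ₗ ((M.sub N hN).dg n).subtype) h1) ⟨?_, ?_⟩)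
  · intro x y hxy
    have h2 := congrArg Subtype.val hxy
    exact Subtype.ext (Subtype.ext h2)
  · rintro ⟨x, hx1, hx2⟩
    refine ⟨⟨⟨x, hx2⟩, ?_⟩, rfl⟩
    rw [GM.mem_dg]
    exact Subtype.ext (GM.pr_dg hx1)

theorem P1_sup {d : ℕ} {φ : ℝ → ℝ} {Q : Ideal A} {h : HI 𝒜 Q} {h2 : TS Q} (C : Ctx d φ Q h h2)
    (M : GM 𝒜) (hM : Module.Finite A M.X) (N N' : Submodule A M.X) (hN : M.Hom N)
    (hN' : M.Hom N') (h1 : Sml φ (M.sub N hN).hil) (h3 : Sml φ (M.sub N' hN').hil) :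
    Sml φ (M.sub (N ⊔ N') (Hom_sup hN hN')).hil := by
  have ha := Rg_adm C _ (Rg_sub C M hM N hN)
  have ha' := Rg_adm C _ (Rg_sub C M hM N' hN')
  refine N_sml_of_le C.pos (N_adm_add ha ha') (fun n => ?_) (N_sml_add ha ha' h1 h3)
  rw [P1_subhil, P1_subhil, P1_subhil]
  have hf : Module.Finite K (M.dg n) := Rg_fin C M hM n
  have hf1 : Module.Finite K ↥(M.dg n ⊓ N.restrictScalars K) :=
    Submodule.finiteDimensional_of_le (S₂ := M.dg n) inf_le_left
  have hf2 : Module.Finite K ↥(M.dg n ⊓ N'.restrictScalars K) :=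
    Submodule.finiteDimensional_of_le (S₂ := M.dg n) inf_le_left
  have hle : M.dg n ⊓ (N ⊔ N').restrictScalars K ≤
      (M.dg n ⊓ N.restrictScalars K) ⊔ (M.dg n ⊓ N'.restrictScalars K) := by
    rintro x ⟨hx1, hx2⟩
    obtain ⟨y, hy, z, hz, rfl⟩ := Submodule.mem_sup.1 hx2
    rw [← GM.pr_dg hx1, map_add]
    exact Submodule.add_mem_sup ⟨M.pr_mem n y, hN n y hy⟩ ⟨M.pr_mem n z, hN' n z hz⟩
  exact (Submodule.finrank_mono hle).trans (Submodule.finrank_add_le_finrank_add_finrank _ _)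

/-- The largest small submodule. -/
theorem P1_large {d : ℕ} {φ : ℝ → ℝ} {Q : Ideal A} {h : HI 𝒜 Q} {h2 : TS Q} (C : Ctx d φ Q h h2)
    (M : GM 𝒜) (hM : Module.Finite A M.X) : ∃ (T : Submodule A M.X) (hT : M.Hom T),
      Sml φ (M.sub T hT).hil ∧ ∀ (N : Submodule A M.X) (hN : M.Hom N),
        Sml φ (M.sub N hN).hil → N ≤ T := by
  have := C.hyp.nl
  have hno : IsNoetherian A M.X := isNoetherian_of_isNoetherianRing_of_finite A M.X
  let S : Set (Submodule A M.X) := {N | ∃ hN : M.Hom N, Sml φ (M.sub N hN).hil}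
  have hbot : (⊥ : Submodule A M.X) ∈ S := by
    have hb : M.Hom (⊥ : Submodule A M.X) := by
      intro n x hx
      rw [(Submodule.mem_bot A).1 hx, map_zero]
      exact zero_mem _
    refine ⟨hb, ?_⟩
    have h1 : (M.sub ⊥ hb).hil = fun _ => 0 := by
      funext n
      rw [P1_subhil]
      have : M.dg n ⊓ (⊥ : Submodule A M.X).restrictScalars K = ⊥ := by
        rw [Submodule.restrictScalars_bot, inf_bot_eq]
      rw [this, finrank_bot]
    rw [h1]
    exact N_sml_zero φ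
  obtain ⟨T, ⟨hT, hTs⟩, hmax⟩ := (wellFounded_gt (α := Submodule A M.X)).has_min S ⟨⊥, hbot⟩
  refine ⟨T, hT, hTs, fun N hN hs => ?_⟩
  have h1 : T ⊔ N ∈ S := ⟨Hom_sup hT hN, P1_sup C M hM T N hT hN hTs hs⟩
  have h3 : ¬ (T < T ⊔ N) := hmax _ h1
  have h4 : T = T ⊔ N := by
    by_contra hne
    exact h3 (lt_of_le_of_ne le_sup_left hne)
  rw [h4]
  exact le_sup_right

/-- Homogeneous elements killed by a regular element are in the largest small submodule. -/
theorem P1_kill {d : ℕ} {φ : ℝ → ℝ} {Q : Ideal A} {h : HI 𝒜 Q} {h2 : TS Q} (C : Ctx d φ Q h h2)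
    (M : GM 𝒜) (hk : Kil Q M) (T : Submodule A M.X)
    (hT : ∀ (N : Submodule A M.X) (hN : M.Hom N), Sml φ (M.sub N hN).hil → N ≤ T)
    (I : Submodule A (CQ Q h).X) (hI : (CQ Q h).Hom I) {n : ℕ} {s : A} (hs : s ∈ 𝒜 n)
    (hsI : I = Submodule.span A {(Submodule.Quotient.mk s : A ⧸ Q)})
    (hreg : ∀ x, x * s ∈ Q → x ∈ Q) {a : ℤ} {v : M.X} (hv : v ∈ M.dg a) (hsv : s • v = 0) :
    v ∈ T := by
  have hN : M.Hom (Submodule.span A {v}) := Hom_span {v} (fun x hx => ⟨a, by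
    rw [Set.mem_singleton_iff.1 hx]
    exact hv⟩)
  refine hT _ hN ?_ (Submodule.mem_span_singleton_self v)
  have hsI' : (Submodule.Quotient.mk s : A ⧸ Q) ∈ I := by
    rw [hsI]
    exact Submodule.mem_span_singleton_self _
  have hsm := RG_quo C I hI hs hsI' hreg
  -- the map from `C/Cs`
  let ψ : (A ⧸ Q) →ₗ[A] M.X := Q.liftQ (LinearMap.toSpanSingleton A M.X v) (fun q hq => hk q hq v)
  have hψ : ∀ x : A, ψ (Submodule.Quotient.mk x) = x • v := fun x => rfl
  have hψI : ∀ x ∈ I, ψ x = 0 := by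
    intro x hx
    rw [hsI] at hx
    obtain ⟨b, rfl⟩ := Submodule.mem_span_singleton.1 hx
    rw [map_smul, hψ, hsv, smul_zero]
  let g : ((CQ Q h).quo I hI).X →ₗ[A] M.X := I.liftQ ψ (fun x hx => hψI x hx)
  have hg : ∀ x : A, g (Submodule.Quotient.mk (Submodule.Quotient.mk x : A ⧸ Q)) = x • v :=
    fun x => rfl
  have hgm : ∀ x, g x ∈ Submodule.span A {v} := by
    intro x
    obtain ⟨x, rfl⟩ := Submodule.Quotient.mk_surjective I x
    obtain ⟨x, rfl⟩ := Submodule.Quotient.mk_surjective Q x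
    rw [hg]
    exact Submodule.smul_mem _ _ (Submodule.mem_span_singleton_self v)
  let g' : ((CQ Q h).quo I hI).X →ₗ[A] (M.sub _ hN).X :=
    LinearMap.codRestrict (Submodule.span A {v}) g hgm
  have hg' : g' ∈ Hm ((CQ Q h).quo I hI) (M.sub _ hN) a := by
    intro m x
    refine Subtype.ext ?_
    obtain ⟨x, rfl⟩ := Submodule.Quotient.mk_surjective I x
    obtain ⟨x, rfl⟩ := Submodule.Quotient.mk_surjective Q x
    refine (hg (prA 𝒜 m x)).trans ?_
    have h4 : M.pr (m + a) (g (Submodule.Quotient.mk (Submodule.Quotient.mk x : A ⧸ Q))) =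
        prA 𝒜 m x • v := by
      rw [hg, Tool_pr_smul x hv, add_sub_cancel_right]
    exact h4.symm
  have hgs : Function.Surjective g' := by
    rintro ⟨y, hy⟩
    obtain ⟨b, rfl⟩ := Submodule.mem_span_singleton.1 hy
    exact ⟨Submodule.Quotient.mk (Submodule.Quotient.mk b : A ⧸ Q), Subtype.ext (hg b)⟩
  have hqf := Rg_quoFin (CQ Q h) (Rg_finC Q h) I hI
  refine N_sml_of_le C.pos (N_adm_shift (Rg_adm C _ hqf) (-a)) (fun m => ?_)
    (N_sml_shift (-a) hsm)
  have h3 := P1_surj g' hg' hgs (m + -a) (Rg_fin C _ hqf _)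
  rwa [neg_add_cancel_right] at h3

variable (𝒜) in
/-- The complex `A(-n) → A` given by `s`. -/
def P1_P (s : A) (n : ℕ) (hs : s ∈ 𝒜 n) : MC 𝒜 where
  n i := match i with
    | 0 => 1
    | 1 => 1
    | _ => 0
  w i _ := match i with
    | 1 => n
    | _ => 0
  D i j _ _ := match i, j with
    | 1, 0 => s
    | _, _ => 0
  deg i j a b := by
    match i, j with
    | 1, 0 =>
      show s ∈ hA 𝒜 ((n : ℤ) - 0)
      rw [sub_zero, hA_nat]
      exact hs
    | 0, _ => exact zero_mem _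
    | 1, _ + 1 => exact zero_mem _
    | _ + 2, _ => exact zero_mem _
  Dne i j hij a b := by
    match i, j with
    | 1, 0 => exact absurd rfl hij
    | 0, _ => rfl
    | 1, _ + 1 => rfl
    | _ + 2, _ => rfl
  DD i a b := Finset.sum_eq_zero fun r _ => zero_mul _

omit [GradedAlgebra 𝒜] in
theorem P1_cod (s : A) (n : ℕ) (hs : s ∈ 𝒜 n) (M : GM 𝒜) (m : Fin 1 → M.X) :
    (P1_P 𝒜 s n hs).cod M 0 m = fun _ => s • m 0 := by
  funext t
  exact (Fin.sum_univ_one (fun t => s • m t))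

/-- The dimension of `E^j` of `P_i/QP_i` for the complex `P` above. -/
theorem P1_dim {Q : Ideal A} (h : HI 𝒜 Q) (h2 : TS Q) (w : Fin 1 → ℤ) (j : ℕ) (a : ℤ) :
    eE j (GM.pi w (CQ Q h)) a = (VV Q h h2 j).hil (w 0 + a) := by
  obtain ⟨f⟩ := E_pi w (CQ Q h) j a
  obtain ⟨g⟩ := V_E Q h h2 j (w 0 + a)
  unfold eE GM.hil
  rw [f.finrank_eq, ← g.finrank_eq]
  exact (LinearEquiv.piUnique K (fun s : Fin 1 => E j (CQ Q h) (w s + a))).finrank_eq

/-- The kernel of multiplication by `s` in terms of `Ext`. -/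
theorem P1_ker {d : ℕ} {φ : ℝ → ℝ} {Q : Ideal A} {h : HI 𝒜 Q} {h2 : TS Q} (C : Ctx d φ Q h h2)
    (I : Submodule A (CQ Q h).X) (hI : (CQ Q h).Hom I) {n : ℕ} {s : A} (hs : s ∈ 𝒜 n)
    (hsI : I = Submodule.span A {(Submodule.Quotient.mk s : A ⧸ Q)})
    (hreg : ∀ x, x * s ∈ Q → x ∈ Q) (j : ℕ) (T : Submodule A (VV Q h h2 j).X)
    (hT : (VV Q h h2 j).Hom T)
    (hmax : ∀ (N : Submodule A (VV Q h h2 j).X) (hN : (VV Q h h2 j).Hom N),
      Sml φ ((VV Q h h2 j).sub N hN).hil → N ≤ T) (a : ℤ) :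
    finrank K (LinearMap.ker (Emap (bdQ (P1_P 𝒜 s n hs) Q h h2 0)
      (bdQ_mem (P1_P 𝒜 s n hs) Q h h2 0) j a)) ≤ ((VV Q h h2 j).sub T hT).hil a := by
  obtain ⟨Θ, hΘ⟩ := V_iso (P1_P 𝒜 s n hs) Q h h2 j a
  have hVf : Module.Finite A (VV Q h h2 j).X := F1 C.hyp Q h h2 j
  have hfin : Module.Finite K ((VV Q h h2 j).dg a) := Rg_fin C _ hVf a
  rw [P1_subhil]
  have hf1 : Module.Finite K ↥((VV Q h h2 j).dg a ⊓ T.restrictScalars K) :=
    Submodule.finiteDimensional_of_le (S₂ := (VV Q h h2 j).dg a) inf_le_left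
  let k := LinearMap.ker (Emap (bdQ (P1_P 𝒜 s n hs) Q h h2 0)
      (bdQ_mem (P1_P 𝒜 s n hs) Q h h2 0) j a)
  -- the value
  let ev : ((P1_P 𝒜 s n hs).Cc (VV Q h h2 j) 0 a) →ₗ[K] (VV Q h h2 j).X :=
    (LinearMap.proj (R := K) (φ := fun _ : Fin 1 => (VV Q h h2 j).X) (0 : Fin 1)) ∘ₗ
      ((P1_P 𝒜 s n hs).Cc (VV Q h h2 j) 0 a).subtype
  let F : k →ₗ[K] (VV Q h h2 j).X := ev ∘ₗ (Θ 0).toLinearMap ∘ₗ k.subtype
  have hev : ∀ x : (P1_P 𝒜 s n hs).Cc (VV Q h h2 j) 0 a, ev x = (x.1 : Fin 1 → (VV Q h h2 j).X) (0 : Fin 1) := fun x => rfl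
  have hdg : ∀ x : (P1_P 𝒜 s n hs).Cc (VV Q h h2 j) 0 a, ev x ∈ (VV Q h h2 j).dg a := by
    intro x
    have h3 : (x.1 : Fin 1 → (VV Q h h2 j).X) (0 : Fin 1) ∈ (VV Q h h2 j).dg (0 + a) :=
      x.2 (0 : Fin 1) (Set.mem_univ _)
    rw [zero_add] at h3
    exact h3
  have hFm : ∀ x : k, F x ∈ (VV Q h h2 j).dg a ⊓ T.restrictScalars K := by
    intro x
    refine ⟨hdg _, ?_⟩
    refine P1_kill C _ (V_kil Q h h2 j) T hmax I hI hs hsI hreg (hdg _) ?_
    have h3 := hΘ 0 x.1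
    have h4 : Emap (bdQ (P1_P 𝒜 s n hs) Q h h2 0) (bdQ_mem (P1_P 𝒜 s n hs) Q h h2 0) j a x.1 = 0 :=
      x.2
    rw [h4, map_zero] at h3
    have h5 := congrFun ((P1_cod s n hs (VV Q h h2 j) (Θ 0 x.1).1).symm.trans h3.symm) (0 : Fin 1)
    exact h5
  have hFi : Function.Injective (LinearMap.codRestrict _ F hFm) := by
    intro x y hxy
    have h3 : ev (Θ 0 x.1) = ev (Θ 0 y.1) := congrArg Subtype.val hxy
    have h4 : Θ 0 x.1 = Θ 0 y.1 := by
      refine Subtype.ext (funext fun t => ?_)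
      have h5 : t = (0 : Fin 1) := Subsingleton.elim (α := Fin 1) _ _
      subst h5
      exact h3
    exact Subtype.ext ((Θ 0).injective h4)
  exact LinearMap.finrank_le_finrank_of_injective hFi

/-- The case of `C/Cs`. -/
theorem P1_cyc {d : ℕ} {φ : ℝ → ℝ} {Q : Ideal A} {h : HI 𝒜 Q} {h2 : TS Q} (C : Ctx d φ Q h h2)
    (I : Submodule A (CQ Q h).X) (hI : (CQ Q h).Hom I) {n : ℕ} {s : A} (hs : s ∈ 𝒜 n)
    (hsI : I = Submodule.span A {(Submodule.Quotient.mk s : A ⧸ Q)})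
    (hreg : ∀ x, x * s ∈ Q → x ∈ Q) (i : ℕ) : Sml φ (eE i ((CQ Q h).quo I hI)) := by
  -- the short exact sequence
  let L : GM 𝒜 := PB (P1_P 𝒜 s n hs) Q h 1
  let M : GM 𝒜 := PB (P1_P 𝒜 s n hs) Q h 0
  let N : GM 𝒜 := (CQ Q h).quo I hI
  let f : L.X →ₗ[A] M.X := bdQ (P1_P 𝒜 s n hs) Q h h2 0
  have hf : f ∈ Hm L M 0 := bdQ_mem (P1_P 𝒜 s n hs) Q h h2 0
  have hfx : ∀ (x : Fin 1 → A ⧸ Q) (t : Fin 1), f x t = rho Q h2 s (x 0) := by
    intro x t
    have h3 := bdQ_apply (P1_P 𝒜 s n hs) Q h h2 0 x t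
    rw [show f x t = bdQ (P1_P 𝒜 s n hs) Q h h2 0 x t from rfl, h3]
    exact (Fin.sum_univ_one (fun r : Fin 1 => rho Q h2 s (x r)))
  let g : M.X →ₗ[A] N.X := I.mkQ ∘ₗ (LinearMap.proj (0 : Fin 1) : (Fin 1 → A ⧸ Q) →ₗ[A] A ⧸ Q)
  have hgx : ∀ x : Fin 1 → A ⧸ Q, g x = Submodule.Quotient.mk (x 0) := fun x => rfl
  have hg : g ∈ Hm M N 0 := by
    intro m x
    rw [add_zero]
    have h3 : M.pr m x = fun t => (CQ Q h).pr (m - 0) ((x : Fin 1 → A ⧸ Q) t) := rfl
    rw [h3, sub_zero]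
    rfl
  have hrinj : ∀ x : A ⧸ Q, rho Q h2 s x = 0 → x = 0 := by
    intro x hx
    obtain ⟨x, rfl⟩ := Submodule.Quotient.mk_surjective Q x
    rw [rho_mk] at hx
    exact (Submodule.Quotient.mk_eq_zero Q).2 (hreg x ((Submodule.Quotient.mk_eq_zero Q).1 hx))
  have hrI : ∀ x : A ⧸ Q, x ∈ I ↔ ∃ y, rho Q h2 s y = x := by
    intro x
    rw [hsI, Submodule.mem_span_singleton]
    constructor
    · rintro ⟨b, rfl⟩
      exact ⟨Submodule.Quotient.mk b, rfl⟩
    · rintro ⟨y, rfl⟩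
      obtain ⟨y, rfl⟩ := Submodule.Quotient.mk_surjective Q y
      exact ⟨y, rfl⟩
  let S : SES L M N :=
    { f := f
      g := g
      hf := hf
      hg := hg
      inj := by
        rw [← LinearMap.ker_eq_bot, LinearMap.ker_eq_bot']
        intro x hx
        funext t
        have h5 : t = (0 : Fin 1) := Subsingleton.elim (α := Fin 1) _ _
        subst h5
        have h6 := congrFun hx (0 : Fin 1)
        exact hrinj _ ((hfx x (0 : Fin 1)).symm.trans h6)
      surj := by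
        intro y
        obtain ⟨y, rfl⟩ := Submodule.Quotient.mk_surjective I y
        exact ⟨fun _ => y, rfl⟩
      ex := by
        ext x
        rw [LinearMap.mem_ker, LinearMap.mem_range]
        have h3 : g x = 0 ↔ (x : Fin 1 → A ⧸ Q) (0 : Fin 1) ∈ I :=
          Submodule.Quotient.mk_eq_zero I
        have h4 : (∃ y, f y = x) ↔ ∃ y, rho Q h2 s y = (x : Fin 1 → A ⧸ Q) (0 : Fin 1) := by
          constructor
          · rintro ⟨y, rfl⟩
            exact ⟨(y : Fin 1 → A ⧸ Q) (0 : Fin 1), (hfx y (0 : Fin 1)).symm⟩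
          · rintro ⟨y, hy⟩
            refine ⟨fun _ => y, ?_⟩
            funext t
            have h5 : t = (0 : Fin 1) := Subsingleton.elim (α := Fin 1) _ _
            subst h5
            exact (hfx (fun _ => y) (0 : Fin 1)).trans hy
        exact h4.trans ((hrI _).symm.trans h3.symm) }
  -- finiteness
  have hNf : Module.Finite A N.X := Rg_quoFin (CQ Q h) (Rg_finC Q h) I hI
  have hpf : ∀ w : Fin 1 → ℤ, Module.Finite A (GM.pi w (CQ Q h)).X := fun w =>
    inferInstanceAs (Module.Finite A (Fin 1 → A ⧸ Q))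
  have hEL : ∀ j a, Module.Finite K (E j L a) := fun j a => P1_fin C.hyp L (hpf _) j a
  have hEM : ∀ j a, Module.Finite K (E j M a) := fun j a => P1_fin C.hyp M (hpf _) j a
  have hEN : ∀ j a, Module.Finite K (E j N a) := fun j a => P1_fin C.hyp N hNf j a
  have hL : ∀ j a, eE j L a = (VV Q h h2 j).hil (n + a) := fun j a => P1_dim h h2 _ j a
  have hM : ∀ j a, eE j M a = (VV Q h h2 j).hil a := fun j a => by
    have h3 := P1_dim h h2 (fun _ : Fin 1 => (0 : ℤ)) j a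
    rw [zero_add] at h3
    exact h3
  -- the numbers
  let k : ℕ → ℤ → ℕ := fun j a => finrank K (LinearMap.ker (Emap f hf j a))
  let r : ℕ → ℤ → ℕ := fun j a => finrank K (LinearMap.range (Emap f hf j a))
  have hkr : ∀ j a, r j a + k j a = (VV Q h h2 j).hil a := fun j a => by
    rw [← hM]
    exact LinearMap.finrank_range_add_finrank_ker _
  have hrl : ∀ j a, r j a ≤ (VV Q h h2 j).hil (n + a) := fun j a => by
    rw [← hL]
    exact Submodule.finrank_le _
  have hVf : ∀ j, Module.Finite A (VV Q h h2 j).X := fun j => F1 C.hyp Q h h2 j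
  have hVa : ∀ j, Adm (VV Q h h2 j).hil := fun j => Rg_adm C _ (hVf j)
  have hka : ∀ j, Adm (k j) := fun j => N_adm_of_le (hVa j) fun a => by
    have := hkr j a
    omega
  have hks : ∀ j, Sml φ (k j) := by
    intro j
    obtain ⟨T, hT, hTs, hmax⟩ := P1_large C _ (hVf j)
    exact N_sml_of_le C.pos (Rg_adm C _ (Rg_sub C _ (hVf j) T hT))
      (fun a => P1_ker C I hI hs hsI hreg j T hT hmax a) hTs
  have hcs : ∀ j, Sml φ (fun a => (VV Q h h2 j).hil a - r j (a - n)) := by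
    intro j
    refine N_kc C.pos (hVa j) (N_adm_of_le (hVa j) fun a => Nat.sub_le _ _) (hka j)
      (RG_bdd C _ (hVf j) (V_kil Q h h2 j)) (hks j) n fun a => ?_
    have h3 := hkr j a
    have h4 := hrl j a
    have h5 : a + (n : ℤ) - n = a := by ring
    have h6 : a + (n : ℤ) = n + a := by ring
    rw [h5, h6]
    omega
  cases i with
  | zero =>
    refine N_sml_of_le C.pos (hka 0) (fun a => ?_) (hks 0)
    have h3 : LinearMap.range (Emap g hg 0 a) = LinearMap.ker (Emap f hf 0 a) := LES_m S 0 a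
    have h4 : Function.Injective (Emap g hg 0 a) := LES_0 S a
    show eE 0 N a ≤ k 0 a
    have h5 := LinearMap.finrank_range_of_inj h4
    rw [h3] at h5
    exact h5.ge
  | succ j =>
    have h7 : ∀ a, eE (j + 1) N a ≤ ((VV Q h h2 j).hil (a + n) - r j (a + n - n)) + k (j + 1) a := by
      intro a
      obtain ⟨δ, h8, h9⟩ := LES_d S j a
      have h8' : LinearMap.range (Emap f hf j a) = LinearMap.ker δ := h8
      have h9' : LinearMap.range δ = LinearMap.ker (Emap g hg (j + 1) a) := h9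
      have h10 : LinearMap.range (Emap g hg (j + 1) a) = LinearMap.ker (Emap f hf (j + 1) a) :=
        LES_m S (j + 1) a
      have h11 := (Emap g hg (j + 1) a).finrank_range_add_finrank_ker
      have h12 := δ.finrank_range_add_finrank_ker
      rw [← h8'] at h12
      rw [h10, ← h9'] at h11
      have h13 : finrank K (E j L a) = (VV Q h h2 j).hil (n + a) := hL j a
      have h5 : a + (n : ℤ) - n = a := by ring
      have h6 : a + (n : ℤ) = n + a := by ring
      rw [h5, h6]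
      show finrank K (E (j + 1) N a) ≤ _
      have h14 : finrank K (LinearMap.range (Emap f hf j a)) = r j a := rfl
      have h15 : finrank K (LinearMap.ker (Emap f hf (j + 1) a)) = k (j + 1) a := rfl
      rw [h14, h13] at h12
      rw [h15] at h11
      omega
    have ha1 : Adm (fun a => (VV Q h h2 j).hil (a + n) - r j (a + n - n)) :=
      N_adm_of_le (N_adm_shift (hVa j) n) fun a => Nat.sub_le _ _
    exact N_sml_of_le C.pos (N_adm_add ha1 (hka (j + 1))) h7
      (N_sml_add ha1 (hka (j + 1)) (N_sml_shift (f := fun a => (VV Q h h2 j).hil a - r j (a - n))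
        n (hcs j)) (hks (j + 1)))

/-! ### Generators -/

theorem P1_zero (M : GM 𝒜) (hs : Subsingleton M.X) (i : ℕ) (a : ℤ) : eE i M a = 0 := by
  have h1 : Function.Bijective ((0 : (GM.pi (fun t : Fin 0 => (t.elim0 : ℤ)) M).X →ₗ[A] M.X)) := by
    constructor
    · intro x y _
      exact funext fun t => t.elim0
    · intro y
      exact ⟨fun t => t.elim0, Subsingleton.elim _ _⟩
  have h2 : ((LinearEquiv.ofBijective _ h1 :
      (GM.pi (fun t : Fin 0 => (t.elim0 : ℤ)) M).X ≃ₗ[A] M.X) :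
      (GM.pi (fun t : Fin 0 => (t.elim0 : ℤ)) M).X →ₗ[A] M.X) ∈
      Hm (GM.pi (fun t : Fin 0 => (t.elim0 : ℤ)) M) M 0 := by
    intro n x
    exact Subsingleton.elim _ _
  obtain ⟨f⟩ := E_congr _ h2 i a
  obtain ⟨g⟩ := E_pi (fun t : Fin 0 => (t.elim0 : ℤ)) M i a
  unfold eE
  rw [← f.finrank_eq, g.finrank_eq]
  exact finrank_zero_of_subsingleton

/-- Induction on the number of generators. -/
theorem P1_dev {d : ℕ} {φ : ℝ → ℝ} {Q : Ideal A} {h : HI 𝒜 Q} {h2 : TS Q} (C : Ctx d φ Q h h2)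
    (i : ℕ) (S : GM 𝒜 → Prop)
    (hsub : ∀ (M : GM 𝒜) (N : Submodule A M.X) (hN : M.Hom N), Module.Finite A M.X → S M →
      S (M.sub N hN))
    (hquo : ∀ (M : GM 𝒜) (N : Submodule A M.X) (hN : M.Hom N), Module.Finite A M.X → S M →
      S (M.quo N hN))
    (hsh : ∀ (M N : GM 𝒜) (w : ℤ) (e : M.X ≃ₗ[A] N.X), (e : M.X →ₗ[A] N.X) ∈ Hm M N w →
      Module.Finite A N.X → S N → S M)
    (hc : ∀ (I : Submodule A (CQ Q h).X) (hI : (CQ Q h).Hom I), S ((CQ Q h).quo I hI) →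
      Sml φ (eE i ((CQ Q h).quo I hI)))
    (M : GM 𝒜) (hM : Module.Finite A M.X) (hk : Kil Q M) (hS : S M) : Sml φ (eE i M) := by
  suffices hr : ∀ (r : ℕ) (M : GM 𝒜) (w : Fin r → ℤ) (g : Fin r → M.X),
      (∀ t, g t ∈ M.dg (w t)) → Submodule.span A (Set.range g) = ⊤ → Kil Q M → S M →
      Sml φ (eE i M) by
    obtain ⟨r, w, g, hg, hs⟩ := gens M hM
    exact hr r M w g hg hs hk hS
  intro r
  induction r with
  | zero =>
    intro M w g hg hs hk hS
    have h1 : Subsingleton M.X := by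
      have h3 : (⊤ : Submodule A M.X) = ⊥ := by
        rw [← hs, Set.range_eq_empty, Submodule.span_empty]
      exact (Submodule.subsingleton_iff A).1 (subsingleton_of_bot_eq_top h3.symm)
    have h4 : eE i M = fun _ => 0 := funext fun a => P1_zero M h1 i a
    rw [h4]
    exact N_sml_zero φ
  | succ r ih =>
    intro M w g hg hs hk hS
    have hM : Module.Finite A M.X := by
      refine ⟨⟨(Set.finite_range g).toFinset, ?_⟩⟩
      rw [Set.Finite.coe_toFinset]
      exact hs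
    have hN : M.Hom (Submodule.span A {g 0}) := Hom_span {g 0} (fun x hx => ⟨w 0, by
      rw [Set.mem_singleton_iff.1 hx]
      exact hg 0⟩)
    have hNf : Module.Finite A (M.sub _ hN).X := Rg_sub C M hM _ hN
    have hqf : Module.Finite A (M.quo _ hN).X := Rg_quoFin M hM _ hN
    have hqk : Kil Q (M.quo _ hN) := by
      intro q hq x
      obtain ⟨x, rfl⟩ := Submodule.Quotient.mk_surjective _ x
      exact congrArg (Submodule.Quotient.mk (p := Submodule.span A {g 0})) (hk q hq x)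
    -- the quotient
    have h1 : Sml φ (eE i (M.quo _ hN)) := by
      refine ih (M.quo _ hN) (fun t => w t.succ) (fun t => Submodule.Quotient.mk (g t.succ)) ?_ ?_
        hqk (hquo M _ hN hM hS)
      · intro t
        rw [GM.mem_dg]
        exact congrArg (Submodule.Quotient.mk (p := Submodule.span A {g 0})) (GM.pr_dg (hg t.succ))
      · rw [eq_top_iff]
        rintro x -
        obtain ⟨x, rfl⟩ := Submodule.Quotient.mk_surjective _ x
        have h3 : x ∈ Submodule.span A (Set.range g) := by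
          rw [hs]
          exact Submodule.mem_top
        induction h3 using Submodule.span_induction with
        | mem x hx =>
          obtain ⟨t, rfl⟩ := hx
          refine Fin.cases ?_ (fun t => ?_) t
          · have h5 : (Submodule.Quotient.mk (g 0) : M.X ⧸ Submodule.span A {g 0}) = 0 :=
              (Submodule.Quotient.mk_eq_zero _).2 (Submodule.mem_span_singleton_self _)
            rw [h5]
            exact zero_mem _
          · exact Submodule.subset_span ⟨t, rfl⟩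
        | zero => exact zero_mem _
        | add x y _ _ hx hy => exact add_mem hx hy
        | smul a x _ hx => exact Submodule.smul_mem _ a hx
    -- the submodule
    let ψ : (A ⧸ Q) →ₗ[A] M.X := Q.liftQ (LinearMap.toSpanSingleton A M.X (g 0))
      (fun q hq => hk q hq (g 0))
    have hψ : ∀ x : A, ψ (Submodule.Quotient.mk x) = x • g 0 := fun x => rfl
    have hψm : ∀ x, ψ x ∈ Submodule.span A {g 0} := by
      intro x
      obtain ⟨x, rfl⟩ := Submodule.Quotient.mk_surjective Q x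
      rw [hψ]
      exact Submodule.smul_mem _ _ (Submodule.mem_span_singleton_self _)
    let χ : (CQ Q h).X →ₗ[A] (M.sub _ hN).X :=
      LinearMap.codRestrict (Submodule.span A {g 0}) ψ hψm
    have hχ : ∀ x : A, χ (Submodule.Quotient.mk x) = ⟨x • g 0, hψm (Submodule.Quotient.mk x)⟩ :=
      fun x => rfl
    have hχm : χ ∈ Hm (CQ Q h) (M.sub _ hN) (w 0) := by
      intro m x
      refine Subtype.ext ?_
      obtain ⟨x, rfl⟩ := Submodule.Quotient.mk_surjective Q x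
      refine (hψ (prA 𝒜 m x)).trans ?_
      have h4 : M.pr (m + w 0) (ψ (Submodule.Quotient.mk x)) = prA 𝒜 m x • g 0 := by
        rw [hψ, Tool_pr_smul x (hg 0), add_sub_cancel_right]
      exact h4.symm
    have hχs : Function.Surjective χ := by
      rintro ⟨y, hy⟩
      obtain ⟨b, rfl⟩ := Submodule.mem_span_singleton.1 hy
      exact ⟨Submodule.Quotient.mk b, rfl⟩
    have hI : (CQ Q h).Hom (LinearMap.ker χ) := ker_hom hχm
    let e : ((CQ Q h).quo (LinearMap.ker χ) hI).X ≃ₗ[A] (M.sub _ hN).X :=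
      χ.quotKerEquivOfSurjective hχs
    have he : (e : ((CQ Q h).quo (LinearMap.ker χ) hI).X →ₗ[A] (M.sub _ hN).X) ∈
        Hm ((CQ Q h).quo (LinearMap.ker χ) hI) (M.sub _ hN) (w 0) := by
      intro m x
      obtain ⟨x, rfl⟩ := Submodule.Quotient.mk_surjective _ x
      exact hχm m x
    have h3 : Sml φ (eE i ((CQ Q h).quo (LinearMap.ker χ) hI)) :=
      hc _ hI (hsh _ _ (w 0) e he hNf (hsub M _ hN hM hS))
    have h4 : Sml φ (eE i (M.sub _ hN)) := by
      have h5 : eE i (M.sub _ hN) =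
          fun a => eE i ((CQ Q h).quo (LinearMap.ker χ) hI) (a + w 0) := by
        funext a
        exact (P1_shift e (w 0) he i a).trans (congrArg _ (add_comm (w 0) a))
      rw [h5]
      exact N_sml_shift (w 0) h3
    obtain ⟨T⟩ := SES_quo M _ hN
    have ha1 := P1_adm C.hyp _ hqf i
    have ha2 := P1_adm C.hyp _ hNf i
    exact N_sml_of_le C.pos (N_adm_add ha1 ha2)
      (fun a => P1_mid T i a (P1_fin C.hyp _ hNf i a) (P1_fin C.hyp _ hM i a)
        (P1_fin C.hyp _ hqf i a)) (N_sml_add ha1 ha2 h1 h4)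

/-! ### Small modules -/

theorem P1_hsub {d : ℕ} {φ : ℝ → ℝ} {Q : Ideal A} {h : HI 𝒜 Q} {h2 : TS Q} (C : Ctx d φ Q h h2)
    (M : GM 𝒜) (N : Submodule A M.X) (hN : M.Hom N) (hM : Module.Finite A M.X)
    (hs : Sml φ M.hil) : Sml φ (M.sub N hN).hil := by
  refine N_sml_of_le C.pos (Rg_adm C M hM) (fun n => ?_) hs
  rw [P1_subhil]
  have hf : Module.Finite K (M.dg n) := Rg_fin C M hM n
  exact Submodule.finrank_mono inf_le_left

theorem P1_hquo {d : ℕ} {φ : ℝ → ℝ} {Q : Ideal A} {h : HI 𝒜 Q} {h2 : TS Q} (C : Ctx d φ Q h h2)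
    (M : GM 𝒜) (N : Submodule A M.X) (hN : M.Hom N) (hM : Module.Finite A M.X)
    (hs : Sml φ M.hil) : Sml φ (M.quo N hN).hil :=
  N_sml_of_le C.pos (Rg_adm C M hM)
    (fun n => Rg_surj N.mkQ (Rg_mkQ M N hN) N.mkQ_surjective n (Rg_fin C M hM n)) hs

theorem P1_hsh {d : ℕ} {φ : ℝ → ℝ} {Q : Ideal A} {h : HI 𝒜 Q} {h2 : TS Q} (C : Ctx d φ Q h h2)
    (M N : GM 𝒜) (w : ℤ) (e : M.X ≃ₗ[A] N.X) (he : (e : M.X →ₗ[A] N.X) ∈ Hm M N w)
    (hN : Module.Finite A N.X) (hs : Sml φ N.hil) : Sml φ M.hil :=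
  N_sml_of_le C.pos (N_adm_shift (Rg_adm C N hN) w)
    (fun n => Rg_inj (e : M.X →ₗ[A] N.X) he e.injective n (Rg_fin C N hN _)) (N_sml_shift w hs)

/-- A short exact sequence with `C/Cs` in the middle. -/
theorem P1_pres {d : ℕ} {φ : ℝ → ℝ} {Q : Ideal A} {h : HI 𝒜 Q} {h2 : TS Q} (C : Ctx d φ Q h h2)
    (I : Submodule A (CQ Q h).X) (hI : (CQ Q h).Hom I) (hIs : Sml φ ((CQ Q h).quo I hI).hil) :
    ∃ L M : GM 𝒜, Nonempty (SES L M ((CQ Q h).quo I hI)) ∧ Module.Finite A L.X ∧ Kil Q L ∧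
      Sml φ L.hil ∧ Module.Finite A M.X ∧ ∀ i, Sml φ (eE i M) := by
  obtain ⟨n, s, hs, hsI, hreg⟩ := RG_sml C I hI hIs
  let J : Submodule A (A ⧸ Q) := Submodule.span A {(Submodule.Quotient.mk s : A ⧸ Q)}
  have hJ : (CQ Q h).Hom J := by
    refine Hom_span (M := CQ Q h) _ fun x hx => ⟨n, ?_⟩
    rw [Set.mem_singleton_iff.1 hx, GM.mem_dg]
    have hs' : s ∈ hA 𝒜 (n : ℤ) := by rwa [hA_nat]
    exact congrArg (Submodule.Quotient.mk (p := Q)) (prA_of_mem hs')
  have hJI : J ≤ I := by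
    rw [Submodule.span_singleton_le_iff_mem]
    exact hsI
  let g : ((CQ Q h).quo J hJ).X →ₗ[A] ((CQ Q h).quo I hI).X := Submodule.factor hJI
  have hg : g ∈ Hm ((CQ Q h).quo J hJ) ((CQ Q h).quo I hI) 0 := by
    intro m x
    obtain ⟨x, rfl⟩ := Submodule.Quotient.mk_surjective J x
    rw [add_zero]
    rfl
  have hgs : Function.Surjective g := Submodule.factor_surjective hJI
  have hMf : Module.Finite A ((CQ Q h).quo J hJ).X := Rg_quoFin (CQ Q h) (Rg_finC Q h) J hJ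
  have hMs : Sml φ ((CQ Q h).quo J hJ).hil :=
    RG_quo C J hJ hs (Submodule.mem_span_singleton_self _) hreg
  refine ⟨_, _, SES_ker g hg hgs, Rg_sub C _ hMf _ _, ?_, P1_hsub C _ _ _ hMf hMs, hMf,
    fun i => P1_cyc C J hJ hs rfl hreg i⟩
  rintro q hq ⟨x, hx⟩
  refine Subtype.ext ?_
  obtain ⟨x, rfl⟩ := Submodule.Quotient.mk_surjective J x
  obtain ⟨x, rfl⟩ := Submodule.Quotient.mk_surjective Q x
  have h3 : (Submodule.Quotient.mk (q * x) : A ⧸ Q) = 0 :=
    (Submodule.Quotient.mk_eq_zero Q).2 (h2 q hq x)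
  exact congrArg (Submodule.Quotient.mk (p := J)) h3

/-- `Ext` of small modules is small. -/
theorem P1 {d : ℕ} {φ : ℝ → ℝ} {Q : Ideal A} {h : HI 𝒜 Q} {h2 : TS Q} (C : Ctx d φ Q h h2)
    (Z : GM 𝒜) (hZ : Module.Finite A Z.X) (hk : Kil Q Z) (hs : Sml φ Z.hil) (i : ℕ) :
    Sml φ (eE i Z) := by
  suffices hi : ∀ (i : ℕ) (Z : GM 𝒜), Module.Finite A Z.X → Kil Q Z → Sml φ Z.hil →
      Sml φ (eE i Z) from hi i Z hZ hk hs
  intro i
  induction i with
  | zero =>
    intro Z hZ hk hs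
    refine P1_dev C 0 (fun M => Sml φ M.hil) (P1_hsub C) (P1_hquo C) (P1_hsh C) ?_ Z hZ hk hs
    intro I hI hIs
    obtain ⟨L, M, ⟨S⟩, -, -, -, hM, hE⟩ := P1_pres C I hI hIs
    exact N_sml_of_le C.pos (P1_adm C.hyp M hM 0)
      (fun a => P1_right0 S a (P1_fin C.hyp M hM 0 a)) (hE 0)
  | succ i ih =>
    intro Z hZ hk hs
    refine P1_dev C (i + 1) (fun M => Sml φ M.hil) (P1_hsub C) (P1_hquo C) (P1_hsh C) ?_ Z hZ hk hs
    intro I hI hIs
    obtain ⟨L, M, ⟨S⟩, hL, hLk, hLs, hM, hE⟩ := P1_pres C I hI hIs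
    have hN : Module.Finite A ((CQ Q h).quo I hI).X := Rg_quoFin (CQ Q h) (Rg_finC Q h) I hI
    exact N_sml_of_le C.pos (N_adm_add (P1_adm C.hyp L hL i) (P1_adm C.hyp M hM (i + 1)))
      (fun a => P1_right S i a (P1_fin C.hyp L hL i a) (P1_fin C.hyp M hM (i + 1) a)
        (P1_fin C.hyp _ hN (i + 1) a))
      (N_sml_add (P1_adm C.hyp L hL i) (P1_adm C.hyp M hM (i + 1)) (ih L hL hLk hLs)
        (hE (i + 1)))

end Pool.Agent.NAS
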