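import Pool.Agent.Lib_helper19.NAS.Defs3
import Pool.Agent.Lib_helper19.NAS.B.P1

/-!
# Ext above b is small (MP_ef4bac_al, project NAS, block P3)
-/

set_option autoImplicit false

namespace Pool.Agent.NAS

open Module Filter Topology

universe u

section linalg

variable {K : Type*} [Field K]

theorem P3_ex_le {U V W : Type*} [AddCommGroup U] [Module K U] [AddCommGroup V] [Module K V]
    [AddCommGroup W] [Module K W] [Module.Finite K U] [Module.Finite K V] [Module.Finite K W]
    (f : U →ₗ[K] V) (g : V →ₗ[K] W) (h : LinearMap.range f = LinearMap.ker g) :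
    finrank K V ≤ finrank K U + finrank K W := by
  have h1 := LinearMap.finrank_range_add_finrank_ker g
  have h2 := LinearMap.finrank_range_le f
  have h3 := Submodule.finrank_le (LinearMap.range g)
  rw [← h] at h1
  omega

end linalg

variable {K A : Type u} [Field K] [Ring A] [Algebra K A] {𝒜 : ℕ → Submodule K A}
  [GradedAlgebra 𝒜]

theorem P3_fin {d : ℕ} (H : Hyp 𝒜 d) (M : GM 𝒜) (hM : Module.Finite A M.X) (i : ℕ) (a : ℤ) :
    Module.Finite K (E i M a) := by
  obtain ⟨G, ⟨R⟩⟩ := H.res M hM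
  exact RS_fin H.fin R i a

theorem P3_adm {d : ℕ} (H : Hyp 𝒜 d) (M : GM 𝒜) (hM : Module.Finite A M.X) (i : ℕ) :
    Adm (eE i M) := by
  obtain ⟨G, ⟨R⟩⟩ := H.res M hM
  exact RS_adm H.fin H.grow R i

/-- The middle term. -/
theorem P3_mid {d : ℕ} {φ : ℝ → ℝ} (H : Hyp 𝒜 d) (pos : ∀ᶠ t in 𝓝[<] (1 : ℝ), 0 < φ t)
    {L M N : GM 𝒜} (hL : Module.Finite A L.X) (hM : Module.Finite A M.X)
    (hN : Module.Finite A N.X) (S : SES L M N) (i : ℕ) (h1 : Sml φ (eE i L))
    (h2 : Sml φ (eE i N)) : Sml φ (eE i M) := by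
  have aL := P3_adm H L hL i
  have aN := P3_adm H N hN i
  refine N_sml_of_le pos (N_adm_add aN aL) (fun a => ?_) (N_sml_add aN aL h2 h1)
  have := P3_fin H L hL i a
  have := P3_fin H M hM i a
  have := P3_fin H N hN i a
  exact P3_ex_le _ _ (LES_m S i a)

/-- The left term. -/
theorem P3_left {d : ℕ} {φ : ℝ → ℝ} (H : Hyp 𝒜 d) (pos : ∀ᶠ t in 𝓝[<] (1 : ℝ), 0 < φ t)
    {L M N : GM 𝒜} (hL : Module.Finite A L.X) (hM : Module.Finite A M.X)
    (hN : Module.Finite A N.X) (S : SES L M N) (i : ℕ) (h1 : Sml φ (eE i M))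
    (h2 : Sml φ (eE (i + 1) N)) : Sml φ (eE i L) := by
  have aM := P3_adm H M hM i
  have aN := P3_adm H N hN (i + 1)
  refine N_sml_of_le pos (N_adm_add aM aN) (fun a => ?_) (N_sml_add aM aN h1 h2)
  have := P3_fin H L hL i a
  have := P3_fin H M hM i a
  have := P3_fin H N hN (i + 1) a
  obtain ⟨δ, h3, -⟩ := LES_d S i a
  exact P3_ex_le _ _ h3

/-- A homogeneous submodule which is maximal among those which meet `I` trivially. -/
theorem P3_max (nl : IsNoetherianRing A) {M : GM 𝒜} (hM : Module.Finite A M.X)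
    (I : Submodule A M.X) :
    ∃ B : Submodule A M.X, M.Hom B ∧ B ⊓ I = ⊥ ∧
      ∀ J : Submodule A M.X, M.Hom J → (I ⊔ B) ⊓ J = ⊥ → J = ⊥ := by
  have hn : IsNoetherian A M.X := isNoetherian_of_isNoetherianRing_of_finite A M.X
  obtain ⟨B, ⟨hB1, hB2⟩, hmax⟩ := set_has_maximal_iff_noetherian.2 hn
    {B : Submodule A M.X | M.Hom B ∧ B ⊓ I = ⊥} ⟨⊥, by
      refine ⟨fun n x hx => ?_, bot_inf_eq _⟩
      rw [(Submodule.mem_bot A).1 hx, map_zero]
      exact zero_mem _⟩
  refine ⟨B, hB1, hB2, fun J hJ hJ2 => ?_⟩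
  have h1 : (B ⊔ J) ⊓ I = ⊥ := by
    rw [eq_bot_iff]
    rintro x ⟨hx, hxI⟩
    obtain ⟨y, hy, z, hz, rfl⟩ := Submodule.mem_sup.1 hx
    have h3 : z ∈ (I ⊔ B) ⊓ J := by
      refine ⟨?_, hz⟩
      have h4 : z = (y + z) + -y := by abel
      rw [h4]
      exact Submodule.add_mem_sup hxI (neg_mem hy)
    rw [hJ2] at h3
    have h4 : z = 0 := (Submodule.mem_bot A).1 h3
    rw [h4, add_zero] at hxI ⊢
    rw [← hB2]
    exact ⟨hy, hxI⟩
  have h2 : ¬ B < B ⊔ J := hmax (B ⊔ J) ⟨Hom_sup hB1 hJ, h1⟩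
  have h3 : J ≤ B := by
    by_contra hh
    exact h2 (left_lt_sup.2 hh)
  rw [← hJ2, eq_comm]
  exact inf_eq_right.2 (h3.trans le_sup_right)

omit [GradedAlgebra 𝒜] in
/-- The exact sequence `0 → B → M/I → M/(I + B) → 0`. -/
theorem P3_ses {M : GM 𝒜} (I B : Submodule A M.X) (hI : M.Hom I) (hB : M.Hom B)
    (hIB : B ⊓ I = ⊥) (hS : M.Hom (I ⊔ B)) :
    Nonempty (SES (M.sub B hB) (M.quo I hI) (M.quo (I ⊔ B) hS)) := by
  refine ⟨{ f := I.mkQ ∘ₗ B.subtype
            g := Submodule.mapQ I (I ⊔ B) LinearMap.id (fun x hx => ?_)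
            hf := fun n x => ?_
            hg := fun n x => ?_
            inj := ?_
            surj := ?_
            ex := ?_ }⟩
  · exact Submodule.mem_sup_left hx
  · rw [add_zero]
    rfl
  · obtain ⟨x, rfl⟩ := Submodule.Quotient.mk_surjective I x
    rw [add_zero]
    rfl
  · refine (injective_iff_map_eq_zero _).2 fun x hx => ?_
    have h1 : (x : M.X) ∈ I := (Submodule.Quotient.mk_eq_zero I).1 hx
    have h2 : (x : M.X) ∈ B ⊓ I := ⟨x.2, h1⟩
    rw [hIB] at h2
    exact Subtype.ext ((Submodule.mem_bot A).1 h2)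
  · intro x
    obtain ⟨x, rfl⟩ := Submodule.Quotient.mk_surjective (I ⊔ B) x
    exact ⟨Submodule.Quotient.mk x, rfl⟩
  · refine le_antisymm ?_ ?_
    · rintro _ ⟨x, rfl⟩
      refine (Submodule.Quotient.mk_eq_zero (I ⊔ B)).2 ?_
      exact Submodule.mem_sup_right x.2
    · intro x hx
      obtain ⟨x, rfl⟩ := Submodule.Quotient.mk_surjective I x
      have h1 : x ∈ I ⊔ B := (Submodule.Quotient.mk_eq_zero (I ⊔ B)).1 hx
      obtain ⟨y, hy, z, hz, rfl⟩ := Submodule.mem_sup.1 h1
      refine ⟨⟨z, hz⟩, ?_⟩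
      refine (Submodule.Quotient.eq I).2 ?_
      show z - (y + z) ∈ I
      have h4 : z - (y + z) = -y := by abel
      rw [h4]
      exact neg_mem hy

/-- The map to the submodule generated by an element of degree `w` of a module killed by `Q`. -/
theorem P3_cyc (Q : Ideal A) (h : HI 𝒜 Q) (M : GM 𝒜) (hk : Kil Q M) {w : ℤ} {g : M.X}
    (hg : g ∈ M.dg w) (hH : M.Hom (Submodule.span A {g})) :
    ∃ (I : Submodule A (CQ Q h).X) (hI : (CQ Q h).Hom I), ∀ (i : ℕ) (a : ℤ),
      eE i (M.sub (Submodule.span A {g}) hH) a = eE i ((CQ Q h).quo I hI) (a + w) := by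
  have hgm : g ∈ Submodule.span A {g} := Submodule.mem_span_singleton_self g
  let g' : Submodule.span A {g} := ⟨g, hgm⟩
  let ψ : (CQ Q h).X →ₗ[A] (M.sub (Submodule.span A {g}) hH).X :=
    Submodule.liftQ Q (LinearMap.toSpanSingleton A _ g') (fun q hq => Subtype.ext (hk q hq g))
  have hψ : ψ ∈ Hm (CQ Q h) (M.sub (Submodule.span A {g}) hH) w := by
    refine mem_Hm_of_dg fun n x hx => ?_
    obtain ⟨c, hc⟩ := Submodule.Quotient.mk_surjective Q x
    have hx1 : (CQ Q h).pr n x = x := GM.pr_dg hx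
    have hx2 : (Submodule.Quotient.mk (prA 𝒜 n c) : A ⧸ Q) = x := by
      rw [← hx1, ← hc]
      rfl
    rw [← hx2]
    refine GM.mem_dg.2 (Subtype.ext ?_)
    show M.pr (n + w) (prA 𝒜 n c • g) = prA 𝒜 n c • g
    exact GM.pr_dg (GM.smul_mem_dg (prA_mem n c) hg)
  have hs : Function.Surjective ψ := by
    rintro ⟨x, hx⟩
    obtain ⟨a, rfl⟩ := Submodule.mem_span_singleton.1 hx
    exact ⟨Submodule.Quotient.mk a, rfl⟩
  refine ⟨LinearMap.ker ψ, ker_hom hψ, fun i a => ?_⟩
  let N : GM 𝒜 := (CQ Q h).quo (LinearMap.ker ψ) (ker_hom hψ)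
  let e1 : N.X ≃ₗ[A] (M.sub (Submodule.span A {g}) hH).X := ψ.quotKerEquivOfSurjective hs
  let e : (GM.pi (fun _ : Fin 1 => w) N).X ≃ₗ[A] (M.sub (Submodule.span A {g}) hH).X :=
    (LinearEquiv.funUnique (Fin 1) A N.X).trans e1
  have he : (e : (GM.pi (fun _ : Fin 1 => w) N).X →ₗ[A] (M.sub (Submodule.span A {g}) hH).X) ∈
      Hm (GM.pi (fun _ : Fin 1 => w) N) (M.sub (Submodule.span A {g}) hH) 0 := by
    intro n x
    show e1 (N.pr (n - w) (x 0)) = (M.sub (Submodule.span A {g}) hH).pr (n + 0) (e1 (x 0))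
    obtain ⟨y, hy⟩ := Submodule.Quotient.mk_surjective (LinearMap.ker ψ) (x 0)
    rw [← hy]
    have h3 := hψ (n - w) y
    rw [sub_add_cancel] at h3
    rw [add_zero]
    exact h3
  obtain ⟨e2⟩ := E_congr e he i a
  obtain ⟨e3⟩ := E_pi (fun _ : Fin 1 => w) N i a
  have h4 := (e2.symm.trans e3).finrank_eq
  have h5 : eE i (M.sub (Submodule.span A {g}) hH) a = finrank K (∀ _ : Fin 1, E i N (w + a)) := h4
  rw [h5, (LinearEquiv.funUnique (Fin 1) K (E i N (w + a))).finrank_eq, add_comm w a]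
  rfl

theorem P3_aux {d : ℕ} {φ : ℝ → ℝ} {Q : Ideal A} {h : HI 𝒜 Q} {h2 : TS Q} (C : Ctx d φ Q h h2)
    (b : ℕ) (hb : ∀ j, b < j → Sml φ (VV Q h h2 j).hil) (i : ℕ) (hi : b < i)
    (ih : ∀ M : GM 𝒜, Module.Finite A M.X → Kil Q M → Sml φ (eE (i + 1) M)) (r : ℕ) :
    ∀ (M : GM 𝒜), Module.Finite A M.X → Kil Q M → ∀ (w : Fin r → ℤ) (g : Fin r → M.X),
      (∀ j, g j ∈ M.dg (w j)) → Submodule.span A (Set.range g) = ⊤ → Sml φ (eE i M) := by
  have nl := C.hyp.nl
  have hC : Module.Finite A (CQ Q h).X := inferInstanceAs (Module.Finite A (A ⧸ Q))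
  have hCk : Kil Q (CQ Q h) := by
    intro q hq x
    obtain ⟨x, rfl⟩ := Submodule.Quotient.mk_surjective Q x
    exact (Submodule.Quotient.mk_eq_zero Q).2 (h2 q hq x)
  have hCq : ∀ (I : Submodule A (CQ Q h).X) (hI : (CQ Q h).Hom I),
      Module.Finite A ((CQ Q h).quo I hI).X := fun I hI =>
    inferInstanceAs (Module.Finite A ((CQ Q h).X ⧸ I))
  have hCqk : ∀ (I : Submodule A (CQ Q h).X) (hI : (CQ Q h).Hom I),
      Kil Q ((CQ Q h).quo I hI) := by
    intro I hI q hq x
    obtain ⟨x, rfl⟩ := Submodule.Quotient.mk_surjective I x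
    have h3 := congrArg (Submodule.Quotient.mk (p := I)) (hCk q hq x)
    exact h3
  have hnC : IsNoetherian A (CQ Q h).X := isNoetherian_of_isNoetherianRing_of_finite A _
  have hCs : ∀ (B : Submodule A (CQ Q h).X) (hB : (CQ Q h).Hom B),
      Module.Finite A ((CQ Q h).sub B hB).X := fun B hB =>
    inferInstanceAs (Module.Finite A B)
  -- left ideals
  have stepA : ∀ (B : Submodule A (CQ Q h).X) (hB : (CQ Q h).Hom B),
      Sml φ (eE i ((CQ Q h).sub B hB)) := by
    intro B hB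
    obtain ⟨S⟩ := SES_quo (CQ Q h) B hB
    have h3 : eE i (CQ Q h) = (VV Q h h2 i).hil := by
      funext a
      obtain ⟨e⟩ := V_E Q h h2 i a
      exact e.finrank_eq
    refine P3_left C.hyp C.pos (hCs B hB) hC (hCq B hB) S i ?_ (ih _ (hCq B hB) (hCqk B hB))
    rw [h3]
    exact hb i hi
  -- cyclic modules
  have stepB : ∀ (I : Submodule A (CQ Q h).X) (hI : (CQ Q h).Hom I),
      Sml φ (eE i ((CQ Q h).quo I hI)) := by
    intro I hI
    obtain ⟨B, hB, hBI, hess⟩ := P3_max nl hC I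
    have hS : (CQ Q h).Hom (I ⊔ B) := Hom_sup hI hB
    obtain ⟨n, s, hs, hsI, hreg⟩ := RG_ess C (I ⊔ B) hS hess
    have h3 := RG_quo C (I ⊔ B) hS hs hsI hreg
    have h4 := P1 C _ (hCq (I ⊔ B) hS) (hCqk (I ⊔ B) hS) h3 i
    obtain ⟨S⟩ := P3_ses I B hI hB hBI hS
    exact P3_mid C.hyp C.pos (hCs B hB) (hCq I hI) (hCq _ hS) S i (stepA B hB) h4
  induction r with
  | zero =>
    intro M _ _ w g _ hsp
    have h3 : Subsingleton M.X := by
      have h4 : Set.range g = ∅ := Set.range_eq_empty g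
      rw [h4, Submodule.span_empty] at hsp
      exact (Submodule.subsingleton_iff A).1 (subsingleton_of_bot_eq_top hsp)
    have h5 : eE i M = fun _ => 0 := by
      funext a
      have h6 : Subsingleton (E i M a) := by
        refine ⟨fun x y => ?_⟩
        obtain ⟨x, rfl⟩ := Submodule.Quotient.mk_surjective _ x
        obtain ⟨y, rfl⟩ := Submodule.Quotient.mk_surjective _ y
        have : x = y := Subtype.ext (LinearMap.ext fun z => by
          rw [h3.elim z 0, map_zero, map_zero])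
        rw [this]
      exact Module.finrank_zero_of_subsingleton
    rw [h5]
    exact N_sml_zero φ
  | succ r ihr =>
    intro M hM hk w g hg hsp
    have hH : M.Hom (Submodule.span A {g 0}) := Hom_span _ (fun x hx => by
      rw [Set.mem_singleton_iff] at hx
      rw [hx]
      exact ⟨w 0, hg 0⟩)
    have hnM : IsNoetherian A M.X := isNoetherian_of_isNoetherianRing_of_finite A _
    have f1 : Module.Finite A (M.sub (Submodule.span A {g 0}) hH).X :=
      inferInstanceAs (Module.Finite A (Submodule.span A {g 0}))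
    have f2 : Module.Finite A (M.quo (Submodule.span A {g 0}) hH).X :=
      inferInstanceAs (Module.Finite A (M.X ⧸ Submodule.span A {g 0}))
    obtain ⟨S⟩ := SES_quo M (Submodule.span A {g 0}) hH
    refine P3_mid C.hyp C.pos f1 hM f2 S i ?_ ?_
    · obtain ⟨I, hI, h3⟩ := P3_cyc Q h M hk (hg 0) hH
      have h4 : eE i (M.sub (Submodule.span A {g 0}) hH) =
          fun a => eE i ((CQ Q h).quo I hI) (a + w 0) := funext fun a => h3 i a
      rw [h4]
      exact N_sml_shift (w 0) (stepB I hI)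
    · refine ihr _ f2 ?_ (fun j => w j.succ)
        (fun j => Submodule.Quotient.mk (g j.succ)) (fun j => ?_) ?_
      · intro q hq x
        obtain ⟨x, rfl⟩ := Submodule.Quotient.mk_surjective _ x
        have h3 := congrArg (Submodule.Quotient.mk (p := Submodule.span A {g 0})) (hk q hq x)
        exact h3
      · refine GM.mem_dg.2 ?_
        have h3 := congrArg (Submodule.Quotient.mk (p := Submodule.span A {g 0}))
          (GM.pr_dg (hg j.succ))
        exact h3
      · rw [eq_top_iff]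
        intro x _
        obtain ⟨x, rfl⟩ := Submodule.Quotient.mk_surjective _ x
        have hx : x ∈ Submodule.span A (Set.range g) := by rw [hsp]; exact Submodule.mem_top
        induction hx using Submodule.span_induction with
        | mem x hx =>
          obtain ⟨j, rfl⟩ := hx
          refine Fin.cases ?_ (fun j => ?_) j
          · have h3 : (Submodule.Quotient.mk (g 0) : M.X ⧸ Submodule.span A {g 0}) = 0 :=
              (Submodule.Quotient.mk_eq_zero _).2 (Submodule.mem_span_singleton_self _)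
            rw [h3]
            exact zero_mem _
          · exact Submodule.subset_span ⟨j, rfl⟩
        | zero => exact zero_mem _
        | add x y _ _ hx hy =>
          rw [Submodule.Quotient.mk_add]
          exact add_mem (hx trivial) (hy trivial)
        | smul a x _ hx =>
          rw [Submodule.Quotient.mk_smul]
          exact Submodule.smul_mem _ _ (hx trivial)

theorem P3 {d : ℕ} {φ : ℝ → ℝ} {Q : Ideal A} {h : HI 𝒜 Q} {h2 : TS Q} (C : Ctx d φ Q h h2)
    (b : ℕ) (hb : ∀ j, b < j → Sml φ (VV Q h h2 j).hil) (M : GM 𝒜) (hM : Module.Finite A M.X)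
    (hk : Kil Q M) (i : ℕ) (hi : b < i) : Sml φ (eE i M) := by
  have key : ∀ n : ℕ, ∀ i : ℕ, b < i → d + 1 ≤ i + n → ∀ M : GM 𝒜, Module.Finite A M.X →
      Kil Q M → Sml φ (eE i M) := by
    intro n
    induction n with
    | zero =>
      intro i _ hi2 M hM _
      obtain ⟨G, ⟨R⟩⟩ := C.hyp.res M hM
      have h1 : eE i M = fun _ => 0 := by
        funext a
        have := RS_van R i (by omega) a
        exact Module.finrank_zero_of_subsingleton
      rw [h1]
      exact N_sml_zero φ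
    | succ n ih =>
      intro i hi1 hi2 M hM hk
      obtain ⟨r, w, g, hg, hsp⟩ := gens M hM
      exact P3_aux C b hb i hi1 (ih (i + 1) (by omega) (by omega)) r M hM hk w g hg hsp
  exact key (d + 1) i hi (by omega) M hM hk

end Pool.Agent.NAS
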