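import Pool.Agent.Lib_helper19.NAS.Defs3
import Pool.Agent.Lib_helper19.NAS.B.Hil
import Pool.Agent.Lib_helper19.FLG.Main

/-!
# Without small left ideals (MP_ef4bac_al, project NAS, block S0)
-/

set_option autoImplicit false

namespace Pool.Agent.NAS

open Module Filter Topology

universe u

variable {K A : Type u} [Field K] [Ring A] [Algebra K A] {𝒜 : ℕ → Submodule K A}
  [GradedAlgebra 𝒜]

theorem S0_HI {Q : Ideal A} : HI 𝒜 Q ↔ Q.IsHomogeneous 𝒜 := by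
  constructor
  · intro h i x hx
    have h1 := h (i : ℤ) x hx
    have h2 : (AsA 𝒜).pr (i : ℤ) x = (DirectSum.decompose 𝒜 x i : A) := prA_nat 𝒜 i x
    rwa [h2] at h1
  · intro h n x hx
    rcases le_or_gt 0 n with h0 | h0
    · lift n to ℕ using h0
      have h2 : (AsA 𝒜).pr (n : ℤ) x = (DirectSum.decompose 𝒜 x n : A) := prA_nat 𝒜 n x
      rw [h2]
      exact h n hx
    · have h2 : (AsA 𝒜).pr n x = 0 := prA_neg 𝒜 h0 x
      rw [h2]
      exact zero_mem _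

/-- The components of a homogeneous ideal. -/
theorem S0_dg (P : Ideal A) (hP : HI 𝒜 P) (n : ℤ) (x : P) :
    x ∈ ((AsA 𝒜).sub P hP).dg n ↔ (x : A) ∈ hA 𝒜 n := by
  rw [GM.mem_dg, ← prA_dg, GM.mem_dg]
  constructor
  · intro h
    exact congrArg Subtype.val h
  · intro h
    exact Subtype.ext h

theorem S0_hil (P : Ideal A) (hP : HI 𝒜 P) (n : ℕ) :
    ((AsA 𝒜).sub P hP).hil n = FLG.hd 𝒜 P n := by
  unfold GM.hil FLG.hd
  let ι : P →ₗ[K] A := P.subtype.restrictScalars K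
  have hι : Function.Injective ι := P.injective_subtype
  have h1 : (((AsA 𝒜).sub P hP).dg n).map ι = FLG.pc 𝒜 P n := by
    ext x
    rw [FLG.mem_pc]
    constructor
    · rintro ⟨y, hy, rfl⟩
      have h2 := (S0_dg P hP n y).1 hy
      rw [hA_nat] at h2
      exact ⟨y.2, h2⟩
    · rintro ⟨h2, h3⟩
      refine ⟨⟨x, h2⟩, (S0_dg P hP n _).2 ?_, rfl⟩
      rw [hA_nat]
      exact h3
  rw [← h1]
  exact (Submodule.equivMapOfInjective ι hι _).finrank_eq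

theorem S0_neg (P : Ideal A) (hP : HI 𝒜 P) {n : ℤ} (hn : n < 0) :
    ((AsA 𝒜).sub P hP).hil n = 0 := by
  unfold GM.hil
  have h1 : ((AsA 𝒜).sub P hP).dg n = ⊥ := by
    rw [eq_bot_iff]
    intro x hx
    have h2 := (S0_dg P hP n x).1 hx
    rw [hA_neg hn] at h2
    exact (Submodule.mem_bot K).2 (Subtype.ext ((Submodule.mem_bot K).1 h2))
  rw [h1]
  exact finrank_bot K _

theorem S0_hilA (n : ℕ) : (AsA 𝒜).hil n = FLG.hd 𝒜 ⊤ n := by
  unfold GM.hil FLG.hd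
  have h1 : (AsA 𝒜).dg n = FLG.pc 𝒜 ⊤ n := by
    ext x
    rw [FLG.mem_pc, prA_dg, hA_nat]
    exact ⟨fun h => ⟨Submodule.mem_top, h⟩, fun h => h.2⟩
  rw [h1]

theorem S0_negA {n : ℤ} (hn : n < 0) : (AsA 𝒜).hil n = 0 := by
  unfold GM.hil
  have h1 : (AsA 𝒜).dg n = ⊥ := by
    rw [eq_bot_iff]
    intro x hx
    rw [prA_dg, hA_neg hn] at hx
    exact hx
  rw [h1]
  exact finrank_bot K _

/-- The Hilbert series as a sum over the natural numbers. -/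
theorem S0_HH {f : ℤ → ℕ} (hf : ∀ n < 0, f n = 0) (t : ℝ) :
    HH f t = FLG.H (fun n : ℕ => (f (n : ℤ) : ℝ)) t := by
  unfold HH FLG.H
  have h1 := Function.Injective.tsum_eq (g := fun n : ℕ => (n : ℤ)) Nat.cast_injective
    (f := fun a : ℤ => (f a : ℝ) * t ^ a) (by
      intro a ha
      rcases lt_or_ge a 0 with h | h
      · exact absurd (by simp [hf a h]) ha
      · exact ⟨a.toNat, Int.toNat_of_nonneg h⟩)
  rw [← h1]
  refine tsum_congr fun n => ?_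
  rw [zpow_natCast]

theorem S0_HP (P : Ideal A) (hP : HI 𝒜 P) (t : ℝ) :
    HH ((AsA 𝒜).sub P hP).hil t = FLG.HP 𝒜 P t := by
  rw [S0_HH (fun n hn => S0_neg P hP hn)]
  unfold FLG.HP FLG.hf
  simp only [S0_hil]

theorem S0_HPA (t : ℝ) : HH (AsA 𝒜).hil t = FLG.HP 𝒜 ⊤ t := by
  rw [S0_HH (fun n hn => S0_negA hn)]
  unfold FLG.HP FLG.hf
  simp only [S0_hilA]

theorem S0 {d : ℕ} (H : Hyp 𝒜 d) (hp : ∀ (N : Ideal A) (hN : HI 𝒜 N), N ≠ ⊥ →
    ¬ Sml (HH (AsA 𝒜).hil) ((AsA 𝒜).sub N hN).hil) : IsDomain A := by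
  have hfin := H.fin
  have hnl := H.nl
  have hnt : Nontrivial A := ⟨⟨1, 0, H.nt⟩⟩
  have hg : FLG.Poly (FLG.hf 𝒜 ⊤) := by
    obtain ⟨C, m, hC⟩ := H.grow
    refine ⟨C, m, fun s => ?_⟩
    rw [abs_of_nonneg (FLG.hf_nonneg 𝒜 ⊤ s)]
    unfold FLG.hf FLG.hd
    have h1 : FLG.pc 𝒜 ⊤ s = 𝒜 s := by
      ext x
      simp [FLG.mem_pc]
    rw [h1]
    exact_mod_cast hC s
  have hpure : FLG.Pure 𝒜 ⊥ := by
    intro P hP _ hsm
    by_contra hne
    apply hp P (S0_HI.2 hP) hne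
    unfold FLG.Sm at hsm
    unfold Sml
    refine hsm.congr fun t => ?_
    rw [S0_HP, S0_HPA, FLG.HP_bot, sub_zero, sub_zero]
  exact FLG.all_domain (𝒜 := 𝒜) fun a b i j _ hb hab =>
    FLG.homog_domain hg H.conn H.gd hpure hb hab

end Pool.Agent.NAS
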