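import Pool.Agent.Lib_helper19.NAS.Defs3
import Pool.Agent.Lib_helper19.NAS.B.P3
import Pool.Agent.Lib_helper19.NAS.B.D

/-!
# All V_j with j > 0 are small (MP_ef4bac_al, project NAS, block S7)
-/

set_option autoImplicit false

namespace Pool.Agent.NAS

open Module Filter Topology

universe u

section linalg

variable {K : Type*} [Field K]

theorem S7_ex_le {U V W : Type*} [AddCommGroup U] [Module K U] [AddCommGroup V] [Module K V]
    [AddCommGroup W] [Module K W] [Module.Finite K U] [Module.Finite K V] [Module.Finite K W]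
    (f : U →ₗ[K] V) (g : V →ₗ[K] W) (h : LinearMap.range f = LinearMap.ker g) :
    finrank K V ≤ finrank K U + finrank K W := by
  have h1 := LinearMap.finrank_range_add_finrank_ker g
  have h2 := LinearMap.finrank_range_le f
  have h3 := Submodule.finrank_le (LinearMap.range g)
  rw [← h] at h1
  omega

end linalg

variable {K A : Type u} [Field K] [Ring A] [Algebra K A] {𝒜 : ℕ → Submodule K A}
  [GradedAlgebra 𝒜]

theorem S7_pi_eE {k : ℕ} (w : Fin k → ℤ) (M : GM 𝒜) (i : ℕ)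
    (hf : ∀ a, Module.Finite K (E i M a)) (a : ℤ) :
    eE i (GM.pi w M) a = ∑ s, eE i M (a + w s) := by
  obtain ⟨e⟩ := E_pi w M i a
  have h1 : eE i (GM.pi w M) a = finrank K (∀ s, E i M (w s + a)) := e.finrank_eq
  have : ∀ s, Module.Finite K (E i M (w s + a)) := fun s => hf _
  have : ∀ s, Module.Free K (E i M (w s + a)) := fun s => Module.Free.of_divisionRing K _
  rw [h1, Module.finrank_pi_fintype]
  refine Finset.sum_congr rfl fun s _ => ?_
  show finrank K (E i M (w s + a)) = finrank K (E i M (a + w s))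
  rw [add_comm]

theorem S7_V_hil (Q : Ideal A) (h : HI 𝒜 Q) (h2 : TS Q) (j : ℕ) (a : ℤ) :
    eE j (CQ Q h) a = (VV Q h h2 j).hil a := by
  obtain ⟨e⟩ := V_E Q h h2 j a
  exact e.finrank_eq

theorem S7_CQ_fin (Q : Ideal A) (h : HI 𝒜 Q) : Module.Finite A (CQ Q h).X :=
  inferInstanceAs (Module.Finite A (A ⧸ Q))

/-- Step 6. -/
theorem S6 {d : ℕ} {φ : ℝ → ℝ} {Q : Ideal A} {h : HI 𝒜 Q} {h2 : TS Q} (C : Ctx d φ Q h h2)
    (b : ℕ) (hb : ∀ j, b < j → Sml φ (VV Q h h2 j).hil) (hn : ¬ Sml φ (VV Q h h2 b).hil) :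
    ¬ Sml φ (eE b (VV Q h h2 0)) := by
  intro hs
  apply hn
  obtain ⟨k, w, f, hf, hi⟩ := C.emb
  have hV : Module.Finite A (VV Q h h2 0).X := F1 C.hyp Q h h2 0
  have hP : Module.Finite A (GM.pi w (VV Q h h2 0)).X :=
    inferInstanceAs (Module.Finite A (Fin k → (VV Q h h2 0).X))
  obtain ⟨G0, ⟨R0⟩⟩ := C.hyp.res _ hV
  obtain ⟨GP, ⟨RP⟩⟩ := C.hyp.res _ hP
  obtain ⟨GC, ⟨RC⟩⟩ := C.hyp.res _ (S7_CQ_fin Q h)
  set N : GM 𝒜 := (GM.pi w (VV Q h h2 0)).quo (LinearMap.range f) (range_hom hf) with hN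
  have hNf : Module.Finite A N.X :=
    inferInstanceAs (Module.Finite A ((GM.pi w (VV Q h h2 0)).X ⧸ LinearMap.range f))
  obtain ⟨GN, ⟨RN⟩⟩ := C.hyp.res _ hNf
  have hNk : Kil Q N := by
    intro q hq x
    obtain ⟨x, rfl⟩ := Submodule.Quotient.mk_surjective (LinearMap.range f) x
    have h1 : q • x = 0 := funext fun s => V_kil Q h h2 0 q hq (x s)
    have h3 := congrArg (Submodule.Quotient.mk (p := LinearMap.range f)) h1
    exact h3
  let S : SES (CQ Q h) (GM.pi w (VV Q h h2 0)) N :=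
    { f := f
      g := (LinearMap.range f).mkQ
      hf := hf
      hg := fun n x => by rw [add_zero]; rfl
      inj := hi
      surj := Submodule.mkQ_surjective _
      ex := (Submodule.ker_mkQ _).symm }
  have hsN : Sml φ (eE (b + 1) N) := P3 C b hb N hNf hNk (b + 1) (Nat.lt_succ_self b)
  have fV := RS_fin C.hyp.fin R0
  have fP := RS_fin C.hyp.fin RP
  have fC := RS_fin C.hyp.fin RC
  have fN := RS_fin C.hyp.fin RN
  have aV := RS_adm C.hyp.fin C.hyp.grow R0
  have aN := RS_adm C.hyp.fin C.hyp.grow RN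
  have ad : Adm (fun a => (∑ s, eE b (VV Q h h2 0) (a + w s)) + eE (b + 1) N a) :=
    N_adm_add (N_adm_sum _ fun s _ => N_adm_shift (aV b) (w s)) (aN (b + 1))
  refine N_sml_of_le C.pos ad ?_ (N_sml_add (N_adm_sum _ fun s _ => N_adm_shift (aV b) (w s))
    (aN (b + 1)) (N_sml_sum _ (fun s _ => N_adm_shift (aV b) (w s))
      (fun s _ => N_sml_shift (w s) hs)) hsN)
  intro a
  rw [← S7_V_hil Q h h2 b a, ← S7_pi_eE w _ b (fV b) a]
  obtain ⟨δ, h1, -⟩ := LES_d S b a
  have := fP b a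
  have := fC b a
  have := fN (b + 1) a
  exact S7_ex_le _ _ h1

/-- Step 7. -/
theorem S7 {d : ℕ} {φ : ℝ → ℝ} {Q : Ideal A} {h : HI 𝒜 Q} {h2 : TS Q} (C : Ctx d φ Q h h2)
    (j : ℕ) (hj : 1 ≤ j) : Sml φ (VV Q h h2 j).hil := by
  classical
  have hd : ∀ j, d < j → Sml φ (VV Q h h2 j).hil := by
    intro j hj
    obtain ⟨GC, ⟨RC⟩⟩ := C.hyp.res _ (S7_CQ_fin Q h)
    have h1 : (VV Q h h2 j).hil = fun _ => 0 := by
      funext a
      rw [← S7_V_hil Q h h2 j a]
      have := RS_van RC j hj a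
      exact Module.finrank_zero_of_subsingleton
    rw [h1]
    exact N_sml_zero φ
  by_contra hn
  -- the largest bad index
  let b := Nat.findGreatest (fun i => ¬ Sml φ (VV Q h h2 i).hil) d
  have hjd : j ≤ d := by
    by_contra hh
    exact hn (hd j (by omega))
  have hbn : ¬ Sml φ (VV Q h h2 b).hil :=
    Nat.findGreatest_spec (P := fun i => ¬ Sml φ (VV Q h h2 i).hil) hjd hn
  have hjb : j ≤ b := Nat.le_findGreatest hjd hn
  have hbd : b ≤ d := Nat.findGreatest_le d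
  have hb : ∀ i, b < i → Sml φ (VV Q h h2 i).hil := by
    intro i hi
    by_cases hid : i ≤ d
    · have := Nat.findGreatest_is_greatest hi hid
      exact not_not.1 this
    · exact hd i (by omega)
  apply S6 C b hb hbn
  have hV : ∀ l, Module.Finite A (VV Q h h2 l).X := fun l => F1 C.hyp Q h h2 l
  have aV : ∀ l i, Adm (eE i (VV Q h h2 l)) := by
    intro l i
    obtain ⟨G, ⟨R⟩⟩ := C.hyp.res _ (hV l)
    exact RS_adm C.hyp.fin C.hyp.grow R i
  refine N_sml_of_le C.pos (N_adm_sum _ fun l _ => aV (l + 1) (b + 2 + l))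
    (fun a => DD C.hyp Q h h2 b (le_trans hj hjb) hbd a)
    (N_sml_sum _ (fun l _ => aV (l + 1) (b + 2 + l)) fun l _ => ?_)
  exact P3 C b hb _ (hV (l + 1)) (V_kil Q h h2 (l + 1)) _ (by omega)

end Pool.Agent.NAS
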