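import Pool.Agent.Lib_helper19.NAS.Defs3
import Pool.Agent.Lib_helper19.NAS.B.Rg
import Pool.Agent.Lib_helper19.NAS.B.Sl
import Pool.Agent.Lib_helper19.NAS.B.Rs
import Pool.Agent.Lib_helper19.NAS.B.V

/-!
# The contradiction (MP_ef4bac_al, project NAS, block S8)
-/

set_option autoImplicit false

namespace Pool.Agent.NAS

open Module Filter Topology

universe u

section linalg

variable {K : Type*} [Field K]

theorem S8_ex_le {U V W : Type*} [AddCommGroup U] [Module K U] [AddCommGroup V] [Module K V]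
    [AddCommGroup W] [Module K W] [Module.Finite K U] [Module.Finite K V] [Module.Finite K W]
    (f : U →ₗ[K] V) (g : V →ₗ[K] W) (h : LinearMap.range f = LinearMap.ker g) :
    finrank K V ≤ finrank K U + finrank K W := by
  have h1 := LinearMap.finrank_range_add_finrank_ker g
  have h2 := LinearMap.finrank_range_le f
  have h3 := Submodule.finrank_le (LinearMap.range g)
  rw [← h] at h1
  omega

theorem S8_four {U V W X : Type*} [AddCommGroup U] [Module K U] [AddCommGroup V] [Module K V]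
    [AddCommGroup W] [Module K W] [AddCommGroup X] [Module K X] [Module.Finite K U]
    [Module.Finite K V] [Module.Finite K W] [Module.Finite K X]
    (f : U →ₗ[K] V) (g : V →ₗ[K] W) (δ : W →ₗ[K] X) (hi : Function.Injective f)
    (h1 : LinearMap.range f = LinearMap.ker g) (h2 : LinearMap.range g = LinearMap.ker δ) :
    finrank K V ≤ finrank K W + finrank K U ∧
      finrank K W + finrank K U ≤ finrank K V + finrank K X := by
  have a1 := LinearMap.finrank_range_add_finrank_ker g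
  have a2 := LinearMap.finrank_range_add_finrank_ker δ
  have a3 := LinearMap.finrank_range_of_inj hi
  have a4 := Submodule.finrank_le (LinearMap.range δ)
  rw [← h1] at a1
  rw [← h2] at a2
  omega

end linalg

section numbers

theorem S8_ev : ∀ᶠ t in 𝓝[<] (1 : ℝ), 0 < t ∧ t < 1 := by
  have h1 : ∀ᶠ t in 𝓝[<] (1 : ℝ), t < 1 := eventually_mem_nhdsWithin
  have h2 : ∀ᶠ t in 𝓝[<] (1 : ℝ), 0 < t :=
    (lt_mem_nhds (zero_lt_one (α := ℝ))).filter_mono nhdsWithin_le_nhds
  exact h2.and h1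

/-- Small real functions. -/
theorem S8_squeeze {φ : ℝ → ℝ} (hφ : ∀ᶠ t in 𝓝[<] (1 : ℝ), 0 < φ t) {m l f x : ℤ → ℕ}
    (hm : Adm m) (hl : Adm l) (hf : Adm f) (hx : Adm x) (h1 : ∀ a, f a ≤ m a + l a)
    (h2 : ∀ a, m a + l a ≤ f a + x a) (hs : Sml φ x) :
    Tendsto (fun t => (HH m t + HH l t - HH f t) / φ t) (𝓝[<] (1 : ℝ)) (𝓝 0) := by
  refine tendsto_of_tendsto_of_tendsto_of_le_of_le' tendsto_const_nhds hs ?_ ?_
  · filter_upwards [hφ, S8_ev] with t ht ht'
    have h3 := N_mono (N_adm_add hm hl) h1 ht'.1 ht'.2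
    rw [N_add hm hl ht'.1 ht'.2] at h3
    exact div_nonneg (by linarith) ht.le
  · filter_upwards [hφ, S8_ev] with t ht ht'
    have h3 := N_mono (N_adm_add hf hx) h2 ht'.1 ht'.2
    rw [N_add hm hl ht'.1 ht'.2, N_add hf hx ht'.1 ht'.2] at h3
    exact div_le_div_of_nonneg_right (by linarith) ht.le

end numbers

variable {K A : Type u} [Field K] [Ring A] [Algebra K A] {𝒜 : ℕ → Submodule K A}
  [GradedAlgebra 𝒜]

theorem S8_V_hil (Q : Ideal A) (h : HI 𝒜 Q) (h2 : TS Q) {G : MC 𝒜} {d : ℕ}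
    (R : Res G (CQ Q h) d) (j : ℕ) (a : ℤ) :
    G.sh (AsA 𝒜) j a = (VV Q h h2 j).hil a := by
  obtain ⟨e⟩ := V_E Q h h2 j a
  obtain ⟨e'⟩ := RS_iso R j a
  exact (e'.symm.trans e).finrank_eq

theorem S8_fre (fin : ∀ n, Module.Finite K (𝒜 n)) (Q : Ideal A) (h : HI 𝒜 Q) (h2 : TS Q)
    {G : MC 𝒜} {d : ℕ} (R : Res G (CQ Q h) d) {r : ℕ} (w : Fin r → ℤ) (i : ℕ) (a : ℤ) :
    G.sh (Fre 𝒜 w) i a = ∑ s, (VV Q h h2 i).hil (a + - w s) := by
  obtain ⟨e⟩ := SH_pi G w (AsA 𝒜) i a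
  have h1 : G.sh (Fre 𝒜 w) i a = finrank K (∀ s, G.SH (AsA 𝒜) i (a - w s)) := e.finrank_eq
  have hA : ∀ n, Module.Finite K ((AsA 𝒜).dg n) := by
    intro n
    exact H_fin fin (AsA 𝒜) (inferInstanceAs (Module.Finite A A)) n
  have : ∀ s, Module.Finite K (G.SH (AsA 𝒜) i (a - w s)) := fun s => SH_fin G _ hA i _
  have : ∀ s, Module.Free K (G.SH (AsA 𝒜) i (a - w s)) := fun s => Module.Free.of_divisionRing K _
  rw [h1, Module.finrank_pi_fintype]
  refine Finset.sum_congr rfl fun s _ => ?_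
  rw [← S8_V_hil Q h h2 R i, ← sub_eq_add_neg]
  rfl

/-- `Ext^i(A/Q, M)` is small for `i ≥ 1`. -/
theorem S8_van {d : ℕ} {φ : ℝ → ℝ} {Q : Ideal A} {h : HI 𝒜 Q} {h2 : TS Q} (C : Ctx d φ Q h h2)
    (hv : ∀ j, 1 ≤ j → Sml φ (VV Q h h2 j).hil) {G : MC 𝒜} (R : Res G (CQ Q h) d) (n : ℕ) :
    ∀ (i : ℕ), 1 ≤ i → d + 1 ≤ i + n → ∀ M : GM 𝒜, Module.Finite A M.X → Sml φ (G.sh M i) := by
  have nl := C.hyp.nl
  have fin := C.hyp.fin
  have grow := C.hyp.grow
  induction n with
  | zero =>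
    intro i _ hi M _
    have h1 : G.sh M i = fun _ => 0 := by
      funext a
      have := SH_van G M i (R.zero i (by omega)) a
      exact Module.finrank_zero_of_subsingleton
    rw [h1]
    exact N_sml_zero φ
  | succ n ih =>
    intro i hi1 hi M hM
    obtain ⟨r, w, f, hf, hs⟩ := cover M hM
    obtain ⟨S⟩ := SES_ker f hf hs
    have hF : Module.Finite A (Fre 𝒜 w).X := inferInstanceAs (Module.Finite A (Fin r → A))
    have hL : Module.Finite A ((Fre 𝒜 w).sub (LinearMap.ker f) (ker_hom hf)).X :=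
      inferInstanceAs (Module.Finite A (LinearMap.ker f))
    have fF := fun a => SH_fin G _ (H_fin fin _ hF) i a
    have fL := fun a => SH_fin G _ (H_fin fin _ hL) (i + 1) a
    have fM := fun a => SH_fin G _ (H_fin fin _ hM) i a
    have aF := SH_adm G _ (H_fin fin _ hF) (H_adm fin grow _ hF) i
    have aL := SH_adm G _ (H_fin fin _ hL) (H_adm fin grow _ hL) (i + 1)
    have sL := ih (i + 1) (by omega) (by omega) _ hL
    have sF : Sml φ (G.sh (Fre 𝒜 w) i) := by
      have h1 : G.sh (Fre 𝒜 w) i = fun a => ∑ s, (VV Q h h2 i).hil (a + - w s) :=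
        funext fun a => S8_fre fin Q h h2 R w i a
      have hA : Module.Finite A (AsA 𝒜).X := inferInstanceAs (Module.Finite A A)
      have h3 : Adm (VV Q h h2 i).hil := by
        have h4 := SH_adm G _ (H_fin fin _ hA) (H_adm fin grow _ hA) i
        have h5 : G.sh (AsA 𝒜) i = (VV Q h h2 i).hil := funext fun a => S8_V_hil Q h h2 R i a
        rwa [h5] at h4
      rw [h1]
      exact N_sml_sum _ (fun s _ => N_adm_shift h3 _) (fun s _ => N_sml_shift _ (hv i hi1))
    refine N_sml_of_le C.pos (N_adm_add aF aL) (fun a => ?_) (N_sml_add aF aL sF sL)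
    obtain ⟨δ, h1, -⟩ := SL_d G S i a
    have := fF a
    have := fL a
    have := fM a
    exact S8_ex_le _ _ h1

/-- The step in the computation of the Euler characteristic. -/
theorem S8_step {d : ℕ} {φ : ℝ → ℝ} {Q : Ideal A} {h : HI 𝒜 Q} {h2 : TS Q} (C : Ctx d φ Q h h2)
    (hv : ∀ j, 1 ≤ j → Sml φ (VV Q h h2 j).hil) {G : MC 𝒜} (R : Res G (CQ Q h) d)
    {L M : GM 𝒜} {r : ℕ} (w : Fin r → ℤ) (hL : Module.Finite A L.X) (hM : Module.Finite A M.X)
    (S : SES L (Fre 𝒜 w) M) :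
    Tendsto (fun t => (HH (G.sh M 0) t + HH (G.sh L 0) t -
      (∑ s, t ^ (w s)) * HH (VV Q h h2 0).hil t) / φ t) (𝓝[<] (1 : ℝ)) (𝓝 0) := by
  have fin := C.hyp.fin
  have grow := C.hyp.grow
  have hF : Module.Finite A (Fre 𝒜 w).X := inferInstanceAs (Module.Finite A (Fin r → A))
  have fF := fun a => SH_fin G _ (H_fin fin _ hF) 0 a
  have fL := fun a => SH_fin G _ (H_fin fin _ hL) 0 a
  have fL1 := fun a => SH_fin G _ (H_fin fin _ hL) 1 a
  have fM := fun a => SH_fin G _ (H_fin fin _ hM) 0 a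
  have aF := SH_adm G _ (H_fin fin _ hF) (H_adm fin grow _ hF) 0
  have aL := SH_adm G _ (H_fin fin _ hL) (H_adm fin grow _ hL) 0
  have aL1 := SH_adm G _ (H_fin fin _ hL) (H_adm fin grow _ hL) 1
  have aM := SH_adm G _ (H_fin fin _ hM) (H_adm fin grow _ hM) 0
  have sL := S8_van C hv R d 1 le_rfl (by omega) L hL
  have key : ∀ a, G.sh (Fre 𝒜 w) 0 a ≤ G.sh M 0 a + G.sh L 0 a ∧
      G.sh M 0 a + G.sh L 0 a ≤ G.sh (Fre 𝒜 w) 0 a + G.sh L 1 a := by
    intro a
    obtain ⟨δ, h1, -⟩ := SL_d G S 0 a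
    have := fF a
    have := fL a
    have := fL1 a
    have := fM a
    exact S8_four _ _ δ (SL_0 G S a) (SL_m G S 0 a) h1
  have h3 := S8_squeeze C.pos aM aL aF aL1 (fun a => (key a).1) (fun a => (key a).2) sL
  refine h3.congr' ?_
  filter_upwards [S8_ev] with t ht
  have hA : Module.Finite A (AsA 𝒜).X := inferInstanceAs (Module.Finite A A)
  have hV : Adm (VV Q h h2 0).hil := by
    have h4 := SH_adm G _ (H_fin fin _ hA) (H_adm fin grow _ hA) 0
    have h5 : G.sh (AsA 𝒜) 0 = (VV Q h h2 0).hil := funext fun a => S8_V_hil Q h h2 R 0 a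
    rwa [h5] at h4
  have h1 : G.sh (Fre 𝒜 w) 0 = fun a => ∑ s, (VV Q h h2 0).hil (a + - w s) :=
    funext fun a => S8_fre fin Q h h2 R w 0 a
  have h6 : HH (G.sh (Fre 𝒜 w) 0) t = (∑ s, t ^ (w s)) * HH (VV Q h h2 0).hil t := by
    rw [h1, N_sum _ (fun s _ => N_adm_shift hV _) ht.1 ht.2, Finset.sum_mul]
    refine Finset.sum_congr rfl fun s _ => ?_
    rw [N_shift _ _ ht.1, neg_neg]
  rw [h6]

/-- The syzygies of a resolution. -/
@[reducible] noncomputable def S8_syz (F : MC 𝒜) (k : ℕ) : GM 𝒜 :=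
  (Fre 𝒜 (F.w k)).sub (LinearMap.range (F.bd k)) (range_hom (F.bd_mem k))

theorem S8_syz_fin (F : MC 𝒜) (k : ℕ) : Module.Finite A (S8_syz F k).X :=
  inferInstanceAs (Module.Finite A (LinearMap.range (F.bd k)))

/-- The first sequence. -/
noncomputable def S8_ses0 {F : MC 𝒜} {M : GM 𝒜} {d : ℕ} (R : Res F M d) :
    SES (S8_syz F 0) (Fre 𝒜 (F.w 0)) M where
  f := (LinearMap.range (F.bd 0)).subtype
  g := R.ε
  hf n x := by rw [add_zero]; rfl
  hg := R.hε
  inj := Submodule.injective_subtype _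
  surj := R.surj
  ex := (Submodule.range_subtype (LinearMap.range (F.bd 0))).trans R.ex0

/-- The other sequences. -/
noncomputable def S8_ses {F : MC 𝒜} {M : GM 𝒜} {d : ℕ} (R : Res F M d) (k : ℕ) :
    SES (S8_syz F (k + 1)) (Fre 𝒜 (F.w (k + 1))) (S8_syz F k) where
  f := (LinearMap.range (F.bd (k + 1))).subtype
  g := (F.bd k).rangeRestrict
  hf n x := by rw [add_zero]; rfl
  hg n x := Subtype.ext (F.bd_mem k n x)
  inj := Submodule.injective_subtype _
  surj := LinearMap.surjective_rangeRestrict _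
  ex := (Submodule.range_subtype (LinearMap.range (F.bd (k + 1)))).trans
    ((R.ex k).trans (LinearMap.ker_rangeRestrict (F.bd k)).symm)

theorem S8_euler {d : ℕ} {φ : ℝ → ℝ} {Q : Ideal A} {h : HI 𝒜 Q} {h2 : TS Q} (C : Ctx d φ Q h h2)
    (hv : ∀ j, 1 ≤ j → Sml φ (VV Q h h2 j).hil) {G : MC 𝒜} (R : Res G (CQ Q h) d)
    {F : MC 𝒜} {M : GM 𝒜} (hM : Module.Finite A M.X) (RF : Res F M d) (n : ℕ) :
    Tendsto (fun t => (HH (G.sh M 0) t -
      (∑ i ∈ Finset.range (n + 1), (-1) ^ i * ∑ s, t ^ (F.w i s)) * HH (VV Q h h2 0).hil t -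
      (-1) ^ (n + 1) * HH (G.sh (S8_syz F n) 0) t) / φ t) (𝓝[<] (1 : ℝ)) (𝓝 0) := by
  induction n with
  | zero =>
    have h1 := S8_step C hv R (F.w 0) (S8_syz_fin F 0) hM (S8_ses0 RF)
    refine h1.congr fun t => ?_
    congr 1
    rw [Finset.sum_range_succ, Finset.sum_range_zero]
    ring
  | succ n ih =>
    have h1 := S8_step C hv R (F.w (n + 1)) (S8_syz_fin F (n + 1)) (S8_syz_fin F n) (S8_ses RF n)
    have h3 := ih.add (h1.const_mul ((-1) ^ (n + 1)))
    rw [mul_zero, add_zero] at h3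
    refine h3.congr fun t => ?_
    rw [Finset.sum_range_succ _ (n + 1), ← mul_div_assoc, ← add_div]
    congr 1
    ring

theorem S8_chi {d : ℕ} {φ : ℝ → ℝ} {Q : Ideal A} {h : HI 𝒜 Q} {h2 : TS Q} (C : Ctx d φ Q h h2)
    (hv : ∀ j, 1 ≤ j → Sml φ (VV Q h h2 j).hil) {G : MC 𝒜} (R : Res G (CQ Q h) d)
    {F : MC 𝒜} {M : GM 𝒜} (hM : Module.Finite A M.X) (RF : Res F M d) :
    Tendsto (fun t => (HH (G.sh M 0) t - F.chi d t * HH (VV Q h h2 0).hil t) / φ t)
      (𝓝[<] (1 : ℝ)) (𝓝 0) := by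
  have h1 := S8_euler C hv R hM RF d
  refine h1.congr fun t => ?_
  have h0 : G.sh (S8_syz F d) 0 = fun _ => 0 := by
    funext a
    have hsub : Subsingleton (S8_syz F d).X := by
      refine ⟨?_⟩
      rintro ⟨_, x, rfl⟩ ⟨_, y, rfl⟩
      refine Subtype.ext ?_
      have hn : F.n (d + 1) = 0 := RF.zero (d + 1) (by omega)
      have : x = y := funext fun s => (Fin.cast hn s).elim0
      rw [this]
    have : Subsingleton (G.SH (S8_syz F d) 0 a) := by
      refine ⟨fun x y => ?_⟩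
      obtain ⟨x, rfl⟩ := Submodule.Quotient.mk_surjective _ x
      obtain ⟨y, rfl⟩ := Submodule.Quotient.mk_surjective _ y
      have : x = y := Subtype.ext (funext fun s => hsub.elim _ _)
      rw [this]
    exact Module.finrank_zero_of_subsingleton
  have h3 : HH (G.sh (S8_syz F d) 0) t = 0 := by
    rw [h0]
    unfold HH
    simp
  rw [h3, mul_zero, sub_zero]
  rfl

/-- The map which evaluates cocycles. -/
def S8_ev' {G : MC 𝒜} (M : GM 𝒜) (y : Fin (G.n 0) → A) : (Fin (G.n 0) → M.X) →ₗ[K] M.X where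
  toFun m := ∑ t, y t • m t
  map_add' m m' := by
    simp [Finset.sum_add_distrib]
  map_smul' c m := by
    simp only [Pi.smul_apply, RingHom.id_apply, Finset.smul_sum]
    exact Finset.sum_congr rfl fun t _ => smul_comm _ _ _

theorem S8_single {r : ℕ} (w : Fin r → ℤ) (t : Fin r) :
    (Pi.single t (1 : A) : Fin r → A) ∈ (Fre 𝒜 w).dg (w t) := by
  rw [GM.mem_dg]
  funext s
  rw [GM.pi_pr]
  by_cases hs : s = t
  · subst hs
    rw [Pi.single_eq_same, sub_self]
    exact prA_of_mem one_mem_hA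
  · rw [Pi.single_eq_of_ne hs]
    exact map_zero _

theorem S8_sum {r : ℕ} {N : Type*} [AddCommGroup N] [Module A N] (f : (Fin r → A) →ₗ[A] N)
    (y : Fin r → A) : f y = ∑ t, y t • f (Pi.single t 1) := by
  have h1 : y = ∑ t, y t • (Pi.single t (1 : A) : Fin r → A) := by
    funext s
    rw [Finset.sum_apply, Finset.sum_eq_single s]
    · simp
    · intro t _ hts
      simp [Pi.single_eq_of_ne (Ne.symm hts)]
    · simp
  conv_lhs => rw [h1]
  rw [map_sum]
  exact Finset.sum_congr rfl fun t _ => map_smul _ _ _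

theorem S8_zero {Q : Ideal A} {h : HI 𝒜 Q} (h2 : TS Q) {G : MC 𝒜} {d : ℕ}
    (R : Res G (CQ Q h) d) (a : ℤ) (hf : Module.Finite K (G.SH (CQ Q h) 0 a)) :
    (CQ Q h).hil a ≤ G.sh (CQ Q h) 0 a := by
  obtain ⟨y, hy⟩ := R.surj (Submodule.Quotient.mk 1)
  let L : G.SH (CQ Q h) 0 a →ₗ[K] (CQ Q h).X :=
    Submodule.liftQ _ ((S8_ev' (CQ Q h) y) ∘ₗ (G.Zc (CQ Q h) 0 a).subtype) (by
      intro x hx
      have h3 : (x : Fin (G.n 0) → (CQ Q h).X) = 0 := (Submodule.mem_bot K).1 hx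
      rw [LinearMap.mem_ker, LinearMap.comp_apply, Submodule.subtype_apply, h3, map_zero])
  have hle : (CQ Q h).dg a ≤ LinearMap.range L := by
    intro x hx
    obtain ⟨c, hc⟩ := Submodule.Quotient.mk_surjective Q x
    have hx1 : (CQ Q h).pr a x = x := GM.pr_dg hx
    have hx2 : (Submodule.Quotient.mk (prA 𝒜 a c) : A ⧸ Q) = x := by
      rw [← hx1, ← hc]
      rfl
    set c' := prA 𝒜 a c with hc'
    have hcm : c' ∈ hA 𝒜 a := prA_mem a c
    let z : Fin (G.n 0) → (CQ Q h).X := fun t => rho Q h2 c' (R.ε (Pi.single t 1))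
    have hz : z ∈ G.Zc (CQ Q h) 0 a := by
      refine ⟨fun t _ => ?_, ?_⟩
      · have h3 : R.ε (Pi.single t 1) ∈ (CQ Q h).dg (G.w 0 t + 0) :=
          Hm_dg R.hε (S8_single (G.w 0) t)
        rw [add_zero] at h3
        exact Hm_dg (rho_mem Q h h2 hcm) h3
      · show G.cod (CQ Q h) 0 z = 0
        funext s
        rw [MC.cod_apply]
        have h3 : R.ε (G.bd 0 (Pi.single s 1)) = 0 := by
          have h4 : G.bd 0 (Pi.single s 1) ∈ LinearMap.ker R.ε := by
            rw [← R.ex0]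
            exact ⟨_, rfl⟩
          exact h4
        have h5 : G.bd 0 (Pi.single s 1) = fun t => G.D 1 0 s t := by
          funext t
          show ∑ s', (Pi.single s (1 : A) : Fin (G.n 1) → A) s' * G.D 1 0 s' t = _
          rw [Finset.sum_eq_single s]
          · rw [Pi.single_eq_same, one_mul]
          · intro s' _ hs'
            rw [Pi.single_eq_of_ne hs', zero_mul]
          · simp
        have h6 := congrArg (rho Q h2 c') h3
        rw [h5, S8_sum R.ε, map_sum, map_zero] at h6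
        simp only [map_smul] at h6
        exact h6
    refine ⟨Submodule.Quotient.mk ⟨z, hz⟩, ?_⟩
    show ∑ t, y t • rho Q h2 c' (R.ε (Pi.single t 1)) = x
    have h6 := congrArg (rho Q h2 c') (S8_sum R.ε y)
    rw [map_sum, hy, rho_mk, one_mul, hx2] at h6
    simp only [map_smul] at h6
    exact h6.symm
  have h3 := Submodule.finrank_mono hle
  exact h3.trans (LinearMap.finrank_range_le L)

theorem S8 {d : ℕ} {φ : ℝ → ℝ} {Q : Ideal A} {h : HI 𝒜 Q} {h2 : TS Q} (C : Ctx d φ Q h h2)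
    (hv : ∀ j, 1 ≤ j → Sml φ (VV Q h h2 j).hil) : False := by
  have fin := C.hyp.fin
  have grow := C.hyp.grow
  have nl := C.hyp.nl
  have hC : Module.Finite A (CQ Q h).X := inferInstanceAs (Module.Finite A (A ⧸ Q))
  have hA : Module.Finite A (AsA 𝒜).X := inferInstanceAs (Module.Finite A A)
  have hV : Module.Finite A (VV Q h h2 0).X :=
    inferInstanceAs (Module.Finite A (Gam Q h2 (AsA 𝒜)))
  obtain ⟨G, ⟨R⟩⟩ := C.hyp.res _ hC
  -- the Euler characteristic tends to zero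
  have hA0 : (AsA 𝒜).hil 0 ≠ 0 := by
    have h1 : Module.Finite K ((AsA 𝒜).dg 0) := H_fin fin _ hA 0
    have h3 : (1 : A) ∈ (AsA 𝒜).dg 0 := prA_dg.2 one_mem_hA
    have h4 : Nontrivial ((AsA 𝒜).dg 0) :=
      ⟨⟨⟨1, h3⟩, 0, fun hh => C.hyp.nt (congrArg Subtype.val hh)⟩⟩
    exact (Module.finrank_pos (R := K) (M := (AsA 𝒜).dg 0)).ne'
  have aA := H_adm fin grow _ hA
  have hchi : Tendsto (fun t => G.chi d t) (𝓝[<] (1 : ℝ)) (𝓝 0) := by
    obtain ⟨B, hB⟩ := C.bdd
    have h1 := C.ord.const_mul B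
    rw [mul_zero] at h1
    refine tendsto_of_tendsto_of_tendsto_of_le_of_le' tendsto_const_nhds h1 ?_ ?_
    · filter_upwards [S8_ev] with t ht
      have h3 := H_res fin grow R ht.1 ht.2
      have h4 := N_pos aA hA0 ht.1 ht.2
      have h5 := N_nonneg (CQ Q h).hil ht.1
      rw [h3] at h5
      exact nonneg_of_mul_nonneg_left h5 h4
    · filter_upwards [S8_ev, hB] with t ht hB
      have h3 := H_res fin grow R ht.1 ht.2
      have h4 := N_pos aA hA0 ht.1 ht.2
      rw [h3] at hB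
      rw [← mul_div_assoc, le_div_iff₀ h4]
      exact hB
  -- the module `V_0` is bounded
  have bV : Bdd φ (VV Q h h2 0).hil := RG_bdd C _ hV (V_kil Q h h2 0)
  have hprod : Tendsto (fun t => G.chi d t * HH (VV Q h h2 0).hil t / φ t)
      (𝓝[<] (1 : ℝ)) (𝓝 0) := by
    obtain ⟨B, hB⟩ := bV
    have h1 := hchi.mul_const B
    rw [zero_mul] at h1
    refine tendsto_of_tendsto_of_tendsto_of_le_of_le' tendsto_const_nhds h1 ?_ ?_
    · filter_upwards [S8_ev, C.pos] with t ht hp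
      have h3 := H_res fin grow R ht.1 ht.2
      have h4 := N_pos aA hA0 ht.1 ht.2
      have h5 := N_nonneg (CQ Q h).hil ht.1
      rw [h3] at h5
      exact div_nonneg (mul_nonneg (nonneg_of_mul_nonneg_left h5 h4) (N_nonneg _ ht.1)) hp.le
    · filter_upwards [S8_ev, C.pos, hB] with t ht hp hB
      have h3 := H_res fin grow R ht.1 ht.2
      have h4 := N_pos aA hA0 ht.1 ht.2
      have h5 := N_nonneg (CQ Q h).hil ht.1
      rw [h3] at h5
      rw [div_le_iff₀ hp, mul_assoc]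
      exact mul_le_mul_of_nonneg_left hB (nonneg_of_mul_nonneg_left h5 h4)
  have hS := (S8_chi C hv R hC R).add hprod
  rw [add_zero] at hS
  have hS' : Sml φ (G.sh (CQ Q h) 0) := by
    refine hS.congr fun t => ?_
    rw [← add_div]
    congr 1
    ring
  have sC : Sml φ (CQ Q h).hil :=
    N_sml_of_le C.pos (SH_adm G _ (H_fin fin _ hC) (H_adm fin grow _ hC) 0)
      (fun a => S8_zero h2 R a (SH_fin G _ (H_fin fin _ hC) 0 a)) hS'
  have htop : (CQ Q h).Hom ⊤ := fun n x _ => Submodule.mem_top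
  refine C.big ⊤ htop ?_ ?_
  · intro hh
    apply C.one
    have h1 : (Submodule.Quotient.mk (1 : A) : A ⧸ Q) ∈ (⊤ : Submodule A (CQ Q h).X) :=
      Submodule.mem_top
    rw [hh] at h1
    exact (Submodule.Quotient.mk_eq_zero Q).1 h1
  · have h1 : ((CQ Q h).sub ⊤ htop).hil = (CQ Q h).hil := by
      funext a
      obtain ⟨e⟩ := dg_congr (M := (CQ Q h).sub ⊤ htop) (N := CQ Q h) Submodule.topEquiv
        (fun n x => by rw [add_zero]; rfl) a
      exact e.finrank_eq
    rw [h1]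
    exact sC

end Pool.Agent.NAS
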