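import Pool.Agent.Lib_helper19.NAS.Defs3
import Pool.Agent.Lib_helper19.NAS.B.Hil
import Pool.Agent.Lib_helper19.NAS.B.Go
import Pool.Agent.Lib_helper19.NAS.B.S0

/-!
# The prime ideal Q (MP_ef4bac_al, project NAS, block Tq)
-/

set_option autoImplicit false

namespace Pool.Agent.NAS

open Module Filter Topology

universe u

section general

variable {K A : Type u} [Field K] [Ring A] [Algebra K A] {𝒜 : ℕ → Submodule K A}

theorem Tq_surj {L M : GM 𝒜} {e : ℤ} (f : L.X →ₗ[A] M.X) (hf : f ∈ Hm L M e)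
    (hs : Function.Surjective f) (n : ℤ) (hL : Module.Finite K (L.dg n)) :
    M.hil (n + e) ≤ L.hil n := by
  have h1 : ∀ x ∈ L.dg n, f x ∈ M.dg (n + e) := fun x hx => Hm_dg hf hx
  have h2 : Function.Surjective ((f.restrictScalars K).restrict h1) := by
    rintro ⟨y, hy⟩
    obtain ⟨x, hx⟩ := hs y
    refine ⟨⟨L.pr n x, L.pr_mem n x⟩, Subtype.ext ?_⟩
    show f (L.pr n x) = y
    rw [hf, hx, GM.pr_dg hy]
  exact LinearMap.finrank_le_finrank_of_surjective h2

theorem Tq_inj {L M : GM 𝒜} {e : ℤ} (f : L.X →ₗ[A] M.X) (hf : f ∈ Hm L M e)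
    (hi : Function.Injective f) (n : ℤ) (hM : Module.Finite K (M.dg (n + e))) :
    L.hil n ≤ M.hil (n + e) := by
  have h1 : ∀ x ∈ L.dg n, f x ∈ M.dg (n + e) := fun x hx => Hm_dg hf hx
  have h2 : Function.Injective ((f.restrictScalars K).restrict h1) := by
    intro x y hxy
    apply Subtype.ext
    apply hi
    exact congrArg Subtype.val hxy
  exact LinearMap.finrank_le_finrank_of_injective h2

theorem Tq_map_hom {M N : GM 𝒜} {e : ℤ} (g : M.X →ₗ[A] N.X) (hg : g ∈ Hm M N e)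
    {L : Submodule A M.X} (hL : M.Hom L) : N.Hom (L.map g) := by
  rintro n _ ⟨x, hx, rfl⟩
  refine ⟨M.pr (n - e) x, hL _ x hx, ?_⟩
  rw [hg, sub_add_cancel]

theorem Tq_map {M N : GM 𝒜} {e : ℤ} (g : M.X →ₗ[A] N.X) (hg : g ∈ Hm M N e)
    {L : Submodule A M.X} (hL : M.Hom L) (hh : N.Hom (L.map g)) (n : ℤ)
    (hf : Module.Finite K ((M.sub L hL).dg n)) :
    (N.sub (L.map g) hh).hil (n + e) ≤ (M.sub L hL).hil n := by
  let f : (M.sub L hL).X →ₗ[A] (N.sub (L.map g) hh).X :=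
    (g.restrict (p := L) (q := L.map g) (fun x hx => ⟨x, hx, rfl⟩))
  refine Tq_surj f ?_ ?_ n hf
  · intro m x
    exact Subtype.ext (hg m x.1)
  · rintro ⟨_, x, hx, rfl⟩
    exact ⟨⟨x, hx⟩, rfl⟩

end general

variable {K A : Type u} [Field K] [Ring A] [Algebra K A] {𝒜 : ℕ → Submodule K A}
  [GradedAlgebra 𝒜]

theorem Tq_mul_hm {a : A} {e : ℤ} (ha : a ∈ hA 𝒜 e) :
    LinearMap.toSpanSingleton A A a ∈ Hm (AsA 𝒜) (AsA 𝒜) e := by
  refine mem_Hm_of_dg fun n x hx => ?_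
  have h1 : x ∈ hA 𝒜 n := prA_dg.1 hx
  exact prA_dg.2 (hA_mul h1 ha)

/-- The map `A/Q → A` given by `t` with `Q t = 0`. -/
def Tq_psi (Q : Ideal A) (t : A) (ht : ∀ q ∈ Q, q * t = 0) : (A ⧸ Q) →ₗ[A] A :=
  Q.liftQ (LinearMap.toSpanSingleton A A t) (fun q hq => ht q hq)

theorem Tq_psi_mk (Q : Ideal A) (t : A) (ht : ∀ q ∈ Q, q * t = 0) (c : A) :
    Tq_psi Q t ht (Submodule.Quotient.mk c) = c * t := rfl

theorem Tq_psi_hm (Q : Ideal A) (h : HI 𝒜 Q) (t : A) (ht : ∀ q ∈ Q, q * t = 0) {e : ℤ}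
    (hte : t ∈ hA 𝒜 e) : Tq_psi Q t ht ∈ Hm (CQ Q h) (AsA 𝒜) e := by
  intro n x
  obtain ⟨c, rfl⟩ := Submodule.Quotient.mk_surjective Q x
  exact Tq_mul_hm hte n c

/-- Homogeneous generators on the right. -/
theorem Tq_gens [IsNoetherian Aᵐᵒᵖ A] (T : Ideal A) (hT : HI 𝒜 T) (h2 : TS T) :
    ∃ (k : ℕ) (e : Fin k → ℤ) (t : Fin k → A), (∀ j, t j ∈ T) ∧ (∀ j, t j ∈ hA 𝒜 (e j)) ∧
      ∀ c : A, (∀ j, c * t j = 0) → ∀ x ∈ T, c * x = 0 := by
  classical
  let Tr : Submodule Aᵐᵒᵖ A :=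
    { carrier := T
      add_mem' := T.add_mem
      zero_mem' := T.zero_mem
      smul_mem' := fun c x hx => h2 x hx c.unop }
  obtain ⟨S, hS⟩ := IsNoetherian.noetherian (R := Aᵐᵒᵖ) Tr
  choose s hs using (AsA 𝒜).pr_sum
  let S' : Finset (ℤ × A) := S.biUnion fun x => (s x).image fun n => (n, x)
  have hST : ∀ x ∈ S, x ∈ T := by
    intro x hx
    have : x ∈ Tr := by
      rw [← hS]
      exact Submodule.subset_span hx
    exact this
  refine ⟨S'.card, fun i => (S'.equivFin.symm i : ℤ × A).1,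
    fun i => prA 𝒜 (S'.equivFin.symm i : ℤ × A).1 (S'.equivFin.symm i : ℤ × A).2, ?_, ?_, ?_⟩
  · intro j
    have h1 := (S'.equivFin.symm j).2
    obtain ⟨x, hx, hx2⟩ := Finset.mem_biUnion.1 h1
    obtain ⟨n, _, hn⟩ := Finset.mem_image.1 hx2
    have h3 : (S'.equivFin.symm j : ℤ × A).2 = x := by rw [← hn]
    show prA 𝒜 (S'.equivFin.symm j : ℤ × A).1 (S'.equivFin.symm j : ℤ × A).2 ∈ T
    rw [h3]
    exact hT _ x (hST x hx)
  · intro j
    exact prA_mem _ _
  · intro c hc x hx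
    have h1 : ∀ x ∈ S, c * x = 0 := by
      intro x hx
      have h3 : ∑ n ∈ s x, prA 𝒜 n x = x := hs x
      rw [← h3, Finset.mul_sum]
      refine Finset.sum_eq_zero fun n hn => ?_
      have h4 : (n, x) ∈ S' :=
        Finset.mem_biUnion.2 ⟨x, hx, Finset.mem_image.2 ⟨n, hn, rfl⟩⟩
      have h5 := hc (S'.equivFin ⟨_, h4⟩)
      simpa using h5
    have h3 : x ∈ Submodule.span Aᵐᵒᵖ (S : Set A) := by
      rw [hS]
      exact hx
    clear hx
    induction h3 using Submodule.span_induction with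
    | mem x hx => exact h1 x hx
    | zero => exact mul_zero c
    | add x y _ _ hx' hy' => rw [mul_add, hx', hy', add_zero]
    | smul a x _ ih =>
      have h4 : c * (a • x) = (c * x) * a.unop := by
        show c * (x * a.unop) = _
        rw [mul_assoc]
      rw [h4, ih, zero_mul]

/-- The left annihilator of a two-sided ideal. -/
def Tq_lann (T : Ideal A) : Ideal A where
  carrier := {a | ∀ x ∈ T, a * x = 0}
  add_mem' := by
    intro a b ha hb x hx
    rw [add_mul, ha x hx, hb x hx, add_zero]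
  zero_mem' := fun x _ => zero_mul x
  smul_mem' := by
    intro c a ha x hx
    rw [smul_eq_mul, mul_assoc, ha x hx, mul_zero]

theorem Tq_mem_lann {T : Ideal A} {a : A} : a ∈ Tq_lann T ↔ ∀ x ∈ T, a * x = 0 := Iff.rfl

theorem Tq_lann_ts (T : Ideal A) : TS (Tq_lann T) := by
  intro a ha b x hx
  rw [mul_assoc]
  exact ha _ (T.mul_mem_left b hx)

theorem Tq_lann_hi (T : Ideal A) (hT : HI 𝒜 T) : HI 𝒜 (Tq_lann T) := by
  intro n a ha x hx
  -- homogeneous components of `x`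
  obtain ⟨s, hs⟩ := (AsA 𝒜).pr_sum x
  have h3 : ∑ m ∈ s, prA 𝒜 m x = x := hs
  show prA 𝒜 n a * x = 0
  rw [← h3, Finset.mul_sum]
  refine Finset.sum_eq_zero fun m _ => ?_
  have h4 : a * prA 𝒜 m x = 0 := ha _ (hT m x hx)
  have h5 := Tq_mul_hm (prA_mem (𝒜 := 𝒜) m x) n a
  have h6 : prA 𝒜 n a * prA 𝒜 m x = prA 𝒜 (n + m) (a * prA 𝒜 m x) := h5
  rw [h6, h4, map_zero]

theorem TQ {d : ℕ} (H : Hyp 𝒜 d) (φ : ℝ → ℝ) (pos : ∀ᶠ t in 𝓝[<] (1 : ℝ), 0 < φ t)
    (ord : Tendsto (fun t => φ t / HH (AsA 𝒜).hil t) (𝓝[<] (1 : ℝ)) (𝓝 0))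
    (big : ∀ (N : Ideal A) (hN : HI 𝒜 N), N ≠ ⊥ → ¬ Sml φ ((AsA 𝒜).sub N hN).hil)
    (N : Ideal A) (hN : HI 𝒜 N) (hne : N ≠ ⊥) (hb : Bdd φ ((AsA 𝒜).sub N hN).hil) :
    ∃ (Q : Ideal A) (h : HI 𝒜 Q) (h2 : TS Q), Ctx d φ Q h h2 := by
  classical
  have hfin := H.fin
  have hnl := H.nl
  have hnr : IsNoetherian Aᵐᵒᵖ A := Go_noeth_op H.nr
  have hfinN : ∀ (N : Ideal A) (hN : HI 𝒜 N), Module.Finite A ((AsA 𝒜).sub N hN).X := by
    intro N hN
    exact inferInstanceAs (Module.Finite A N)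
  have hadm : ∀ (N : Ideal A) (hN : HI 𝒜 N), Adm ((AsA 𝒜).sub N hN).hil := fun N hN =>
    H_adm H.fin H.grow _ (hfinN N hN)
  have hfd : ∀ (N : Ideal A) (hN : HI 𝒜 N) (n : ℤ), Module.Finite K (((AsA 𝒜).sub N hN).dg n) :=
    fun N hN n => H_fin H.fin _ (hfinN N hN) n
  -- a maximal bounded left ideal
  let S : Set (Ideal A) := {J | ∃ hJ : HI 𝒜 J, Bdd φ ((AsA 𝒜).sub J hJ).hil}
  obtain ⟨T, hTS, hTmax⟩ := (wellFounded_gt (α := Ideal A)).has_min S ⟨N, hN, hb⟩
  obtain ⟨hT, hTb⟩ := hTS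
  have hTle : ∀ J ∈ S, J ≤ T := by
    rintro J ⟨hJ, hJb⟩
    have h1 : T ⊔ J ∈ S := by
      refine ⟨Hom_sup hT hJ, N_bdd_of_le (N_adm_add (hadm T hT) (hadm J hJ)) ?_
        (N_bdd_add (hadm T hT) (hadm J hJ) hTb hJb)⟩
      intro a
      rcases lt_or_ge a 0 with ha | ha
      · rw [S0_neg (T ⊔ J) (Hom_sup hT hJ) ha]
        exact Nat.zero_le _
      · lift a to ℕ using ha
        rw [S0_hil (T ⊔ J) (Hom_sup hT hJ), S0_hil, S0_hil]
        have := FLG.hd_sup_add_inf 𝒜 (S0_HI.1 hT) (S0_HI.1 hJ) a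
        omega
    have h2 : T = T ⊔ J := by
      by_contra hne
      exact hTmax _ h1 (lt_of_le_of_ne le_sup_left hne)
    rw [h2]
    exact le_sup_right
  have hTne : T ≠ ⊥ := by
    intro h
    have h1 := hTle N ⟨hN, hb⟩
    rw [h] at h1
    exact hne (le_bot_iff.1 h1)
  have hTts : TS T := by
    have key : ∀ (n : ℤ) (a : A), a ∈ hA 𝒜 n → ∀ x ∈ T, x * a ∈ T := by
      intro n a ha x hx
      have hg := Tq_mul_hm ha
      have hh := Tq_map_hom _ hg hT
      have h1 : Submodule.map (LinearMap.toSpanSingleton A A a) T ∈ S := by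
        refine ⟨hh, N_bdd_of_le (N_adm_shift (hadm T hT) (-n)) ?_ (N_bdd_shift (-n) hTb)⟩
        intro b
        have := Tq_map _ hg hT hh (b + -n) (hfd T hT _)
        rwa [neg_add_cancel_right] at this
      exact hTle _ h1 ⟨x, hx, rfl⟩
    intro x hx a
    refine GM.induct (M := AsA 𝒜) (P := fun a => x * a ∈ T) a ?_ ?_ ?_
    · show x * (0 : A) ∈ T
      rw [mul_zero]
      exact T.zero_mem
    · intro a b ha hb
      show x * (a + b) ∈ T
      rw [mul_add]
      exact T.add_mem ha hb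
    · intro n a ha
      exact key n a (prA_dg.1 ha) x hx
  -- two-sided ideals in `T`
  let F : Ideal A → Prop := fun J => HI 𝒜 J ∧ TS J ∧ J ≤ T ∧ J ≠ ⊥
  let L : Set (Ideal A) := {q | ∃ J, F J ∧ q = Tq_lann J}
  obtain ⟨Q, hQL, hQmax⟩ := (wellFounded_gt (α := Ideal A)).has_min L
    ⟨_, T, ⟨hT, hTts, le_rfl, hTne⟩, rfl⟩
  obtain ⟨J, ⟨hJ, hJts, hJT, hJne⟩, rfl⟩ := hQL
  have hQ : HI 𝒜 (Tq_lann J) := Tq_lann_hi J hJ
  have hQts : TS (Tq_lann J) := Tq_lann_ts J
  have hJb : Bdd φ ((AsA 𝒜).sub J hJ).hil := by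
    refine N_bdd_of_le (hadm T hT) ?_ hTb
    intro a
    rcases lt_or_ge a 0 with ha | ha
    · rw [S0_neg _ _ ha]
      exact Nat.zero_le _
    · lift a to ℕ using ha
      rw [S0_hil, S0_hil]
      exact FLG.hd_mono 𝒜 hJT a
  obtain ⟨k, e, t, htJ, hte, htz⟩ := Tq_gens J hJ hJts
  have hQt : ∀ j, ∀ q ∈ Tq_lann J, q * t j = 0 := fun j q hq => hq _ (htJ j)
  -- the embedding of `A/Q` in a sum of copies of `J`
  have hinj : ∀ x : A ⧸ Tq_lann J, (∀ j, Tq_psi (Tq_lann J) (t j) (hQt j) x = 0) → x = 0 := by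
    intro x hx
    obtain ⟨c, rfl⟩ := Submodule.Quotient.mk_surjective _ x
    rw [Submodule.Quotient.mk_eq_zero]
    exact htz c hx
  have hfinC : Module.Finite A (CQ (Tq_lann J) hQ).X :=
    inferInstanceAs (Module.Finite A (A ⧸ Tq_lann J))
  refine ⟨Tq_lann J, hQ, hQts, ⟨H, pos, ord, ?_, ?_, ?_, ?_, ?_⟩⟩
  · -- one
    intro h1
    apply hJne
    rw [eq_bot_iff]
    intro x hx
    have := h1 x hx
    rwa [one_mul] at this
  · -- prime
    intro m n a b ha hb hab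
    by_contra hcon
    push Not at hcon
    obtain ⟨haQ, hbQ⟩ := hcon
    have hb' : b ∈ hA 𝒜 (n : ℤ) := by rw [hA_nat]; exact hb
    let J2 : Ideal A := Submodule.span A {y | ∃ x ∈ J, ∃ l : ℤ, x ∈ hA 𝒜 l ∧ y = b * x}
    have hJ2 : HI 𝒜 J2 := by
      apply Hom_span (M := AsA 𝒜)
      rintro _ ⟨x, hx, l, hl, rfl⟩
      exact ⟨(n : ℤ) + l, prA_dg.2 (hA_mul hb' hl)⟩
    have hJ2J : J2 ≤ J := by
      refine Submodule.span_le.2 ?_
      rintro _ ⟨x, hx, l, hl, rfl⟩
      exact J.mul_mem_left b hx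
    have hbx : ∀ x ∈ J, b * x ∈ J2 := by
      intro x hx
      obtain ⟨s, hs⟩ := (AsA 𝒜).pr_sum x
      have h3 : ∑ m ∈ s, prA 𝒜 m x = x := hs
      rw [← h3, Finset.mul_sum]
      exact J2.sum_mem fun m _ => Submodule.subset_span ⟨_, hJ m x hx, m, prA_mem m x, rfl⟩
    have hJ2ts : TS J2 := by
      intro y hy c
      induction hy using Submodule.span_induction with
      | mem y hy =>
        obtain ⟨x, hx, l, hl, rfl⟩ := hy
        rw [mul_assoc]
        exact hbx _ (hJts x hx c)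
      | zero => rw [zero_mul]; exact zero_mem _
      | add y z _ _ hy hz => rw [add_mul]; exact add_mem hy hz
      | smul r y _ ih =>
        rw [smul_eq_mul, mul_assoc]
        exact J2.mul_mem_left r ih
    have hJ2ne : J2 ≠ ⊥ := by
      intro h
      apply hbQ
      intro x hx
      have := hbx x hx
      rw [h] at this
      exact (Submodule.mem_bot A).1 this
    have hle : Tq_lann J ≤ Tq_lann J2 := fun q hq x hx => hq x (hJ2J hx)
    have heq : Tq_lann J = Tq_lann J2 := by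
      by_contra hne
      exact hQmax _ ⟨J2, ⟨hJ2, hJ2ts, hJ2J.trans hJT, hJ2ne⟩, rfl⟩ (lt_of_le_of_ne hle hne)
    apply haQ
    rw [heq]
    intro y hy
    have key : ∀ c : A, a * (c * y) = 0 := by
      induction hy using Submodule.span_induction with
      | mem y hy =>
        obtain ⟨x, hx, l, hl, rfl⟩ := hy
        intro c
        have h1 : a * (c * (b * x)) = (a * c * b) * x := by simp only [mul_assoc]
        rw [h1]
        exact hab c x hx
      | zero => intro c; rw [mul_zero, mul_zero]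
      | add y z _ _ hy hz => intro c; rw [mul_add, mul_add, hy, hz, add_zero]
      | smul r y _ ih =>
        intro c
        rw [smul_eq_mul, ← mul_assoc c r y]
        exact ih (c * r)
    have := key 1
    rwa [one_mul] at this
  · -- bounded
    let w : Fin k → ℤ := fun j => -(e j)
    let f : (CQ (Tq_lann J) hQ).X →ₗ[A] (GM.pi w ((AsA 𝒜).sub J hJ)).X :=
      LinearMap.pi fun j => (Tq_psi (Tq_lann J) (t j) (hQt j)).codRestrict J (fun x => by
        obtain ⟨c, rfl⟩ := Submodule.Quotient.mk_surjective _ x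
        exact J.mul_mem_left c (htJ j))
    have hf : f ∈ Hm (CQ (Tq_lann J) hQ) (GM.pi w ((AsA 𝒜).sub J hJ)) 0 := by
      intro n x
      funext j
      apply Subtype.ext
      have h1 := Tq_psi_hm (Tq_lann J) hQ (t j) (hQt j) (hte j) n x
      have h3 : n + 0 - w j = n + e j := by
        show n + 0 - -(e j) = n + e j
        ring
      show Tq_psi (Tq_lann J) (t j) (hQt j) ((CQ (Tq_lann J) hQ).pr n x)
        = (AsA 𝒜).pr (n + 0 - w j) (Tq_psi (Tq_lann J) (t j) (hQt j) x)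
      rw [h3]
      exact h1
    have hfi : Function.Injective f := by
      rw [← LinearMap.ker_eq_bot, LinearMap.ker_eq_bot']
      intro x hx
      apply hinj
      intro j
      exact congrArg Subtype.val (congrFun hx j)
    have hpfin := H_pi_fin w ((AsA 𝒜).sub J hJ) (hfd J hJ)
    refine N_bdd_of_le (N_adm_sum Finset.univ (f := fun j a => ((AsA 𝒜).sub J hJ).hil (a + e j))
      (fun j _ => N_adm_shift (hadm J hJ) (e j))) ?_
      (N_bdd_sum Finset.univ (fun j _ => N_adm_shift (hadm J hJ) (e j))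
        (fun j _ => N_bdd_shift (e j) hJb))
    intro a
    have h1 := Tq_inj f hf hfi a (hpfin _)
    rw [add_zero, H_pi w ((AsA 𝒜).sub J hJ) (hfd J hJ)] at h1
    refine h1.trans (le_of_eq (Finset.sum_congr rfl fun j _ => ?_))
    congr 1
    show a - -(e j) = a + e j
    ring
  · -- big
    intro M hM hMne hsm
    obtain ⟨x, hxM, hx0⟩ := Submodule.exists_mem_ne_zero_of_ne_bot hMne
    have h1 : ∃ j, Tq_psi (Tq_lann J) (t j) (hQt j) x ≠ 0 := by
      by_contra hcon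
      push Not at hcon
      exact hx0 (hinj x hcon)
    obtain ⟨j, hj⟩ := h1
    have hg := Tq_psi_hm (Tq_lann J) hQ (t j) (hQt j) (hte j)
    have hh := Tq_map_hom _ hg hM
    have h2 : M.map (Tq_psi (Tq_lann J) (t j) (hQt j)) ≠ ⊥ := by
      intro h
      have h3 : Tq_psi (Tq_lann J) (t j) (hQt j) x ∈ M.map (Tq_psi (Tq_lann J) (t j) (hQt j)) :=
        ⟨x, hxM, rfl⟩
      rw [h] at h3
      exact hj ((Submodule.mem_bot A).1 h3)
    have hfinM : Module.Finite A ((CQ (Tq_lann J) hQ).sub M hM).X := by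
      have : IsNoetherian A (A ⧸ Tq_lann J) := inferInstance
      exact inferInstanceAs (Module.Finite A M)
    refine big _ hh h2 (N_sml_of_le pos
      (g := fun a => ((CQ (Tq_lann J) hQ).sub M hM).hil (a + -(e j)))
      (N_adm_shift (H_adm H.fin H.grow _ hfinM) _) ?_ (N_sml_shift _ hsm))
    intro b
    have := Tq_map _ hg hM hh (b + -(e j)) (H_fin H.fin _ hfinM _)
    rwa [neg_add_cancel_right] at this
  · -- the embedding
    let w : Fin k → ℤ := fun j => -(e j)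
    let f : (CQ (Tq_lann J) hQ).X →ₗ[A] (GM.pi w (VV (Tq_lann J) hQ hQts 0)).X :=
      LinearMap.pi fun j => (Tq_psi (Tq_lann J) (t j) (hQt j)).codRestrict
        (Gam (Tq_lann J) hQts (AsA 𝒜)) (fun x => by
        obtain ⟨c, rfl⟩ := Submodule.Quotient.mk_surjective _ x
        intro q hq
        show q * (c * t j) = 0
        rw [← mul_assoc]
        exact hQt j _ (hQts q hq c))
    refine ⟨k, w, f, ?_, ?_⟩
    · intro n x
      funext j
      apply Subtype.ext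
      have h1 := Tq_psi_hm (Tq_lann J) hQ (t j) (hQt j) (hte j) n x
      have h3 : n + 0 - w j = n + e j := by
        show n + 0 - -(e j) = n + e j
        ring
      show Tq_psi (Tq_lann J) (t j) (hQt j) ((CQ (Tq_lann J) hQ).pr n x)
        = (AsA 𝒜).pr (n + 0 - w j) (Tq_psi (Tq_lann J) (t j) (hQt j) x)
      rw [h3]
      exact h1
    · rw [← LinearMap.ker_eq_bot, LinearMap.ker_eq_bot']
      intro x hx
      apply hinj
      intro j
      exact congrArg Subtype.val (congrFun hx j)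

end Pool.Agent.NAS
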